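import Mathlib

/-!
# Right-angled Coxeter groups: basics

`RACG Γ` is the right-angled Coxeter group of a simple graph `Γ`: generators are the
vertices, they are involutions, and adjacent vertices commute.
-/

set_option autoImplicit false

namespace Pool.Agent.H41.VS

open Function

/-- relations of the right-angled Coxeter group of `Γ` -/
def racgRels {V : Type*} (Γ : SimpleGraph V) : Set (FreeGroup V) :=
  {r | (∃ v, r = FreeGroup.of v * FreeGroup.of v) ∨
       ∃ u v, Γ.Adj u v ∧
         r = FreeGroup.of u * FreeGroup.of v * (FreeGroup.of u)⁻¹ * (FreeGroup.of v)⁻¹}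

/-- right-angled Coxeter group -/
def RACG {V : Type*} (Γ : SimpleGraph V) : Type _ := PresentedGroup (racgRels Γ)

instance {V : Type*} (Γ : SimpleGraph V) : Group (RACG Γ) :=
  inferInstanceAs (Group (PresentedGroup (racgRels Γ)))

namespace RACG

variable {V : Type*} {Γ : SimpleGraph V}

/-- generators -/
def of (Γ : SimpleGraph V) (v : V) : RACG Γ := PresentedGroup.of v

@[simp] theorem of_mul_self (v : V) : of Γ v * of Γ v = 1 := by
  have h : (PresentedGroup.mk (racgRels Γ)) (FreeGroup.of v * FreeGroup.of v) = 1 :=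
    (PresentedGroup.one_of_mem (Or.inl ⟨v, rfl⟩))
  rw [map_mul] at h
  exact h

@[simp] theorem of_inv (v : V) : (of Γ v)⁻¹ = of Γ v :=
  inv_eq_of_mul_eq_one_left (of_mul_self v)

theorem commute_of_adj {u v : V} (h : Γ.Adj u v) : Commute (of Γ u) (of Γ v) := by
  have h1 : (PresentedGroup.mk (racgRels Γ))
      (FreeGroup.of u * FreeGroup.of v * (FreeGroup.of u)⁻¹ * (FreeGroup.of v)⁻¹) = 1 :=
    (PresentedGroup.one_of_mem (Or.inr ⟨u, v, h, rfl⟩))
  have h2 : of Γ u * of Γ v * (of Γ u)⁻¹ * (of Γ v)⁻¹ = 1 := by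
    rw [map_mul, map_mul, map_mul, map_inv, map_inv] at h1
    exact h1
  rw [mul_inv_eq_one, mul_inv_eq_iff_eq_mul] at h2
  exact h2

/-- universal property -/
def lift {G : Type*} [Group G] (f : V → G) (h2 : ∀ v, f v * f v = 1)
    (hc : ∀ u v, Γ.Adj u v → f u * f v = f v * f u) : RACG Γ →* G :=
  PresentedGroup.toGroup (f := f) (rels := racgRels Γ) (by
    rintro r (⟨v, rfl⟩ | ⟨u, v, h, rfl⟩)
    · simp [h2]
    · simp only [map_mul, map_inv, FreeGroup.lift_apply_of]
      rw [hc u v h]; group)

@[simp] theorem lift_of {G : Type*} [Group G] (f : V → G) (h2 : ∀ v, f v * f v = 1)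
    (hc : ∀ u v, Γ.Adj u v → f u * f v = f v * f u) (v : V) :
    lift (Γ := Γ) f h2 hc (of Γ v) = f v :=
  PresentedGroup.toGroup.of _

theorem closure_range_of : Subgroup.closure (Set.range (of Γ)) = ⊤ :=
  PresentedGroup.closure_range_of _

theorem hom_ext {G : Type*} [Group G] {f g : RACG Γ →* G}
    (h : ∀ v, f (of Γ v) = g (of Γ v)) : f = g := by
  apply PresentedGroup.ext
  exact h

/-- product of a word -/
def prod (Γ : SimpleGraph V) (w : List V) : RACG Γ := (w.map (of Γ)).prod

@[simp] theorem prod_nil : prod Γ [] = 1 := rfl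
@[simp] theorem prod_cons (v : V) (w : List V) : prod Γ (v :: w) = of Γ v * prod Γ w := by
  simp [prod]
@[simp] theorem prod_append (w w' : List V) : prod Γ (w ++ w') = prod Γ w * prod Γ w' := by
  simp [prod]
theorem prod_singleton (v : V) : prod Γ [v] = of Γ v := by simp

theorem prod_reverse (w : List V) : prod Γ w.reverse = (prod Γ w)⁻¹ := by
  induction w with
  | nil => simp
  | cons v w ih => simp [ih]

/-- the subgroup generated by a set of vertices -/
def par (Γ : SimpleGraph V) (S : Set V) : Subgroup (RACG Γ) :=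
  Subgroup.closure (of Γ '' S)

theorem of_mem_par {S : Set V} {v : V} (h : v ∈ S) : of Γ v ∈ par Γ S :=
  Subgroup.subset_closure ⟨v, h, rfl⟩

theorem prod_mem_par {S : Set V} {w : List V} (h : ∀ v ∈ w, v ∈ S) : prod Γ w ∈ par Γ S := by
  induction w with
  | nil => exact (par Γ S).one_mem
  | cons v w ih =>
    rw [prod_cons]
    exact (par Γ S).mul_mem (of_mem_par (h v (by simp))) (ih fun u hu => h u (by simp [hu]))

theorem exists_word_of_mem_par {S : Set V} {x : RACG Γ} (hx : x ∈ par Γ S) :
    ∃ w : List V, (∀ v ∈ w, v ∈ S) ∧ prod Γ w = x := by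
  induction hx using Subgroup.closure_induction with
  | mem x hx => obtain ⟨v, hv, rfl⟩ := hx; exact ⟨[v], by simpa using hv, by simp⟩
  | one => exact ⟨[], by simp, rfl⟩
  | mul x y _ _ ihx ihy =>
    obtain ⟨w, hw, rfl⟩ := ihx
    obtain ⟨w', hw', rfl⟩ := ihy
    exact ⟨w ++ w', by intro v hv; rcases List.mem_append.1 hv with h | h; exacts [hw v h, hw' v h],
      by simp⟩
  | inv x _ ih =>
    obtain ⟨w, hw, rfl⟩ := ih
    exact ⟨w.reverse, by simpa using hw, prod_reverse w⟩

theorem exists_word (x : RACG Γ) : ∃ w : List V, prod Γ w = x := by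
  have hx : x ∈ par Γ Set.univ := by
    simp only [par, Set.image_univ, closure_range_of]; trivial
  obtain ⟨w, -, h⟩ := exists_word_of_mem_par hx
  exact ⟨w, h⟩

theorem par_mono {S T : Set V} (h : S ⊆ T) : par Γ S ≤ par Γ T :=
  Subgroup.closure_mono (Set.image_mono h)

theorem par_univ : par Γ Set.univ = ⊤ := by
  simp only [par, Set.image_univ, closure_range_of]

@[elab_as_elim]
theorem induction_on {p : RACG Γ → Prop} (x : RACG Γ) (one : p 1)
    (mul : ∀ v x, p x → p (of Γ v * x)) : p x := by
  obtain ⟨w, rfl⟩ := exists_word x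
  induction w with
  | nil => exact one
  | cons v w ih => rw [prod_cons]; exact mul v _ ih

/-- homomorphism induced by a graph map that preserves adjacency -/
def map {V' : Type*} {Γ' : SimpleGraph V'} (f : V → V')
    (hf : ∀ u v, Γ.Adj u v → Γ'.Adj (f u) (f v)) : RACG Γ →* RACG Γ' :=
  lift (fun v => of Γ' (f v)) (fun v => of_mul_self _)
    (fun u v h => commute_of_adj (hf u v h))

@[simp] theorem map_of {V' : Type*} {Γ' : SimpleGraph V'} (f : V → V')
    (hf : ∀ u v, Γ.Adj u v → Γ'.Adj (f u) (f v)) (v : V) :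
    map f hf (of Γ v) = of Γ' (f v) := lift_of _ _ _ _

theorem map_prod {V' : Type*} {Γ' : SimpleGraph V'} (f : V → V')
    (hf : ∀ u v, Γ.Adj u v → Γ'.Adj (f u) (f v)) (w : List V) :
    map f hf (prod Γ w) = prod Γ' (w.map f) := by
  induction w with
  | nil => simp
  | cons v w ih => simp [ih]

open Classical in
/-- retraction killing the vertices outside `S` -/
noncomputable def retr (Γ : SimpleGraph V) (S : Set V) : RACG Γ →* RACG Γ :=
  lift (fun v => if v ∈ S then of Γ v else 1) (fun v => by split_ifs <;> simp)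
    (fun u v h => by
      split_ifs
      · exact commute_of_adj h
      all_goals simp)

theorem retr_of_mem {S : Set V} {v : V} (h : v ∈ S) : retr Γ S (of Γ v) = of Γ v := by
  rw [retr, lift_of, if_pos h]

theorem retr_of_not_mem {S : Set V} {v : V} (h : v ∉ S) : retr Γ S (of Γ v) = 1 := by
  rw [retr, lift_of, if_neg h]

theorem retr_eq_self_of_mem_par {S : Set V} {x : RACG Γ} (hx : x ∈ par Γ S) :
    retr Γ S x = x := by
  induction hx using Subgroup.closure_induction with
  | mem x hx => obtain ⟨v, hv, rfl⟩ := hx; exact retr_of_mem hv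
  | one => simp
  | mul x y _ _ ihx ihy => rw [map_mul, ihx, ihy]
  | inv x _ ih => rw [map_inv, ih]

theorem retr_mem_par (S : Set V) (x : RACG Γ) : retr Γ S x ∈ par Γ S := by
  induction x using induction_on with
  | one => rw [map_one]; exact Subgroup.one_mem _
  | mul v x ih =>
    rw [map_mul]
    refine Subgroup.mul_mem _ ?_ ih
    by_cases h : v ∈ S
    · rw [retr_of_mem h]; exact of_mem_par h
    · rw [retr_of_not_mem h]; exact Subgroup.one_mem _

/-- parity of the number of occurrences of `v` -/
noncomputable def parity (Γ : SimpleGraph V) (v : V) : RACG Γ →* Multiplicative (ZMod 2) := by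
  classical
  exact lift (fun u => if u = v then Multiplicative.ofAdd 1 else 1)
    (fun u => by
      by_cases h : u = v
      · simp only [h, if_true]; decide
      · simp [h])
    (fun _ _ _ => mul_comm _ _)

theorem parity_of_self (v : V) : parity Γ v (of Γ v) = Multiplicative.ofAdd 1 := by
  rw [parity, lift_of, if_pos rfl]

theorem parity_of_ne {u v : V} (h : u ≠ v) : parity Γ v (of Γ u) = 1 := by
  rw [parity, lift_of, if_neg h]

theorem of_not_mem_par {S : Set V} {v : V} (h : v ∉ S) : of Γ v ∉ par Γ S := by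
  intro hm
  have h1 := retr_eq_self_of_mem_par hm
  rw [retr_of_not_mem h] at h1
  have h2 := parity_of_self (Γ := Γ) v
  rw [← h1, map_one] at h2
  revert h2
  decide

/-- the even subgroup: all parities vanish -/
noncomputable def ev (Γ : SimpleGraph V) : Subgroup (RACG Γ) := ⨅ v, (parity Γ v).ker

theorem mem_ev {x : RACG Γ} : x ∈ ev Γ ↔ ∀ v, parity Γ v x = 1 := by
  simp [ev, Subgroup.mem_iInf, MonoidHom.mem_ker]

end RACG

end Pool.Agent.H41.VS
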