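import Mathlib
import Pool.Agent.H41.VS.Basic

/-!
# Definitions: `VS`, `Good`, permutational wreath products `Wr G X`
-/

set_option autoImplicit false

namespace Pool.Agent.H41.VS

open Function

namespace RACG

variable {V : Type*}

theorem map_comp_apply {V V' V'' : Type*} {Γ : SimpleGraph V} {Γ' : SimpleGraph V'}
    {Γ'' : SimpleGraph V''} (f : V → V') (hf : ∀ u v, Γ.Adj u v → Γ'.Adj (f u) (f v))
    (g : V' → V'') (hg : ∀ u v, Γ'.Adj u v → Γ''.Adj (g u) (g v)) (x : RACG Γ) :
    map g hg (map f hf x) = map (Γ := Γ) (Γ' := Γ'') (g ∘ f) (fun u v h => hg _ _ (hf _ _ h)) x := by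
  have : (map g hg).comp (map f hf) = map (Γ := Γ) (Γ' := Γ'') (g ∘ f)
      (fun u v h => hg _ _ (hf _ _ h)) := by
    apply hom_ext
    intro v
    simp
  exact DFunLike.congr_fun this x

/-- The automorphism of `RACG Γ` given by an element of a group acting on `Γ`. -/
def actEquiv {G : Type*} [Group G] [MulAction G V] (Γ : SimpleGraph V)
    (h : ∀ (g : G) (u v : V), Γ.Adj u v → Γ.Adj (g • u) (g • v)) (g : G) :
    RACG Γ ≃* RACG Γ :=
  MonoidHom.toMulEquiv (map (fun v => g • v) (h g)) (map (fun v => g⁻¹ • v) (h g⁻¹))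
    (by apply hom_ext; intro v; simp) (by apply hom_ext; intro v; simp)

/-- A group acting on `Γ` acts on `RACG Γ`. -/
def act (G : Type*) [Group G] [MulAction G V] (Γ : SimpleGraph V)
    (h : ∀ (g : G) (u v : V), Γ.Adj u v → Γ.Adj (g • u) (g • v)) :
    G →* MulAut (RACG Γ) where
  toFun g := actEquiv Γ h g
  map_one' := by
    apply MulEquiv.toMonoidHom_injective
    apply hom_ext
    intro v
    simp [actEquiv]
  map_mul' a b := by
    apply MulEquiv.toMonoidHom_injective
    apply hom_ext
    intro v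
    simp [actEquiv, mul_smul]

@[simp] theorem act_of {G : Type*} [Group G] [MulAction G V] {Γ : SimpleGraph V}
    (h : ∀ (g : G) (u v : V), Γ.Adj u v → Γ.Adj (g • u) (g • v)) (g : G) (v : V) :
    act G Γ h g (of Γ v) = of Γ (g • v) := by
  change map (fun v => g • v) (h g) (of Γ v) = _
  simp

end RACG

/-- The semidirect product `RACG Γ ⋊ G` for a group `G` acting on the graph `Γ`. -/
abbrev WrG (G : Type*) [Group G] {V : Type*} [MulAction G V] (Γ : SimpleGraph V)
    (h : ∀ (g : G) (u v : V), Γ.Adj u v → Γ.Adj (g • u) (g • v)) : Type _ :=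
  RACG Γ ⋊[RACG.act G Γ h] G

theorem bot_inv (G X : Type*) [Group G] [MulAction G X] :
    ∀ (g : G) (u v : X), (⊥ : SimpleGraph X).Adj u v → (⊥ : SimpleGraph X).Adj (g • u) (g • v) :=
  fun _ _ _ h => h.elim

/-- The permutational wreath product `(Z/2)^{*X} ⋊ G` (free product of copies of `Z/2`
indexed by the `G`-set `X`). -/
abbrev Wr (G X : Type*) [Group G] [MulAction G X] : Type _ :=
  WrG G (⊥ : SimpleGraph X) (bot_inv G X)

/-- the generator of `Wr G X` at `x : X` -/
def Wr.gen {G X : Type*} [Group G] [MulAction G X] (x : X) : Wr G X :=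
  ⟨RACG.of _ x, 1⟩

/-- the copy of `G` in `Wr G X` -/
def Wr.base {G : Type*} (X : Type*) [Group G] [MulAction G X] : G →* Wr G X :=
  SemidirectProduct.inr

/-- virtually special: a finite-index subgroup embeds into a finitely generated right-angled
Coxeter group. -/
def VS (G : Type) [Group G] : Prop :=
  ∃ (V : Type) (_ : Finite V) (Γ : SimpleGraph V) (K : Subgroup G), K.FiniteIndex ∧
    ∃ f : K →* RACG Γ, Injective f

/-- `B` is virtually the preimage of a parabolic subgroup. -/
def Good {P : Type} [Group P] (B : Subgroup P) : Prop :=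
  ∃ (V : Type) (_ : Finite V) (Γ : SimpleGraph V) (S : Set V) (K : Subgroup P),
    K.FiniteIndex ∧ ∃ f : K →* RACG Γ, ∀ k : K, (k : P) ∈ B ↔ f k ∈ RACG.par Γ S

end Pool.Agent.H41.VS
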