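import Mathlib
import Pool.Agent.H41.VS.Defs

/-!
# Normal form in the free product of copies of `Z/2` and in `Wr G X`
-/

set_option autoImplicit false

namespace Pool.Agent.H41.VS

open Function

/-- nonempty words without repetitions are non-trivial in the free product of `Z/2`s -/
theorem fp2_prod_ne_one {X : Type*} (l : List X) (hl : l.IsChain (· ≠ ·)) (hne : l ≠ []) :
    RACG.prod (⊥ : SimpleGraph X) l ≠ 1 := by
  intro h1
  let M : X → Type := fun _ => Multiplicative (ZMod 2)
  have hg : ∀ x : X, (Multiplicative.ofAdd (1 : ZMod 2) : M x) * Multiplicative.ofAdd (1 : ZMod 2) = 1 := by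
    intro x; decide
  let θ : RACG (⊥ : SimpleGraph X) →* Monoid.CoprodI M :=
    RACG.lift (fun x => Monoid.CoprodI.of (i := x) (Multiplicative.ofAdd (1 : ZMod 2) : M x))
      (fun x => by rw [← map_mul, hg x, map_one]) (fun u v h => h.elim)
  let w : Monoid.CoprodI.Word M :=
    { toList := l.map (fun x => (⟨x, Multiplicative.ofAdd (1 : ZMod 2)⟩ : Σ i, M i))
      ne_one := by
        intro p hp
        obtain ⟨x, -, rfl⟩ := List.mem_map.1 hp
        change Multiplicative.ofAdd (1 : ZMod 2) ≠ 1
        decide
      chain_ne := by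
        rw [List.isChain_map]
        exact hl }
  have hw : w.prod = θ (RACG.prod ⊥ l) := by
    have : ∀ l' : List X, ((l'.map (fun x => (⟨x, Multiplicative.ofAdd (1 : ZMod 2)⟩ : Σ i, M i))).map
        fun p => Monoid.CoprodI.of p.2).prod = θ (RACG.prod ⊥ l') := by
      intro l'
      induction l' with
      | nil => simp
      | cons x l' ih =>
        rw [List.map_cons, List.map_cons, List.prod_cons, ih, RACG.prod_cons, map_mul]
        simp [θ]
    exact this l
  have h2 : w.prod = (Monoid.CoprodI.Word.empty : Monoid.CoprodI.Word M).prod := by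
    rw [hw, h1, map_one, Monoid.CoprodI.Word.prod_empty]
  have h3 : w = Monoid.CoprodI.Word.empty := by
    classical
    exact (Monoid.CoprodI.Word.equiv (M := M)).symm.injective h2
  have h4 : w.toList = [] := by rw [h3]; rfl
  have h5 : l = [] := by simpa [w] using h4
  exact hne h5

/-- letters of a word `t g₁ t g₂ t … t g_k` read after the prefix `g` -/
def wrLetters {G X : Type*} [Group G] [MulAction G X] (x₀ : X) : G → List G → List X
  | _, [] => []
  | g, h :: l => (g • x₀) :: wrLetters x₀ (g * h) l

/-- the word `g t g₁ t g₂ … t g_k` -/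
def wrWord {G X : Type*} [Group G] [MulAction G X] (x₀ : X) (g : G) (l : List G) : Wr G X :=
  Wr.base X g * (l.map fun h => Wr.gen x₀ * Wr.base X h).prod

theorem wrWord_nil {G X : Type*} [Group G] [MulAction G X] (x₀ : X) (g : G) :
    wrWord x₀ g [] = Wr.base X g := by simp [wrWord]

theorem Wr.base_mul_gen {G X : Type*} [Group G] [MulAction G X] (x : X) (g : G) :
    Wr.base X g * Wr.gen x = Wr.gen (g • x) * Wr.base X g := by
  apply SemidirectProduct.ext
  · simp [Wr.base, Wr.gen]
  · simp [Wr.base, Wr.gen]

theorem wrWord_cons {G X : Type*} [Group G] [MulAction G X] (x₀ : X) (g h : G) (l : List G) :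
    wrWord x₀ g (h :: l) = Wr.gen (g • x₀) * wrWord x₀ (g * h) l := by
  simp only [wrWord, List.map_cons, List.prod_cons]
  rw [← mul_assoc, ← mul_assoc, Wr.base_mul_gen, map_mul]
  simp only [mul_assoc]

theorem wrWord_left {G X : Type*} [Group G] [MulAction G X] (x₀ : X) (l : List G) (g : G) :
    (wrWord x₀ g l).left = RACG.prod ⊥ (wrLetters x₀ g l) := by
  induction l generalizing g with
  | nil => simp [wrWord, wrLetters, Wr.base]
  | cons h l ih =>
    rw [wrWord_cons, SemidirectProduct.mul_left, ih]
    simp [Wr.gen, wrLetters]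

theorem wrLetters_chain {G X : Type*} [Group G] [MulAction G X] (x₀ : X) (l : List G) (g : G)
    (hl : ∀ h ∈ l.dropLast, h • x₀ ≠ x₀) : (wrLetters x₀ g l).IsChain (· ≠ ·) := by
  induction l generalizing g with
  | nil => simp [wrLetters]
  | cons h l ih =>
    cases l with
    | nil => simp [wrLetters]
    | cons h' l =>
      have h2 := ih (g * h) (fun k hk => hl k (by
        simp only [List.dropLast_cons_cons]; exact List.mem_cons_of_mem _ hk))
      simp only [wrLetters] at h2 ⊢
      rw [List.isChain_cons_cons]
      refine ⟨?_, h2⟩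
      rw [mul_smul]
      intro he
      exact hl h (by simp) ((MulAction.injective g he).symm)

/-- **Normal form**: `g t g₁ t … t g_k` with `k ≥ 1` and `g_i x₀ ≠ x₀` for `0 < i < k` does
not lie in the base group. -/
theorem wrWord_not_mem_base {G X : Type*} [Group G] [MulAction G X] (x₀ : X) (g : G) (l : List G)
    (hne : l ≠ []) (hl : ∀ h ∈ l.dropLast, h • x₀ ≠ x₀) (g' : G) :
    wrWord x₀ g l ≠ Wr.base X g' := by
  intro h
  have h1 := congrArg SemidirectProduct.left h
  rw [wrWord_left] at h1
  refine fp2_prod_ne_one _ (wrLetters_chain x₀ l g hl) ?_ (h1.trans ?_)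
  · cases l with
    | nil => exact absurd rfl hne
    | cons a l => simp [wrLetters]
  · simp [Wr.base]

end Pool.Agent.H41.VS
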