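import Mathlib
import Pool.Agent.H41.VS.WrNF

/-!
# Reduced words in right-angled Coxeter groups
-/

set_option autoImplicit false

namespace Pool.Agent.H41.VS

open Function

variable {V : Type*}

/-- combinatorially reduced words -/
def Reduced (Γ : SimpleGraph V) (w : List V) : Prop :=
  ∀ (v : V) (u : List V), (v :: u ++ [v]) <:+: w → ∃ x ∈ u, x ≠ v ∧ ¬ Γ.Adj x v

theorem Reduced.of_sub {Γ : SimpleGraph V} {w w' : List V} (hw : Reduced Γ w) (h : w' <:+: w) :
    Reduced Γ w' := fun v u hu => hw v u (hu.trans h)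

theorem Reduced.nil {Γ : SimpleGraph V} : Reduced Γ [] := by
  intro v u h
  have := List.infix_nil.1 h
  simp at this

namespace RACG

variable {Γ : SimpleGraph V}

/-- the group of neighbours of `t` -/
def lk (Γ : SimpleGraph V) (t : V) : Subgroup (RACG Γ) := par Γ (Γ.neighborSet t)

/-- the group generated by `t` and its neighbours -/
def st (Γ : SimpleGraph V) (t : V) : Subgroup (RACG Γ) := par Γ (insert t (Γ.neighborSet t))

theorem gen_mul_self {G X : Type*} [Group G] [MulAction G X] (x : X) :
    Wr.gen (G := G) x * Wr.gen x = 1 := by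
  apply SemidirectProduct.ext <;> simp [Wr.gen]

theorem base_commute_gen {G X : Type*} [Group G] [MulAction G X] (x : X) (g : G)
    (h : g • x = x) : Wr.base X g * Wr.gen x = Wr.gen x * Wr.base X g := by
  rw [Wr.base_mul_gen, h]

open Classical in
/-- the map `Ψ_t` -/
noncomputable def psi (Γ : SimpleGraph V) (t : V) :
    RACG Γ →* Wr (RACG Γ) (RACG Γ ⧸ lk Γ t) :=
  lift (fun v => if v = t then Wr.gen (QuotientGroup.mk 1) else Wr.base _ (of Γ v))
    (fun v => by
      split_ifs
      · exact gen_mul_self _
      · rw [← map_mul, of_mul_self, map_one])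
    (fun u v h => by
      have key : ∀ w, Γ.Adj w t → (of Γ w) • (QuotientGroup.mk 1 : RACG Γ ⧸ lk Γ t)
          = QuotientGroup.mk 1 := by
        intro w hw
        change (QuotientGroup.mk ((of Γ w) * 1) : RACG Γ ⧸ lk Γ t) = _
        rw [QuotientGroup.eq, mul_one, mul_one]
        exact inv_mem (of_mem_par hw.symm)
      split_ifs with h1 h2 h2
      · rfl
      · subst h1
        exact (base_commute_gen _ _ (key v h.symm)).symm
      · subst h2
        exact (base_commute_gen _ _ (key u h))
      · rw [← map_mul, ← map_mul, (commute_of_adj h).eq])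

theorem psi_of_self (t : V) : psi Γ t (of Γ t) = Wr.gen (QuotientGroup.mk 1) := by
  rw [psi, lift_of, if_pos rfl]

theorem psi_of_ne {t v : V} (h : v ≠ t) : psi Γ t (of Γ v) = Wr.base _ (of Γ v) := by
  rw [psi, lift_of, if_neg h]

theorem psi_of_mem_par {t : V} {x : RACG Γ} (hx : x ∈ par Γ {t}ᶜ) : psi Γ t x = Wr.base _ x := by
  induction hx using Subgroup.closure_induction with
  | mem x hx => obtain ⟨v, hv, rfl⟩ := hx; exact psi_of_ne hv
  | one => rw [map_one, map_one]
  | mul x y _ _ ihx ihy => rw [map_mul, ihx, ihy, map_mul]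
  | inv x _ ih => rw [map_inv, ih, map_inv]

theorem psi_prod_of_not_mem {t : V} {w : List V} (hw : t ∉ w) :
    psi Γ t (prod Γ w) = Wr.base _ (prod Γ w) :=
  psi_of_mem_par (prod_mem_par fun v hv => by
    rintro rfl; exact hw hv)

/-- splitting a word at the occurrences of `t` -/
theorem exists_split (t : V) (w : List V) : ∃ (u₀ : List V) (us : List (List V)),
    w = u₀ ++ (us.map (fun u => t :: u)).flatten ∧ t ∉ u₀ ∧ ∀ u ∈ us, t ∉ u := by
  induction w with
  | nil => exact ⟨[], [], by simp, by simp, by simp⟩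
  | cons v w ih =>
    obtain ⟨u₀, us, rfl, h₀, hs⟩ := ih
    by_cases h : v = t
    · subst h
      exact ⟨[], u₀ :: us, by simp, by simp, by simpa using ⟨h₀, hs⟩⟩
    · exact ⟨v :: u₀, us, by simp, by simpa [Ne.symm h] using h₀, hs⟩

theorem psi_split (t : V) (u₀ : List V) (us : List (List V)) (h₀ : t ∉ u₀)
    (hs : ∀ u ∈ us, t ∉ u) :
    psi Γ t (prod Γ (u₀ ++ (us.map (fun u => t :: u)).flatten)) =
      wrWord (QuotientGroup.mk 1) (prod Γ u₀) (us.map (prod Γ)) := by
  rw [prod_append, map_mul, psi_prod_of_not_mem h₀, wrWord]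
  congr 1
  induction us with
  | nil => simp
  | cons u us ih =>
    simp only [List.map_cons, List.flatten_cons, List.prod_cons, prod_append, prod_cons, map_mul]
    rw [psi_of_self, psi_prod_of_not_mem (hs u (by simp)), ih (fun x hx => hs x (by simp [hx]))]

theorem smul_mk_one_ne {C : Subgroup (RACG Γ)} {x : RACG Γ} (h : x ∉ C) :
    x • (QuotientGroup.mk 1 : RACG Γ ⧸ C) ≠ QuotientGroup.mk 1 := by
  intro he
  apply h
  change (QuotientGroup.mk (x * 1) : RACG Γ ⧸ C) = _ at he
  rw [QuotientGroup.eq, mul_one, mul_one] at he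
  exact inv_mem_iff.1 he

theorem sub_of_mem_dropLast {t : V} {us : List (List V)} {u : List V} (hu : u ∈ us.dropLast)
    (u₀ : List V) : (t :: u ++ [t]) <:+: u₀ ++ (us.map (fun u => t :: u)).flatten := by
  obtain ⟨a, b, hab⟩ := List.append_of_mem hu
  have hne : us ≠ [] := by rintro rfl; simp at hu
  have hus : us = us.dropLast ++ [us.getLast hne] := (List.dropLast_append_getLast hne).symm
  obtain ⟨c, d, hcd⟩ : ∃ c d, b ++ [us.getLast hne] = c :: d := by
    cases b with
    | nil => exact ⟨_, _, rfl⟩
    | cons x b => exact ⟨_, _, rfl⟩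
  have h2 : us = a ++ u :: c :: d := by
    rw [hus, hab, List.append_assoc, List.cons_append, hcd]
  rw [h2]
  refine ⟨u₀ ++ (a.map (fun u => t :: u)).flatten, c ++ (d.map (fun u => t :: u)).flatten, ?_⟩
  simp

/-- **Reduced words**: if a reduced word represents an element of `⟨S⟩` then all its letters are
in `S`. -/
theorem mem_of_prod_mem_par {S : Set V} {w : List V}
    (hw : Reduced Γ w) (h : prod Γ w ∈ par Γ S) : ∀ v ∈ w, v ∈ S := by
  induction hn : w.length using Nat.strong_induction_on generalizing w S with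
  | _ n ih =>
    intro v hv
    by_contra hvS
    obtain ⟨u₀, us, hsplit, h₀, hs⟩ := exists_split v w
    have hne : us ≠ [] := by
      rintro rfl
      rw [hsplit] at hv
      simp at hv
      exact h₀ hv
    have h1 : psi Γ v (prod Γ w) = wrWord (QuotientGroup.mk 1) (prod Γ u₀) (us.map (prod Γ)) := by
      conv_lhs => rw [hsplit]
      exact psi_split v u₀ us h₀ hs
    have h2 : psi Γ v (prod Γ w) = Wr.base _ (prod Γ w) :=
      psi_of_mem_par (par_mono (fun x hx => by rintro rfl; exact hvS hx) h)
    refine wrWord_not_mem_base (QuotientGroup.mk 1 : RACG Γ ⧸ lk Γ v) (prod Γ u₀)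
      (us.map (prod Γ)) (by simpa using hne) ?_ (prod Γ w) (h1.symm.trans h2)
    intro g hg
    rw [← List.map_dropLast] at hg
    obtain ⟨u, hu, rfl⟩ := List.mem_map.1 hg
    apply smul_mk_one_ne
    intro hmem
    have hinf : (v :: u ++ [v]) <:+: w := by
      rw [hsplit]; exact sub_of_mem_dropLast hu u₀
    have hinf' : u <:+: w := by
      refine List.IsInfix.trans ⟨[v], [v], by simp⟩ hinf
    have hlen : u.length < n := by
      have := hinf.length_le
      simp at this
      omega
    have hall := ih u.length hlen (hw.of_sub hinf') hmem rfl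
    obtain ⟨x, hx, -, hxa⟩ := hw v u hinf
    exact hxa (hall x hx).symm

theorem commute_prod_of_forall {v : V} {u : List V} (h : ∀ x ∈ u, x = v ∨ Γ.Adj x v) :
    of Γ v * prod Γ u = prod Γ u * of Γ v := by
  induction u with
  | nil => simp
  | cons x u ih =>
    rw [prod_cons, mul_assoc, ← ih (fun y hy => h y (by simp [hy])), ← mul_assoc, ← mul_assoc]
    congr 1
    rcases h x (by simp) with rfl | hx
    · rfl
    · exact (commute_of_adj hx.symm).eq

/-- a non reduced word can be shortened by two letters -/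
theorem exists_shorter {w : List V} (hw : ¬ Reduced Γ w) :
    ∃ w', w'.length + 2 = w.length ∧ prod Γ w' = prod Γ w := by
  simp only [Reduced, not_forall] at hw
  obtain ⟨v, u, ⟨a, b, hab⟩, hno⟩ := hw
  push Not at hno
  refine ⟨a ++ u ++ b, ?_, ?_⟩
  · rw [← hab]; simp; omega
  · rw [← hab]
    have := commute_prod_of_forall (Γ := Γ) (v := v) (u := u) (fun x hx => by
      by_cases h : x = v
      · exact Or.inl h
      · exact Or.inr (hno x hx h))
    simp only [prod_append, prod_cons, prod_nil, mul_one]
    rw [this]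
    simp only [mul_assoc]
    rw [← mul_assoc (of Γ v), of_mul_self, one_mul]

theorem exists_reduced (x : RACG Γ) : ∃ w, Reduced Γ w ∧ prod Γ w = x := by
  obtain ⟨w, hw⟩ := exists_word x
  induction hn : w.length using Nat.strong_induction_on generalizing w with
  | _ n ih =>
    by_cases hr : Reduced Γ w
    · exact ⟨w, hr, hw⟩
    · obtain ⟨w', hl, hp⟩ := exists_shorter hr
      exact ih w'.length (by omega) w' (hp.trans hw) rfl

theorem eq_nil_of_prod_eq_one {w : List V} (hw : Reduced Γ w) (h : prod Γ w = 1) : w = [] := by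
  have := mem_of_prod_mem_par (S := ∅) hw (by rw [h]; exact Subgroup.one_mem _)
  exact List.eq_nil_iff_forall_not_mem.2 fun v hv => this v hv

end RACG

end Pool.Agent.H41.VS
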