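import Mathlib
import Pool.Agent.H41.VS.Words

/-!
# Axes: periodic bi-infinite reduced words
-/

set_option autoImplicit false

namespace Pool.Agent.H41.VS

open Function

variable {V : Type*}

/-- periodic bi-infinite words together with their partial products -/
structure PSeq (Γ : SimpleGraph V) where
  n : ℕ
  npos : 0 < n
  s : ℤ → V
  per : ∀ i, s (i + n) = s i
  x : ℤ → RACG Γ
  x0 : x 0 = 1
  xs : ∀ i, x (i + 1) = x i * RACG.of Γ (s i)

namespace PSeq

variable {Γ : SimpleGraph V} (A : PSeq Γ)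

/-- the element represented by one period -/
def c : RACG Γ := A.x A.n

theorem per_mul (i : ℤ) (D : ℤ) : A.s (i + A.n * D) = A.s i := by
  induction D using Int.induction_on with
  | zero => simp
  | succ k ih =>
    rw [mul_add, mul_one, ← add_assoc, A.per, ih]
  | pred k ih =>
    rw [← ih, ← A.per (i + A.n * (-(k : ℤ) - 1))]
    congr 1; ring

theorem xs' (i : ℤ) : A.x i = A.x (i + 1) * RACG.of Γ (A.s i) := by
  rw [A.xs, mul_assoc, RACG.of_mul_self, mul_one]

/-- the segment of length `k` starting at `i` -/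
def seg (i : ℤ) (k : ℕ) : List V := (List.range k).map fun r : ℕ => A.s (i + (r : ℤ))

@[simp] theorem length_seg (i : ℤ) (k : ℕ) : (A.seg i k).length = k := by simp [seg]

theorem seg_succ (i : ℤ) (k : ℕ) : A.seg i (k + 1) = A.seg i k ++ [A.s (i + k)] := by
  simp [seg, List.range_succ]

theorem seg_add (i : ℤ) (k l : ℕ) : A.seg i (k + l) = A.seg i k ++ A.seg (i + k) l := by
  induction l with
  | zero => simp [seg]
  | succ l ih =>
    rw [← add_assoc, seg_succ, ih, seg_succ, List.append_assoc]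
    push_cast
    rw [add_assoc]

theorem x_add (i : ℤ) (k : ℕ) : A.x (i + k) = A.x i * RACG.prod Γ (A.seg i k) := by
  induction k with
  | zero => simp [seg]
  | succ k ih =>
    rw [seg_succ, RACG.prod_append, ← mul_assoc, ← ih]
    push_cast
    rw [← add_assoc, A.xs]
    simp

theorem x_add_n (i : ℤ) : A.x (i + A.n) = A.c * A.x i := by
  induction i using Int.induction_on with
  | zero => rw [A.x0, mul_one, zero_add]; rfl
  | succ k ih =>
    rw [A.xs, ← mul_assoc, ← ih, add_right_comm, A.xs, A.per]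
  | pred k ih =>
    have h1 := A.xs' (-(k : ℤ) - 1)
    have h2 := A.xs' (-(k : ℤ) - 1 + A.n)
    rw [h1, h2, A.per, ← mul_assoc]
    congr 1
    have e1 : -(k : ℤ) - 1 + A.n + 1 = -(k : ℤ) + A.n := by ring
    have e2 : -(k : ℤ) - 1 + 1 = -(k : ℤ) := by ring
    rw [e1, e2, ih]

theorem x_add_mul (i D : ℤ) : A.x (i + A.n * D) = A.c ^ D * A.x i := by
  induction D using Int.induction_on with
  | zero => simp
  | succ k ih =>
    have e : i + A.n * ((k : ℤ) + 1) = (i + A.n * k) + A.n := by ring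
    rw [e, x_add_n, ih, ← mul_assoc, zpow_add_one, ← zpow_one_add, add_comm, zpow_add_one]
  | pred k ih =>
    have e : i + A.n * (-(k : ℤ)) = (i + A.n * (-(k : ℤ) - 1)) + A.n := by ring
    rw [e, x_add_n] at ih
    rw [← mul_right_inj A.c, ih, ← mul_assoc, ← zpow_one_add]
    congr 2; ring

theorem x_mul (D : ℤ) : A.x (A.n * D) = A.c ^ D := by
  have := A.x_add_mul 0 D
  rw [zero_add, A.x0, mul_one] at this
  exact this

/-- reducedness of a bi-infinite word -/
def Red : Prop :=
  ∀ i j, i < j → A.s i = A.s j → ∃ l, i < l ∧ l < j ∧ A.s l ≠ A.s i ∧ ¬ Γ.Adj (A.s l) (A.s i)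

end PSeq

/-- every periodic word has partial products -/
theorem exists_pseq (Γ : SimpleGraph V) (n : ℕ) (hn : 0 < n) (s : ℤ → V)
    (hs : ∀ i, s (i + n) = s i) : ∃ A : PSeq Γ, A.n = n ∧ A.s = s := by
  let xp : ℕ → RACG Γ := fun k => Nat.rec 1 (fun r y => y * RACG.of Γ (s r)) k
  let xm : ℕ → RACG Γ := fun k => Nat.rec 1 (fun r y => y * RACG.of Γ (s (-(r + 1 : ℕ) : ℤ))) k
  let x : ℤ → RACG Γ := fun i => if 0 ≤ i then xp i.toNat else xm (-i).toNat
  refine ⟨⟨n, hn, s, hs, x, by simp [x, xp], ?_⟩, rfl, rfl⟩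
  intro i
  rcases lt_trichotomy i (-1) with h | h | h
  · obtain ⟨k, rfl⟩ : ∃ k : ℕ, i = -((k : ℤ) + 2) := ⟨(-i - 2).toNat, by omega⟩
    have h1 : ¬ (0 : ℤ) ≤ -((k : ℤ) + 2) := by omega
    have h2 : ¬ (0 : ℤ) ≤ -((k : ℤ) + 2) + 1 := by omega
    simp only [x, h1, h2, if_false]
    have e1 : (-(-((k : ℤ) + 2))).toNat = k + 2 := by omega
    have e2 : (-(-((k : ℤ) + 2) + 1)).toNat = k + 1 := by omega
    rw [e1, e2]
    change xm (k + 1) = xm (k + 1) * RACG.of Γ (s (-((k + 1 + 1 : ℕ) : ℤ))) * _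
    have e3 : (-((k + 1 + 1 : ℕ) : ℤ)) = -((k : ℤ) + 2) := by push_cast; ring
    rw [e3, mul_assoc, RACG.of_mul_self, mul_one]
  · subst h
    simp only [x]
    norm_num
    change 1 = (1 * RACG.of Γ (s (-((0 + 1 : ℕ) : ℤ)))) * _
    simp
  · obtain ⟨k, rfl⟩ : ∃ k : ℕ, i = k := ⟨i.toNat, by omega⟩
    have h1 : (0 : ℤ) ≤ (k : ℤ) := by omega
    have h2 : (0 : ℤ) ≤ (k : ℤ) + 1 := by omega
    simp only [x, h1, h2, if_true]
    have e1 : ((k : ℤ)).toNat = k := by omega
    have e2 : ((k : ℤ) + 1).toNat = k + 1 := by omega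
    rw [e1, e2]

/-- conjugates of elements of the even subgroup are even -/
theorem RACG.parity_conj {Γ : SimpleGraph V} (v : V) (u c : RACG Γ) :
    parity Γ v (u * c * u⁻¹) = parity Γ v c := by
  simp

/-- every nontrivial element of the even subgroup is conjugate to the element of a
reduced axis -/
theorem exists_axis {Γ : SimpleGraph V} (c : RACG Γ) (hc : c ∈ RACG.ev Γ) (h1 : c ≠ 1) :
    ∃ (A : PSeq Γ) (u : RACG Γ), A.Red ∧ c = u * A.c * u⁻¹ := by
  classical
  -- minimal length of a word representing a conjugate of `c`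
  let P : ℕ → Prop := fun n => ∃ (w : List V) (u : RACG Γ), w.length = n ∧
    c = u * RACG.prod Γ w * u⁻¹
  have hP : ∃ n, P n := by
    obtain ⟨w, hw⟩ := RACG.exists_word c
    exact ⟨_, w, 1, rfl, by simp [hw]⟩
  obtain ⟨w, u, hwn, hcu⟩ := Nat.find_spec hP
  have hmin : ∀ (w' : List V) (u' : RACG Γ), c = u' * RACG.prod Γ w' * u'⁻¹ →
      w.length ≤ w'.length := by
    intro w' u' h
    rw [hwn]
    exact Nat.find_min' hP ⟨w', u', rfl, h⟩
  set n := w.length with hn
  have hn0 : 0 < n := by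
    rcases Nat.eq_zero_or_pos n with h | h
    · exfalso
      apply h1
      have : w = [] := List.eq_nil_of_length_eq_zero h
      rw [hcu, this]; simp
    · exact h
  have hmod : ∀ i : ℤ, (i % n).toNat < n := by
    intro i
    have h1 := Int.emod_nonneg i (b := (n : ℤ)) (by omega)
    have h2 := Int.emod_lt_of_pos i (b := (n : ℤ)) (by omega)
    omega
  let s : ℤ → V := fun i => w[(i % n).toNat]'(hmod i)
  obtain ⟨A, hAn, hAs⟩ := exists_pseq Γ n hn0 s (by intro i; simp [s])
  have hseg : A.seg 0 n = w := by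
    apply List.ext_getElem
    · simp [hn]
    · intro i h1 h2
      simp only [PSeq.seg, List.getElem_map, List.getElem_range, hAs, s, zero_add]
      congr 1
      have : (i : ℤ) % n = i := Int.emod_eq_of_lt (by omega) (by omega)
      omega
  have hAc : A.c = RACG.prod Γ w := by
    have := A.x_add 0 n
    rw [A.x0, one_mul, zero_add, hseg] at this
    rw [PSeq.c, hAn, this]
  refine ⟨A, u, ?_, by rw [hAc]; exact hcu⟩
  -- rotations
  have hrot : ∀ i : ℤ, RACG.prod Γ (A.seg i n) = (A.x i)⁻¹ * A.c * A.x i := by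
    intro i
    have h1 := A.x_add i n
    have h2 := A.x_add_n i
    rw [hAn] at h2
    rw [h1] at h2
    rw [mul_assoc, ← h2]; group
  have hrotc : ∀ i : ℤ, c = (u * A.x i) * RACG.prod Γ (A.seg i n) * (u * A.x i)⁻¹ := by
    intro i
    rw [hrot, hcu, ← hAc]; group
  intro i j hij hs
  by_contra hcon
  push Not at hcon
  -- first occurrence after i
  have hex : ∃ k : ℕ, A.s (i + 1 + k) = A.s i := ⟨(j - i - 1).toNat, by
    rw [hs]; congr 1; omega⟩
  set k := Nat.find hex with hk
  have hk1 : A.s (i + 1 + k) = A.s i := Nat.find_spec hex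
  have hk2 : ∀ l < k, A.s (i + 1 + l) ≠ A.s i := fun l hl => Nat.find_min hex hl
  have hkj : i + 1 + k ≤ j := by
    have : k ≤ (j - i - 1).toNat := Nat.find_min' hex (by rw [hs]; congr 1; omega)
    omega
  have hadj : ∀ l < k, Γ.Adj (A.s (i + 1 + l)) (A.s i) := fun l hl =>
    hcon _ (by omega) (by omega) (hk2 l hl)
  have hkn : k + 1 ≤ n := by
    by_contra h
    refine hk2 (n - 1) (by omega) ?_
    have := A.per i
    rw [← this, hAn]
    congr 1; omega
  have hu : ∀ x ∈ A.seg (i + 1) k, Γ.Adj x (A.s i) := by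
    intro x hx
    obtain ⟨l, hl, rfl⟩ := List.mem_map.1 hx
    exact hadj l (List.mem_range.1 hl)
  rcases Nat.lt_or_ge (k + 1) n with hlt | hge
  · -- not reduced rotation
    have hsegs : A.seg i n = (A.s i :: A.seg (i + 1) k ++ [A.s i]) ++
        A.seg (i + (k + 2 : ℕ)) (n - (k + 2)) := by
      have e : n = 1 + k + 1 + (n - (k + 2)) := by omega
      conv_lhs => rw [e]
      rw [PSeq.seg_add, PSeq.seg_add, PSeq.seg_add]
      have e1 : A.seg i 1 = [A.s i] := by simp [PSeq.seg]
      have e2 : A.seg (i + ((1 + k : ℕ) : ℤ)) 1 = [A.s i] := by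
        rw [← hk1]
        simp only [PSeq.seg, List.range_one, List.map_cons, List.map_nil]
        congr 2
        push_cast; ring
      rw [e1, e2]
      congr 2
      push_cast; ring
    have hnr : ¬ Reduced Γ (A.seg i n) := by
      intro hr
      obtain ⟨x, hx, hxv, hxa⟩ := hr (A.s i) (A.seg (i + 1) k) ⟨[], _, by rw [hsegs]; rfl⟩
      exact hxa (hu x hx)
    obtain ⟨w', hl, hp⟩ := RACG.exists_shorter hnr
    have := hmin w' (u * A.x i) (by rw [hp]; exact hrotc i)
    rw [PSeq.length_seg] at hl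
    omega
  · have hkn' : n = 1 + k := by omega
    have hsegs : A.seg i n = A.s i :: A.seg (i + 1) k := by
      rw [hkn', PSeq.seg_add]
      have e1 : A.seg i 1 = [A.s i] := by simp [PSeq.seg]
      rw [e1]; rfl
    have hpar : RACG.parity Γ (A.s i) c = Multiplicative.ofAdd 1 := by
      rw [hrotc i, RACG.parity_conj, hsegs, RACG.prod_cons, map_mul, RACG.parity_of_self]
      have : ∀ l : List V, (∀ x ∈ l, Γ.Adj x (A.s i)) → RACG.parity Γ (A.s i) (RACG.prod Γ l) = 1 := by
        intro l hl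
        induction l with
        | nil => simp
        | cons y l ih =>
          rw [RACG.prod_cons, map_mul, ih (fun x hx => hl x (by simp [hx])), mul_one]
          exact RACG.parity_of_ne (hl y (by simp)).ne
      rw [this _ hu, mul_one]
    rw [RACG.mem_ev.1 hc] at hpar
    revert hpar; decide

end Pool.Agent.H41.VS
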