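import Mathlib
import Pool.Agent.H41.VS.Axis

/-!
# The toggle action of `RACG Γ` on sets of integers attached to an axis
-/

set_option autoImplicit false

namespace Pool.Agent.H41.VS

open Function

variable {V : Type*} {Γ : SimpleGraph V}

namespace PSeq

variable (A : PSeq Γ)

/-- `i` is the index toggled by the letter `v` in the state `I` -/
def Tog (I : Set ℤ) (v : V) (i : ℤ) : Prop :=
  A.s i = v ∧ ∀ j, j ≠ i → ¬ Γ.Adj (A.s j) v → (j ∈ I ↔ j < i)

variable {A}

theorem Tog.unique (hA : A.Red) {I : Set ℤ} {v : V} {i i' : ℤ} (h : A.Tog I v i)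
    (h' : A.Tog I v i') : i = i' := by
  have key : ∀ {i i' : ℤ}, A.Tog I v i → A.Tog I v i' → ¬ i < i' := by
    intro i i' h h' hlt
    obtain ⟨l, h1, h2, h3, h4⟩ := hA i i' hlt (h.1.trans h'.1.symm)
    rw [h.1] at h4
    have e1 := h.2 l (by omega) h4
    have e2 := h'.2 l (by omega) h4
    have : l < i := e1.1 (e2.2 h2)
    omega
  rcases lt_trichotomy i i' with hlt | heq | hlt
  · exact absurd hlt (key h h')
  · exact heq
  · exact absurd hlt (key h' h)

theorem tog_congr {I J : Set ℤ} {v : V} {i : ℤ}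
    (h : ∀ j, j ≠ i → ¬ Γ.Adj (A.s j) v → (j ∈ I ↔ j ∈ J)) : A.Tog I v i ↔ A.Tog J v i := by
  unfold Tog
  constructor
  · rintro ⟨h1, h2⟩
    exact ⟨h1, fun j hj hn => (h j hj hn).symm.trans (h2 j hj hn)⟩
  · rintro ⟨h1, h2⟩
    exact ⟨h1, fun j hj hn => (h j hj hn).trans (h2 j hj hn)⟩

variable (A)

/-- the toggle -/
def tog (v : V) (I : Set ℤ) : Set ℤ := {j | ¬ (j ∈ I ↔ A.Tog I v j)}

variable {A}

theorem mem_tog {v : V} {I : Set ℤ} {j : ℤ} : j ∈ A.tog v I ↔ ¬ (j ∈ I ↔ A.Tog I v j) := Iff.rfl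

theorem mem_tog_of_ne {v : V} {I : Set ℤ} {j : ℤ} (h : ¬ A.Tog I v j) :
    j ∈ A.tog v I ↔ j ∈ I := by
  rw [mem_tog]; tauto

theorem mem_tog_of_tog {v : V} {I : Set ℤ} {j : ℤ} (h : A.Tog I v j) :
    j ∈ A.tog v I ↔ j ∉ I := by
  rw [mem_tog]; tauto

theorem mem_tog_of_s_ne {v : V} {I : Set ℤ} {j : ℤ} (h : A.s j ≠ v) :
    j ∈ A.tog v I ↔ j ∈ I := mem_tog_of_ne fun h' => h h'.1

theorem tog_tog_iff (hA : A.Red) {v : V} {I : Set ℤ} {i : ℤ} :
    A.Tog (A.tog v I) v i ↔ A.Tog I v i := by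
  by_cases hex : ∃ i₀, A.Tog I v i₀
  · obtain ⟨i₀, h₀⟩ := hex
    have h1 : A.Tog (A.tog v I) v i₀ := by
      refine (tog_congr ?_).1 h₀
      intro j hj _
      exact (mem_tog_of_ne fun h => hj (h.unique hA h₀)).symm
    constructor
    · intro h; rw [h.unique hA h1]; exact h₀
    · intro h; rw [h.unique hA h₀]; exact h1
  · push Not at hex
    have : A.tog v I = I := by
      ext j; exact mem_tog_of_ne (hex j)
    rw [this]

theorem tog_tog (hA : A.Red) (v : V) (I : Set ℤ) : A.tog v (A.tog v I) = I := by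
  ext j
  rw [mem_tog, tog_tog_iff hA, mem_tog]
  tauto

theorem tog_of_adj_iff {u v : V} (h : Γ.Adj u v) {I : Set ℤ} {i : ℤ} :
    A.Tog (A.tog v I) u i ↔ A.Tog I u i := by
  apply tog_congr
  intro j _ hn
  apply mem_tog_of_s_ne
  rintro rfl
  exact hn h.symm

theorem tog_comm {u v : V} (h : Γ.Adj u v) (I : Set ℤ) :
    A.tog u (A.tog v I) = A.tog v (A.tog u I) := by
  ext j
  have e1 := tog_of_adj_iff (A := A) h (I := I) (i := j)
  have e2 := tog_of_adj_iff (A := A) h.symm (I := I) (i := j)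
  simp only [mem_tog, e1, e2]
  tauto

/-- the toggle action (from the left) -/
noncomputable def T (A : PSeq Γ) (hA : A.Red) : RACG Γ →* Equiv.Perm (Set ℤ) :=
  RACG.lift (fun v => ⟨A.tog v, A.tog v, tog_tog hA v, tog_tog hA v⟩)
    (fun v => by ext1 I; exact tog_tog hA v I)
    (fun u v h => by ext1 I; exact tog_comm h I)

/-- the toggle action (from the right) -/
noncomputable def star (A : PSeq Γ) (hA : A.Red) (I : Set ℤ) (w : RACG Γ) : Set ℤ :=
  A.T hA w⁻¹ I

@[simp] theorem star_one (hA : A.Red) (I : Set ℤ) : A.star hA I 1 = I := by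
  simp [star]

theorem star_mul (hA : A.Red) (I : Set ℤ) (x y : RACG Γ) :
    A.star hA I (x * y) = A.star hA (A.star hA I x) y := by
  simp [star, mul_inv_rev]

@[simp] theorem star_of (hA : A.Red) (I : Set ℤ) (v : V) :
    A.star hA I (RACG.of Γ v) = A.tog v I := by
  rw [star, RACG.of_inv, T, RACG.lift_of]; rfl

theorem star_mul_of (hA : A.Red) (I : Set ℤ) (x : RACG Γ) (v : V) :
    A.star hA I (x * RACG.of Γ v) = A.tog v (A.star hA I x) := by
  rw [star_mul, star_of]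

theorem tog_Iio_iff (i : ℤ) : A.Tog (Set.Iio i) (A.s i) i :=
  ⟨rfl, fun _ _ _ => Iff.rfl⟩

theorem tog_Iio (hA : A.Red) (i : ℤ) : A.tog (A.s i) (Set.Iio i) = Set.Iio (i + 1) := by
  ext j
  by_cases h : j = i
  · subst h
    rw [mem_tog_of_tog (tog_Iio_iff j)]
    simp
  · rw [mem_tog_of_ne fun h' => h (h'.unique hA (tog_Iio_iff i))]
    simp only [Set.mem_Iio]; omega

theorem star_x (hA : A.Red) (i : ℤ) : A.star hA (Set.Iio 0) (A.x i) = Set.Iio i := by
  induction i using Int.induction_on with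
  | zero => rw [A.x0, star_one]
  | succ k ih => rw [A.xs, star_mul_of, ih, tog_Iio hA]
  | pred k ih =>
    have h1 := A.xs' (-(k : ℤ) - 1)
    rw [sub_add_cancel] at h1
    rw [h1, star_mul_of, ih]
    have h2 := tog_Iio hA (-(k : ℤ) - 1)
    rw [sub_add_cancel] at h2
    rw [← h2, tog_tog hA]

theorem star_Iio_x (hA : A.Red) (i j : ℤ) :
    A.star hA (Set.Iio i) ((A.x i)⁻¹ * A.x j) = Set.Iio j := by
  rw [← star_x hA i, ← star_mul, mul_inv_cancel_left, star_x]

/-- shifts -/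
def sh (A : PSeq Γ) (D : ℤ) (I : Set ℤ) : Set ℤ := {j | j - A.n * D ∈ I}

theorem mem_sh {D : ℤ} {I : Set ℤ} {j : ℤ} : j ∈ A.sh D I ↔ j - A.n * D ∈ I := Iff.rfl

theorem sh_zero (I : Set ℤ) : A.sh 0 I = I := by ext j; simp [mem_sh]

theorem sh_sh (D E : ℤ) (I : Set ℤ) : A.sh D (A.sh E I) = A.sh (D + E) I := by
  ext j; rw [mem_sh, mem_sh, mem_sh]
  have : j - A.n * D - A.n * E = j - A.n * (D + E) := by ring
  rw [this]

theorem sh_Iio (D i : ℤ) : A.sh D (Set.Iio i) = Set.Iio (i + A.n * D) := by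
  ext j; rw [mem_sh, Set.mem_Iio, Set.mem_Iio]; constructor <;> intro h <;> linarith

theorem s_sub (j D : ℤ) : A.s (j - A.n * D) = A.s j := by
  have := A.per_mul (j - A.n * D) D
  rw [← this]; congr 1; ring

theorem tog_sh_iff {D : ℤ} {I : Set ℤ} {v : V} {i : ℤ} :
    A.Tog (A.sh D I) v i ↔ A.Tog I v (i - A.n * D) := by
  unfold Tog
  rw [s_sub]
  constructor
  · rintro ⟨h1, h2⟩
    refine ⟨h1, fun j hj hn => ?_⟩
    have h3 := h2 (j + A.n * D) (by intro h; apply hj; linarith) (by rwa [A.per_mul])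
    rw [mem_sh, add_sub_cancel_right] at h3
    rw [h3]; constructor <;> intro h <;> linarith
  · rintro ⟨h1, h2⟩
    refine ⟨h1, fun j hj hn => ?_⟩
    have h3 := h2 (j - A.n * D) (by intro h; apply hj; linarith) (by rwa [s_sub])
    rw [mem_sh, h3]; constructor <;> intro h <;> linarith

theorem tog_sh (D : ℤ) (v : V) (I : Set ℤ) : A.tog v (A.sh D I) = A.sh D (A.tog v I) := by
  ext j
  rw [mem_tog, mem_sh, tog_sh_iff, mem_sh, mem_tog]

theorem T_sh (hA : A.Red) (D : ℤ) (w : RACG Γ) (I : Set ℤ) :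
    A.T hA w (A.sh D I) = A.sh D (A.T hA w I) := by
  induction w using RACG.induction_on with
  | one => simp
  | mul v x ih =>
    rw [map_mul, Equiv.Perm.mul_apply, Equiv.Perm.mul_apply, ih]
    have h1 : ∀ J, A.T hA (RACG.of Γ v) J = A.tog v J := by
      intro J; rw [T, RACG.lift_of]; rfl
    rw [h1, h1, tog_sh]

theorem star_sh (hA : A.Red) (D : ℤ) (w : RACG Γ) (I : Set ℤ) :
    A.star hA (A.sh D I) w = A.sh D (A.star hA I w) := T_sh hA D _ I

/-! ## components -/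

/-- `κ` is closed under non-adjacency inside the support of the axis -/
def IsComp (A : PSeq Γ) (κ : Set V) : Prop :=
  ∀ i j, A.s i ∈ κ → ¬ Γ.Adj (A.s j) (A.s i) → A.s j ∈ κ

/-- agreement on the component -/
def Agree (A : PSeq Γ) (κ : Set V) (I J : Set ℤ) : Prop := ∀ j, A.s j ∈ κ → (j ∈ I ↔ j ∈ J)

theorem Agree.refl (κ : Set V) (I : Set ℤ) : A.Agree κ I I := fun _ _ => Iff.rfl

theorem Agree.symm {κ : Set V} {I J : Set ℤ} (h : A.Agree κ I J) : A.Agree κ J I :=
  fun j hj => (h j hj).symm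

theorem Agree.trans {κ : Set V} {I J K : Set ℤ} (h : A.Agree κ I J) (h' : A.Agree κ J K) :
    A.Agree κ I K := fun j hj => (h j hj).trans (h' j hj)

theorem Agree.sh {κ : Set V} {I J : Set ℤ} (h : A.Agree κ I J) (D : ℤ) :
    A.Agree κ (A.sh D I) (A.sh D J) := fun j hj => by
  rw [mem_sh, mem_sh]; exact h _ (by rwa [s_sub])

theorem Agree.tog_iff {κ : Set V} (hκ : A.IsComp κ) {I J : Set ℤ} (h : A.Agree κ I J)
    {i : ℤ} (hi : A.s i ∈ κ) {v : V} : A.Tog I v i ↔ A.Tog J v i := by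
  constructor
  · rintro ⟨h1, h2⟩
    refine ⟨h1, fun j hj hn => ?_⟩
    rw [← h2 j hj hn]
    exact (h j (hκ i j hi (by rwa [h1]))).symm
  · rintro ⟨h1, h2⟩
    refine ⟨h1, fun j hj hn => ?_⟩
    rw [← h2 j hj hn]
    exact (h j (hκ i j hi (by rwa [h1])))

theorem Agree.tog {κ : Set V} (hκ : A.IsComp κ) {I J : Set ℤ} (h : A.Agree κ I J)
    (v : V) : A.Agree κ (A.tog v I) (A.tog v J) := by
  intro j hj
  rw [mem_tog, mem_tog, h j hj, h.tog_iff hκ hj]

theorem Agree.T {κ : Set V} (hA : A.Red) (hκ : A.IsComp κ) {I J : Set ℤ} (h : A.Agree κ I J)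
    (w : RACG Γ) : A.Agree κ (A.T hA w I) (A.T hA w J) := by
  induction w using RACG.induction_on with
  | one => simpa using h
  | mul v x ih =>
    rw [map_mul, Equiv.Perm.mul_apply, Equiv.Perm.mul_apply]
    have h1 : ∀ J, A.T hA (RACG.of Γ v) J = A.tog v J := by
      intro J; rw [PSeq.T, RACG.lift_of]; rfl
    rw [h1, h1]
    exact ih.tog hκ v

theorem Agree.star {κ : Set V} (hA : A.Red) (hκ : A.IsComp κ) {I J : Set ℤ}
    (h : A.Agree κ I J) (w : RACG Γ) : A.Agree κ (A.star hA I w) (A.star hA J w) :=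
  h.T hA hκ w⁻¹

/-- states: lower sets (on the component) which are neither empty nor full -/
def IsState (A : PSeq Γ) (κ : Set V) (I : Set ℤ) : Prop :=
  (∀ i ∈ I, A.s i ∈ κ → ∀ j < i, ¬ Γ.Adj (A.s j) (A.s i) → j ∈ I) ∧
  (∃ a, ∀ j < a, A.s j ∈ κ → j ∈ I) ∧ (∃ b, ∀ j, b ≤ j → A.s j ∈ κ → j ∉ I)

theorem isState_Iio (κ : Set V) (i : ℤ) : A.IsState κ (Set.Iio i) :=
  ⟨fun j hj _ k hk _ => lt_trans hk hj, ⟨i, fun j hj _ => hj⟩, ⟨i, fun j hj _ h => by
    simp only [Set.mem_Iio] at h; omega⟩⟩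

theorem IsState.tog {κ : Set V} (hA : A.Red) {I : Set ℤ} (h : A.IsState κ I)
    (v : V) : A.IsState κ (A.tog v I) := by
  by_cases hex : ∃ i₀, A.Tog I v i₀
  · obtain ⟨i₀, h₀⟩ := hex
    have hne : ∀ j, j ≠ i₀ → (j ∈ A.tog v I ↔ j ∈ I) := fun j hj =>
      mem_tog_of_ne fun h => hj (h.unique hA h₀)
    refine ⟨?_, ?_, ?_⟩
    · intro i hi hiκ j hj hn
      by_cases h1 : i = i₀
      · subst h1
        rw [hne j (by omega)]
        rw [h₀.1] at hn
        exact (h₀.2 j (by omega) hn).2 hj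
      · rw [hne i h1] at hi
        have hj' := h.1 i hi hiκ j hj hn
        by_cases h2 : j = i₀
        · subst h2
          exfalso
          have hn' : ¬ Γ.Adj (A.s i) v := by
            rw [← h₀.1]; exact fun h => hn h.symm
          have := (h₀.2 i h1 hn').1 hi
          omega
        · rwa [hne j h2]
    · obtain ⟨a, ha⟩ := h.2.1
      refine ⟨min a i₀, fun j hj hκj => ?_⟩
      rw [hne j (by have := lt_min_iff.1 hj; omega)]
      exact ha j (lt_min_iff.1 hj).1 hκj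
    · obtain ⟨b, hb⟩ := h.2.2
      refine ⟨max b (i₀ + 1), fun j hj hκj => ?_⟩
      have hj' := max_le_iff.1 hj
      rw [hne j (by omega)]
      exact hb j hj'.1 hκj
  · push Not at hex
    have : A.tog v I = I := by
      ext j; exact mem_tog_of_ne (hex j)
    rwa [this]

theorem IsState.T {κ : Set V} (hA : A.Red) {I : Set ℤ} (h : A.IsState κ I)
    (w : RACG Γ) : A.IsState κ (A.T hA w I) := by
  induction w using RACG.induction_on with
  | one => simpa using h
  | mul v x ih =>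
    rw [map_mul, Equiv.Perm.mul_apply]
    have h1 : ∀ J, A.T hA (RACG.of Γ v) J = A.tog v J := by
      intro J; rw [PSeq.T, RACG.lift_of]; rfl
    rw [h1]
    exact ih.tog hA v

end PSeq

end Pool.Agent.H41.VS
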