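import Mathlib
import Pool.Agent.H41.VS.Toggle

/-!
# Finiteness of the set of states modulo shifts, and the finite-index subgroups `kk`
-/

set_option autoImplicit false

namespace Pool.Agent.H41.VS

open Function

variable {V : Type*} {Γ : SimpleGraph V}

namespace PSeq

variable (A : PSeq Γ)

/-- non-adjacency inside the support -/
def NR (a b : V) : Prop := a ∈ Set.range A.s ∧ b ∈ Set.range A.s ∧ ¬ Γ.Adj b a

/-- component of the letter `v₀` -/
def comp (v₀ : V) : Set V := {u | Relation.ReflTransGen A.NR v₀ u}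

variable {A}

theorem NR.symm {a b : V} (h : A.NR a b) : A.NR b a := ⟨h.2.1, h.1, fun h' => h.2.2 h'.symm⟩

theorem isComp_comp (v₀ : V) : A.IsComp (A.comp v₀) := by
  intro i j hi hn
  exact Relation.ReflTransGen.tail hi ⟨⟨i, rfl⟩, ⟨j, rfl⟩, hn⟩

theorem self_mem_comp (v₀ : V) : v₀ ∈ A.comp v₀ := Relation.ReflTransGen.refl

theorem nr_of_mem_comp {v₀ u u' : V} (h : u ∈ A.comp v₀) (h' : u' ∈ A.comp v₀) :
    Relation.ReflTransGen A.NR u u' := by
  have hs : Std.Symm A.NR := ⟨fun a b h => h.symm⟩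
  have h1 : Relation.ReflTransGen A.NR u v₀ := Relation.ReflTransGen.stdSymm.symm _ _ h
  exact h1.trans h'

/-- lower sets -/
def Low (A : PSeq Γ) (κ : Set V) (I : Set ℤ) : Prop :=
  ∀ i ∈ I, A.s i ∈ κ → ∀ j < i, ¬ Γ.Adj (A.s j) (A.s i) → j ∈ I

theorem exists_prev (i k : ℤ) : ∃ i', i - A.n ≤ i' ∧ i' < i ∧ A.s i' = A.s k := by
  have hn : (0 : ℤ) < A.n := by exact_mod_cast A.npos
  have h1 := Int.emod_nonneg (i - 1 - k) (b := (A.n : ℤ)) (by omega)
  have h2 := Int.emod_lt_of_pos (i - 1 - k) hn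
  refine ⟨i - 1 - ((i - 1 - k) % A.n), by omega, by omega, ?_⟩
  have h3 := Int.emod_add_mul_ediv (i - 1 - k) A.n
  have : i - 1 - ((i - 1 - k) % A.n) = k + A.n * ((i - 1 - k) / A.n) := by linarith
  rw [this, A.per_mul]

theorem exists_chain_const (κ : Set V) (hκ : A.IsComp κ) {u v : V} (hu : u ∈ κ)
    (h : Relation.ReflTransGen A.NR u v) :
    ∃ R : ℤ, 0 ≤ R ∧ ∀ I, A.Low κ I → ∀ i j, A.s i = u → A.s j = v → j ≤ i - R → i ∈ I → j ∈ I := by
  induction h using Relation.ReflTransGen.head_induction_on with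
  | refl =>
    refine ⟨0, le_refl _, fun I hI i j hi hj hle hm => ?_⟩
    rcases eq_or_lt_of_le (show j ≤ i by omega) with h | h
    · rwa [h]
    · exact hI i hm (by rwa [hi]) j h (by rw [hi, hj]; exact Γ.irrefl)
  | head hac hcb ih =>
    rename_i a c
    obtain ⟨⟨ka, hka⟩, ⟨kc, hkc⟩, hnadj⟩ := hac
    have hc : c ∈ κ := by
      rw [← hkc]
      exact hκ ka kc (by rwa [hka]) (by rwa [hka, hkc])
    obtain ⟨R, hR, hRI⟩ := ih hc
    refine ⟨A.n + R, by positivity, fun I hI i j hi hj hle hm => ?_⟩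
    obtain ⟨i', h1, h2, h3⟩ := exists_prev (A := A) i kc
    have hi' : i' ∈ I := hI i hm (by rwa [hi]) i' h2 (by rw [h3, hkc, hi]; exact hnadj)
    exact hRI I hI i' j (h3.trans hkc) hj (by linarith) hi'

theorem exists_rep (k : ℤ) : ∃ a : Fin A.n, A.s k = A.s (a : ℕ) := by
  have hn : (0 : ℤ) < A.n := by exact_mod_cast A.npos
  have h1 := Int.emod_nonneg k (b := (A.n : ℤ)) (by omega)
  have h2 := Int.emod_lt_of_pos k hn
  refine ⟨⟨(k % A.n).toNat, by omega⟩, ?_⟩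
  have h3 := Int.emod_add_mul_ediv k A.n
  have : (((k % A.n).toNat : ℕ) : ℤ) = k % A.n := by omega
  simp only [this]
  conv_lhs => rw [← h3, A.per_mul]

theorem exists_chain_unif (v₀ : V) : ∃ R : ℤ, 0 ≤ R ∧ ∀ I, A.Low (A.comp v₀) I → ∀ i j,
    A.s i ∈ A.comp v₀ → A.s j ∈ A.comp v₀ → j ≤ i - R → i ∈ I → j ∈ I := by
  classical
  have h : ∀ p : Fin A.n × Fin A.n, ∃ R : ℤ, 0 ≤ R ∧ (A.s (p.1 : ℕ) ∈ A.comp v₀ →
      A.s (p.2 : ℕ) ∈ A.comp v₀ → ∀ I, A.Low (A.comp v₀) I → ∀ i j,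
      A.s i = A.s (p.1 : ℕ) → A.s j = A.s (p.2 : ℕ) → j ≤ i - R → i ∈ I → j ∈ I) := by
    rintro ⟨a, b⟩
    by_cases h1 : A.s (a : ℕ) ∈ A.comp v₀ ∧ A.s (b : ℕ) ∈ A.comp v₀
    · obtain ⟨R, hR, hRI⟩ := exists_chain_const (A.comp v₀) (isComp_comp v₀) h1.1
        (nr_of_mem_comp h1.1 h1.2)
      exact ⟨R, hR, fun _ _ => hRI⟩
    · exact ⟨0, le_refl _, fun h2 h3 => absurd ⟨h2, h3⟩ h1⟩
  choose R hR0 hR using h
  refine ⟨∑ p, R p, Finset.sum_nonneg fun p _ => hR0 p, fun I hI i j hi hj hle hm => ?_⟩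
  obtain ⟨a, ha⟩ := exists_rep (A := A) i
  obtain ⟨b, hb⟩ := exists_rep (A := A) j
  refine hR (a, b) (by rwa [← ha]) (by rwa [← hb]) I hI i j ha hb ?_ hm
  have := Finset.single_le_sum (f := R) (fun p _ => hR0 p) (Finset.mem_univ (a, b))
  linarith

/-- states modulo shifts -/
def stSetoid (A : PSeq Γ) (κ : Set V) : Setoid {I : Set ℤ // A.IsState κ I} where
  r I J := ∃ D, A.Agree κ I.1 (A.sh D J.1)
  iseqv := by
    refine ⟨fun I => ⟨0, by rw [sh_zero]; exact Agree.refl _ _⟩, ?_, ?_⟩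
    · rintro I J ⟨D, h⟩
      refine ⟨-D, ?_⟩
      have := h.sh (-D)
      rw [sh_sh, neg_add_cancel, sh_zero] at this
      exact this.symm
    · rintro I J K ⟨D, h⟩ ⟨E, h'⟩
      refine ⟨D + E, h.trans ?_⟩
      have := h'.sh D
      rwa [sh_sh] at this

theorem exists_normal_shift (v₀ : V) (hv₀ : v₀ ∈ Set.range A.s) : ∃ R : ℤ, ∀ I : Set ℤ,
    A.IsState (A.comp v₀) I → ∃ D, (∀ j, (A.n : ℤ) ≤ j → A.s j ∈ A.comp v₀ → j ∉ A.sh D I) ∧
      ∀ j, j ≤ -R → A.s j ∈ A.comp v₀ → j ∈ A.sh D I := by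
  obtain ⟨R, hR, hRI⟩ := exists_chain_unif (A := A) v₀
  refine ⟨R, fun I hI => ?_⟩
  have hn : (0 : ℤ) < A.n := by exact_mod_cast A.npos
  obtain ⟨h1, ⟨a, ha⟩, ⟨b, hb⟩⟩ := hI
  obtain ⟨k, hk⟩ := hv₀
  -- maximal element
  have hex : ∃ M, (M ∈ I ∧ A.s M ∈ A.comp v₀) ∧ ∀ z, (z ∈ I ∧ A.s z ∈ A.comp v₀) → z ≤ M := by
    apply Int.exists_greatest_of_bdd
    · refine ⟨b, fun z hz => ?_⟩
      by_contra hcon
      exact hb z (by omega) hz.2 hz.1
    · obtain ⟨i', -, h3, h4⟩ := exists_prev (A := A) a k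
      have : A.s i' ∈ A.comp v₀ := by rw [h4, hk]; exact self_mem_comp v₀
      exact ⟨i', ha i' h3 this, this⟩
  obtain ⟨M, ⟨hM1, hM2⟩, hM3⟩ := hex
  have e1 := Int.emod_nonneg M (b := (A.n : ℤ)) (by omega)
  have e2 := Int.emod_lt_of_pos M hn
  have e3 := Int.emod_add_mul_ediv M A.n
  refine ⟨-(M / A.n), ?_, ?_⟩
  · intro j hj hjκ hmem
    rw [mem_sh] at hmem
    have e4 : j - A.n * -(M / A.n) = j + A.n * (M / A.n) := by ring
    rw [e4] at hmem
    have := hM3 _ ⟨hmem, by rwa [A.per_mul]⟩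
    linarith
  · intro j hj hjκ
    rw [mem_sh]
    have e4 : j - A.n * -(M / A.n) = j + A.n * (M / A.n) := by ring
    rw [e4]
    refine hRI I h1 M _ hM2 (by rwa [A.per_mul]) ?_ hM1
    linarith

theorem finite_quotient (v₀ : V) (hv₀ : v₀ ∈ Set.range A.s) :
    Finite (Quotient (A.stSetoid (A.comp v₀))) := by
  classical
  obtain ⟨R, hR⟩ := exists_normal_shift (A := A) v₀ hv₀
  choose D hD1 hD2 using hR
  let f : Quotient (A.stSetoid (A.comp v₀)) → Set (Finset.Icc (-R) (A.n : ℤ)) :=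
    fun q => {j | j.1 ∈ A.sh (D q.out.1 q.out.2) q.out.1}
  apply Finite.of_injective f
  intro q q' h
  have h1 : A.Agree (A.comp v₀) (A.sh (D q.out.1 q.out.2) q.out.1)
      (A.sh (D q'.out.1 q'.out.2) q'.out.1) := by
    intro j hj
    rcases lt_or_ge j (-R) with hlt | hge
    · exact iff_of_true (hD2 _ _ j (by omega) hj) (hD2 _ _ j (by omega) hj)
    · rcases lt_or_ge (A.n : ℤ) j with hlt' | hge'
      · exact iff_of_false (hD1 _ _ j (by omega) hj) (hD1 _ _ j (by omega) hj)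
      · have := Set.ext_iff.1 h ⟨j, Finset.mem_Icc.2 ⟨hge, hge'⟩⟩
        exact this
  have h2 := h1.sh (-(D q.out.1 q.out.2))
  rw [sh_sh, sh_sh, neg_add_cancel, sh_zero] at h2
  have h3 : (A.stSetoid (A.comp v₀)).r q.out q'.out := ⟨_, h2⟩
  rw [← q.out_eq, ← q'.out_eq]
  exact Quotient.sound h3

/-- the action on states modulo shifts -/
noncomputable def qHom (A : PSeq Γ) (hA : A.Red) (κ : Set V) (hκ : A.IsComp κ) :
    RACG Γ →* Equiv.Perm (Quotient (A.stSetoid κ)) := by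
  letI : MulAction (RACG Γ) (Quotient (A.stSetoid κ)) :=
    { smul := fun w q => Quotient.map (fun I => (⟨A.T hA w I.1, I.2.T hA w⟩ :
          {I : Set ℤ // A.IsState κ I})) (by
            rintro I J ⟨D, h⟩
            refine ⟨D, ?_⟩
            have := h.T hA hκ w
            rwa [T_sh] at this) q
      one_smul := by
        intro q
        induction q using Quotient.ind with
        | _ I =>
          apply Quotient.sound
          refine ⟨0, ?_⟩
          simp only [map_one, Equiv.Perm.coe_one, id_eq]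
          rw [sh_zero]
          exact Agree.refl _ _
      mul_smul := by
        intro a b q
        induction q using Quotient.ind with
        | _ I =>
          apply Quotient.sound
          refine ⟨0, ?_⟩
          simp only [map_mul, Equiv.Perm.coe_mul, comp_apply]
          rw [sh_zero]
          exact Agree.refl _ _ }
  exact MulAction.toPermHom _ _

theorem qHom_mk (hA : A.Red) (κ : Set V) (hκ : A.IsComp κ) (w : RACG Γ)
    (I : {I : Set ℤ // A.IsState κ I}) :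
    A.qHom hA κ hκ w (Quotient.mk _ I) = Quotient.mk _ ⟨A.T hA w I.1, I.2.T hA w⟩ := rfl

/-- the elements acting trivially on states modulo shifts -/
noncomputable def kk (A : PSeq Γ) (hA : A.Red) (v₀ : V) : Subgroup (RACG Γ) :=
  (A.qHom hA (A.comp v₀) (isComp_comp v₀)).ker

instance (hA : A.Red) (v₀ : V) : (A.kk hA v₀).Normal := by
  unfold kk; infer_instance

theorem finiteIndex_kk (hA : A.Red) (v₀ : V) (hv₀ : v₀ ∈ Set.range A.s) :
    (A.kk hA v₀).FiniteIndex := by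
  have := finite_quotient (A := A) v₀ hv₀
  unfold kk
  infer_instance

theorem exists_shift_of_mem_kk (hA : A.Red) {v₀ : V} {k : RACG Γ} (hk : k ∈ A.kk hA v₀)
    {I : Set ℤ} (hI : A.IsState (A.comp v₀) I) :
    ∃ D, A.Agree (A.comp v₀) (A.star hA I k) (A.sh D I) := by
  have h1 : k⁻¹ ∈ A.kk hA v₀ := inv_mem hk
  have h2 := MonoidHom.mem_ker.1 h1
  have h3 := DFunLike.congr_fun h2 (Quotient.mk _ ⟨I, hI⟩)
  rw [qHom_mk] at h3
  exact Quotient.exact h3

theorem Agree.eq_of_sh_Iio {v₀ : V} (hv₀ : v₀ ∈ Set.range A.s) {D E i : ℤ}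
    (h : A.Agree (A.comp v₀) (A.sh D (Set.Iio i)) (A.sh E (Set.Iio i))) : D = E := by
  have hn : (0 : ℤ) < A.n := by exact_mod_cast A.npos
  have key : ∀ D E : ℤ, A.Agree (A.comp v₀) (A.sh D (Set.Iio i)) (A.sh E (Set.Iio i)) →
      ¬ D < E := by
    intro D E h hlt
    obtain ⟨k, hk⟩ := hv₀
    obtain ⟨i', h1, h2, h3⟩ := exists_prev (A := A) (i + A.n * E) k
    have h4 := h i' (by rw [h3, hk]; exact self_mem_comp v₀)
    rw [sh_Iio, sh_Iio, Set.mem_Iio, Set.mem_Iio] at h4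
    have h5 := h4.2 h2
    have h6 : (D + 1) ≤ E := hlt
    nlinarith
  rcases lt_trichotomy D E with h1 | h1 | h1
  · exact absurd h1 (key D E h)
  · exact h1
  · exact absurd h1 (key E D h.symm)

/-- the displacement of an element of `kk` along the component -/
noncomputable def disp (A : PSeq Γ) (hA : A.Red) (v₀ : V) (k : A.kk hA v₀) : ℤ :=
  (exists_shift_of_mem_kk hA k.2 (isState_Iio _ 0)).choose

theorem disp_spec (hA : A.Red) (v₀ : V) (k : A.kk hA v₀) :
    A.Agree (A.comp v₀) (A.star hA (Set.Iio 0) k) (Set.Iio (A.n * A.disp hA v₀ k)) := by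
  have := (exists_shift_of_mem_kk hA k.2 (isState_Iio _ 0)).choose_spec
  rw [sh_Iio, zero_add] at this
  exact this

theorem disp_eq (hA : A.Red) {v₀ : V} (hv₀ : v₀ ∈ Set.range A.s) (k : A.kk hA v₀) {D : ℤ}
    (h : A.Agree (A.comp v₀) (A.star hA (Set.Iio 0) k) (Set.Iio (A.n * D))) :
    A.disp hA v₀ k = D := by
  have h1 := (disp_spec hA v₀ k).symm.trans h
  apply Agree.eq_of_sh_Iio (A := A) hv₀ (i := 0)
  rw [sh_Iio, sh_Iio, zero_add, zero_add]
  exact h1

theorem disp_mul (hA : A.Red) {v₀ : V} (hv₀ : v₀ ∈ Set.range A.s) (k k' : A.kk hA v₀) :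
    A.disp hA v₀ (k * k') = A.disp hA v₀ k + A.disp hA v₀ k' := by
  apply disp_eq hA hv₀
  have h1 := (disp_spec hA v₀ k).star hA (isComp_comp v₀) (k' : RACG Γ)
  have h2 := (disp_spec hA v₀ k').sh (A.disp hA v₀ k)
  rw [← star_sh, sh_Iio, sh_Iio, zero_add] at h2
  have h3 := h1.trans h2
  rw [← star_mul] at h3
  have e : A.n * (A.disp hA v₀ k + A.disp hA v₀ k') =
    A.n * A.disp hA v₀ k' + A.n * A.disp hA v₀ k := by ring
  rw [e]
  exact h3

/-- the displacement homomorphism -/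
noncomputable def dispHom (A : PSeq Γ) (hA : A.Red) (v₀ : V) (hv₀ : v₀ ∈ Set.range A.s) :
    A.kk hA v₀ →* Multiplicative ℤ where
  toFun k := Multiplicative.ofAdd (A.disp hA v₀ k)
  map_one' := by
    have : A.disp hA v₀ 1 = 0 := by
      apply disp_eq hA hv₀
      simp only [OneMemClass.coe_one, star_one, mul_zero]
      exact Agree.refl _ _
    rw [this]; rfl
  map_mul' k k' := by
    rw [disp_mul hA hv₀]; rfl

theorem disp_zpow_c (hA : A.Red) {v₀ : V} (hv₀ : v₀ ∈ Set.range A.s) (D : ℤ)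
    (h : A.c ^ D ∈ A.kk hA v₀) : A.disp hA v₀ ⟨A.c ^ D, h⟩ = D := by
  apply disp_eq hA hv₀
  change A.Agree _ (A.star hA (Set.Iio 0) (A.c ^ D)) _
  rw [← A.x_mul, star_x]
  exact Agree.refl _ _

theorem c_zpow_ne_one (hA : A.Red) {D : ℤ} (hD : D ≠ 0) : A.c ^ D ≠ 1 := by
  intro h
  have h1 := star_x hA (A.n * D)
  rw [A.x_mul, h, star_one] at h1
  have hn : (0 : ℤ) < A.n := by exact_mod_cast A.npos
  have h2 : (0 : ℤ) = A.n * D := by
    have e1 : ∀ a b : ℤ, Set.Iio a = Set.Iio b → a ≤ b := by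
      intro a b hab
      by_contra hlt
      have : b ∈ Set.Iio a := by simp only [Set.mem_Iio]; omega
      rw [hab] at this
      simp at this
    exact le_antisymm (e1 _ _ h1) (e1 _ _ h1.symm)
  rcases mul_eq_zero.1 h2.symm with h3 | h3
  · omega
  · exact hD h3

/-! ## the stabiliser lemma -/

/-- effect of an element of the star of `v` on a state in which `v` toggles `i₀` -/
theorem star_of_mem_st (hA : A.Red) {v : V} {w : RACG Γ} (hw : w ∈ RACG.st Γ v) :
    ∀ {I : Set ℤ} {i₀ : ℤ}, A.Tog I v i₀ → A.Tog (A.star hA I w) v i₀ ∧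
      (RACG.parity Γ v w = 1 → (i₀ ∈ A.star hA I w ↔ i₀ ∈ I)) ∧
      (RACG.parity Γ v w ≠ 1 → (i₀ ∈ A.star hA I w ↔ i₀ ∉ I)) := by
  obtain ⟨l, hl, rfl⟩ := RACG.exists_word_of_mem_par hw
  clear hw
  induction l with
  | nil => intro I i₀ h; simpa using h
  | cons a l ih =>
    intro I i₀ h
    have ha := hl a (by simp)
    have ih' := @ih (fun x hx => hl x (by simp [hx])) (A.tog a I) i₀
    rw [RACG.prod_cons, star_mul, star_of, map_mul]
    rcases ha with rfl | ha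
    · have h1 : A.Tog (A.tog a I) a i₀ := (tog_tog_iff hA).2 h
      obtain ⟨t1, t2, t3⟩ := ih' h1
      rw [mem_tog_of_tog h] at t2 t3
      rw [RACG.parity_of_self]
      refine ⟨t1, fun hp => ?_, fun hp => ?_⟩
      · have : RACG.parity Γ a (RACG.prod Γ l) ≠ 1 := by
          intro h0; rw [h0] at hp; revert hp; decide
        rw [t3 this]; tauto
      · have : RACG.parity Γ a (RACG.prod Γ l) = 1 := by
          revert hp
          generalize RACG.parity Γ a (RACG.prod Γ l) = z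
          revert z; decide
        exact t2 this
    · have hadj : Γ.Adj v a := ha
      have h1 : A.Tog (A.tog a I) v i₀ := (tog_of_adj_iff hadj).2 h
      obtain ⟨t1, t2, t3⟩ := ih' h1
      have h2 : i₀ ∈ A.tog a I ↔ i₀ ∈ I := mem_tog_of_s_ne (by rw [h.1]; exact hadj.ne)
      rw [h2] at t2 t3
      rw [RACG.parity_of_ne hadj.ne', one_mul]
      exact ⟨t1, t2, t3⟩

/-- **Stabiliser lemma**. -/
theorem stab_lemma (hA : A.Red) {i j : ℤ} {k w : RACG Γ} (hk : k ∈ A.kk hA (A.s i))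
    (hw : w ∈ RACG.st Γ (A.s i)) (hs : A.s i = A.s j) (h : A.x j = k * A.x i * w) :
    (∃ D, j = i + A.n * D) ∧ RACG.parity Γ (A.s i) w = 1 := by
  obtain ⟨D, hD⟩ := exists_shift_of_mem_kk hA hk (isState_Iio (A := A) _ 0)
  have hκ := isComp_comp (A := A) (A.s i)
  have h1 := hD.star hA hκ (A.x i)
  rw [star_sh, star_x, sh_Iio] at h1
  have h2 := h1.star hA hκ w
  rw [← star_mul, ← star_mul, ← mul_assoc, ← h, star_x] at h2
  -- h2 : Agree (Iio j) (star (Iio (i + n D)) w)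
  have h3 : A.Tog (Set.Iio (i + A.n * D)) (A.s i) (i + A.n * D) := by
    have := tog_Iio_iff (A := A) (i + A.n * D)
    rwa [A.per_mul] at this
  obtain ⟨t1, t2, t3⟩ := star_of_mem_st hA hw h3
  have h4 : A.Tog (Set.Iio j) (A.s i) (i + A.n * D) := by
    refine (h2.tog_iff hκ ?_).2 t1
    rw [A.per_mul]; exact self_mem_comp _
  have h5 : A.Tog (Set.Iio j) (A.s i) j := by rw [hs]; exact tog_Iio_iff j
  have h6 := h5.unique hA h4
  refine ⟨⟨D, h6⟩, ?_⟩
  by_contra hp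
  have h7 := t3 hp
  have h8 := h2 (i + A.n * D) (by rw [A.per_mul]; exact self_mem_comp _)
  rw [h7, ← h6] at h8
  simp at h8

end PSeq

end Pool.Agent.H41.VS
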