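import Mathlib
import Pool.Agent.H41.VS.Defs

/-!
# Joins of graphs, products of right-angled Coxeter groups, finite products of `VS` groups
-/

set_option autoImplicit false

namespace Pool.Agent.H41.VS

open Function

section Join

variable {J : Type*} {V : J → Type*}

/-- the join of a family of graphs -/
def Join (Γ : ∀ j, SimpleGraph (V j)) : SimpleGraph (Σ j, V j) where
  Adj x y := x ≠ y ∧ ∀ (j : J) (u v : V j), x = ⟨j, u⟩ → y = ⟨j, v⟩ → (Γ j).Adj u v
  symm := ⟨fun _ _ h => ⟨h.1.symm, fun j u v hx hy => ((h.2 j v u hy hx)).symm⟩⟩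
  loopless := ⟨fun _ h => h.1 rfl⟩

variable {Γ : ∀ j, SimpleGraph (V j)}

theorem join_adj_same {j : J} {u v : V j} :
    (Join Γ).Adj ⟨j, u⟩ ⟨j, v⟩ ↔ (Γ j).Adj u v := by
  constructor
  · intro h
    exact h.2 j u v rfl rfl
  · intro h
    refine ⟨?_, ?_⟩
    · intro e
      have : u = v := by simpa using e
      exact h.ne this
    · rintro k u' v' h1 h2
      obtain ⟨rfl, hu⟩ := Sigma.mk.inj_iff.1 h1
      have hv := eq_of_heq (Sigma.mk.inj_iff.1 h2).2
      rw [heq_iff_eq] at hu
      subst hu; subst hv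
      exact h

theorem join_adj_ne {i j : J} (h : i ≠ j) (u : V i) (v : V j) :
    (Join Γ).Adj ⟨i, u⟩ ⟨j, v⟩ := by
  refine ⟨fun e => h (congrArg Sigma.fst e), ?_⟩
  rintro k u' v' h1 h2
  have e1 : i = k := congrArg Sigma.fst h1
  have e2 : j = k := congrArg Sigma.fst h2
  exact absurd (e1.trans e2.symm) h

/-- the inclusion of a factor -/
def joinInc (Γ : ∀ j, SimpleGraph (V j)) (j : J) : RACG (Γ j) →* RACG (Join Γ) :=
  RACG.map (fun v => (⟨j, v⟩ : Σ j, V j)) (fun _ _ h => join_adj_same.2 h)

@[simp] theorem joinInc_of (j : J) (v : V j) :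
    joinInc Γ j (RACG.of _ v) = RACG.of _ ⟨j, v⟩ := RACG.map_of _ _ _

open Classical in
/-- the projection to a factor -/
noncomputable def joinProj (Γ : ∀ j, SimpleGraph (V j)) (j : J) : RACG (Join Γ) →* RACG (Γ j) :=
  RACG.lift (fun x => if h : x.1 = j then RACG.of _ (h ▸ x.2) else 1)
    (fun x => by split_ifs <;> simp)
    (by
      rintro ⟨i, u⟩ ⟨k, v⟩ h
      by_cases hi : i = j
      · by_cases hk : k = j
        · subst hi
          subst hk
          simp only [dite_true]
          exact RACG.commute_of_adj (join_adj_same.1 h)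
        · simp [hk]
      · simp [hi])

theorem joinProj_of_same (j : J) (v : V j) :
    joinProj Γ j (RACG.of _ ⟨j, v⟩) = RACG.of _ v := by
  rw [joinProj, RACG.lift_of]
  simp

theorem joinProj_of_ne {i j : J} (h : i ≠ j) (v : V i) :
    joinProj Γ j (RACG.of _ ⟨i, v⟩) = 1 := by
  rw [joinProj, RACG.lift_of]
  simp [h]

theorem joinProj_inc_same (j : J) (x : RACG (Γ j)) : joinProj Γ j (joinInc Γ j x) = x := by
  have : (joinProj Γ j).comp (joinInc Γ j) = MonoidHom.id _ := by
    apply RACG.hom_ext
    intro v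
    simp only [MonoidHom.comp_apply, joinInc_of, joinProj_of_same, MonoidHom.id_apply]
  exact DFunLike.congr_fun this x

theorem joinProj_inc_ne {i j : J} (h : i ≠ j) (x : RACG (Γ i)) :
    joinProj Γ j (joinInc Γ i x) = 1 := by
  have : (joinProj Γ j).comp (joinInc Γ i) = 1 := by
    apply RACG.hom_ext
    intro v
    simp only [MonoidHom.comp_apply, joinInc_of, joinProj_of_ne h, MonoidHom.one_apply]
  exact DFunLike.congr_fun this x

theorem joinInc_commute {i j : J} (h : i ≠ j) (x : RACG (Γ i)) (y : RACG (Γ j)) :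
    Commute (joinInc Γ i x) (joinInc Γ j y) := by
  induction x using RACG.induction_on with
  | one => rw [map_one]; exact Commute.one_left _
  | mul v x ih =>
    rw [map_mul]
    refine Commute.mul_left ?_ ih
    clear ih
    induction y using RACG.induction_on with
    | one => rw [map_one]; exact Commute.one_right _
    | mul w y ih =>
      rw [map_mul]
      refine Commute.mul_right ?_ ih
      rw [joinInc_of, joinInc_of]
      exact RACG.commute_of_adj (join_adj_ne h v w)

theorem joinInc_pairwise (Γ : ∀ j, SimpleGraph (V j)) :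
    Pairwise fun i j => ∀ (x : RACG (Γ i)) (y : RACG (Γ j)),
      Commute (joinInc Γ i x) (joinInc Γ j y) :=
  fun _ _ h x y => joinInc_commute h x y

variable [Fintype J]

/-- the product of the factors maps to the group of the join -/
noncomputable def joinHom (Γ : ∀ j, SimpleGraph (V j)) : (∀ j, RACG (Γ j)) →* RACG (Join Γ) :=
  MonoidHom.noncommPiCoprod (joinInc Γ) (joinInc_pairwise Γ)

theorem joinProj_hom (w : ∀ j, RACG (Γ j)) (j : J) : joinProj Γ j (joinHom Γ w) = w j := by
  classical
  have : (joinProj Γ j).comp (joinHom Γ) = Pi.evalMonoidHom _ j := by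
    apply MonoidHom.pi_ext
    intro i x
    rw [MonoidHom.comp_apply, joinHom, MonoidHom.noncommPiCoprod_mulSingle]
    by_cases h : i = j
    · subst h
      rw [joinProj_inc_same]
      simp
    · rw [joinProj_inc_ne h]
      simp [Pi.mulSingle_eq_of_ne' h]
  exact DFunLike.congr_fun this w

theorem joinHom_injective (Γ : ∀ j, SimpleGraph (V j)) : Injective (joinHom Γ) := by
  intro w w' h
  funext j
  rw [← joinProj_hom w j, ← joinProj_hom w' j, h]

omit [Fintype J] in
theorem joinProj_mem_par {S : ∀ j, Set (V j)} {x : RACG (Join Γ)}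
    (hx : x ∈ RACG.par (Join Γ) {y | y.2 ∈ S y.1}) (j : J) :
    joinProj Γ j x ∈ RACG.par (Γ j) (S j) := by
  induction hx using Subgroup.closure_induction with
  | mem x hx =>
    obtain ⟨⟨i, v⟩, hv, rfl⟩ := hx
    by_cases h : i = j
    · subst h
      rw [joinProj_of_same]
      exact RACG.of_mem_par hv
    · rw [joinProj_of_ne h]
      exact Subgroup.one_mem _
  | one => rw [map_one]; exact Subgroup.one_mem _
  | mul x y _ _ ihx ihy => rw [map_mul]; exact Subgroup.mul_mem _ ihx ihy
  | inv x _ ih => rw [map_inv]; exact Subgroup.inv_mem _ ih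

omit [Fintype J] in
theorem joinInc_mem_par {S : ∀ j, Set (V j)} {j : J} {x : RACG (Γ j)}
    (hx : x ∈ RACG.par (Γ j) (S j)) :
    joinInc Γ j x ∈ RACG.par (Join Γ) {y | y.2 ∈ S y.1} := by
  induction hx using Subgroup.closure_induction with
  | mem x hx =>
    obtain ⟨v, hv, rfl⟩ := hx
    rw [joinInc_of]
    exact RACG.of_mem_par hv
  | one => rw [map_one]; exact Subgroup.one_mem _
  | mul x y _ _ ihx ihy => rw [map_mul]; exact Subgroup.mul_mem _ ihx ihy
  | inv x _ ih => rw [map_inv]; exact Subgroup.inv_mem _ ih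

theorem joinHom_mem_par {S : ∀ j, Set (V j)} {w : ∀ j, RACG (Γ j)} :
    joinHom Γ w ∈ RACG.par (Join Γ) {y | y.2 ∈ S y.1} ↔
      ∀ j, w j ∈ RACG.par (Γ j) (S j) := by
  constructor
  · intro h j
    have := joinProj_mem_par h j
    rwa [joinProj_hom] at this
  · intro h
    rw [joinHom, MonoidHom.noncommPiCoprod_apply]
    apply Subgroup.noncommProd_mem
    intro j _
    exact joinInc_mem_par (h j)

end Join

theorem finiteIndex_comap {G H : Type*} [Group G] [Group H] (f : G →* H) (K : Subgroup H)
    [K.FiniteIndex] : (K.comap f).FiniteIndex :=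
  ⟨by rw [Subgroup.index_comap]; exact Subgroup.FiniteIndex.index_ne_zero⟩

theorem vs_pi (J : Type) [Finite J] (G : J → Type) [∀ j, Group (G j)] (h : ∀ j, VS (G j)) :
    VS (∀ j, G j) := by
  classical
  have := Fintype.ofFinite J
  choose V hV Γ K hK f hf using h
  refine ⟨Σ j, V j, inferInstance, Join Γ, ⨅ j, (K j).comap (Pi.evalMonoidHom G j), ?_, ?_⟩
  · have : ∀ j, ((K j).comap (Pi.evalMonoidHom G j)).FiniteIndex := fun j =>
      finiteIndex_comap _ _
    exact Subgroup.finiteIndex_iInf this
  · have hmem : ∀ (x : (⨅ j, (K j).comap (Pi.evalMonoidHom G j) : Subgroup (∀ j, G j))) (j : J),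
        x.1 j ∈ K j := fun x j => by
      have := Subgroup.mem_iInf.1 x.2 j
      exact this
    let r : ∀ j, (⨅ j, (K j).comap (Pi.evalMonoidHom G j) : Subgroup (∀ j, G j)) →* K j :=
      fun j =>
        { toFun := fun x => ⟨x.1 j, hmem x j⟩
          map_one' := rfl
          map_mul' := fun _ _ => rfl }
    refine ⟨(joinHom Γ).comp (MonoidHom.pi (fun j => (f j).comp (r j))), ?_⟩
    intro x y hxy
    have h1 := joinHom_injective Γ hxy
    apply Subtype.ext
    funext j
    have h2 : f j (r j x) = f j (r j y) := congrFun h1 j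
    have h3 := hf j h2
    exact congrArg Subtype.val h3

end Pool.Agent.H41.VS
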