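import Mathlib
import Pool.Agent.H41.VS.Comp

/-!
# Labels: the embedding of a finite-index normal subgroup in the group of labels
-/

set_option autoImplicit false

namespace Pool.Agent.H41.VS

open Function

variable {V : Type*} {Γ : SimpleGraph V}

/-- labels: parallelism classes of edges modulo `K` -/
abbrev Lab (Γ : SimpleGraph V) (K : Subgroup (RACG Γ)) : Type _ :=
  Σ v : V, RACG Γ ⧸ (K ⊔ RACG.st Γ v)

/-- the label of the edge at `y` in direction `v` -/
def lab (K : Subgroup (RACG Γ)) (v : V) (y : RACG Γ) : Lab Γ K := ⟨v, QuotientGroup.mk y⟩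

/-- the graph of labels -/
def labGraph (Γ : SimpleGraph V) (K : Subgroup (RACG Γ)) : SimpleGraph (Lab Γ K) :=
  Γ.comap Sigma.fst

theorem labGraph_adj {K : Subgroup (RACG Γ)} {a b : Lab Γ K} :
    (labGraph Γ K).Adj a b ↔ Γ.Adj a.1 b.1 := Iff.rfl

theorem smul_lab (K : Subgroup (RACG Γ)) (v : V) (x y : RACG Γ) :
    x • lab K v y = lab K v (x * y) := rfl

theorem smul_fst {K : Subgroup (RACG Γ)} (x : RACG Γ) (a : Lab Γ K) : (x • a).1 = a.1 := rfl

theorem labGraph_inv (K : Subgroup (RACG Γ)) : ∀ (g : RACG Γ) (u v : Lab Γ K),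
    (labGraph Γ K).Adj u v → (labGraph Γ K).Adj (g • u) (g • v) := fun _ _ _ h => h

instance finite_lab [Finite V] (K : Subgroup (RACG Γ)) [K.FiniteIndex] : Finite (Lab Γ K) := by
  have : ∀ v, Finite (RACG Γ ⧸ (K ⊔ RACG.st Γ v)) := by
    intro v
    have : (K ⊔ RACG.st Γ v).FiniteIndex := Subgroup.finiteIndex_of_le le_sup_left
    infer_instance
  infer_instance

theorem lab_eq_iff {K : Subgroup (RACG Γ)} {v : V} {x y : RACG Γ} :
    lab K v x = lab K v y ↔ x⁻¹ * y ∈ K ⊔ RACG.st Γ v := by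
  unfold lab
  rw [Sigma.mk.injEq]
  simp only [heq_eq_eq, true_and]
  exact QuotientGroup.eq

theorem lab_mul_of_mem_st {K : Subgroup (RACG Γ)} {v : V} {x w : RACG Γ}
    (hw : w ∈ RACG.st Γ v) : lab K v (x * w) = lab K v x := by
  rw [lab_eq_iff, mul_inv_rev, inv_mul_cancel_right]
  exact inv_mem (Subgroup.mem_sup_right hw)

theorem of_mem_st_self (v : V) : RACG.of Γ v ∈ RACG.st Γ v := RACG.of_mem_par (by simp)

theorem of_mem_st_adj {u v : V} (h : Γ.Adj u v) : RACG.of Γ v ∈ RACG.st Γ u :=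
  RACG.of_mem_par (by simp [h])

theorem smul_lab_one_of_mem_st {K : Subgroup (RACG Γ)} {v : V} {w : RACG Γ}
    (hw : w ∈ RACG.st Γ v) : w • lab K v 1 = lab K v 1 := by
  rw [smul_lab, mul_one, ← one_mul w, lab_mul_of_mem_st hw]

theorem smul_eq_of_mem {K : Subgroup (RACG Γ)} [K.Normal] {k : RACG Γ} (hk : k ∈ K)
    (a : Lab Γ K) : k • a = a := by
  obtain ⟨v, y⟩ := a
  induction y using QuotientGroup.induction_on with
  | H y =>
    change k • lab K v y = lab K v y
    rw [smul_lab, lab_eq_iff]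
    apply Subgroup.mem_sup_left
    have := (inferInstance : K.Normal).conj_mem _ (inv_mem hk) y⁻¹
    simpa [mul_assoc] using this

/-- the crossed embedding -/
noncomputable def F (Γ : SimpleGraph V) (K : Subgroup (RACG Γ)) :
    RACG Γ →* WrG (RACG Γ) (labGraph Γ K) (labGraph_inv K) :=
  RACG.lift (fun v => ⟨RACG.of _ (lab K v 1), RACG.of Γ v⟩)
    (fun v => by
      apply SemidirectProduct.ext
      · simp only [SemidirectProduct.mul_left, RACG.act_of,
          smul_lab_one_of_mem_st (of_mem_st_self v), RACG.of_mul_self, SemidirectProduct.one_left]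
      · simp)
    (fun u v h => by
      apply SemidirectProduct.ext
      · simp only [SemidirectProduct.mul_left, RACG.act_of,
          smul_lab_one_of_mem_st (of_mem_st_adj h), smul_lab_one_of_mem_st (of_mem_st_adj h.symm)]
        exact (RACG.commute_of_adj (labGraph_adj.2 h)).eq
      · simpa using (RACG.commute_of_adj h).eq)

theorem F_of (K : Subgroup (RACG Γ)) (v : V) :
    F Γ K (RACG.of Γ v) = ⟨RACG.of _ (lab K v 1), RACG.of Γ v⟩ := RACG.lift_of _ _ _ _

theorem F_right (K : Subgroup (RACG Γ)) (x : RACG Γ) : (F Γ K x).right = x := by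
  have : (SemidirectProduct.rightHom.comp (F Γ K)) = MonoidHom.id _ := by
    apply RACG.hom_ext
    intro v
    rw [MonoidHom.comp_apply, F_of]; rfl
  exact DFunLike.congr_fun this x

/-- the crossed homomorphism -/
noncomputable def cr (K : Subgroup (RACG Γ)) (x : RACG Γ) : RACG (labGraph Γ K) := (F Γ K x).left

/-- action of the group on the group of labels -/
noncomputable abbrev actL (K : Subgroup (RACG Γ)) : RACG Γ →* MulAut (RACG (labGraph Γ K)) :=
  RACG.act (RACG Γ) (labGraph Γ K) (labGraph_inv K)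

theorem cr_one (K : Subgroup (RACG Γ)) : cr K 1 = 1 := by simp [cr]

theorem cr_mul (K : Subgroup (RACG Γ)) (x y : RACG Γ) :
    cr K (x * y) = cr K x * actL K x (cr K y) := by
  simp only [cr, map_mul, SemidirectProduct.mul_left, F_right]

theorem cr_of (K : Subgroup (RACG Γ)) (v : V) : cr K (RACG.of Γ v) = RACG.of _ (lab K v 1) := by
  rw [cr, F_of]

theorem cr_mul_of (K : Subgroup (RACG Γ)) (x : RACG Γ) (v : V) :
    cr K (x * RACG.of Γ v) = cr K x * RACG.of _ (lab K v x) := by
  rw [cr_mul, cr_of, RACG.act_of, smul_lab, mul_one]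

/-- type map -/
noncomputable def typ (K : Subgroup (RACG Γ)) : RACG (labGraph Γ K) →* RACG Γ :=
  RACG.map Sigma.fst (fun _ _ h => labGraph_adj.1 h)

theorem typ_act (K : Subgroup (RACG Γ)) (x : RACG Γ) (z : RACG (labGraph Γ K)) :
    typ K (actL K x z) = typ K z := by
  have : (typ K).comp (actL K x).toMonoidHom = typ K := by
    apply RACG.hom_ext
    intro a
    rw [MonoidHom.comp_apply]
    change typ K (actL K x (RACG.of _ a)) = _
    rw [RACG.act_of, typ, RACG.map_of, RACG.map_of, smul_fst]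
  exact DFunLike.congr_fun this z

theorem typ_cr (K : Subgroup (RACG Γ)) (x : RACG Γ) : typ K (cr K x) = x := by
  induction x using RACG.induction_on with
  | one => rw [cr_one, map_one]
  | mul v x ih =>
    rw [cr_mul, map_mul, typ_act, ih, cr_of, typ, RACG.map_of]; rfl

theorem act_eq_of_mem {K : Subgroup (RACG Γ)} [K.Normal] {k : RACG Γ} (hk : k ∈ K)
    (z : RACG (labGraph Γ K)) : actL K k z = z := by
  induction z using RACG.induction_on with
  | one => rw [map_one]
  | mul a z ih => rw [map_mul, ih, RACG.act_of, smul_eq_of_mem hk]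

/-- the embedding of `K` in the group of labels -/
noncomputable def ff (K : Subgroup (RACG Γ)) [K.Normal] : K →* RACG (labGraph Γ K) where
  toFun k := cr K k
  map_one' := cr_one K
  map_mul' k k' := by
    rw [Subgroup.coe_mul, cr_mul, act_eq_of_mem k.2]

theorem ff_apply (K : Subgroup (RACG Γ)) [K.Normal] (k : K) : ff K k = cr K k := rfl

theorem ff_injective (K : Subgroup (RACG Γ)) [K.Normal] : Injective (ff K) := by
  intro k k' h
  have := congrArg (typ K) h
  rw [ff_apply, ff_apply, typ_cr, typ_cr] at this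
  exact Subtype.ext this

/-- labels along a word -/
def labs (K : Subgroup (RACG Γ)) : RACG Γ → List V → List (Lab Γ K)
  | _, [] => []
  | y, v :: w => lab K v y :: labs K (y * RACG.of Γ v) w

theorem labs_map_fst (K : Subgroup (RACG Γ)) (w : List V) (y : RACG Γ) :
    (labs K y w).map Sigma.fst = w := by
  induction w generalizing y with
  | nil => rfl
  | cons v w ih => simp only [labs, List.map_cons, ih]; rfl

theorem cr_mul_prod (K : Subgroup (RACG Γ)) (w : List V) (y : RACG Γ) :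
    cr K (y * RACG.prod Γ w) = cr K y * RACG.prod _ (labs K y w) := by
  induction w generalizing y with
  | nil => simp [labs]
  | cons v w ih =>
    rw [RACG.prod_cons, ← mul_assoc, ih, cr_mul_of, labs, RACG.prod_cons, mul_assoc]

theorem cr_prod (K : Subgroup (RACG Γ)) (w : List V) :
    cr K (RACG.prod Γ w) = RACG.prod _ (labs K 1 w) := by
  have := cr_mul_prod K w 1
  rwa [one_mul, cr_one, one_mul] at this

theorem reduced_of_map_fst {K : Subgroup (RACG Γ)} {l : List (Lab Γ K)}
    (h : Reduced Γ (l.map Sigma.fst)) : Reduced (labGraph Γ K) l := by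
  intro a u hu
  have h1 := h a.1 (u.map Sigma.fst) (by
    have := hu.map Sigma.fst
    simpa using this)
  obtain ⟨x, hx, hx1, hx2⟩ := h1
  obtain ⟨b, hb, rfl⟩ := List.mem_map.1 hx
  exact ⟨b, hb, fun h => hx1 (by rw [h]), hx2⟩

theorem reduced_labs {K : Subgroup (RACG Γ)} {w : List V} (h : Reduced Γ w) (y : RACG Γ) :
    Reduced (labGraph Γ K) (labs K y w) := by
  apply reduced_of_map_fst
  rwa [labs_map_fst]

theorem mem_labs {K : Subgroup (RACG Γ)} {w₁ w₂ : List V} {v : V} {y : RACG Γ} :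
    lab K v (y * RACG.prod Γ w₁) ∈ labs K y (w₁ ++ v :: w₂) := by
  induction w₁ generalizing y with
  | nil => simp [labs]
  | cons a w₁ ih =>
    rw [List.cons_append, labs, RACG.prod_cons, ← mul_assoc]
    exact List.mem_cons_of_mem _ ih

/-- `cr` of a conjugate -/
theorem cr_conj {K : Subgroup (RACG Γ)} [K.Normal] {k : RACG Γ} (hk : k ∈ K) (w : RACG Γ) :
    cr K (w⁻¹ * k * w) =
      actL K w⁻¹ ((cr K w)⁻¹ * cr K k * cr K w) := by
  have h1 : cr K (w * (w⁻¹ * k * w)) = cr K w * actL K w (cr K (w⁻¹ * k * w)) := cr_mul _ _ _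
  have h2 : cr K (k * w) = cr K k * cr K w := by rw [cr_mul, act_eq_of_mem hk]
  have h3 : w * (w⁻¹ * k * w) = k * w := by group
  rw [h3, h2] at h1
  have h4 : actL K w (cr K (w⁻¹ * k * w)) = (cr K w)⁻¹ * cr K k * cr K w := by
    rw [mul_assoc (cr K w)⁻¹, h1]; group
  rw [← h4, map_inv]
  exact ((actL K w).symm_apply_apply _).symm

namespace PSeq

variable (A : PSeq Γ)

/-- label of the `i`-th edge of the axis -/
def lab (K : Subgroup (RACG Γ)) (i : ℤ) : Lab Γ K := VS.lab K (A.s i) (A.x i)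

variable {A}

theorem lab_fst {K : Subgroup (RACG Γ)} (i : ℤ) : (A.lab K i).1 = A.s i := rfl

theorem lab_add_mul {K : Subgroup (RACG Γ)} (i D : ℤ) :
    A.lab K (i + A.n * D) = A.c ^ D • A.lab K i := by
  have h1 : A.s (i + A.n * D) = A.s i := A.per_mul i D
  have h2 : A.x (i + A.n * D) = A.c ^ D * A.x i := A.x_add_mul i D
  unfold lab
  rw [h1, h2]
  exact (smul_lab _ _ _ _).symm

theorem mem_sup_normal {K : Subgroup (RACG Γ)} [K.Normal] {v : V} {z : RACG Γ}
    (h : z ∈ K ⊔ RACG.st Γ v) : ∃ k ∈ K, ∃ w ∈ RACG.st Γ v, z = k * w := by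
  have h1 : z ∈ ((K ⊔ RACG.st Γ v : Subgroup (RACG Γ)) : Set (RACG Γ)) := h
  rw [Subgroup.normal_mul] at h1
  obtain ⟨k, hk, w, hw, hkw⟩ := Set.mem_mul.1 h1
  exact ⟨k, hk, w, hw, hkw.symm⟩

theorem lab_eq_lab {K : Subgroup (RACG Γ)} [K.Normal] {v : V} {y : RACG Γ} {i : ℤ}
    (h : A.lab K i = VS.lab K v y) : A.s i = v ∧ ∃ k ∈ K, ∃ w ∈ RACG.st Γ v,
      y = k * A.x i * w := by
  have h1 : A.s i = v := congrArg Sigma.fst h
  subst h1
  refine ⟨rfl, ?_⟩
  obtain ⟨k, hk, w, hw, hkw⟩ := mem_sup_normal (lab_eq_iff.1 h)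
  refine ⟨A.x i * k * (A.x i)⁻¹, (inferInstance : K.Normal).conj_mem _ hk _, w, hw, ?_⟩
  have : y = A.x i * (k * w) := by rw [← hkw]; group
  rw [this]; group

/-- two edges of the axis with the same label are translates -/
theorem lab_eq_imp (hA : A.Red) {K : Subgroup (RACG Γ)} [K.Normal] {i j : ℤ}
    (hK : K ≤ A.kk hA (A.s i)) (h : A.lab K i = A.lab K j) :
    A.s i = A.s j ∧ (∃ D, j = i + A.n * D) ∧ ∃ k ∈ K, ∃ w ∈ RACG.st Γ (A.s i),
      A.x j = k * A.x i * w ∧ RACG.parity Γ (A.s i) w = 1 := by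
  obtain ⟨h1, k, hk, w, hw, hx⟩ := lab_eq_lab h
  rw [← h1] at hw
  obtain ⟨h2, h3⟩ := stab_lemma hA (hK hk) hw h1 hx
  exact ⟨h1, h2, k, hk, w, hw, hx, h3⟩

end PSeq

end Pool.Agent.H41.VS
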