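import Mathlib
import Pool.Agent.H41.VS.Labels

/-!
# The potential: elements reached by effective toggles are determined by the final state
-/

set_option autoImplicit false

namespace Pool.Agent.H41.VS

open Function

variable {V : Type*} {Γ : SimpleGraph V}

/-- integer intervals as lists -/
def iv (a : ℤ) (k : ℕ) : List ℤ := (List.range k).map fun r : ℕ => a + (r : ℤ)

theorem iv_succ (a : ℤ) (k : ℕ) : iv a (k + 1) = iv a k ++ [a + k] := by
  simp [iv, List.range_succ]

theorem iv_add (a : ℤ) (k l : ℕ) : iv a (k + l) = iv a k ++ iv (a + k) l := by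
  induction l with
  | zero => simp [iv]
  | succ l ih =>
    rw [← add_assoc, iv_succ, ih, iv_succ, List.append_assoc]
    push_cast
    rw [add_assoc]

theorem mem_iv {a : ℤ} {k : ℕ} {j : ℤ} : j ∈ iv a k ↔ a ≤ j ∧ j < a + k := by
  simp only [iv, List.mem_map, List.mem_range]
  constructor
  · rintro ⟨r, hr, rfl⟩; omega
  · rintro ⟨h1, h2⟩; exact ⟨(j - a).toNat, by omega, by omega⟩

/-- Boolean membership -/
noncomputable def bmem (I : Set ℤ) (j : ℤ) : Bool := @decide (j ∈ I) (Classical.propDecidable _)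

theorem bmem_iff {I : Set ℤ} {j : ℤ} : bmem I j = true ↔ j ∈ I := by simp [bmem]

theorem bmem_of_mem {I : Set ℤ} {j : ℤ} (h : j ∈ I) : bmem I j = true := bmem_iff.2 h

theorem bmem_of_not_mem {I : Set ℤ} {j : ℤ} (h : j ∉ I) : bmem I j = false := by
  simp [bmem, h]

theorem bmem_congr {I J : Set ℤ} {j : ℤ} (h : j ∈ I ↔ j ∈ J) : bmem I j = bmem J j := by
  simp [bmem, h]

namespace PSeq

variable (A : PSeq Γ)

/-- the potential -/
noncomputable def Pot (a : ℤ) (k : ℕ) (I : Set ℤ) : RACG Γ :=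
  A.x a * RACG.prod Γ (((iv a k).filter (bmem I)).map A.s)

variable {A}

theorem pot_Iio {a m : ℤ} {k : ℕ} (h1 : a ≤ m) (h2 : m ≤ a + k) :
    A.Pot a k (Set.Iio m) = A.x m := by
  classical
  obtain ⟨r, rfl⟩ : ∃ r : ℕ, m = a + r := ⟨(m - a).toNat, by omega⟩
  obtain ⟨l, rfl⟩ : ∃ l : ℕ, k = r + l := ⟨k - r, by omega⟩
  unfold Pot
  rw [iv_add, List.filter_append]
  have e1 : (iv a r).filter (bmem (Set.Iio (a + (r : ℤ)))) = iv a r := by
    rw [List.filter_eq_self]
    intro j hj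
    exact bmem_of_mem (mem_iv.1 hj).2
  have e2 : (iv (a + r) l).filter (bmem (Set.Iio (a + (r : ℤ)))) = [] := by
    rw [List.filter_eq_nil_iff]
    intro j hj
    have := (mem_iv.1 hj).1
    rw [bmem_iff]; simpa using this
  rw [e1, e2, List.append_nil]
  have e3 : (iv a r).map A.s = A.seg a r := by
    simp [iv, seg]
  rw [e3, A.x_add]

theorem pot_tog (hA : A.Red) {I : Set ℤ} {v : V} {i a : ℤ} {k : ℕ} (h : A.Tog I v i)
    (h1 : a ≤ i) (h2 : i < a + k) :
    A.Pot a k (A.tog v I) = A.Pot a k I * RACG.of Γ v := by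
  classical
  obtain ⟨r, rfl⟩ : ∃ r : ℕ, i = a + r := ⟨(i - a).toNat, by omega⟩
  obtain ⟨l, rfl⟩ : ∃ l : ℕ, k = r + (1 + l) := ⟨k - r - 1, by omega⟩
  have hne : ∀ j, j ≠ a + r → (j ∈ A.tog v I ↔ j ∈ I) := fun j hj =>
    mem_tog_of_ne fun h' => hj (h'.unique hA h)
  unfold Pot
  rw [iv_add, iv_add]
  have e0 : iv (a + r) 1 = [a + (r : ℤ)] := by simp [iv]
  have e1 : (iv a r).filter (bmem (A.tog v I)) = (iv a r).filter (bmem I) := by
    apply List.filter_congr
    intro j hj
    have := (mem_iv.1 hj).2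
    exact bmem_congr (hne j (by omega))
  have e2 : (iv (a + r + (1 : ℕ)) l).filter (bmem (A.tog v I)) =
      (iv (a + r + (1 : ℕ)) l).filter (bmem I) := by
    apply List.filter_congr
    intro j hj
    have := (mem_iv.1 hj).1
    exact bmem_congr (hne j (by omega))
  have hcomm : RACG.of Γ v * RACG.prod Γ
        (((iv (a + r + (1 : ℕ)) l).filter (bmem I)).map A.s) =
      RACG.prod Γ (((iv (a + r + (1 : ℕ)) l).filter (bmem I)).map A.s) *
        RACG.of Γ v := by
    apply RACG.commute_prod_of_forall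
    intro x hx
    obtain ⟨j, hj, rfl⟩ := List.mem_map.1 hx
    rw [List.mem_filter] at hj
    have hj1 := (mem_iv.1 hj.1).1
    have hj2 : j ∈ I := bmem_iff.1 hj.2
    right
    by_contra hn
    have := (h.2 j (by omega) hn).1 hj2
    omega
  rw [e0]
  simp only [List.filter_append, List.map_append, RACG.prod_append, e1, e2]
  by_cases hi : a + (r : ℤ) ∈ I
  · have hi' : a + (r : ℤ) ∉ A.tog v I := by rw [mem_tog_of_tog h]; simpa using hi
    simp only [List.filter_cons, bmem_of_mem hi, bmem_of_not_mem hi', if_true, List.filter_nil,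
      List.map_cons, List.map_nil, RACG.prod_cons, RACG.prod_nil, mul_one, one_mul,
      Bool.false_eq_true, if_false, h.1]
    simp only [mul_assoc]
    rw [← hcomm, ← mul_assoc (RACG.of Γ v) (RACG.of Γ v), RACG.of_mul_self, one_mul]
  · have hi' : a + (r : ℤ) ∈ A.tog v I := by rw [mem_tog_of_tog h]; exact hi
    simp only [List.filter_cons, bmem_of_mem hi', bmem_of_not_mem hi, if_true, List.filter_nil,
      List.map_cons, List.map_nil, RACG.prod_cons, RACG.prod_nil, mul_one, one_mul,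
      Bool.false_eq_true, if_false, h.1]
    rw [hcomm]
    simp only [mul_assoc]

/-- words all of whose letters are effective toggles -/
def Eff (A : PSeq Γ) (hA : A.Red) (w : List V) : Prop :=
  ∀ w₁ v w₂, w = w₁ ++ v :: w₂ → ∃ i, A.Tog (A.star hA (Set.Iio 0) (RACG.prod Γ w₁)) v i

theorem eff_pot (hA : A.Red) (w : List V) (hw : A.Eff hA w) :
    ∃ N : ℤ, ∀ (a : ℤ) (k : ℕ), a ≤ -N → N ≤ a + k →
      RACG.prod Γ w = A.Pot a k (A.star hA (Set.Iio 0) (RACG.prod Γ w)) := by
  induction w using List.reverseRecOn with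
  | nil =>
    refine ⟨0, fun a k h1 h2 => ?_⟩
    rw [RACG.prod_nil, star_one, pot_Iio (by omega) (by omega), A.x0]
  | append_singleton w v ih =>
    obtain ⟨N, hN⟩ := ih (fun w₁ u w₂ h => hw w₁ u (w₂ ++ [v]) (by rw [h]; simp))
    obtain ⟨i, hi⟩ := hw w v [] rfl
    refine ⟨max N (|i| + 1), fun a k h1 h2 => ?_⟩
    have h3 := le_max_left N (|i| + 1)
    have h4 := le_max_right N (|i| + 1)
    have h5 := abs_le.1 (le_refl |i|)
    rw [RACG.prod_append, RACG.prod_singleton, star_mul_of, pot_tog hA hi (by omega) (by omega),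
      ← hN a k (by omega) (by omega)]

/-- an effective word with final state `Iio m` represents `x m` -/
theorem eff_eq_x (hA : A.Red) {w : List V} (hw : A.Eff hA w) {m : ℤ}
    (h : A.star hA (Set.Iio 0) (RACG.prod Γ w) = Set.Iio m) : RACG.prod Γ w = A.x m := by
  obtain ⟨N, hN⟩ := eff_pot hA w hw
  have h1 := hN (-(|N| + |m|)) (2 * (|N| + |m|)).toNat
    (by have := le_abs_self N; have := abs_nonneg m; omega)
    (by have := le_abs_self N; have := abs_nonneg m; have := abs_nonneg N; omega)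
  rw [h] at h1
  rw [h1]
  apply pot_Iio
  · have := neg_abs_le m; have := abs_nonneg N; omega
  · have := le_abs_self m; have := abs_nonneg N; have := abs_nonneg m; omega

/-- common kernel -/
noncomputable def K0 (A : PSeq Γ) (hA : A.Red) : Subgroup (RACG Γ) :=
  ⨅ i : Fin A.n, A.kk hA (A.s (i : ℕ))

instance (hA : A.Red) : (A.K0 hA).Normal := by
  unfold K0
  exact Subgroup.normal_iInf_normal fun i => inferInstance

instance (hA : A.Red) : (A.K0 hA).FiniteIndex := by
  unfold K0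
  have : ∀ i : Fin A.n, (A.kk hA (A.s (i : ℕ))).FiniteIndex := fun i =>
    finiteIndex_kk hA _ ⟨_, rfl⟩
  exact Subgroup.finiteIndex_iInf this

theorem K0_le (hA : A.Red) (i : ℤ) : A.K0 hA ≤ A.kk hA (A.s i) := by
  obtain ⟨a, ha⟩ := exists_rep (A := A) i
  rw [ha]
  exact iInf_le _ a

/-- labels on the axis force effective toggles -/
theorem eff_of_labs (hA : A.Red) {K : Subgroup (RACG Γ)} [K.Normal] (hK : K ≤ A.K0 hA)
    {w : List V} (hw : ∀ a ∈ labs K 1 w, a ∈ Set.range (A.lab K)) : A.Eff hA w := by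
  intro w₁ v w₂ hsplit
  have h1 : VS.lab K v (RACG.prod Γ w₁) ∈ labs K 1 w := by
    rw [hsplit]
    have := mem_labs (K := K) (w₁ := w₁) (w₂ := w₂) (v := v) (y := 1)
    rwa [one_mul] at this
  obtain ⟨i, hi⟩ := hw _ h1
  obtain ⟨hs, k, hk, u, hu, hy⟩ := lab_eq_lab hi
  have hκ := isComp_comp (A := A) (A.s i)
  obtain ⟨D, hD⟩ := exists_shift_of_mem_kk hA (K0_le hA i (hK hk)) (isState_Iio (A := A) _ 0)
  have h2 := hD.star hA hκ (A.x i)
  rw [star_sh, star_x, sh_Iio] at h2
  have h3 := h2.star hA hκ u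
  rw [← star_mul, ← star_mul, ← mul_assoc, ← hy] at h3
  have h4 : A.Tog (Set.Iio (i + A.n * D)) v (i + A.n * D) := by
    have := tog_Iio_iff (A := A) (i + A.n * D)
    rwa [A.per_mul, hs] at this
  obtain ⟨t1, -, -⟩ := star_of_mem_st hA hu h4
  refine ⟨i + A.n * D, (h3.tog_iff hκ ?_).2 t1⟩
  rw [A.per_mul]; exact self_mem_comp _

theorem cr_x_mem (K : Subgroup (RACG Γ)) (i : ℤ) :
    cr K (A.x i) ∈ RACG.par (labGraph Γ K) (Set.range (A.lab K)) := by
  induction i using Int.induction_on with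
  | zero => rw [A.x0, cr_one]; exact Subgroup.one_mem _
  | succ k ih =>
    rw [A.xs, cr_mul_of]
    exact Subgroup.mul_mem _ ih (RACG.of_mem_par ⟨_, rfl⟩)
  | pred k ih =>
    have h1 := A.xs (-(k : ℤ) - 1)
    rw [sub_add_cancel] at h1
    rw [h1, cr_mul_of] at ih
    exact (Subgroup.mul_mem_cancel_right _ (RACG.of_mem_par (Set.mem_range_self _))).1 ih

/-- **Characterisation of the cyclic subgroup.** -/
theorem mem_zpowers_iff (hA : A.Red) {K : Subgroup (RACG Γ)} [K.Normal] (hK : K ≤ A.K0 hA)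
    (k : RACG Γ) (hk : k ∈ K) :
    k ∈ Subgroup.zpowers A.c ↔
      cr K k ∈ RACG.par (labGraph Γ K) (Set.range (A.lab K)) ∧
      ∀ i : Fin A.n, A.disp hA (A.s (i : ℕ)) ⟨k, K0_le hA _ (hK hk)⟩ =
        A.disp hA (A.s 0) ⟨k, K0_le hA _ (hK hk)⟩ := by
  constructor
  · rintro ⟨D, hD⟩
    dsimp only at hD
    subst hD
    refine ⟨?_, fun i => ?_⟩
    · rw [← A.x_mul]; exact cr_x_mem K _
    · rw [disp_zpow_c hA ⟨_, rfl⟩, disp_zpow_c hA ⟨_, rfl⟩]
  · rintro ⟨h1, h2⟩
    obtain ⟨w, hwr, hwk⟩ := RACG.exists_reduced k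
    have h3 : ∀ a ∈ labs K 1 w, a ∈ Set.range (A.lab K) := by
      apply RACG.mem_of_prod_mem_par (reduced_labs hwr 1)
      rw [← cr_prod, hwk]; exact h1
    have h4 := eff_of_labs hA hK h3
    set D := A.disp hA (A.s 0) ⟨k, K0_le hA _ (hK hk)⟩ with hD
    have h5 : A.star hA (Set.Iio 0) k = Set.Iio (A.n * D) := by
      ext j
      obtain ⟨a, ha⟩ := exists_rep (A := A) j
      have h6 := disp_spec hA (A.s (a : ℕ)) ⟨k, K0_le hA _ (hK hk)⟩
      rw [h2 a] at h6
      exact h6 j (by rw [ha]; exact self_mem_comp _)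
    have h6 := eff_eq_x hA h4 (by rw [hwk]; exact h5)
    rw [hwk, A.x_mul] at h6
    exact ⟨D, h6.symm⟩

end PSeq

end Pool.Agent.H41.VS
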