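import Mathlib
import Pool.Agent.H41.VS.Potential
import Pool.Agent.H41.VS.Pi

/-!
# Closure properties of good subgroups; cyclic subgroups are good
-/

set_option autoImplicit false

namespace Pool.Agent.H41.VS

open Function

theorem good_iInf {P : Type} [Group P] (J : Type) [Finite J] (B : J → Subgroup P)
    (h : ∀ j, Good (B j)) : Good (⨅ j, B j) := by
  classical
  have := Fintype.ofFinite J
  choose V hV Γ S K hK f hf using h
  have hle : ∀ j, (⨅ j, K j : Subgroup P) ≤ K j := fun j => iInf_le _ j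
  refine ⟨Σ j, V j, inferInstance, Join Γ, {y | y.2 ∈ S y.1}, ⨅ j, K j,
    Subgroup.finiteIndex_iInf hK,
    (joinHom Γ).comp (MonoidHom.pi fun j => (f j).comp (Subgroup.inclusion (hle j))), ?_⟩
  intro k
  rw [MonoidHom.comp_apply, joinHom_mem_par, Subgroup.mem_iInf]
  apply forall_congr'
  intro j
  exact hf j (Subgroup.inclusion (hle j) k)

theorem good_inf {P : Type} [Group P] {B C : Subgroup P} (hB : Good B) (hC : Good C) :
    Good (B ⊓ C) := by
  have h := good_iInf Bool (fun b => if b then B else C) (by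
    intro b; cases b
    · simpa using hC
    · simpa using hB)
  have e : (⨅ b : Bool, (if b then B else C)) = B ⊓ C := by
    rw [iInf_bool_eq]; simp
  rwa [e] at h

theorem good_of_inf {P : Type} [Group P] {B K : Subgroup P} [K.FiniteIndex]
    (h : Good (B ⊓ K)) : Good B := by
  obtain ⟨V, hV, Γ, S, K', hK', f, hf⟩ := h
  refine ⟨V, hV, Γ, S, K' ⊓ K, inferInstance, f.comp (Subgroup.inclusion inf_le_left), ?_⟩
  intro k
  rw [MonoidHom.comp_apply, ← hf]
  constructor
  · intro hk; exact ⟨hk, k.2.2⟩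
  · intro hk; exact hk.1

theorem Good.of_comap {P W : Type} [Group P] [Group W] {B : Subgroup P} {B' : Subgroup W}
    (hB' : Good B') (K : Subgroup P) [K.FiniteIndex] (ι : K →* W)
    (h : ∀ k : K, (k : P) ∈ B ↔ ι k ∈ B') : Good B := by
  obtain ⟨V, hV, Γ, S, K', hK', f, hf⟩ := hB'
  have hL : (K'.comap ι).FiniteIndex := finiteIndex_comap ι K'
  let e := (K'.comap ι).equivMapOfInjective K.subtype K.subtype_injective
  refine ⟨V, hV, Γ, S, (K'.comap ι).map K.subtype, ?_,
    (f.comp (ι.subgroupComap K')).comp e.symm.toMonoidHom, ?_⟩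
  · constructor
    rw [Subgroup.index_map_subtype]
    exact mul_ne_zero hL.index_ne_zero Subgroup.FiniteIndex.index_ne_zero
  · intro k
    obtain ⟨l, rfl⟩ := e.surjective k
    simp only [MonoidHom.comp_apply, MulEquiv.coe_toMonoidHom, MulEquiv.symm_apply_apply]
    rw [← hf]
    exact h l.1

theorem good_comap_par {P : Type} [Group P] (K : Subgroup P) [hK : K.FiniteIndex] {V : Type}
    [hV : Finite V] {Γ : SimpleGraph V} (f : K →* RACG Γ) (S : Set V) :
    Good (((RACG.par Γ S).comap f).map K.subtype) := by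
  refine ⟨V, hV, Γ, S, K, hK, f, fun k => ?_⟩
  constructor
  · rintro ⟨l, hl, hlk⟩
    have : l = k := Subtype.ext hlk
    rwa [← this]
  · intro h
    exact ⟨k, h, rfl⟩

/-- `ℤ` embeds in the infinite dihedral group -/
theorem exists_int_embedding : ∃ f : Multiplicative ℤ →* RACG (⊥ : SimpleGraph Bool),
    ∀ z, f z ∈ RACG.par (⊥ : SimpleGraph Bool) ∅ ↔ z = 1 := by
  let g : RACG (⊥ : SimpleGraph Bool) := RACG.of _ true * RACG.of _ false
  let n1 : Equiv.Perm ℤ := ⟨fun x => -x, fun x => -x, fun x => by simp, fun x => by simp⟩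
  let n2 : Equiv.Perm ℤ := ⟨fun x => -1 - x, fun x => -1 - x, fun x => by simp, fun x => by simp⟩
  let θ : RACG (⊥ : SimpleGraph Bool) →* Equiv.Perm ℤ :=
    RACG.lift (fun b => if b then n1 else n2)
      (fun b => by cases b <;> (ext x; simp [n1, n2]))
      (fun u v h => h.elim)
  have hg : ∀ (z : ℤ) (x : ℤ), (θ g ^ z) x = x + z := by
    have h1 : ∀ x, θ g x = x + 1 := by
      intro x
      simp only [g, map_mul, θ, RACG.lift_of, if_true, Bool.false_eq_true, if_false,
        Equiv.Perm.mul_apply]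
      simp only [n1, n2, Equiv.coe_fn_mk]
      ring
    intro z
    induction z using Int.induction_on with
    | zero => intro x; simp
    | succ k ih => intro x; rw [zpow_add_one, Equiv.Perm.mul_apply, h1, ih]; ring
    | pred k ih =>
      intro x
      rw [zpow_sub_one, Equiv.Perm.mul_apply]
      have : (θ g)⁻¹ x = x - 1 := by
        rw [Equiv.Perm.inv_eq_iff_eq, h1]; ring
      rw [this, ih]; ring
  refine ⟨zpowersHom _ g, fun z => ?_⟩
  have hpar : RACG.par (⊥ : SimpleGraph Bool) ∅ = ⊥ := by simp [RACG.par]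
  rw [hpar, Subgroup.mem_bot, zpowersHom_apply]
  constructor
  · intro h
    have h1 := congrArg θ h
    rw [map_zpow, map_one] at h1
    have h2 := hg (Multiplicative.toAdd z) 0
    rw [h1] at h2
    simp only [Equiv.Perm.coe_one, id_eq, zero_add] at h2
    exact (Multiplicative.toAdd.injective h2).symm
  · rintro rfl
    simp

theorem good_ker {P : Type} [Group P] (K : Subgroup P) [K.FiniteIndex]
    (δ : K →* Multiplicative ℤ) : Good (δ.ker.map K.subtype) := by
  obtain ⟨f, hf⟩ := exists_int_embedding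
  have h := good_comap_par K (f.comp δ) (∅ : Set Bool)
  have e : (RACG.par (⊥ : SimpleGraph Bool) ∅).comap (f.comp δ) = δ.ker := by
    ext k
    rw [Subgroup.mem_comap, MonoidHom.comp_apply, hf, MonoidHom.mem_ker]
  rwa [e] at h

theorem good_conj {P : Type} [Group P] {B C : Subgroup P} (u : P) (hB : Good B)
    (h : ∀ x, x ∈ C ↔ u⁻¹ * x * u ∈ B) : Good C := by
  refine Good.of_comap (K := ⊤) hB ((MulAut.conj u⁻¹).toMonoidHom.comp (⊤ : Subgroup P).subtype) ?_
  intro k
  rw [h]
  simp [MulAut.conj_apply]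

/-- the cyclic group of an axis is good -/
theorem good_zpowers_axis {V : Type} [Finite V] {Γ : SimpleGraph V} (A : PSeq Γ) (hA : A.Red) :
    Good (Subgroup.zpowers A.c) := by
  classical
  let K := A.K0 hA
  let incl : ∀ i : ℤ, K →* A.kk hA (A.s i) := fun i => Subgroup.inclusion (PSeq.K0_le hA i)
  let δ : ℤ → K →* Multiplicative ℤ := fun i =>
    ((A.dispHom hA (A.s i) ⟨i, rfl⟩).comp (incl i)) / ((A.dispHom hA (A.s 0) ⟨0, rfl⟩).comp (incl 0))
  have hδ : ∀ (i : ℤ) (k : K), δ i k = 1 ↔
      A.disp hA (A.s i) (incl i k) = A.disp hA (A.s 0) (incl 0 k) := by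
    intro i k
    simp only [δ, MonoidHom.div_apply, div_eq_one]
    exact Iff.rfl
  apply good_of_inf (K := K)
  have h1 := good_comap_par K (ff K) (Set.range (A.lab K))
  have h2 := good_iInf (Fin A.n) (fun i => (δ (i : ℕ)).ker.map K.subtype) (fun i => good_ker K _)
  have h3 := good_inf h1 h2
  have e : ((RACG.par (labGraph Γ K) (Set.range (A.lab K))).comap (ff K)).map K.subtype ⊓
      ⨅ i : Fin A.n, (δ ((i : ℕ) : ℤ)).ker.map K.subtype = Subgroup.zpowers A.c ⊓ K := by
    ext x
    rw [Subgroup.mem_inf, Subgroup.mem_inf, Subgroup.mem_iInf]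
    constructor
    · rintro ⟨⟨k, hk, rfl⟩, h5⟩
      refine ⟨?_, k.2⟩
      rw [Subgroup.coe_subtype, PSeq.mem_zpowers_iff hA (le_refl K) k.1 k.2]
      refine ⟨hk, fun i => ?_⟩
      obtain ⟨k', hk', hkk⟩ := h5 i
      have : k' = k := Subtype.ext hkk
      rw [this] at hk'
      exact (hδ _ k).1 hk'
    · rintro ⟨h5, h6⟩
      rw [PSeq.mem_zpowers_iff hA (le_refl K) x h6] at h5
      refine ⟨⟨⟨x, h6⟩, h5.1, rfl⟩, fun i => ⟨⟨x, h6⟩, ?_, rfl⟩⟩
      exact (hδ _ ⟨x, h6⟩).2 (h5.2 i)
  rwa [e] at h3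

theorem good_zpowers_ev {V : Type} [Finite V] {Γ : SimpleGraph V} (c : RACG Γ)
    (hc : c ∈ RACG.ev Γ) : Good (Subgroup.zpowers c) := by
  by_cases h1 : c = 1
  · subst h1
    refine Good.of_comap (K := ⊤) (good_comap_par (⊤ : Subgroup (RACG Γ)) (Subgroup.subtype ⊤) ∅)
      (Subgroup.subtype ⊤) ?_
    intro k
    simp [RACG.par]
  · obtain ⟨A, u, hA, hcu⟩ := exists_axis c hc h1
    refine good_conj u (good_zpowers_axis A hA) ?_
    intro x
    rw [Subgroup.mem_zpowers_iff, Subgroup.mem_zpowers_iff]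
    apply exists_congr
    intro D
    have : c ^ D = u * A.c ^ D * u⁻¹ := by rw [hcu, conj_zpow]
    rw [this]
    constructor
    · rintro rfl; group
    · intro h; rw [h]; group

end Pool.Agent.H41.VS
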