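import Mathlib
import Pool.Agent.H41.VS.GoodLemmas

/-!
# Virtual homomorphisms to `ℤ`; virtually cyclic subgroups are good
-/

set_option autoImplicit false

namespace Pool.Agent.H41.VS

open Function

theorem finiteIndex_ev {V : Type*} [Finite V] (Γ : SimpleGraph V) : (RACG.ev Γ).FiniteIndex := by
  unfold RACG.ev
  exact Subgroup.finiteIndex_iInf fun v => inferInstance

theorem VS.exists_ev {P : Type} [Group P] (h : VS P) :
    ∃ (V : Type) (_ : Finite V) (Γ : SimpleGraph V) (K : Subgroup P), K.Normal ∧ K.FiniteIndex ∧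
      ∃ ι : K →* RACG Γ, Injective ι ∧ ∀ k, ι k ∈ RACG.ev Γ := by
  obtain ⟨V, hV, Γ, K, hK, f, hf⟩ := h
  have hE := finiteIndex_ev Γ
  have hL : ((RACG.ev Γ).comap f).FiniteIndex := finiteIndex_comap f _
  let e := ((RACG.ev Γ).comap f).equivMapOfInjective K.subtype K.subtype_injective
  let M : Subgroup P := ((RACG.ev Γ).comap f).map K.subtype
  have hM : M.FiniteIndex := by
    constructor
    rw [Subgroup.index_map_subtype]
    exact mul_ne_zero hL.index_ne_zero Subgroup.FiniteIndex.index_ne_zero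
  have hle : M.normalCore ≤ M := Subgroup.normalCore_le M
  refine ⟨V, hV, Γ, M.normalCore, inferInstance, inferInstance,
    (f.comp ((RACG.ev Γ).comap f).subtype).comp (e.symm.toMonoidHom.comp (Subgroup.inclusion hle)),
    ?_, ?_⟩
  · intro a b hab
    have h1 : e.symm (Subgroup.inclusion hle a) = e.symm (Subgroup.inclusion hle b) := by
      apply Subtype.ext
      exact hf hab
    exact Subgroup.inclusion_injective hle (e.symm.injective h1)
  · intro k
    exact (e.symm (Subgroup.inclusion hle k)).2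

theorem ev_torsionfree {V : Type*} {Γ : SimpleGraph V} {x : RACG Γ} (hx : x ∈ RACG.ev Γ) {n : ℤ}
    (hn : n ≠ 0) (h : x ^ n = 1) : x = 1 := by
  by_contra h1
  obtain ⟨A, u, hA, hcu⟩ := exists_axis x hx h1
  rw [hcu, conj_zpow] at h
  refine PSeq.c_zpow_ne_one (A := A) hA hn ?_
  have : u * A.c ^ n * u⁻¹ = u * 1 * u⁻¹ := by rw [h]; group
  simpa using this

/-- virtual homomorphism to `ℤ` which is nontrivial on a given element of infinite order -/
theorem vrc {P : Type} [Group P] {V : Type} [Finite V] {Γ : SimpleGraph V} (K₁ : Subgroup P)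
    [hK₁ : K₁.FiniteIndex] (ι : K₁ →* RACG Γ) (hι : Injective ι) (hev : ∀ k, ι k ∈ RACG.ev Γ)
    (c : P) (hc : ∀ n : ℕ, 0 < n → c ^ n ≠ 1) :
    ∃ K : Subgroup P, K ≤ K₁ ∧ K.Normal ∧ K.FiniteIndex ∧ ∃ δ : K →* Multiplicative ℤ,
      ∃ (r : ℕ) (h : c ^ r ∈ K), 0 < r ∧ δ ⟨c ^ r, h⟩ ≠ 1 := by
  obtain ⟨r₁, hr₁, -, hcr₁⟩ := Subgroup.exists_pow_mem_of_index_ne_zero hK₁.index_ne_zero c
  set d : K₁ := ⟨c ^ r₁, hcr₁⟩ with hd
  have hd1 : ι d ≠ 1 := by
    intro h
    have : d = 1 := hι (by rw [h, map_one])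
    exact hc r₁ hr₁ (congrArg Subtype.val this)
  obtain ⟨A, u, hA, hcu⟩ := exists_axis (ι d) (hev d) hd1
  let j : K₁ →* RACG Γ := (MulAut.conj u⁻¹).toMonoidHom.comp ι
  have hj : ∀ k, j k = u⁻¹ * ι k * u := by
    intro k
    simp [j]
  have hjd : j d = A.c := by rw [hj, hcu]; group
  let L : Subgroup K₁ := (A.K0 hA).comap j
  have hL : L.FiniteIndex := finiteIndex_comap j _
  let M : Subgroup P := L.map K₁.subtype
  have hM : M.FiniteIndex := by
    constructor
    rw [Subgroup.index_map_subtype]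
    exact mul_ne_zero hL.index_ne_zero hK₁.index_ne_zero
  have hle : M.normalCore ≤ M := Subgroup.normalCore_le M
  let e := L.equivMapOfInjective K₁.subtype K₁.subtype_injective
  let incl : A.K0 hA →* A.kk hA (A.s 0) := Subgroup.inclusion (PSeq.K0_le hA 0)
  let δ₀ : L →* Multiplicative ℤ :=
    ((A.dispHom hA (A.s 0) ⟨0, rfl⟩).comp incl).comp (j.subgroupComap (A.K0 hA))
  let δ : M.normalCore →* Multiplicative ℤ :=
    δ₀.comp (e.symm.toMonoidHom.comp (Subgroup.inclusion hle))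
  obtain ⟨r₂, hr₂, -, hcr₂⟩ := Subgroup.exists_pow_mem_of_index_ne_zero
    (inferInstance : M.normalCore.FiniteIndex).index_ne_zero (c ^ r₁)
  have hM1 : M ≤ K₁ := by
    rintro x ⟨l, -, rfl⟩
    exact l.2
  refine ⟨M.normalCore, hle.trans hM1, inferInstance, inferInstance, δ, r₁ * r₂, ?_, ?_, ?_⟩
  · rw [pow_mul]; exact hcr₂
  · positivity
  · intro h
    -- the element of `L`
    have hmem : c ^ (r₁ * r₂) ∈ M.normalCore := by rw [pow_mul]; exact hcr₂
    set l : L := e.symm (Subgroup.inclusion hle ⟨c ^ (r₁ * r₂), hmem⟩) with hl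
    have h1 : e l = (Subgroup.inclusion hle ⟨c ^ (r₁ * r₂), hmem⟩) := by
      rw [hl, MulEquiv.apply_symm_apply]
    have h2 : (l.1 : P) = c ^ (r₁ * r₂) := congrArg Subtype.val h1
    have h3 : l.1 = d ^ r₂ := by
      apply Subtype.ext
      rw [h2, Subgroup.coe_pow, hd, pow_mul]
    have h4 : j l.1 = A.c ^ (r₂ : ℤ) := by rw [h3, map_pow, hjd, zpow_natCast]
    have h5 : δ₀ l = 1 := h
    have h6 : A.disp hA (A.s 0) ⟨j l.1, PSeq.K0_le hA 0 l.2⟩ = 0 := h5
    have h7 : (⟨j l.1, PSeq.K0_le hA 0 l.2⟩ : A.kk hA (A.s 0)) =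
        ⟨A.c ^ (r₂ : ℤ), by rw [← h4]; exact PSeq.K0_le hA 0 l.2⟩ := Subtype.ext h4
    rw [h7, PSeq.disp_zpow_c hA ⟨0, rfl⟩] at h6
    omega

/-- virtually cyclic -/
def VCyc (H : Type) [Group H] : Prop := ∃ C : Subgroup H, IsCyclic C ∧ C.index ≠ 0

/-- the trace of a finite-index subgroup of a virtually special group on an infinite virtually
cyclic group can be made infinite cyclic and detected by a homomorphism to `ℤ` -/
theorem exists_pin0 {H P : Type} [Group H] [Group P] (φ : H →* P) (hφ : Injective φ)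
    (hH : VCyc H) [Infinite H] {V : Type} [Finite V] {Γ : SimpleGraph V} (K₁ : Subgroup P)
    [hK₁ : K₁.FiniteIndex] (ι : K₁ →* RACG Γ) (hι : Injective ι) (hev : ∀ k, ι k ∈ RACG.ev Γ) :
    ∃ K : Subgroup P, K ≤ K₁ ∧ K.Normal ∧ K.FiniteIndex ∧ ∃ (δ : K →* Multiplicative ℤ) (z : H),
      K.comap φ = Subgroup.zpowers z ∧ (∀ m : ℤ, z ^ m = 1 → m = 0) ∧
      ∀ h : φ z ∈ K, δ ⟨φ z, h⟩ ≠ 1 := by
  obtain ⟨C, hC, hCi⟩ := hH
  have hCf : C.FiniteIndex := ⟨hCi⟩
  obtain ⟨c, hc⟩ := hC.exists_generator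
  -- `c` has infinite order
  have hcinf : ∀ n : ℕ, 0 < n → (φ c) ^ n ≠ 1 := by
    intro n hn h
    rw [← map_pow, ← map_one φ] at h
    have h1 : (c : H) ^ n = 1 := hφ h
    have h2 : IsOfFinOrder c := isOfFinOrder_iff_pow_eq_one.2 ⟨n, hn, Subtype.ext h1⟩
    have h3 : Finite (Subgroup.zpowers c) := h2.finite_zpowers
    have h4 : Subgroup.zpowers c = ⊤ := by
      rw [Subgroup.eq_top_iff']; exact hc
    rw [h4] at h3
    have h5 : Finite C := Finite.of_equiv _ (Subgroup.topEquiv (G := C)).toEquiv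
    have h6 : Finite (H ⧸ C) := inferInstance
    have h7 : Finite H := Finite.of_equiv _ (Subgroup.groupEquivQuotientProdSubgroup (s := C)).symm
    exact not_finite H
  obtain ⟨K, hKK, hKn, hKf, δ, r, hr, hr0, hδ⟩ := vrc K₁ ι hι hev (φ c) hcinf
  have hKtf : ∀ k ∈ K, ∀ n : ℤ, n ≠ 0 → k ^ n = 1 → k = 1 := by
    intro k hk n hn h
    have h1 : (ι ⟨k, hKK hk⟩) ^ n = 1 := by
      rw [← map_zpow]
      have : (⟨k, hKK hk⟩ : K₁) ^ n = 1 := Subtype.ext h
      rw [this, map_one]
    have h2 := ev_torsionfree (hev _) hn h1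
    have h3 : (⟨k, hKK hk⟩ : K₁) = 1 := hι (by rw [h2, map_one])
    exact congrArg Subtype.val h3
  let L : Subgroup H := K.comap φ
  have hLf : L.FiniteIndex := finiteIndex_comap φ K
  let δ' : L →* Multiplicative ℤ := δ.comp (φ.subgroupComap K)
  have htf : ∀ (a : Multiplicative ℤ) (t : ℤ), a ^ t = 1 → a ≠ 1 → t = 0 := by
    intro a t h1 h2
    have h3 : t * Multiplicative.toAdd a = 0 := by
      have := congrArg Multiplicative.toAdd h1
      simpa [toAdd_zpow] using this
    rcases mul_eq_zero.1 h3 with h | h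
    · exact h
    · exact absurd (Multiplicative.toAdd.injective h) h2
  have hinj : Injective δ' := by
    rw [injective_iff_map_eq_one]
    intro k hk
    obtain ⟨s, hs, -, hks⟩ := Subgroup.exists_pow_mem_of_index_ne_zero hCi k.1
    obtain ⟨t, ht⟩ := hc ⟨k.1 ^ s, hks⟩
    have ht' : (c : H) ^ t = k.1 ^ s := congrArg Subtype.val ht
    have hcr : (c : H) ^ r ∈ L := by
      change φ ((c : H) ^ r) ∈ K
      rw [map_pow]; exact hr
    have h1 : (⟨(c : H) ^ r, hcr⟩ : L) ^ t = k ^ (s * r) := by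
      apply Subtype.ext
      rw [Subgroup.coe_zpow, Subgroup.coe_pow, pow_mul, ← ht']
      change ((c : H) ^ r) ^ t = ((c : H) ^ t) ^ r
      rw [← zpow_natCast, ← zpow_natCast, ← zpow_mul, ← zpow_mul, mul_comm]
    have h2 : (δ' ⟨(c : H) ^ r, hcr⟩) ^ t = 1 := by
      rw [← map_zpow, h1, map_pow, hk, one_pow]
    have h3 : δ' ⟨(c : H) ^ r, hcr⟩ ≠ 1 := by
      intro h4
      apply hδ
      have h5 : (φ.subgroupComap K ⟨(c : H) ^ r, hcr⟩) = ⟨(φ c) ^ r, hr⟩ := by
        apply Subtype.ext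
        exact map_pow φ _ _
      have h6 : δ (φ.subgroupComap K ⟨(c : H) ^ r, hcr⟩) = 1 := h4
      rwa [h5] at h6
    have h4 := htf _ _ h2 h3
    rw [h4, zpow_zero] at ht'
    apply Subtype.ext
    apply hφ
    rw [OneMemClass.coe_one, map_one]
    apply hKtf _ k.2 s (by omega)
    rw [zpow_natCast, ← map_pow, ← ht', map_one]
  have hcyc : IsCyclic L := isCyclic_of_injective δ' hinj
  obtain ⟨z, hz⟩ := hcyc.exists_generator
  have hLz : L = Subgroup.zpowers (z : H) := by
    ext x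
    constructor
    · intro hx
      obtain ⟨m, hm⟩ := hz ⟨x, hx⟩
      exact ⟨m, congrArg Subtype.val hm⟩
    · rintro ⟨m, rfl⟩
      exact L.zpow_mem z.2 m
  have hLinf : Infinite L := by
    by_contra hfin
    rw [not_infinite_iff_finite] at hfin
    have h7 : Finite H := Finite.of_equiv _ (Subgroup.groupEquivQuotientProdSubgroup (s := L)).symm
    exact not_finite H
  have hz1 : δ' z ≠ 1 := by
    intro h
    have h1 : z = 1 := hinj (by rw [h, map_one])
    have : Subsingleton L := ⟨fun a b => by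
      obtain ⟨m, hm⟩ := hz a
      obtain ⟨m', hm'⟩ := hz b
      dsimp only at hm hm'
      rw [← hm, ← hm', h1, one_zpow, one_zpow]⟩
    exact not_finite L
  refine ⟨K, hKK, hKn, hKf, δ, z, hLz, fun m hm => ?_, fun h h' => hz1 h'⟩
  refine htf (δ' z) m ?_ hz1
  rw [← map_zpow]
  have : z ^ m = 1 := Subtype.ext hm
  rw [this, map_one]

/-- virtually cyclic subgroups of virtually special groups are good -/
theorem good_of_vCyc {P : Type} [Group P] (hP : VS P) (B : Subgroup P) (hB : VCyc B) :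
    Good B := by
  obtain ⟨V, hV, Γ, K₁, hK₁n, hK₁, ι, hι, hev⟩ := hP.exists_ev
  rcases finite_or_infinite B with hfin | hinf
  · -- finite: trivial intersection with the torsion-free subgroup
    apply good_of_inf (K := K₁)
    have h1 : B ⊓ K₁ = ⊥ := by
      rw [eq_bot_iff]
      rintro x ⟨hx, hxK⟩
      have h2 : IsOfFinOrder (⟨x, hx⟩ : B) := isOfFinOrder_of_finite _
      obtain ⟨n, hn, hn1⟩ := isOfFinOrder_iff_pow_eq_one.1 h2
      have h3 : x ^ n = 1 := congrArg Subtype.val hn1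
      have h4 : (ι ⟨x, hxK⟩) ^ (n : ℤ) = 1 := by
        rw [zpow_natCast, ← map_pow]
        have : (⟨x, hxK⟩ : K₁) ^ n = 1 := Subtype.ext h3
        rw [this, map_one]
      have h5 := ev_torsionfree (hev _) (by omega) h4
      have h6 : (⟨x, hxK⟩ : K₁) = 1 := hι (by rw [h5, map_one])
      exact congrArg Subtype.val h6
    rw [h1]
    have h2 : Good (Subgroup.zpowers (1 : RACG Γ)) := good_zpowers_ev 1 (Subgroup.one_mem _)
    refine Good.of_comap h2 K₁ ι ?_
    intro k
    rw [Subgroup.zpowers_one_eq_bot, Subgroup.mem_bot, Subgroup.mem_bot]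
    constructor
    · intro h
      have : k = 1 := Subtype.ext h
      rw [this, map_one]
    · intro h
      have : k = 1 := hι (by rw [h, map_one])
      rw [this]; rfl
  · obtain ⟨K, hKK, hKn, hKf, δ, z, hz, hz0, hδ⟩ :=
      exists_pin0 B.subtype B.subtype_injective hB K₁ ι hι hev
    apply good_of_inf (K := K)
    have hzK : z.1 ∈ K := by
      have : z ∈ K.comap B.subtype := by rw [hz]; exact Subgroup.mem_zpowers z
      exact this
    have h1 : B ⊓ K = Subgroup.zpowers z.1 := by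
      ext x
      constructor
      · rintro ⟨hx, hxK⟩
        have : (⟨x, hx⟩ : B) ∈ K.comap B.subtype := hxK
        rw [hz] at this
        obtain ⟨m, hm⟩ := this
        exact ⟨m, congrArg Subtype.val hm⟩
      · rintro ⟨m, rfl⟩
        exact ⟨B.zpow_mem z.2 m, K.zpow_mem hzK m⟩
    rw [h1]
    refine Good.of_comap (good_zpowers_ev (ι ⟨z.1, hKK hzK⟩) (hev _)) K₁ ι ?_
    intro k
    rw [Subgroup.mem_zpowers_iff, Subgroup.mem_zpowers_iff]
    apply exists_congr
    intro m
    rw [← map_zpow, hι.eq_iff]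
    exact ⟨fun h => Subtype.ext h, fun h => congrArg Subtype.val h⟩

end Pool.Agent.H41.VS
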