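import Mathlib
import Pool.Agent.H41.VS.Vrc

/-!
# Refinement of finite-index subgroups: making the periods of labels constant on components
-/

set_option autoImplicit false

namespace Pool.Agent.H41.VS

open Function

variable {V : Type*} {Γ : SimpleGraph V}

theorem parity_act (K : Subgroup (RACG Γ)) (a : Lab Γ K) (x : RACG Γ)
    (z : RACG (labGraph Γ K)) :
    RACG.parity (labGraph Γ K) a (actL K x z) = RACG.parity (labGraph Γ K) (x⁻¹ • a) z := by
  have : (RACG.parity (labGraph Γ K) a).comp (actL K x).toMonoidHom =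
      RACG.parity (labGraph Γ K) (x⁻¹ • a) := by
    apply RACG.hom_ext
    intro b
    rw [MonoidHom.comp_apply]
    change RACG.parity (labGraph Γ K) a (actL K x (RACG.of _ b)) = _
    rw [RACG.act_of]
    by_cases h : x • b = a
    · have h' : b = x⁻¹ • a := by rw [← h, inv_smul_smul]
      rw [h, h', RACG.parity_of_self, RACG.parity_of_self]
    · have h' : b ≠ x⁻¹ • a := by rintro rfl; exact h (by rw [smul_inv_smul])
      rw [RACG.parity_of_ne h, RACG.parity_of_ne h']
  exact DFunLike.congr_fun this z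

/-- the mod 2 refinement of `K` -/
noncomputable def K2 (K : Subgroup (RACG Γ)) [K.Normal] : Subgroup (RACG Γ) :=
  ((RACG.ev (labGraph Γ K)).comap (ff K)).map K.subtype

theorem mem_K2 {K : Subgroup (RACG Γ)} [K.Normal] {x : RACG Γ} :
    x ∈ K2 K ↔ x ∈ K ∧ ∀ a, RACG.parity (labGraph Γ K) a (cr K x) = 1 := by
  constructor
  · rintro ⟨k, hk, rfl⟩
    exact ⟨k.2, RACG.mem_ev.1 hk⟩
  · rintro ⟨h1, h2⟩
    exact ⟨⟨x, h1⟩, RACG.mem_ev.2 h2, rfl⟩

theorem K2_le (K : Subgroup (RACG Γ)) [K.Normal] : K2 K ≤ K := fun _ h => (mem_K2.1 h).1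

instance K2_normal (K : Subgroup (RACG Γ)) [hK : K.Normal] : (K2 K).Normal := by
  constructor
  intro x hx g
  rw [mem_K2] at hx ⊢
  refine ⟨hK.conj_mem _ hx.1 _, fun a => ?_⟩
  have h1 := cr_conj hx.1 g⁻¹
  rw [inv_inv] at h1
  rw [h1, parity_act, map_mul, map_mul, hx.2, mul_one, map_inv, inv_mul_cancel]

instance K2_finiteIndex [Finite V] (K : Subgroup (RACG Γ)) [K.Normal] [hK : K.FiniteIndex] :
    (K2 K).FiniteIndex := by
  have := finiteIndex_ev (labGraph Γ K)
  have hL : ((RACG.ev (labGraph Γ K)).comap (ff K)).FiniteIndex := finiteIndex_comap _ _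
  constructor
  unfold K2
  rw [Subgroup.index_map_subtype]
  exact mul_ne_zero hL.index_ne_zero hK.index_ne_zero

theorem sq_mem_K2 {K : Subgroup (RACG Γ)} [K.Normal] {x : RACG Γ} (hx : x ∈ K) :
    x ^ 2 ∈ K2 K := by
  rw [mem_K2]
  refine ⟨K.pow_mem hx 2, fun a => ?_⟩
  rw [sq, cr_mul, act_eq_of_mem hx, map_mul]
  generalize RACG.parity (labGraph Γ K) a (cr K x) = z
  revert z; decide

theorem parity_cr_of_mem_st {K : Subgroup (RACG Γ)} {v : V} {w : RACG Γ}
    (hw : w ∈ RACG.st Γ v) (hp : RACG.parity Γ v w = 1) (a : Lab Γ K) (ha : ¬ Γ.Adj a.1 v) :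
    RACG.parity (labGraph Γ K) a (cr K w) = 1 := by
  classical
  obtain ⟨l, hl, rfl⟩ := RACG.exists_word_of_mem_par hw
  clear hw
  have key : ∀ (l : List V), (∀ x ∈ l, x ∈ insert v (Γ.neighborSet v)) → ∀ a : Lab Γ K,
      ¬ Γ.Adj a.1 v → RACG.parity (labGraph Γ K) a (cr K (RACG.prod Γ l)) =
        if a = lab K v 1 then RACG.parity Γ v (RACG.prod Γ l) else 1 := by
    intro l
    induction l with
    | nil => intro _ a _; simp [cr_one]
    | cons b l ih =>
      intro hl a ha
      have ih' := ih (fun x hx => hl x (by simp [hx])) ((RACG.of Γ b)⁻¹ • a) ha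
      rw [RACG.prod_cons, cr_mul, map_mul, parity_act, ih', cr_of, map_mul]
      have hb : b ∈ insert v (Γ.neighborSet v) := hl b (by simp)
      have hbst : RACG.of Γ b ∈ RACG.st Γ v := RACG.of_mem_par hb
      have hfix : ((RACG.of Γ b)⁻¹ • a = lab K v 1) ↔ a = lab K v 1 := by
        constructor
        · intro h
          rw [inv_smul_eq_iff] at h
          rw [h, smul_lab_one_of_mem_st hbst]
        · rintro rfl
          exact smul_lab_one_of_mem_st (inv_mem hbst)
      rcases hb with rfl | hb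
      · by_cases h : a = lab K b 1
        · rw [if_pos (hfix.2 h), if_pos h, h, RACG.parity_of_self, RACG.parity_of_self]
        · rw [if_neg (fun h' => h (hfix.1 h')), if_neg h, RACG.parity_of_ne (Ne.symm h), one_mul]
      · have hadj : Γ.Adj v b := hb
        have h1 : lab K b 1 ≠ a := by
          intro h
          apply ha
          rw [← h]; exact hadj.symm
        rw [RACG.parity_of_ne h1, one_mul, RACG.parity_of_ne hadj.ne', one_mul]
        by_cases h : a = lab K v 1
        · rw [if_pos (hfix.2 h), if_pos h]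
        · rw [if_neg (fun h' => h (hfix.1 h')), if_neg h]
  rw [key l hl a ha, hp, ite_self]

namespace PSeq

variable {A : PSeq Γ}

theorem pd_of_smul_eq {K : Subgroup (RACG Γ)} (A : PSeq Γ) (i D : ℤ) :
    A.c ^ D • A.lab K i = A.lab K i ↔ (MulAction.period A.c (A.lab K i) : ℤ) ∣ D :=
  MulAction.zpow_smul_eq_iff_period_dvd

theorem period_translate {K : Subgroup (RACG Γ)} (A : PSeq Γ) (i D : ℤ) :
    MulAction.period A.c (A.lab K (i + A.n * D)) = MulAction.period A.c (A.lab K i) := by
  have key : ∀ E : ℤ, A.c ^ E • A.lab K (i + A.n * D) = A.lab K (i + A.n * D) ↔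
      A.c ^ E • A.lab K i = A.lab K i := by
    intro E
    rw [lab_add_mul, ← mul_smul, ← zpow_add, add_comm, zpow_add, mul_smul]
    constructor
    · intro h; exact MulAction.injective _ h
    · intro h; rw [h]
  apply Nat.dvd_antisymm
  · have h1 : A.c ^ ((MulAction.period A.c (A.lab K i) : ℕ) : ℤ) • A.lab K (i + A.n * D) =
        A.lab K (i + A.n * D) := by
      rw [key, pd_of_smul_eq]
    rw [pd_of_smul_eq] at h1
    exact_mod_cast h1
  · have h1 : A.c ^ ((MulAction.period A.c (A.lab K (i + A.n * D)) : ℕ) : ℤ) • A.lab K i =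
        A.lab K i := by
      rw [← key, pd_of_smul_eq]
    rw [pd_of_smul_eq] at h1
    exact_mod_cast h1

/-- parity count along the axis -/
theorem parity_cr_x [DecidableEq V] (K : Subgroup (RACG Γ)) (A : PSeq Γ) (i : ℤ) (a : Lab Γ K)
    (m : ℕ) : Multiplicative.toAdd (RACG.parity (labGraph Γ K) a (cr K (A.x (i + m)))) =
      Multiplicative.toAdd (RACG.parity (labGraph Γ K) a (cr K (A.x i))) +
        (@Nat.count (fun r : ℕ => A.lab K (i + r) = a) (Classical.decPred _) m : ZMod 2) := by
  classical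
  induction m with
  | zero => simp
  | succ m ih =>
    push_cast
    rw [← add_assoc, A.xs, cr_mul_of, map_mul, toAdd_mul, ih, Nat.count_succ]
    change _ + Multiplicative.toAdd (RACG.parity (labGraph Γ K) a
      (RACG.of (labGraph Γ K) (A.lab K (i + m)))) = _
    by_cases h : A.lab K (i + (m : ℤ)) = a
    · rw [if_pos h, ← h, RACG.parity_of_self]
      push_cast
      rw [add_assoc]; rfl
    · rw [if_neg h, RACG.parity_of_ne h]
      simp

/-- **Key claim**: periods modulo the refinement. -/
theorem two_mul_period_dvd (hA : A.Red) {K : Subgroup (RACG Γ)} [K.Normal] (hK : K ≤ A.K0 hA)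
    (hpos : ∀ i, 0 < MulAction.period A.c (A.lab K i))
    {i l : ℤ} (hil : ¬ Γ.Adj (A.s l) (A.s i)) {D : ℕ}
    (hD : A.c ^ D • A.lab (K2 K) i = A.lab (K2 K) i) :
    2 * MulAction.period A.c (A.lab K l) ∣ D := by
  classical
  set P := MulAction.period A.c (A.lab K l) with hP
  have hP0 : 0 < P := hpos l
  -- the relation
  have hlab : A.lab (K2 K) i = A.lab (K2 K) (i + A.n * D) := by
    rw [lab_add_mul, zpow_natCast, hD]
  have hK2 : K2 K ≤ A.kk hA (A.s i) := (K2_le K).trans (hK.trans (K0_le hA i))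
  obtain ⟨-, -, k, hk, w, hw, hx, hpw⟩ := lab_eq_imp hA hK2 hlab
  -- all counts are even
  have hcount : ∀ l' : ℤ, ¬ Γ.Adj (A.s l') (A.s i) →
      ((@Nat.count (fun r : ℕ => A.lab K (i + r) = A.lab K l') (Classical.decPred _)
        (A.n * D) : ℕ) : ZMod 2) = 0 := by
    intro l' hl'
    have h1 := parity_cr_x K A i (A.lab K l') (A.n * D)
    have h2 : A.x (i + ((A.n * D : ℕ) : ℤ)) = k * A.x i * w := by rw [← hx]; push_cast; rfl
    have hkK : k ∈ K := K2_le K hk
    have h3 : RACG.parity (labGraph Γ K) (A.lab K l') (cr K (k * A.x i * w)) =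
        RACG.parity (labGraph Γ K) (A.lab K l') (cr K (A.x i)) := by
      rw [cr_mul, cr_mul, act_eq_of_mem hkK, map_mul, map_mul, (mem_K2.1 hk).2, one_mul,
        parity_act, parity_cr_of_mem_st hw hpw, mul_one]
      exact hl'
    rw [h2, h3] at h1
    have h4 := h1.symm
    rwa [add_eq_left] at h4
  -- base point
  have hn : (0 : ℤ) < A.n := by exact_mod_cast A.npos
  obtain ⟨t, ht⟩ : ∃ t : ℤ, t = (l - i) % A.n := ⟨_, rfl⟩
  have ht0 : 0 ≤ t := by rw [ht]; exact Int.emod_nonneg _ (by omega)
  have htn : t < A.n := by rw [ht]; exact Int.emod_lt_of_pos _ hn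
  have hl : l = i + t + A.n * ((l - i) / A.n) := by
    have := Int.emod_add_mul_ediv (l - i) A.n
    rw [← ht] at this; linarith
  have hperiod : ∀ b : ℤ, MulAction.period A.c (A.lab K (i + t + A.n * b)) = P := by
    intro b
    rw [period_translate, hP, hl, period_translate]
  have htype : ∀ b : ℤ, A.s (i + t + A.n * b) = A.s l := by
    intro b
    rw [A.per_mul, hl, A.per_mul]
  have hsame : ∀ b b' : ℤ, A.lab K (i + t + A.n * b') = A.lab K (i + t + A.n * b) ↔
      (P : ℤ) ∣ b' - b := by
    intro b b'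
    have h1 : A.lab K (i + t + A.n * b') = A.c ^ (b' - b) • A.lab K (i + t + A.n * b) := by
      rw [← lab_add_mul]; congr 1; ring
    rw [h1, pd_of_smul_eq, hperiod]
  -- count of residues
  have hres : ∀ b : ℕ, ((Nat.count (fun b' => b' ≡ b [MOD P]) D : ℕ) : ZMod 2) = 0 := by
    intro b
    rw [← hcount (i + t + A.n * b) (by rw [htype]; exact hil)]
    congr 1
    rw [Nat.count_eq_card_filter_range, @Nat.count_eq_card_filter_range _ (Classical.decPred _)]
    apply Finset.card_bij (fun b' _ => t.toNat + A.n * b')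
    · intro b' hb'
      rw [Finset.mem_filter, Finset.mem_range] at hb'
      refine (@Finset.mem_filter _ _ (Classical.decPred _) _ _).2 ⟨Finset.mem_range.2 ?_, ?_⟩
      · have h1 : t.toNat < A.n := by omega
        have h2 : b' + 1 ≤ D := hb'.1
        calc t.toNat + A.n * b' < A.n + A.n * b' := by omega
          _ = A.n * (b' + 1) := by ring
          _ ≤ A.n * D := Nat.mul_le_mul_left _ h2
      · have h1 : i + ((t.toNat + A.n * b' : ℕ) : ℤ) = i + t + A.n * (b' : ℤ) := by
          push_cast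
          rw [Int.toNat_of_nonneg ht0]; ring
        rw [h1, hsame]
        exact (Nat.modEq_iff_dvd.1 hb'.2.symm)
    · intro a₁ _ a₂ _ h
      have h1 : A.n * a₁ = A.n * a₂ := by omega
      exact Nat.eq_of_mul_eq_mul_left A.npos h1
    · intro r hr
      obtain ⟨hr1, hr2⟩ := (@Finset.mem_filter _ _ (Classical.decPred _) _ _).1 hr
      rw [Finset.mem_range] at hr1
      have hK' : K ≤ A.kk hA (A.s (i + r)) := hK.trans (K0_le hA _)
      obtain ⟨-, ⟨E, hE⟩, -⟩ := lab_eq_imp hA hK' hr2
      -- r = t + n (b - E)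
      have h1 : (r : ℤ) = t + A.n * (b - E) := by
        have : (i : ℤ) + t + A.n * b = i + r + A.n * E := hE
        linarith
      have h2 : 0 ≤ (b : ℤ) - E := by
        by_contra hneg
        push Not at hneg
        have : A.n * ((b : ℤ) - E) ≤ A.n * (-1) := by
          apply mul_le_mul_of_nonneg_left _ hn.le; omega
        have h3 : (0 : ℤ) ≤ r := by positivity
        linarith
      refine ⟨((b : ℤ) - E).toNat, ?_, ?_⟩
      · rw [Finset.mem_filter, Finset.mem_range]
        refine ⟨?_, ?_⟩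
        · have h3 : ((b : ℤ) - E) < D := by
            by_contra hge
            push Not at hge
            have h4 : (A.n : ℤ) * D ≤ A.n * ((b : ℤ) - E) := mul_le_mul_of_nonneg_left hge hn.le
            have h5 : (r : ℤ) < A.n * D := by exact_mod_cast hr1
            linarith
          omega
        · have h3 : i + (r : ℤ) = i + t + A.n * ((b : ℤ) - E) := by rw [h1]; ring
          rw [h3, hsame] at hr2
          apply Nat.ModEq.symm
          rw [Nat.modEq_iff_dvd, Int.toNat_of_nonneg h2]
          exact hr2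
      · have h3 : ((t.toNat + A.n * ((b : ℤ) - E).toNat : ℕ) : ℤ) = r := by
          push_cast
          rw [Int.toNat_of_nonneg ht0, Int.toNat_of_nonneg h2, h1]
        exact_mod_cast h3
  have h0 := hres 0
  have h1 := hres (P - 1)
  rw [ZMod.natCast_eq_zero_iff] at h0 h1
  rw [Nat.count_modEq_card _ hP0] at h0 h1
  have e1 : (P - 1) % P = P - 1 := Nat.mod_eq_of_lt (by omega)
  have e2 : 0 % P = 0 := Nat.zero_mod P
  have e3 : D % P < P := Nat.mod_lt _ hP0
  rw [e1, if_neg (by omega)] at h1
  rw [e2] at h0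
  have h2 : D % P = 0 := by
    by_contra hne
    rw [if_pos (by omega)] at h0
    omega
  have h3 := Nat.div_add_mod D P
  rw [h2, add_zero] at h3
  obtain ⟨q, hq⟩ := h1
  rw [add_zero] at hq
  refine ⟨q, ?_⟩
  rw [← h3, hq]; ring

end PSeq

end Pool.Agent.H41.VS
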