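import Mathlib
import Pool.Agent.H41.VS.Distinct

/-!
# Existence of finite-index subgroups for which the periods are constant on components
-/

set_option autoImplicit false

namespace Pool.Agent.H41.VS

open Function

variable {V : Type*} {Γ : SimpleGraph V}

/-- order of `c` modulo `K` (via the action on cosets) -/
noncomputable def ordMod (c : RACG Γ) (K : Subgroup (RACG Γ)) : ℕ :=
  MulAction.period c (QuotientGroup.mk 1 : RACG Γ ⧸ K)

theorem pow_mem_iff_ordMod (c : RACG Γ) (K : Subgroup (RACG Γ)) (n : ℕ) :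
    c ^ n ∈ K ↔ ordMod c K ∣ n := by
  unfold ordMod
  rw [← MulAction.pow_smul_eq_iff_period_dvd]
  change _ ↔ (QuotientGroup.mk (c ^ n * 1) : RACG Γ ⧸ K) = QuotientGroup.mk 1
  rw [QuotientGroup.eq, mul_one, mul_one, inv_mem_iff]

theorem ordMod_pos (c : RACG Γ) (K : Subgroup (RACG Γ)) [hK : K.FiniteIndex] :
    0 < ordMod c K := by
  obtain ⟨n, hn, -, h⟩ := Subgroup.exists_pow_mem_of_index_ne_zero hK.index_ne_zero c
  rw [pow_mem_iff_ordMod] at h
  exact Nat.pos_of_dvd_of_pos h hn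

namespace PSeq

variable {A : PSeq Γ}

theorem period_dvd_ordMod {K : Subgroup (RACG Γ)} [K.Normal] (i : ℤ) :
    MulAction.period A.c (A.lab K i) ∣ ordMod A.c K := by
  rw [← MulAction.pow_smul_eq_iff_period_dvd]
  exact smul_eq_of_mem ((pow_mem_iff_ordMod _ _ _).2 (dvd_refl _)) _

theorem period_pos {K : Subgroup (RACG Γ)} [K.Normal] [K.FiniteIndex] (i : ℤ) :
    0 < MulAction.period A.c (A.lab K i) :=
  Nat.pos_of_dvd_of_pos (period_dvd_ordMod i) (ordMod_pos _ _)

theorem ordMod_K2_dvd {K : Subgroup (RACG Γ)} [K.Normal] (c : RACG Γ) :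
    ordMod c (K2 K) ∣ 2 * ordMod c K := by
  rw [← pow_mem_iff_ordMod, mul_comm, pow_mul]
  exact sq_mem_K2 ((pow_mem_iff_ordMod _ _ _).2 (dvd_refl _))

/-- the termwise estimate -/
theorem quot_mul_lcm_le [Finite V] (hA : A.Red) {K : Subgroup (RACG Γ)} [K.Normal]
    [K.FiniteIndex] (hK : K ≤ A.K0 hA) {i l : ℤ} (hil : ¬ Γ.Adj (A.s l) (A.s i)) :
    (ordMod A.c (K2 K) / MulAction.period A.c (A.lab (K2 K) i)) *
      Nat.lcm (MulAction.period A.c (A.lab K i)) (MulAction.period A.c (A.lab K l)) ≤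
      ordMod A.c K := by
  set P' := MulAction.period A.c (A.lab (K2 K) i) with hP'
  have h1 : 2 * MulAction.period A.c (A.lab K i) ∣ P' := by
    apply two_mul_period_dvd hA hK (fun i => period_pos i) (Γ.irrefl (v := A.s i))
    exact MulAction.pow_period_smul _ _
  have h2 : 2 * MulAction.period A.c (A.lab K l) ∣ P' := by
    apply two_mul_period_dvd hA hK (fun i => period_pos i) hil
    exact MulAction.pow_period_smul _ _
  have h3 : 2 * Nat.lcm (MulAction.period A.c (A.lab K i)) (MulAction.period A.c (A.lab K l)) ∣ P' := by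
    rw [← Nat.lcm_mul_left]
    exact Nat.lcm_dvd h1 h2
  have hP'0 : 0 < P' := period_pos i
  have h4 := Nat.le_of_dvd hP'0 h3
  have h5 : ordMod A.c (K2 K) ≤ 2 * ordMod A.c K :=
    Nat.le_of_dvd (by have := ordMod_pos A.c K; omega) (ordMod_K2_dvd _)
  have h6 : ordMod A.c (K2 K) / P' * P' ≤ ordMod A.c (K2 K) := Nat.div_mul_le_self _ _
  nlinarith [Nat.zero_le (ordMod A.c (K2 K) / P')]

end PSeq

/-- **Distinctness.** -/
theorem exists_distinct {V : Type} [Finite V] {Γ : SimpleGraph V} (α : Type) [Fintype α]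
    (A : α → PSeq Γ) (hA : ∀ a, (A a).Red) :
    ∃ K : Subgroup (RACG Γ), K.Normal ∧ K.FiniteIndex ∧ (∀ a, K ≤ (A a).K0 (hA a)) ∧
      ∀ (a : α) (i l : ℤ), ¬ Γ.Adj ((A a).s l) ((A a).s i) →
        MulAction.period (A a).c ((A a).lab K l) = MulAction.period (A a).c ((A a).lab K i) := by
  classical
  let Q : Subgroup (RACG Γ) → Prop := fun K =>
    K.Normal ∧ K.FiniteIndex ∧ ∀ a, K ≤ (A a).K0 (hA a)
  let μ : Subgroup (RACG Γ) → ℕ := fun K => ∑ a, ∑ i : Fin (A a).n,
    ordMod (A a).c K / MulAction.period (A a).c ((A a).lab K ((i : ℕ) : ℤ))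
  have hex : ∃ n, ∃ K, Q K ∧ μ K = n := by
    refine ⟨_, ⨅ a, (A a).K0 (hA a), ⟨?_, ?_, fun a => iInf_le _ a⟩, rfl⟩
    · exact Subgroup.normal_iInf_normal fun a => inferInstance
    · exact Subgroup.finiteIndex_iInf fun a => inferInstance
  obtain ⟨K, ⟨hKn, hKf, hK⟩, hμ⟩ := Nat.find_spec hex
  refine ⟨K, hKn, hKf, hK, ?_⟩
  have hQ2 : Q (K2 K) := ⟨inferInstance, inferInstance, fun a => (K2_le K).trans (hK a)⟩
  have hmin : μ K ≤ μ (K2 K) := by
    rw [hμ]
    exact Nat.find_min' hex ⟨K2 K, hQ2, rfl⟩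
  -- termwise inequality
  have hle : ∀ (a : α) (i : ℤ), ordMod (A a).c (K2 K) /
      MulAction.period (A a).c ((A a).lab (K2 K) i) ≤
      ordMod (A a).c K / MulAction.period (A a).c ((A a).lab K i) := by
    intro a i
    have h1 := PSeq.quot_mul_lcm_le (hA a) (hK a) (i := i) (l := i) (Γ.irrefl)
    rw [Nat.lcm_self] at h1
    rw [Nat.le_div_iff_mul_le (PSeq.period_pos i)]
    exact h1
  have hsum : ∀ a, ∑ i : Fin (A a).n, ordMod (A a).c (K2 K) /
      MulAction.period (A a).c ((A a).lab (K2 K) ((i : ℕ) : ℤ)) =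
      ∑ i : Fin (A a).n, ordMod (A a).c K /
        MulAction.period (A a).c ((A a).lab K ((i : ℕ) : ℤ)) := by
    have h1 : ∀ a ∈ (Finset.univ : Finset α), ∑ i : Fin (A a).n, ordMod (A a).c (K2 K) /
      MulAction.period (A a).c ((A a).lab (K2 K) ((i : ℕ) : ℤ)) ≤
      ∑ i : Fin (A a).n, ordMod (A a).c K /
        MulAction.period (A a).c ((A a).lab K ((i : ℕ) : ℤ)) := fun a _ =>
      Finset.sum_le_sum fun i _ => hle a _
    have h2 := (Finset.sum_eq_sum_iff_of_le h1).1 (le_antisymm (Finset.sum_le_sum h1) hmin)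
    exact fun a => h2 a (Finset.mem_univ a)
  have heq : ∀ (a : α) (i : Fin (A a).n), ordMod (A a).c (K2 K) /
      MulAction.period (A a).c ((A a).lab (K2 K) ((i : ℕ) : ℤ)) =
      ordMod (A a).c K / MulAction.period (A a).c ((A a).lab K ((i : ℕ) : ℤ)) := by
    intro a i
    exact (Finset.sum_eq_sum_iff_of_le (fun i _ => hle a _)).1 (hsum a) i (Finset.mem_univ i)
  -- divisibility
  have hdvd : ∀ (a : α) (i l : ℤ), ¬ Γ.Adj ((A a).s l) ((A a).s i) →
      MulAction.period (A a).c ((A a).lab K l) ∣ MulAction.period (A a).c ((A a).lab K i) := by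
    intro a i l hil
    -- reduce to `i ∈ [0, n)`
    have hn : (0 : ℤ) < (A a).n := by exact_mod_cast (A a).npos
    have e1 := Int.emod_nonneg i (b := ((A a).n : ℤ)) (by omega)
    have e2 := Int.emod_lt_of_pos i hn
    have e3 := Int.emod_add_mul_ediv i (A a).n
    let i₀ : Fin (A a).n := ⟨(i % (A a).n).toNat, by omega⟩
    have e4 : ((i₀ : ℕ) : ℤ) = i % (A a).n := by simp only [i₀]; omega
    have e5 : i = ((i₀ : ℕ) : ℤ) + (A a).n * (i / (A a).n) := by rw [e4]; exact e3.symm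
    have e6 : MulAction.period (A a).c ((A a).lab K i) =
        MulAction.period (A a).c ((A a).lab K ((i₀ : ℕ) : ℤ)) := by
      conv_lhs => rw [e5]
      exact PSeq.period_translate _ _ _
    have e7 : (A a).s i = (A a).s ((i₀ : ℕ) : ℤ) := by
      conv_lhs => rw [e5]
      exact (A a).per_mul _ _
    rw [e6]
    rw [e7] at hil
    have h1 := PSeq.quot_mul_lcm_le (hA a) (hK a) hil
    rw [heq a i₀] at h1
    set p := MulAction.period (A a).c ((A a).lab K ((i₀ : ℕ) : ℤ)) with hp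
    set p' := MulAction.period (A a).c ((A a).lab K l) with hp'
    have hp0 : 0 < p := PSeq.period_pos _
    have hpm : p ∣ ordMod (A a).c K := PSeq.period_dvd_ordMod _
    have hm0 : 0 < ordMod (A a).c K := ordMod_pos _ _
    obtain ⟨q, hq⟩ := hpm
    have hq0 : 0 < q := by
      rcases Nat.eq_zero_or_pos q with h | h
      · rw [h] at hq; omega
      · exact h
    rw [hq, Nat.mul_div_cancel_left _ hp0] at h1
    have h2 : Nat.lcm p p' ≤ p := by
      rw [mul_comm p q] at h1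
      exact Nat.le_of_mul_le_mul_left h1 hq0
    have h3 : p ∣ Nat.lcm p p' := Nat.dvd_lcm_left _ _
    have h4 : 0 < Nat.lcm p p' := Nat.lcm_pos hp0 (PSeq.period_pos _)
    have h5 : Nat.lcm p p' = p := le_antisymm h2 (Nat.le_of_dvd h4 h3)
    rw [← h5]
    exact Nat.dvd_lcm_right _ _
  intro a i l hil
  exact Nat.dvd_antisymm (hdvd a i l hil) (hdvd a l i fun h => hil h.symm)

end Pool.Agent.H41.VS
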