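import Mathlib
import Pool.Agent.H41.VS.Defs

/-!
# `G`-sets: equivariant bijections and automorphism groups of free `P`-sets
-/

set_option autoImplicit false

namespace Pool.Agent.H41.VS

open Function

theorem smul_eq_smul_iff_of_stabilizer {G X Y : Type*} [Group G] [MulAction G X] [MulAction G Y]
    {x : X} {y : Y} (h : MulAction.stabilizer G x = MulAction.stabilizer G y) (a b : G) :
    a • x = b • x ↔ a • y = b • y := by
  have h1 : a • x = b • x ↔ b⁻¹ * a ∈ MulAction.stabilizer G x := by
    rw [MulAction.mem_stabilizer_iff, mul_smul, inv_smul_eq_iff]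
  have h2 : a • y = b • y ↔ b⁻¹ * a ∈ MulAction.stabilizer G y := by
    rw [MulAction.mem_stabilizer_iff, mul_smul, inv_smul_eq_iff]
  rw [h1, h2, h]

theorem exists_equivariant_equiv (G : Type) [Group G] (X Y : Type) [MulAction G X]
    [MulAction G Y] (T : Type) (S : T → Subgroup G)
    (tX : MulAction.orbitRel.Quotient G X → T) (tY : MulAction.orbitRel.Quotient G Y → T)
    (hX : ∀ ω, ∃ x : X, (Quotient.mk _ x : MulAction.orbitRel.Quotient G X) = ω ∧
      MulAction.stabilizer G x = S (tX ω))
    (hY : ∀ ω, ∃ y : Y, (Quotient.mk _ y : MulAction.orbitRel.Quotient G Y) = ω ∧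
      MulAction.stabilizer G y = S (tY ω))
    (e : MulAction.orbitRel.Quotient G X ≃ MulAction.orbitRel.Quotient G Y)
    (he : ∀ ω, tY (e ω) = tX ω) :
    ∃ Φ : X ≃ Y, ∀ (g : G) (x : X), Φ (g • x) = g • Φ x := by
  choose rX hrX hsX using hX
  choose rY hrY hsY using hY
  let qX : X → MulAction.orbitRel.Quotient G X := fun x => Quotient.mk _ x
  let qY : Y → MulAction.orbitRel.Quotient G Y := fun y => Quotient.mk _ y
  have hqX : ∀ (g : G) (x : X), qX (g • x) = qX x := by
    intro g x
    apply Quotient.sound
    exact ⟨g, rfl⟩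
  have hqY : ∀ (g : G) (y : Y), qY (g • y) = qY y := by
    intro g y
    apply Quotient.sound
    exact ⟨g, rfl⟩
  have hX' : ∀ x : X, ∃ g : G, g • rX (qX x) = x := by
    intro x
    have h1 : qX (rX (qX x)) = qX x := hrX (qX x)
    have h2 := Quotient.exact h1.symm
    obtain ⟨g, hg⟩ := h2
    exact ⟨g, hg⟩
  have hY' : ∀ y : Y, ∃ g : G, g • rY (qY y) = y := by
    intro y
    have h1 : qY (rY (qY y)) = qY y := hrY (qY y)
    have h2 := Quotient.exact h1.symm
    obtain ⟨g, hg⟩ := h2
    exact ⟨g, hg⟩
  choose gX hgX using hX'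
  have hst : ∀ ω, MulAction.stabilizer G (rX ω) = MulAction.stabilizer G (rY (e ω)) := by
    intro ω
    rw [hsX, hsY, he]
  let Φ : X → Y := fun x => gX x • rY (e (qX x))
  have key : ∀ (g : G) (ω), Φ (g • rX ω) = g • rY (e ω) := by
    intro g ω
    have hq : qX (g • rX ω) = ω := by rw [hqX]; exact hrX ω
    have h1 : gX (g • rX ω) • rX ω = g • rX ω := by
      have := hgX (g • rX ω)
      rw [hq] at this
      exact this
    change gX (g • rX ω) • rY (e (qX (g • rX ω))) = _
    rw [hq]
    exact (smul_eq_smul_iff_of_stabilizer (hst ω) _ _).1 h1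
  have hbij : Bijective Φ := by
    constructor
    · intro x x' h
      have hx := hgX x
      have hx' := hgX x'
      rw [← hx, ← hx', key, key] at h
      have h1 : e (qX x) = e (qX x') := by
        have h2 := congrArg qY h
        rw [hqY, hqY] at h2
        have h3 : qY (rY (e (qX x))) = e (qX x) := hrY _
        have h4 : qY (rY (e (qX x'))) = e (qX x') := hrY _
        rw [h3, h4] at h2
        exact h2
      have h5 : qX x = qX x' := e.injective h1
      rw [h5] at h hx
      exact hx.symm.trans (((smul_eq_smul_iff_of_stabilizer (hst _) _ _).2 h).trans hx')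
    · intro y
      obtain ⟨g, hg⟩ := hY' y
      refine ⟨g • rX (e.symm (qY y)), ?_⟩
      rw [key, Equiv.apply_symm_apply, hg]
  refine ⟨Equiv.ofBijective Φ hbij, ?_⟩
  intro g x
  change Φ (g • x) = g • Φ x
  conv_lhs => rw [← hgX x, ← mul_smul, key]
  rw [mul_smul]

/-- automorphism group of a `P`-set -/
def AutSet (P X : Type) [Group P] [MulAction P X] : Subgroup (Equiv.Perm X) where
  carrier := {σ | ∀ (p : P) (x : X), σ (p • x) = p • σ x}
  mul_mem' := by
    intro a b ha hb p x
    simp only [Set.mem_ofPred_eq] at ha hb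
    simp [hb p x, ha p (b x)]
  one_mem' := by intro p x; rfl
  inv_mem' := by
    intro a ha p x
    simp only [Set.mem_ofPred_eq] at ha
    rw [Equiv.Perm.inv_eq_iff_eq, ha]
    simp

/-- `VS` passes to subgroups -/
theorem VS.of_injective {G G' : Type} [Group G] [Group G'] (h : VS G') (f : G →* G')
    (hf : Injective f) : VS G := by
  obtain ⟨V, hV, Γ, K, hK, g, hg⟩ := h
  have hfi : (K.comap f).FiniteIndex := by
    constructor
    rw [Subgroup.index_comap]
    exact (inferInstance : (K.subgroupOf f.range).FiniteIndex).index_ne_zero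
  refine ⟨V, hV, Γ, K.comap f, hfi, g.comp (f.subgroupComap K), ?_⟩
  apply hg.comp
  intro a b hab
  apply Subtype.ext
  apply hf
  exact congrArg Subtype.val hab

/-- `VS` passes to finite-index overgroups -/
theorem VS.of_finiteIndex {G : Type} [Group G] (K : Subgroup G) [K.FiniteIndex] (h : VS K) :
    VS G := by
  obtain ⟨V, hV, Γ, L, hL, g, hg⟩ := h
  refine ⟨V, hV, Γ, L.map K.subtype, ?_, ?_⟩
  · constructor
    rw [Subgroup.index_map_subtype]
    exact mul_ne_zero hL.index_ne_zero Subgroup.FiniteIndex.index_ne_zero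
  · refine ⟨g.comp (L.equivMapOfInjective K.subtype K.subtype_injective).symm.toMonoidHom, ?_⟩
    exact hg.comp (MulEquiv.injective _)

theorem vs_autSet_aux (P X : Type) [Group P] [MulAction P X]
    (hfree : ∀ (p : P) (x : X), p • x = x → p = 1)
    [Finite (MulAction.orbitRel.Quotient P X)]
    (hP : VS (MulAction.orbitRel.Quotient P X → P)) : VS (AutSet P X) := by
  let Ω := MulAction.orbitRel.Quotient P X
  let q : X → Ω := fun x => Quotient.mk _ x
  have hq : ∀ (g : P) (x : X), q (g • x) = q x := by
    intro g x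
    apply Quotient.sound
    exact ⟨g, rfl⟩
  have hq' : ∀ x y : X, q x = q y → ∃ g : P, g • y = x := by
    intro x y h
    obtain ⟨g, hg⟩ := Quotient.exact h
    exact ⟨g, hg⟩
  have hσ : ∀ σ : AutSet P X, ∀ (p : P) (x : X), σ.1 (p • x) = p • σ.1 x := fun σ => σ.2
  -- action on orbits
  let act : AutSet P X →* Function.End Ω :=
    { toFun := fun σ => Quotient.map' (fun x => σ.1 x) (by
        rintro x y ⟨g, hg⟩
        refine ⟨g, ?_⟩
        change g • σ.1 y = σ.1 x
        rw [← hσ]
        exact congrArg σ.1 hg)
      map_one' := by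
        funext ω
        induction ω using Quotient.inductionOn' with
        | h x => rfl
      map_mul' := by
        intro a b
        funext ω
        induction ω using Quotient.inductionOn' with
        | h x => rfl }
  let act' : AutSet P X →* (Function.End Ω)ˣ := act.toHomUnits
  have hact : ∀ (σ : AutSet P X) (x : X), act σ (q x) = q (σ.1 x) := fun σ x => rfl
  let K : Subgroup (AutSet P X) := act'.ker
  have hfin : Finite (Function.End Ω)ˣ := by
    have : Finite (Function.End Ω) := by
      change Finite (Ω → Ω)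
      infer_instance
    exact Finite.of_injective (fun u : (Function.End Ω)ˣ => (u : Function.End Ω)) Units.val_injective
  have : K.FiniteIndex := by
    change act'.ker.FiniteIndex
    infer_instance
  have hK : ∀ (σ : K) (x : X), q (σ.1.1 x) = q x := by
    intro σ x
    rw [← hact]
    have h1 : act' σ.1 = 1 := σ.2
    have h2 : act σ.1 = 1 := by
      have := congrArg Units.val h1
      exact this
    rw [h2]
    rfl
  let r : Ω → X := fun ω => Quotient.out ω
  have hr : ∀ ω, q (r ω) = ω := fun ω => Quotient.out_eq ω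
  have hex : ∀ (σ : K) (ω : Ω), ∃ p : P, p • r ω = σ.1.1 (r ω) :=
    fun σ ω => hq' _ _ (hK σ (r ω))
  choose p hp using hex
  have hcancel : ∀ (a b : P) (x : X), a • x = b • x → a = b := by
    intro a b x h
    have h1 : (b⁻¹ * a) • x = x := by rw [mul_smul, h, inv_smul_smul]
    have h2 := hfree _ _ h1
    rw [inv_mul_eq_one] at h2
    exact h2.symm
  have hpmul : ∀ (σ τ : K) (ω : Ω), p (σ * τ) ω = p τ ω * p σ ω := by
    intro σ τ ω
    apply hcancel _ _ (r ω)
    rw [hp, mul_smul, hp, ← hσ, hp]
    rfl
  let F : K →* (Ω → P) :=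
    { toFun := fun σ ω => (p σ ω)⁻¹
      map_one' := by
        funext ω
        have : p 1 ω = 1 := by
          apply hcancel _ _ (r ω)
          rw [hp, one_smul]
          rfl
        simp [this]
      map_mul' := by
        intro σ τ
        funext ω
        simp [hpmul] }
  have hF : Injective F := by
    rw [injective_iff_map_eq_one]
    intro σ hσ1
    have h1 : ∀ ω, p σ ω = 1 := by
      intro ω
      have := congrFun hσ1 ω
      simpa [F] using this
    apply Subtype.ext
    apply Subtype.ext
    ext x
    obtain ⟨g, hg⟩ := hq' x (r (q x)) (hr (q x)).symm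
    change σ.1.1 x = x
    rw [← hg, hσ, ← hp, h1, one_smul]
  have hVK : VS K := VS.of_injective hP F hF
  exact VS.of_finiteIndex K hVK

end Pool.Agent.H41.VS
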