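import Mathlib
import Pool.Agent.H41.VS.GSet
import Pool.Agent.H41.VS.Pi

/-!
# Induced sets and induced homomorphisms
-/

set_option autoImplicit false

namespace Pool.Agent.H41.VS

open Function

theorem vs_autSet (P X : Type) [Group P] [MulAction P X]
    (hfree : ∀ (p : P) (x : X), p • x = x → p = 1)
    [Finite (MulAction.orbitRel.Quotient P X)] (hP : VS P) : VS (AutSet P X) :=
  vs_autSet_aux P X hfree (vs_pi _ (fun _ => P) fun _ => hP)

/-- action homomorphism to the automorphism group of a `P`-set -/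
def autHom (G P X : Type) [Group G] [Group P] [MulAction G X] [MulAction P X]
    [SMulCommClass G P X] : G →* AutSet P X where
  toFun g := ⟨MulAction.toPermHom G X g, fun p x => smul_comm g p x⟩
  map_one' := by
    apply Subtype.ext
    exact map_one (MulAction.toPermHom G X)
  map_mul' a b := by
    apply Subtype.ext
    exact map_mul (MulAction.toPermHom G X) a b

theorem autHom_apply {G P X : Type} [Group G] [Group P] [MulAction G X] [MulAction P X]
    [SMulCommClass G P X] (g : G) (x : X) : (autHom G P X g).1 x = g • x := rfl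

section Ind

variable {G P : Type} [Group G] [Group P] {L : Subgroup G}

/-- the cocycle of the coset action -/
noncomputable def nc (L : Subgroup G) (g : G) (a : G ⧸ L) : L :=
  ⟨(g • a).out⁻¹ * g * a.out, by
    have h1 : (QuotientGroup.mk (g • a).out : G ⧸ L) = QuotientGroup.mk (g * a.out) := by
      rw [QuotientGroup.out_eq']
      conv_lhs => rw [← QuotientGroup.out_eq' a]
      rfl
    rw [QuotientGroup.eq] at h1
    rwa [mul_assoc]⟩

theorem nc_coe (g : G) (a : G ⧸ L) : (nc L g a : G) = (g • a).out⁻¹ * g * a.out := rfl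

theorem nc_one (a : G ⧸ L) : nc L 1 a = 1 := by
  apply Subtype.ext
  rw [nc_coe, one_smul]; simp

theorem nc_mul (g g' : G) (a : G ⧸ L) : nc L (g * g') a = nc L g (g' • a) * nc L g' a := by
  apply Subtype.ext
  rw [nc_coe, Subgroup.coe_mul, nc_coe, nc_coe, mul_smul]
  group

/-- the induced set `G ×_L P` -/
@[ext]
structure IndSet (L : Subgroup G) (h : L →* P) where
  fst : G ⧸ L
  snd : P

variable (h : L →* P)

noncomputable instance : MulAction G (IndSet L h) where
  smul g x := ⟨g • x.1, x.2 * (h (nc L g x.1))⁻¹⟩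
  one_smul x := by
    change (⟨(1 : G) • x.1, x.2 * (h (nc L 1 x.1))⁻¹⟩ : IndSet L h) = x
    rw [nc_one, one_smul, map_one, inv_one, mul_one]
  mul_smul g g' x := by
    change (⟨(g * g') • x.1, x.2 * (h (nc L (g * g') x.1))⁻¹⟩ : IndSet L h) =
      ⟨g • g' • x.1, x.2 * (h (nc L g' x.1))⁻¹ * (h (nc L g (g' • x.1)))⁻¹⟩
    rw [nc_mul, mul_smul, map_mul, mul_inv_rev, mul_assoc]

instance : MulAction P (IndSet L h) where
  smul p x := ⟨x.1, p * x.2⟩
  one_smul x := by
    change (⟨x.1, 1 * x.2⟩ : IndSet L h) = x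
    rw [one_mul]
  mul_smul p p' x := by
    change (⟨x.1, p * p' * x.2⟩ : IndSet L h) = ⟨x.1, p * (p' * x.2)⟩
    rw [mul_assoc]

variable {h}

theorem ind_smul_G (g : G) (x : IndSet L h) :
    g • x = ⟨g • x.1, x.2 * (h (nc L g x.1))⁻¹⟩ := rfl

theorem ind_smul_P (p : P) (x : IndSet L h) : p • x = ⟨x.1, p * x.2⟩ := rfl

instance : SMulCommClass G P (IndSet L h) where
  smul_comm g p x := by
    rw [ind_smul_P, ind_smul_G, ind_smul_G, ind_smul_P, mul_assoc]

theorem ind_free (p : P) (x : IndSet L h) (hx : p • x = x) : p = 1 := by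
  have h1 : p * x.2 = x.2 := congrArg IndSet.snd hx
  simpa using h1

instance ind_finite_orbits [L.FiniteIndex] :
    Finite (MulAction.orbitRel.Quotient P (IndSet L h)) := by
  let f : G ⧸ L → MulAction.orbitRel.Quotient P (IndSet L h) := fun a =>
    Quotient.mk _ (⟨a, 1⟩ : IndSet L h)
  apply Finite.of_surjective f
  intro ω
  induction ω using Quotient.inductionOn' with
  | h x =>
    refine ⟨x.1, ?_⟩
    apply Quotient.sound
    refine ⟨x.2⁻¹, ?_⟩
    change x.2⁻¹ • x = _
    rw [ind_smul_P, inv_mul_cancel]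

/-- the induced homomorphism is injective if the inducing one is -/
theorem ind_injective (hh : Injective h) : Injective (autHom G P (IndSet L h)) := by
  rw [injective_iff_map_eq_one]
  intro g hg
  have h1 : ∀ x : IndSet L h, g • x = x := by
    intro x
    rw [← autHom_apply (P := P), hg]; rfl
  have h2 := h1 ⟨(QuotientGroup.mk 1 : G ⧸ L), 1⟩
  rw [ind_smul_G] at h2
  have h3 : g • (QuotientGroup.mk 1 : G ⧸ L) = QuotientGroup.mk 1 := congrArg IndSet.fst h2
  have h4 : 1 * (h (nc L g (QuotientGroup.mk 1)))⁻¹ = 1 := congrArg IndSet.snd h2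
  rw [one_mul, inv_eq_one] at h4
  have h5 : nc L g (QuotientGroup.mk 1) = 1 := hh (by rw [h4, map_one])
  have h6 := congrArg Subtype.val h5
  rw [nc_coe, h3] at h6
  have h7 : ∀ x y : G, x⁻¹ * g * x = y → g = x * y * x⁻¹ := by
    intro x y hxy; rw [← hxy]; group
  rw [h7 _ _ h6]
  simp

theorem vs_ind [L.FiniteIndex] (hP : VS P) : VS (AutSet P (IndSet L h)) :=
  vs_autSet P _ ind_free hP

theorem inv_swap {P : Type*} [Group P] {U H : P} (h : U * H * U⁻¹ = H⁻¹) :
    U⁻¹ * H = H⁻¹ * U⁻¹ := by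
  have h3 : H * U⁻¹ = U⁻¹ * H⁻¹ := by
    rw [← h]; group
  have h4 : U * H⁻¹ = H * U := by
    have := congrArg (fun x => x⁻¹) h3
    simpa using this
  rw [inv_mul_eq_iff_eq_mul, ← mul_assoc, h4, mul_inv_cancel_right]

/-- if all the components of `z` are conjugate to their inverses then so is the image of `z`
under the induced homomorphism -/
theorem ind_inverse (z : G) (hz : ∀ a : G ⧸ L, z • a = a)
    (hU : ∀ a : G ⧸ L, ∃ U : P, U * h (nc L z a) * U⁻¹ = (h (nc L z a))⁻¹) :
    ∃ u : AutSet P (IndSet L h), u * autHom G P (IndSet L h) z * u⁻¹ =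
      (autHom G P (IndSet L h) z)⁻¹ := by
  choose U hU using hU
  let u : AutSet P (IndSet L h) := ⟨⟨fun x => ⟨x.1, x.2 * (U x.1)⁻¹⟩, fun x => ⟨x.1, x.2 * U x.1⟩,
    fun x => by
      change (⟨x.1, x.2 * (U x.1)⁻¹ * U x.1⟩ : IndSet L h) = x
      rw [inv_mul_cancel_right], fun x => by
      change (⟨x.1, x.2 * U x.1 * (U x.1)⁻¹⟩ : IndSet L h) = x
      rw [mul_inv_cancel_right]⟩, fun p x => by
      change (⟨x.1, p * x.2 * (U x.1)⁻¹⟩ : IndSet L h) = ⟨x.1, p * (x.2 * (U x.1)⁻¹)⟩
      rw [mul_assoc]⟩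
  refine ⟨u, ?_⟩
  rw [← map_inv, mul_inv_eq_iff_eq_mul]
  apply Subtype.ext
  ext1 x
  have hu : ∀ y : IndSet L h, u.1 y = ⟨y.1, y.2 * (U y.1)⁻¹⟩ := fun y => rfl
  have hzi : z⁻¹ • x.1 = x.1 := by rw [inv_smul_eq_iff, hz]
  have hni : h (nc L z⁻¹ x.1) = (h (nc L z x.1))⁻¹ := by
    rw [eq_inv_iff_mul_eq_one, ← map_mul]
    have h1 := nc_mul (L := L) z⁻¹ z x.1
    rw [hz, inv_mul_cancel, nc_one] at h1
    rw [← h1, map_one]
  change u.1 (z • x) = z⁻¹ • (u.1 x)
  rw [hu, hu, ind_smul_G, ind_smul_G]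
  simp only [hz, hzi, hni, inv_inv]
  congr 1
  have h2 := inv_swap (hU x.1)
  rw [mul_assoc, mul_assoc, h2]

end Ind

end Pool.Agent.H41.VS
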