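import Mathlib
import Pool.Agent.H41.VS.Ind

/-!
# Isomorphism of `(H × P)`-sets from orbit-type counts
-/

set_option autoImplicit false

namespace Pool.Agent.H41.VS

open Function

section Typed

variable {H P G : Type} [Group H] [Group P] [Group G] (φ : H →* G) {K : Subgroup G}
  {I : Type} (h : I → K →* P)

/-- disjoint union of induced sets -/
abbrev SInd (h : I → K →* P) : Type := Σ i : I, IndSet K (h i)

/-- the action of `H × P` on a disjoint union of induced sets -/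
@[instance_reducible]
noncomputable def actHP : MulAction (H × P) (SInd h) where
  smul g x := φ g.1 • g.2 • x
  one_smul x := by
    change φ 1 • (1 : P) • x = x
    rw [map_one, one_smul, one_smul]
  mul_smul g g' x := by
    change φ (g.1 * g'.1) • (g.2 * g'.2) • x = φ g.1 • g.2 • φ g'.1 • g'.2 • x
    rw [map_mul, mul_smul, mul_smul, smul_comm (φ g'.1) g.2]

theorem smul_mk_G (g : G) (i : I) (x : IndSet K (h i)) :
    (g • (⟨i, x⟩ : SInd h)) = ⟨i, g • x⟩ := rfl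

theorem smul_mk_P (p : P) (i : I) (x : IndSet K (h i)) :
    (p • (⟨i, x⟩ : SInd h)) = ⟨i, p • x⟩ := rfl

theorem smul_eq_self_iff [hK : K.Normal] (g : G) (a : G ⧸ K) : g • a = a ↔ g ∈ K := by
  induction a using QuotientGroup.induction_on with
  | H y =>
    change (QuotientGroup.mk (g * y) : G ⧸ K) = QuotientGroup.mk y ↔ _
    rw [QuotientGroup.eq, mul_inv_rev]
    constructor
    · intro h1
      have h2 := hK.conj_mem _ (inv_mem h1) y
      have h3 : y * (y⁻¹ * g⁻¹ * y)⁻¹ * y⁻¹ = g := by group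
      rwa [h3] at h2
    · intro h1
      have h2 := hK.conj_mem _ (inv_mem h1) y⁻¹
      rwa [inv_inv] at h2

theorem nc_of_fix {g : G} {a : G ⧸ K} (hg : g • a = a) :
    (nc K g a : G) = a.out⁻¹ * g * a.out := by rw [nc_coe, hg]

theorem nc_zpow {g : G} {a : G ⧸ K} (hg : g • a = a) (k : ℤ) :
    nc K (g ^ k) a = (nc K g a) ^ k := by
  have hk : g ^ k • a = a := by
    have : g ^ k ∈ MulAction.stabilizer G a := Subgroup.zpow_mem _ hg k
    exact this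
  apply Subtype.ext
  rw [nc_of_fix hk, Subgroup.coe_zpow, nc_of_fix hg]
  have := conj_zpow (a := (a.out)⁻¹) (b := g) (i := k)
  rw [inv_inv] at this
  exact this.symm

/-- stabilisers in a disjoint union of induced sets -/
theorem stab_eq [K.Normal] {z₀ : H} (hz : K.comap φ = Subgroup.zpowers z₀) {ζ : P} {τ : ℕ}
    (i : I) (a : G ⧸ K) (q : P)
    (hq : ∀ k : K, (k : G) = a.out⁻¹ * φ z₀ * a.out → q * h i k * q⁻¹ = ζ ^ τ) :
    @MulAction.stabilizer (H × P) _ _ (actHP φ h) ⟨i, ⟨a, q⟩⟩ =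
      Subgroup.zpowers ((z₀, ζ ^ τ) : H × P) := by
  let _ := actHP φ h
  have hz0 : φ z₀ ∈ K := by
    have : z₀ ∈ K.comap φ := by rw [hz]; exact Subgroup.mem_zpowers _
    exact this
  have hfix : φ z₀ • a = a := (smul_eq_self_iff _ _).2 hz0
  ext ⟨x, p⟩
  rw [MulAction.mem_stabilizer_iff]
  have hact : ((x, p) : H × P) • (⟨i, ⟨a, q⟩⟩ : SInd h) =
      ⟨i, ⟨φ x • a, p * q * (h i (nc K (φ x) a))⁻¹⟩⟩ := rfl
  have key : ∀ k : ℤ, q * h i (nc K (φ (z₀ ^ k)) a) * q⁻¹ = (ζ ^ τ) ^ k := by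
    intro k
    rw [map_zpow, nc_zpow hfix, map_zpow, ← hq (nc K (φ z₀) a) (nc_of_fix hfix), conj_zpow]
  rw [hact]
  constructor
  · intro h1
    have h2 : (⟨φ x • a, p * q * (h i (nc K (φ x) a))⁻¹⟩ : IndSet K (h i)) = ⟨a, q⟩ :=
      eq_of_heq (Sigma.mk.inj_iff.1 h1).2
    have h3 : φ x • a = a := congrArg IndSet.fst h2
    have h4 : p * q * (h i (nc K (φ x) a))⁻¹ = q := congrArg IndSet.snd h2
    have h5' : φ x ∈ K := (smul_eq_self_iff _ _).1 h3
    have h5 : x ∈ K.comap φ := h5'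
    rw [hz] at h5
    obtain ⟨k, rfl⟩ := h5
    refine ⟨k, ?_⟩
    dsimp only at h4 ⊢
    have h6 : p = q * h i (nc K (φ (z₀ ^ k)) a) * q⁻¹ := by
      rw [mul_inv_eq_iff_eq_mul] at h4
      rw [← h4]; group
    rw [key] at h6
    rw [h6, Prod.pow_mk]
  · rintro ⟨k, hk⟩
    dsimp only at hk
    rw [Prod.pow_mk, Prod.mk.injEq] at hk
    obtain ⟨rfl, rfl⟩ := hk
    have h3 : φ (z₀ ^ k) • a = a := by
      rw [smul_eq_self_iff, map_zpow]
      exact K.zpow_mem hz0 k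
    congr 1
    ext1
    · exact h3
    · dsimp only
      rw [← key k]; group

variable {h}

/-- number of orbits of given type -/
theorem count_orbits [Finite I] [K.Normal] [K.FiniteIndex] {z₀ : H}
    (hz : K.comap φ = Subgroup.zpowers z₀) (t : I → G ⧸ K → ℕ)
    (ht : ∀ i x a, t i (φ x • a) = t i a)
    (tX : @MulAction.orbitRel.Quotient (H × P) (SInd h) _ (actHP φ h) → ℕ)
    (htX : ∀ i a q, tX (@Quotient.mk _ (@MulAction.orbitRel (H × P) (SInd h) _ (actHP φ h))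
      ⟨i, ⟨a, q⟩⟩) = t i a) (τ : ℕ) :
    Nat.card {p : I × (G ⧸ K) // t p.1 p.2 = τ} =
      Nat.card {ω // tX ω = τ} * (Subgroup.zpowers z₀).index := by
  let _ := actHP φ h
  let _ : MulAction H (G ⧸ K) := MulAction.compHom _ φ
  have hsm : ∀ (x : H) (a : G ⧸ K), x • a = φ x • a := fun _ _ => rfl
  -- the projection
  let π : {p : I × (G ⧸ K) // t p.1 p.2 = τ} → {ω // tX ω = τ} := fun p =>
    ⟨Quotient.mk _ ⟨p.1.1, ⟨p.1.2, 1⟩⟩, by rw [htX]; exact p.2⟩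
  have hfin : Finite {ω // tX ω = τ} := by
    apply Finite.of_surjective π
    rintro ⟨ω, hω⟩
    induction ω using Quotient.inductionOn' with
    | h x =>
      obtain ⟨i, ⟨a, q⟩⟩ := x
      have h1 : t i a = τ := by rw [← htX i a q]; exact hω
      refine ⟨⟨(i, a), h1⟩, ?_⟩
      apply Subtype.ext
      apply Quotient.sound
      refine ⟨(1, q⁻¹), ?_⟩
      change (⟨i, ⟨φ 1 • a, q⁻¹ * q * (h i (nc K (φ 1) a))⁻¹⟩⟩ : SInd h) = ⟨i, ⟨a, 1⟩⟩
      rw [map_one, nc_one, one_smul, map_one, inv_one, mul_one, inv_mul_cancel]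
  have hfib : ∀ ω : {ω // tX ω = τ}, Nat.card {p // π p = ω} = (Subgroup.zpowers z₀).index := by
    rintro ⟨ω, hω⟩
    induction ω using Quotient.inductionOn' with
    | h x =>
      obtain ⟨i, ⟨a, q⟩⟩ := x
      have h1 : t i a = τ := by rw [← htX i a q]; exact hω
      have hst : MulAction.stabilizer H a = Subgroup.zpowers z₀ := by
        rw [← hz]
        ext x
        rw [MulAction.mem_stabilizer_iff, hsm, smul_eq_self_iff, Subgroup.mem_comap]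
      rw [← hst, MulAction.index_stabilizer, ← Nat.card_coe_set_eq]
      apply Nat.card_congr
      have hiff : ∀ (p : {p : I × (G ⧸ K) // t p.1 p.2 = τ}),
          π p = ⟨Quotient.mk'' (⟨i, ⟨a, q⟩⟩ : SInd h), hω⟩ ↔
          p.1.1 = i ∧ p.1.2 ∈ MulAction.orbit H a := by
        rintro ⟨⟨j, b⟩, hp⟩
        constructor
        · intro h2
          have h3 : (Quotient.mk _ (⟨j, ⟨b, 1⟩⟩ : SInd h) :
              MulAction.orbitRel.Quotient (H × P) (SInd h)) = Quotient.mk _ ⟨i, ⟨a, q⟩⟩ :=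
            congrArg Subtype.val h2
          obtain ⟨⟨x, p⟩, hxp⟩ := Quotient.exact h3
          have h4 : (⟨i, ⟨φ x • a, p * q * (h i (nc K (φ x) a))⁻¹⟩⟩ : SInd h) = ⟨j, ⟨b, 1⟩⟩ := hxp
          obtain ⟨rfl, h5⟩ := Sigma.mk.inj_iff.1 h4
          have h6 := congrArg IndSet.fst (eq_of_heq h5)
          exact ⟨rfl, ⟨x, h6⟩⟩
        · rintro ⟨rfl, x, hx⟩
          apply Subtype.ext
          apply Quotient.sound
          dsimp only at hx hp
          refine ⟨(x, h j (nc K (φ x) a) * q⁻¹), ?_⟩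
          change (⟨j, ⟨φ x • a, h j (nc K (φ x) a) * q⁻¹ * q * (h j (nc K (φ x) a))⁻¹⟩⟩ : SInd h) =
            ⟨j, ⟨b, 1⟩⟩
          have hx' : φ x • a = b := hx
          rw [inv_mul_cancel_right, mul_inv_cancel, hx']
      refine ⟨fun p => ⟨p.1.1.2, ((hiff p.1).1 p.2).2⟩, fun b => ⟨⟨(i, b.1), ?_⟩, ?_⟩, ?_, ?_⟩
      · obtain ⟨x, hx⟩ := b.2
        have hx' : φ x • a = b.1 := hx
        change t i b.1 = τ
        rw [← hx', ht, h1]
      · exact (hiff _).2 ⟨rfl, b.2⟩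
      · rintro ⟨⟨⟨j, b⟩, hp⟩, hp2⟩
        have := ((hiff _).1 hp2).1
        dsimp only at this
        subst this
        rfl
      · intro b; rfl
  have h1 : Nat.card {p : I × (G ⧸ K) // t p.1 p.2 = τ} =
      Nat.card (Σ ω : {ω // tX ω = τ}, {p // π p = ω}) :=
    Nat.card_congr (Equiv.sigmaFiberEquiv π).symm
  have : ∀ ω : {ω // tX ω = τ}, Finite {p // π p = ω} := by
    intro ω
    infer_instance
  have := Fintype.ofFinite {ω // tX ω = τ}
  rw [h1, Nat.card_sigma, Finset.sum_congr rfl (fun ω _ => hfib ω), Finset.sum_const,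
    Finset.card_univ, Nat.card_eq_fintype_card, smul_eq_mul]

theorem finite_orbits_HP [Finite I] [K.FiniteIndex] :
    Finite (@MulAction.orbitRel.Quotient (H × P) (SInd h) _ (actHP φ h)) := by
  let _ := actHP φ h
  let f : I × (G ⧸ K) → MulAction.orbitRel.Quotient (H × P) (SInd h) := fun p =>
    Quotient.mk _ ⟨p.1, ⟨p.2, 1⟩⟩
  apply Finite.of_surjective f
  intro ω
  induction ω using Quotient.inductionOn' with
  | h x =>
    obtain ⟨i, ⟨a, q⟩⟩ := x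
    refine ⟨(i, a), ?_⟩
    apply Quotient.sound
    refine ⟨(1, q⁻¹), ?_⟩
    change (⟨i, ⟨φ 1 • a, q⁻¹ * q * (h i (nc K (φ 1) a))⁻¹⟩⟩ : SInd h) = ⟨i, ⟨a, 1⟩⟩
    rw [map_one, nc_one, one_smul, map_one, inv_one, mul_one, inv_mul_cancel]

end Typed

/-- an equivalence of the orbit sets from equality of the fibre cardinalities -/
theorem exists_equiv_of_card {A B T : Type*} [Finite A] [Finite B] (f : A → T) (g : B → T)
    (h : ∀ t, Nat.card {a // f a = t} = Nat.card {b // g b = t}) :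
    ∃ e : A ≃ B, ∀ a, g (e a) = f a := by
  have h1 : ∀ t, Nonempty ({a // f a = t} ≃ {b // g b = t}) := fun t =>
    Finite.card_eq.1 (h t)
  let e : ∀ t, {a // f a = t} ≃ {b // g b = t} := fun t => Classical.choice (h1 t)
  refine ⟨(Equiv.sigmaFiberEquiv f).symm.trans ((Equiv.sigmaCongrRight e).trans
    (Equiv.sigmaFiberEquiv g)), fun a => ?_⟩
  exact (e (f a) ⟨a, rfl⟩).2

/-- **Isomorphism of typed bisets.** -/
theorem exists_biset_iso {H P G₁ G₂ : Type} [Group H] [Group P] [Group G₁] [Group G₂]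
    (φ₁ : H →* G₁) (φ₂ : H →* G₂) {K₁ : Subgroup G₁} {K₂ : Subgroup G₂}
    [K₁.Normal] [K₁.FiniteIndex] [K₂.Normal] [K₂.FiniteIndex]
    {I₁ I₂ : Type} [Finite I₁] [Finite I₂] (h₁ : I₁ → K₁ →* P) (h₂ : I₂ → K₂ →* P)
    (z₀ : H) (ζ : P) (hz₁ : K₁.comap φ₁ = Subgroup.zpowers z₀)
    (hz₂ : K₂.comap φ₂ = Subgroup.zpowers z₀)
    (t₁ : I₁ → G₁ ⧸ K₁ → ℕ) (t₂ : I₂ → G₂ ⧸ K₂ → ℕ)
    (ht₁ : ∀ i x a, t₁ i (φ₁ x • a) = t₁ i a) (ht₂ : ∀ i x a, t₂ i (φ₂ x • a) = t₂ i a)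
    (hq₁ : ∀ i a, ∃ q : P, ∀ k : K₁, (k : G₁) = a.out⁻¹ * φ₁ z₀ * a.out →
      q * h₁ i k * q⁻¹ = ζ ^ t₁ i a)
    (hq₂ : ∀ i a, ∃ q : P, ∀ k : K₂, (k : G₂) = a.out⁻¹ * φ₂ z₀ * a.out →
      q * h₂ i k * q⁻¹ = ζ ^ t₂ i a)
    (hcard : ∀ τ, Nat.card {p : I₁ × (G₁ ⧸ K₁) // t₁ p.1 p.2 = τ} =
      Nat.card {p : I₂ × (G₂ ⧸ K₂) // t₂ p.1 p.2 = τ}) :
    ∃ Φ : SInd h₁ ≃ SInd h₂, (∀ (x : H) (y : SInd h₁), Φ (φ₁ x • y) = φ₂ x • Φ y) ∧
      ∀ (p : P) (y : SInd h₁), Φ (p • y) = p • Φ y := by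
  let a₁ := actHP φ₁ h₁
  let a₂ := actHP φ₂ h₂
  let tX₁ : MulAction.orbitRel.Quotient (H × P) (SInd h₁) → ℕ :=
    Quotient.lift (fun y : SInd h₁ => t₁ y.1 y.2.fst) (by
      rintro x y ⟨⟨g, p⟩, hgp⟩
      dsimp only at hgp ⊢
      rw [← hgp]
      exact ht₁ _ _ _)
  let tX₂ : MulAction.orbitRel.Quotient (H × P) (SInd h₂) → ℕ :=
    Quotient.lift (fun y : SInd h₂ => t₂ y.1 y.2.fst) (by
      rintro x y ⟨⟨g, p⟩, hgp⟩
      dsimp only at hgp ⊢
      rw [← hgp]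
      exact ht₂ _ _ _)
  have hfin₁ : Finite (MulAction.orbitRel.Quotient (H × P) (SInd h₁)) := finite_orbits_HP φ₁
  have hfin₂ : Finite (MulAction.orbitRel.Quotient (H × P) (SInd h₂)) := finite_orbits_HP φ₂
  have hidx : (Subgroup.zpowers z₀).index ≠ 0 := by
    rw [← hz₁]
    exact (finiteIndex_comap φ₁ K₁).index_ne_zero
  have hc : ∀ τ, Nat.card {ω // tX₁ ω = τ} = Nat.card {ω // tX₂ ω = τ} := by
    intro τ
    have e₁ := count_orbits φ₁ (h := h₁) hz₁ t₁ ht₁ tX₁ (fun _ _ _ => rfl) τ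
    have e₂ := count_orbits φ₂ (h := h₂) hz₂ t₂ ht₂ tX₂ (fun _ _ _ => rfl) τ
    rw [hcard τ, e₂] at e₁
    exact (Nat.eq_of_mul_eq_mul_right (Nat.pos_of_ne_zero hidx) e₁).symm
  obtain ⟨e, he⟩ := exists_equiv_of_card tX₁ tX₂ hc
  obtain ⟨Φ, hΦ⟩ := exists_equivariant_equiv (H × P) (SInd h₁) (SInd h₂) ℕ
    (fun τ => Subgroup.zpowers ((z₀, ζ ^ τ) : H × P)) tX₁ tX₂ (by
      intro ω
      induction ω using Quotient.inductionOn' with
      | h y =>
        obtain ⟨i, ⟨a, q₀⟩⟩ := y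
        obtain ⟨q, hq⟩ := hq₁ i a
        refine ⟨⟨i, ⟨a, q⟩⟩, ?_, stab_eq φ₁ h₁ hz₁ i a q hq⟩
        apply Quotient.sound
        refine ⟨(1, q * q₀⁻¹), ?_⟩
        change (⟨i, ⟨φ₁ 1 • a, q * q₀⁻¹ * q₀ * (h₁ i (nc K₁ (φ₁ 1) a))⁻¹⟩⟩ : SInd h₁) =
          ⟨i, ⟨a, q⟩⟩
        rw [map_one, nc_one, one_smul, map_one, inv_one, mul_one, inv_mul_cancel_right]) (by
      intro ω
      induction ω using Quotient.inductionOn' with
      | h y =>
        obtain ⟨i, ⟨a, q₀⟩⟩ := y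
        obtain ⟨q, hq⟩ := hq₂ i a
        refine ⟨⟨i, ⟨a, q⟩⟩, ?_, stab_eq φ₂ h₂ hz₂ i a q hq⟩
        apply Quotient.sound
        refine ⟨(1, q * q₀⁻¹), ?_⟩
        change (⟨i, ⟨φ₂ 1 • a, q * q₀⁻¹ * q₀ * (h₂ i (nc K₂ (φ₂ 1) a))⁻¹⟩⟩ : SInd h₂) =
          ⟨i, ⟨a, q⟩⟩
        rw [map_one, nc_one, one_smul, map_one, inv_one, mul_one, inv_mul_cancel_right]) e he
  refine ⟨Φ, fun x y => ?_, fun p y => ?_⟩
  · have h1 := hΦ (x, 1) y
    have h2 : ((x, 1) : H × P) • y = φ₁ x • y := by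
      change φ₁ x • (1 : P) • y = _
      rw [one_smul]
    have h3 : ((x, 1) : H × P) • Φ y = φ₂ x • Φ y := by
      change φ₂ x • (1 : P) • Φ y = _
      rw [one_smul]
    rwa [h2, h3] at h1
  · have h1 := hΦ (1, p) y
    have h2 : ((1, p) : H × P) • y = p • y := by
      change φ₁ 1 • p • y = _
      rw [map_one, one_smul]
    have h3 : ((1, p) : H × P) • Φ y = p • Φ y := by
      change φ₂ 1 • p • Φ y = _
      rw [map_one, one_smul]
    rwa [h2, h3] at h1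

end Pool.Agent.H41.VS
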