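import Mathlib

/-!
# Module IDEAL: numeric matching

`numeric_matching` and `exists_generic` (pure algebra).
-/

set_option autoImplicit false

namespace Pool.Agent.H41.VS

namespace NumMatch

open Finset

/-! ## Avoiding hyperplanes -/

theorem exists_eval_ne_zero {ι : Type*} [Finite ι] (p : ι → Polynomial ℤ) (hp : ∀ i, p i ≠ 0) :
    ∃ τ : ℤ, ∀ i, (p i).eval τ ≠ 0 := by
  classical
  cases nonempty_fintype ι
  by_contra hcon
  push Not at hcon
  have h0 : (∏ i, p i) = 0 := by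
    apply Polynomial.funext
    intro r
    obtain ⟨i, hi⟩ := hcon r
    rw [Polynomial.eval_prod, Polynomial.eval_zero]
    exact Finset.prod_eq_zero (Finset.mem_univ i) hi
  rw [Finset.prod_eq_zero_iff] at h0
  obtain ⟨i, -, hi⟩ := h0
  exact hp i hi

theorem avoid {κ ι : Type*} [Fintype κ] [Finite ι] (l : ι → κ → ℤ) (hl : ∀ i, l i ≠ 0)
    (c : ι → ℤ) : ∃ t : κ → ℤ, ∀ i, c i + ∑ k, t k * l i k ≠ 0 := by
  classical
  let e : κ → ℕ := fun k => (Fintype.equivFin κ k : ℕ) + 1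
  have he : Function.Injective e := by
    intro a b hab
    have : (Fintype.equivFin κ a : ℕ) = (Fintype.equivFin κ b : ℕ) := by
      simpa [e] using hab
    exact (Fintype.equivFin κ).injective (Fin.ext this)
  let p : ι → Polynomial ℤ := fun i =>
    Polynomial.C (c i) + ∑ k, Polynomial.C (l i k) * Polynomial.X ^ (e k)
  have hp : ∀ i, p i ≠ 0 := by
    intro i h0
    obtain ⟨k, hk⟩ := Function.ne_iff.mp (hl i)
    apply hk
    have hc : (p i).coeff (e k) = 0 := by rw [h0]; simp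
    have hC : (Polynomial.C (c i)).coeff (e k) = 0 := by
      rw [Polynomial.coeff_C]
      simp [e]
    simp only [p, Polynomial.coeff_add, hC, Polynomial.finsetSum_coeff, zero_add,
      Polynomial.coeff_C_mul_X_pow] at hc
    rw [Finset.sum_eq_single k] at hc
    · simpa using hc
    · intro b _ hb
      have : e k ≠ e b := fun h => hb (he h).symm
      simp [this]
    · intro h
      exact absurd (Finset.mem_univ k) h
  obtain ⟨τ, hτ⟩ := exists_eval_ne_zero p hp
  refine ⟨fun k => τ ^ (e k), fun i h0 => hτ i ?_⟩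
  simp only [p, Polynomial.eval_add, Polynomial.eval_C, Polynomial.eval_finsetSum,
    Polynomial.eval_mul, Polynomial.eval_pow, Polynomial.eval_X]
  rw [← h0]
  congr 1
  exact Finset.sum_congr rfl fun k _ => mul_comm _ _

variable {Q : Type} [Group Q] [Fintype Q]

/-- the translates of `y` -/
def xv (y : Q → ℤ) (g : Q) : Q → ℤ := fun g' => y (g * g')

omit [Fintype Q] in
theorem xv_ne_zero {y : Q → ℤ} (h : y 1 ≠ 0) (g : Q) : xv y g ≠ 0 := by
  intro h0
  apply h
  have := congrFun h0 g⁻¹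
  simpa [xv] using this

theorem xv_self (y : Q → ℤ) (g : Q) : xv y g ⬝ᵥ xv y g = xv y 1 ⬝ᵥ xv y 1 := by
  simp only [xv, dotProduct, one_mul]
  exact Fintype.sum_equiv (Equiv.mulLeft g) _ _ (fun _ => rfl)

theorem exists_generic' (y : Q → ℤ) (h : y 1 ≠ 0) :
    ∃ A : Q → ℤ, ∀ g, A ⬝ᵥ xv y g ≠ 0 := by
  obtain ⟨t, ht⟩ := avoid (fun g => xv y g) (fun g => xv_ne_zero h g) (fun _ => 0)
  refine ⟨t, fun g => ?_⟩
  have := ht g
  simpa [dotProduct] using this

/-! ## The key contradiction -/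

omit [Group Q] in
theorem dot_self_pos {v : Q → ℤ} (hv : v ≠ 0) : 0 < v ⬝ᵥ v := by
  have h1 : 0 ≤ v ⬝ᵥ v := by
    simp only [dotProduct]
    exact Finset.sum_nonneg fun i _ => mul_self_nonneg _
  rcases h1.lt_or_eq with h | h
  · exact h
  · exact absurd (dotProduct_self_eq_zero.mp h.symm) hv

omit [Group Q] in
theorem cs_strict {u w : Q → ℤ} (huw : w ⬝ᵥ w = u ⬝ᵥ u) (h1 : w ≠ u) (h2 : w ≠ -u) :
    0 < (u ⬝ᵥ u) ^ 2 - (u ⬝ᵥ w) ^ 2 := by
  have a : 0 < (w - u) ⬝ᵥ (w - u) := dot_self_pos (sub_ne_zero.mpr h1)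
  have b : 0 < (w + u) ⬝ᵥ (w + u) := dot_self_pos (fun h => h2 (eq_neg_of_add_eq_zero_left h))
  simp only [sub_dotProduct, dotProduct_sub, add_dotProduct, dotProduct_add] at a b
  rw [dotProduct_comm w u, huw] at a b
  nlinarith

/-- Step 1: an alternating-sum relation. -/
theorem alt_sum {K : Type*} [Field K] [CharZero K] (y : Q → ℤ) (h1 : y 1 ≠ 0) (f : ℤ →*₀ K)
    (hf : ∀ z, z ≠ 0 → f z ≠ 0) (hneg : ∀ z, f (-z) = f z)
    (rel : ∀ A : Q → ℤ, (∀ g, A ⬝ᵥ xv y g ≠ 0) → ∑ g, f (A ⬝ᵥ xv y g) = 0) :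
    ∃ M : ℕ, ∀ s : ℕ, 1 ≤ s →
      ∑ j ∈ range (M + 1), (M.choose j) • ((-1 : K) ^ j * f ((s : ℤ) + j)) = 0 := by
  classical
  let x : Q → Q → ℤ := xv y
  let n0 : ℤ := x 1 ⬝ᵥ x 1
  have hn0 : 0 < n0 := dot_self_pos (xv_ne_zero h1 1)
  have hself : ∀ g, x g ⬝ᵥ x g = n0 := fun g => xv_self y g
  let Bad : Finset Q := univ.filter fun g => x g ≠ x 1 ∧ x g ≠ -x 1
  let D : Q → ℤ := fun g => n0 ^ 2 - (x 1 ⬝ᵥ x g) ^ 2
  have hD : ∀ g ∈ Bad, 0 < D g := by
    intro g hg
    have hg' := (Finset.mem_filter.mp hg).2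
    exact cs_strict (hself g) hg'.1 hg'.2
  let PD : ℤ := ∏ g ∈ Bad, D g
  have hPD : 0 < PD := Finset.prod_pos hD
  let E : ℤ := n0 * PD
  have hE : 0 < E := mul_pos hn0 hPD
  let c : Q → ℤ := fun g => n0 * ∏ h ∈ Bad.erase g, D h
  have hc : ∀ g ∈ Bad, c g * D g = E := by
    intro g hg
    simp only [c, E, PD]
    rw [mul_assoc, Finset.prod_erase_mul _ _ hg]
  let d : Q → Q → ℤ := fun g => n0 • x 1 - (x 1 ⬝ᵥ x g) • x g
  have hd0 : ∀ g, d g ⬝ᵥ x g = 0 := by
    intro g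
    simp only [d, sub_dotProduct, smul_dotProduct, hself, smul_eq_mul]
    ring
  have hd1 : ∀ g, d g ⬝ᵥ x 1 = D g := by
    intro g
    simp only [d, D, sub_dotProduct, smul_dotProduct, hself, smul_eq_mul]
    rw [dotProduct_comm (x g) (x 1)]
    ring
  let d' : Q → Q → ℤ := fun g => n0 • x g - (x 1 ⬝ᵥ x g) • x 1
  have hd'1 : ∀ g, d' g ⬝ᵥ x 1 = 0 := by
    intro g
    simp only [d', sub_dotProduct, smul_dotProduct, hself, smul_eq_mul]
    rw [dotProduct_comm (x g) (x 1)]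
    ring
  have hd'0 : ∀ g, d' g ⬝ᵥ x g = D g := by
    intro g
    simp only [d', D, sub_dotProduct, smul_dotProduct, hself, smul_eq_mul]
    ring
  refine ⟨Bad.card, fun s hs => ?_⟩
  -- base vector
  let base : Finset Q → Q → ℤ := fun T => (s * PD) • x 1 + ∑ g ∈ T, c g • d g
  obtain ⟨t, ht⟩ := avoid (κ := Q) (ι := Finset Q × {h // h ∈ Bad})
    (fun i k => d' k ⬝ᵥ x i.2.1)
    (by
      intro i h0
      have := congrFun h0 i.2.1
      simp only [hd'0, Pi.zero_apply] at this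
      exact (hD _ i.2.2).ne' this)
    (fun i => base i.1 ⬝ᵥ x i.2.1)
  let v : Q → ℤ := ∑ k, t k • d' k
  have hv1 : v ⬝ᵥ x 1 = 0 := by
    simp only [v, sum_dotProduct, smul_dotProduct, hd'1, smul_zero, Finset.sum_const_zero]
  let A : Finset Q → Q → ℤ := fun T => base T + v
  have hA1 : ∀ T ⊆ Bad, A T ⬝ᵥ x 1 = (s + T.card) * E := by
    intro T hT
    simp only [A, base, add_dotProduct, smul_dotProduct, sum_dotProduct, hv1, hd1, hself,
      smul_eq_mul, add_zero]
    rw [Finset.sum_congr rfl (fun g hg => hc g (hT hg)), Finset.sum_const, nsmul_eq_mul]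
    simp only [E]
    ring
  have hgood : ∀ T ⊆ Bad, ∀ g ∉ Bad, A T ⬝ᵥ x g = (s + T.card) * E ∨
      A T ⬝ᵥ x g = -((s + T.card) * E) := by
    intro T hT g hg
    simp only [Bad, Finset.mem_filter, Finset.mem_univ, true_and, not_and_or, not_not] at hg
    rcases hg with hg | hg
    · left
      rw [hg]
      exact hA1 T hT
    · right
      rw [hg, dotProduct_neg, hA1 T hT]
  have hpos : ∀ T : Finset Q, (0 : ℤ) < (s + T.card) * E := by
    intro T
    apply mul_pos _ hE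
    have : (1 : ℤ) ≤ s := by exact_mod_cast hs
    positivity
  have hbad : ∀ (T : Finset Q), ∀ g ∈ Bad, A T ⬝ᵥ x g ≠ 0 := by
    intro T g hg
    have := ht (T, ⟨g, hg⟩)
    simp only [A, v, add_dotProduct, sum_dotProduct, smul_dotProduct, smul_eq_mul]
    exact this
  have hadm : ∀ T ⊆ Bad, ∀ g, A T ⬝ᵥ x g ≠ 0 := by
    intro T hT g
    by_cases hg : g ∈ Bad
    · exact hbad T g hg
    · rcases hgood T hT g hg with h | h
      · rw [h]; exact (hpos T).ne'
      · rw [h]; exact (neg_ne_zero.mpr (hpos T).ne')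
  have hgoodf : ∀ T ⊆ Bad, ∀ g ∉ Bad, f (A T ⬝ᵥ x g) = f (s + T.card) * f E := by
    intro T hT g hg
    rcases hgood T hT g hg with h | h
    · rw [h, map_mul]
    · rw [h, hneg, map_mul]
  -- toggling
  have htog : ∀ g ∈ Bad, ∑ T ∈ Bad.powerset, (-1 : K) ^ T.card * f (A T ⬝ᵥ x g) = 0 := by
    intro g hg
    have hins : insert g (Bad.erase g) = Bad := Finset.insert_erase hg
    rw [← hins, Finset.sum_powerset_insert (Finset.notMem_erase g Bad), ← Finset.sum_add_distrib]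
    apply Finset.sum_eq_zero
    intro T hT
    have hgT : g ∉ T := fun h => (Finset.notMem_erase g Bad) (Finset.mem_powerset.mp hT h)
    have hAT : A (insert g T) ⬝ᵥ x g = A T ⬝ᵥ x g := by
      simp only [A, base, add_dotProduct, sum_dotProduct, Finset.sum_insert hgT, smul_dotProduct,
        hd0, smul_zero, zero_add]
    rw [hAT, Finset.card_insert_of_notMem hgT, pow_succ]
    ring
  have htot : ∑ T ∈ Bad.powerset, (-1 : K) ^ T.card * ∑ g, f (A T ⬝ᵥ x g) = 0 := by
    apply Finset.sum_eq_zero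
    intro T hT
    rw [rel (A T) (hadm T (Finset.mem_powerset.mp hT)), mul_zero]
  simp_rw [Finset.mul_sum] at htot
  rw [Finset.sum_comm] at htot
  rw [← Finset.sum_add_sum_compl Bad] at htot
  rw [Finset.sum_eq_zero htog, zero_add] at htot
  have hcongr : ∀ g ∈ Badᶜ, ∑ T ∈ Bad.powerset, (-1 : K) ^ T.card * f (A T ⬝ᵥ x g) =
      (∑ T ∈ Bad.powerset, (-1 : K) ^ T.card * f (s + T.card)) * f E := by
    intro g hg
    rw [Finset.sum_mul]
    apply Finset.sum_congr rfl
    intro T hT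
    rw [hgoodf T (Finset.mem_powerset.mp hT) g (Finset.mem_compl.mp hg)]
    ring
  rw [Finset.sum_congr rfl hcongr, Finset.sum_const, nsmul_eq_mul] at htot
  have hone : (1 : Q) ∈ Badᶜ := by
    simp [Bad]
  have hcard : ((Badᶜ.card : ℕ) : K) ≠ 0 := by
    rw [Nat.cast_ne_zero]
    exact (Finset.card_pos.mpr ⟨1, hone⟩).ne'
  have hfin : ∑ T ∈ Bad.powerset, (-1 : K) ^ T.card * f (s + T.card) = 0 := by
    rcases mul_eq_zero.mp htot with h | h
    · exact absurd h hcard
    · rcases mul_eq_zero.mp h with h | h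
      · exact h
      · exact absurd h (hf E hE.ne')
  rw [Finset.sum_powerset_apply_card (fun j => (-1 : K) ^ j * f ((s : ℤ) + j))] at hfin
  exact hfin

end NumMatch

end Pool.Agent.H41.VS
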