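import Mathlib
import Pool.Agent.H41.VS.IdealA

/-!
# Module IDEAL, part B: the contradiction
-/

set_option autoImplicit false

namespace Pool.Agent.H41.VS

namespace NumMatch

open Finset Polynomial

theorem exists_poly {K : Type*} [Field K] [CharZero K] (f : ℕ → K) (M : ℕ)
    (h : ∀ s : ℕ, 1 ≤ s → ∑ j ∈ range (M + 1), (M.choose j) • ((-1 : K) ^ j * f (s + j)) = 0) :
    ∃ q : K[X], ∀ n : ℕ, 1 ≤ n → q.eval (n : K) = f n := by
  let F : ℕ → K := fun n => f (n + 1)
  have hD : (fwdDiff 1)^[M] F = 0 := by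
    funext y
    rw [fwdDiff_iter_eq_sum_shift]
    have := h (y + 1) (by omega)
    simp only [Pi.zero_apply]
    have e : ∑ k ∈ range (M + 1), ((-1 : ℤ) ^ (M - k) * (M.choose k : ℤ)) • F (y + k • 1) =
        (-1 : K) ^ M * ∑ j ∈ range (M + 1), (M.choose j) • ((-1 : K) ^ j * f (y + 1 + j)) := by
      rw [Finset.mul_sum]
      apply Finset.sum_congr rfl
      intro k hk
      have hk' : k ≤ M := by
        have := Finset.mem_range.mp hk
        omega
      have e1 : (-1 : K) ^ (M - k) = (-1 : K) ^ M * (-1 : K) ^ k := by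
        obtain ⟨m, rfl⟩ := Nat.exists_eq_add_of_le hk'
        rw [Nat.add_sub_cancel_left, pow_add]
        have : (-1 : K) ^ k * (-1 : K) ^ k = 1 := by
          rw [← mul_pow]; simp
        linear_combination (-(-1 : K) ^ m) * this
      simp only [F, zsmul_eq_mul, nsmul_eq_mul]
      push_cast
      rw [e1]
      have : y + k • 1 + 1 = y + 1 + k := by
        simp; ring
      rw [show y + k * 1 + 1 = y + 1 + k by ring]
      ring
    rw [e, this, mul_zero]
  have hDk : ∀ k, M ≤ k → (fwdDiff 1)^[k] F = 0 := by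
    intro k hk
    obtain ⟨m, rfl⟩ := Nat.exists_eq_add_of_le hk
    rw [add_comm, Function.iterate_add_apply, hD]
    induction m with
    | zero => rfl
    | succ m ih =>
      rw [Function.iterate_succ_apply', ih (by omega)]
      funext y
      simp [fwdDiff]
  let p : K[X] := ∑ k ∈ range M, C ((fwdDiff 1)^[k] F 0 / (k.factorial : K)) * descPochhammer K k
  have hp : ∀ n : ℕ, p.eval (n : K) = F n := by
    intro n
    have h1 := shift_eq_sum_fwdDiff_iter 1 F n 0
    simp only [smul_eq_mul, mul_one, zero_add] at h1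
    rw [h1]
    simp only [p, eval_finsetSum, eval_mul, eval_C, descPochhammer_eval_eq_descFactorial]
    have e2 : ∀ k, (fwdDiff 1)^[k] F 0 / (k.factorial : K) * (n.descFactorial k : K) =
        (n.choose k) • (fwdDiff 1)^[k] F 0 := by
      intro k
      rw [Nat.descFactorial_eq_factorial_mul_choose, nsmul_eq_mul]
      have : (k.factorial : K) ≠ 0 := by exact_mod_cast k.factorial_ne_zero
      push_cast
      field_simp
    rw [Finset.sum_congr rfl (fun k _ => e2 k)]
    -- compare the two ranges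
    have a1 : ∑ k ∈ range M, (n.choose k) • (fwdDiff 1)^[k] F 0 =
        ∑ k ∈ range (max M (n + 1)), (n.choose k) • (fwdDiff 1)^[k] F 0 := by
      apply Finset.sum_subset
      · intro k hk
        simp only [Finset.mem_range] at hk ⊢
        exact lt_of_lt_of_le hk (le_max_left _ _)
      · intro k _ hk
        simp only [Finset.mem_range, not_lt] at hk
        rw [hDk k hk]
        simp
    have a2 : ∑ k ∈ range (n + 1), (n.choose k) • (fwdDiff 1)^[k] F 0 =
        ∑ k ∈ range (max M (n + 1)), (n.choose k) • (fwdDiff 1)^[k] F 0 := by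
      apply Finset.sum_subset
      · intro k hk
        simp only [Finset.mem_range] at hk ⊢
        exact lt_of_lt_of_le hk (le_max_right _ _)
      · intro k _ hk
        simp only [Finset.mem_range, not_lt] at hk
        rw [Nat.choose_eq_zero_of_lt (by omega), zero_smul]
    rw [a1, a2]
  refine ⟨p.comp (X - 1), fun n hn => ?_⟩
  obtain ⟨m, rfl⟩ := Nat.exists_eq_add_of_le hn
  rw [eval_comp]
  simp only [eval_sub, eval_X, eval_one]
  have : ((1 + m : ℕ) : K) - 1 = (m : K) := by push_cast; ring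
  rw [this, hp]
  simp only [F]
  rw [add_comm]

theorem eq_pow {K : Type*} [Field K] [CharZero K] (f : ℕ → K) (q : K[X])
    (hq : ∀ n : ℕ, 1 ≤ n → q.eval (n : K) = f n) (h1 : f 1 = 1)
    (hmul : ∀ n : ℕ, 1 ≤ n → f (2 * n) = f 2 * f n) :
    ∃ k : ℕ, ∀ n : ℕ, 1 ≤ n → f n = (n : K) ^ k := by
  have hcomp : q.comp (C 2 * X) = C (f 2) * q := by
    apply Polynomial.eq_of_infinite_eval_eq
    apply Set.Infinite.mono (s := Set.range fun n : ℕ => ((n + 1 : ℕ) : K))
    · rintro _ ⟨n, rfl⟩
      simp only [Set.mem_ofPred_eq, eval_comp, eval_mul, eval_C, eval_X]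
      rw [hq (n + 1) (by omega), ← hmul (n + 1) (by omega), ← hq (2 * (n + 1)) (by omega)]
      push_cast
      rfl
    · apply Set.infinite_range_of_injective
      intro a b hab
      have hab' : ((a + 1 : ℕ) : K) = ((b + 1 : ℕ) : K) := hab
      have : a + 1 = b + 1 := by exact_mod_cast hab'
      omega
  have hq0 : q ≠ 0 := by
    intro h
    have := hq 1 le_rfl
    rw [h, h1] at this
    simp at this
  have hcoeff : ∀ i, q.coeff i * 2 ^ i = f 2 * q.coeff i := by
    intro i
    have := congrArg (fun r => Polynomial.coeff r i) hcomp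
    simpa [comp_C_mul_X_coeff, coeff_C_mul] using this
  let k := q.natDegree
  have hlead : q.coeff k ≠ 0 := by
    simpa [k] using hq0
  have hf2 : f 2 = 2 ^ k := by
    have := hcoeff k
    have h2 : q.coeff k * ((2 : K) ^ k - f 2) = 0 := by
      linear_combination this
    rcases mul_eq_zero.mp h2 with h | h
    · exact absurd h hlead
    · exact (sub_eq_zero.mp h).symm
  have hother : ∀ i, i ≠ k → q.coeff i = 0 := by
    intro i hi
    have := hcoeff i
    rw [hf2] at this
    have h2 : q.coeff i * ((2 : K) ^ i - 2 ^ k) = 0 := by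
      linear_combination this
    rcases mul_eq_zero.mp h2 with h | h
    · exact h
    · exfalso
      apply hi
      have h3 : ((2 ^ i : ℕ) : K) = ((2 ^ k : ℕ) : K) := by
        push_cast
        exact sub_eq_zero.mp h
      have h4 : (2 ^ i : ℕ) = 2 ^ k := by exact_mod_cast h3
      exact Nat.pow_right_injective le_rfl h4
  have hqe : q = C (q.coeff k) * X ^ k := by
    ext i
    rw [coeff_C_mul_X_pow]
    split_ifs with h
    · rw [h]
    · exact hother i h
  have hc1 : q.coeff k = 1 := by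
    have := hq 1 le_rfl
    rw [h1, hqe] at this
    simpa using this
  refine ⟨k, fun n hn => ?_⟩
  rw [← hq n hn, hqe, hc1]
  simp

variable {Q : Type} [Group Q] [Fintype Q]

theorem key {K : Type*} [Field K] [CharZero K] (y : Q → ℤ) (h1 : y 1 ≠ 0) (f : ℤ →*₀ K)
    (hf : ∀ z, z ≠ 0 → f z ≠ 0) (hneg : ∀ z, f (-z) = f z)
    (rel : ∀ A : Q → ℤ, (∀ g, A ⬝ᵥ xv y g ≠ 0) → ∑ g, f (A ⬝ᵥ xv y g) = 0) : False := by
  obtain ⟨M, hM⟩ := alt_sum y h1 f hf hneg rel
  obtain ⟨q, hq⟩ := exists_poly (fun n : ℕ => f (n : ℤ)) M (by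
    intro s hs
    have := hM s hs
    simpa using this)
  obtain ⟨k, hk⟩ := eq_pow (fun n : ℕ => f (n : ℤ)) q hq (by simp) (by
    intro n _
    simp)
  obtain ⟨A, hA⟩ := exists_generic' y h1
  have hr := rel A hA
  have habs : ∀ g, f (A ⬝ᵥ xv y g) = (((A ⬝ᵥ xv y g).natAbs ^ k : ℕ) : K) := by
    intro g
    have hn : 1 ≤ (A ⬝ᵥ xv y g).natAbs := Int.natAbs_pos.mpr (hA g)
    have := hk _ hn
    push_cast
    rw [← this]
    rcases Int.natAbs_eq (A ⬝ᵥ xv y g) with h | h
    · conv_lhs => rw [h]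
    · conv_lhs => rw [h, hneg]
  simp_rw [habs] at hr
  rw [← Nat.cast_sum] at hr
  have hr' : ∑ g, (A ⬝ᵥ xv y g).natAbs ^ k = 0 := by exact_mod_cast hr
  rw [Finset.sum_eq_zero_iff] at hr'
  have := hr' 1 (Finset.mem_univ _)
  have hn : 1 ≤ (A ⬝ᵥ xv y 1).natAbs := Int.natAbs_pos.mpr (hA 1)
  have h3 := Nat.pos_of_ne_zero (by omega : (A ⬝ᵥ xv y 1).natAbs ≠ 0)
  exact absurd this (pow_pos h3 k).ne'

end NumMatch

end Pool.Agent.H41.VS
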