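import Mathlib
import Pool.Agent.H41.VS.IdealB

/-!
# Module IDEAL, part C: the ideal
-/

set_option autoImplicit false

namespace Pool.Agent.H41.VS

namespace NumMatch

open Finset

/-- the monoid ring -/
abbrev RR := MonoidAlgebra ℤ ℕ+

/-- `z ↦ [|z|]` -/
noncomputable def br : ℤ →*₀ RR where
  toFun z := if h : z = 0 then 0 else MonoidAlgebra.single ⟨z.natAbs, Int.natAbs_pos.mpr h⟩ 1
  map_zero' := by simp
  map_one' := by
    simp [MonoidAlgebra.one_def]
  map_mul' := by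
    intro a b
    by_cases ha : a = 0
    · simp [ha]
    by_cases hb : b = 0
    · simp [hb]
    have hab : a * b ≠ 0 := mul_ne_zero ha hb
    rw [dif_neg ha, dif_neg hb, dif_neg hab, MonoidAlgebra.single_mul_single]
    congr 1
    apply Subtype.ext
    exact Int.natAbs_mul a b

theorem br_of_ne {z : ℤ} (h : z ≠ 0) :
    br z = MonoidAlgebra.single ⟨z.natAbs, Int.natAbs_pos.mpr h⟩ 1 := by
  change (if h : z = 0 then (0 : RR) else
    MonoidAlgebra.single ⟨z.natAbs, Int.natAbs_pos.mpr h⟩ 1) = _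
  rw [dif_neg h]

theorem br_neg (z : ℤ) : br (-z) = br z := by
  by_cases h : z = 0
  · simp [h]
  · rw [br_of_ne h, br_of_ne (neg_ne_zero.mpr h)]
    congr 1
    apply Subtype.ext
    simp

variable {Q : Type} [Group Q] [Fintype Q]

/-- positive multiples of monomials -/
def posMon : Submonoid RR where
  carrier := {x | ∃ (lam : ℕ+) (N : ℕ), 0 < N ∧ x = MonoidAlgebra.single lam (N : ℤ)}
  one_mem' := ⟨1, 1, one_pos, by simp [MonoidAlgebra.one_def]⟩
  mul_mem' := by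
    rintro _ _ ⟨l, N, hN, rfl⟩ ⟨l', N', hN', rfl⟩
    refine ⟨l * l', N * N', Nat.mul_pos hN hN', ?_⟩
    rw [MonoidAlgebra.single_mul_single]
    push_cast
    rfl

theorem claim1 (y : Q → ℤ) (h1 : y 1 ≠ 0) :
    ∃ (lam : ℕ+) (N : ℕ), 0 < N ∧ (MonoidAlgebra.single lam (N : ℤ) : RR) ∈
      Ideal.span (Set.range fun A : {A : Q → ℤ // ∀ g, A ⬝ᵥ xv y g ≠ 0} =>
        ∑ g, br (A.1 ⬝ᵥ xv y g)) := by
  by_contra hcon
  push Not at hcon
  set I : Ideal RR := Ideal.span (Set.range fun A : {A : Q → ℤ // ∀ g, A ⬝ᵥ xv y g ≠ 0} =>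
        ∑ g, br (A.1 ⬝ᵥ xv y g)) with hI
  have hdisj : Disjoint (I : Set RR) (posMon : Set RR) := by
    rw [Set.disjoint_left]
    rintro x hx ⟨lam, N, hN, rfl⟩
    exact hcon lam N hN hx
  obtain ⟨p, hp, hIp, hpd⟩ := Ideal.exists_le_prime_disjoint I posMon hdisj
  let π : RR →+* FractionRing (RR ⧸ p) :=
    (algebraMap (RR ⧸ p) (FractionRing (RR ⧸ p))).comp (Ideal.Quotient.mk p)
  have hπ : ∀ x, π x = 0 ↔ x ∈ p := by
    intro x
    simp only [π, RingHom.comp_apply]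
    rw [map_eq_zero_iff _ (IsFractionRing.injective (RR ⧸ p) (FractionRing (RR ⧸ p)))]
    exact Ideal.Quotient.eq_zero_iff_mem
  have hπ' : ∀ x ∈ posMon, π x ≠ 0 := by
    intro x hx h0
    exact Set.disjoint_left.mp hpd ((hπ x).mp h0) hx
  have : CharZero (FractionRing (RR ⧸ p)) := by
    apply charZero_of_inj_zero
    intro n hn
    by_contra hn0
    apply hπ' (MonoidAlgebra.single 1 (n : ℤ)) ⟨1, n, Nat.pos_of_ne_zero hn0, rfl⟩
    have : (MonoidAlgebra.single 1 (n : ℤ) : RR) = (n : RR) := by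
      rw [MonoidAlgebra.natCast_def]
    rw [this, map_natCast, hn]
  let f : ℤ →*₀ FractionRing (RR ⧸ p) := (π.toMonoidWithZeroHom).comp br
  have hfa : ∀ z, f z = π (br z) := fun z => rfl
  apply key y h1 f
  · intro z hz
    rw [hfa, br_of_ne hz]
    exact hπ' _ ⟨⟨z.natAbs, Int.natAbs_pos.mpr hz⟩, 1, one_pos, by simp⟩
  · intro z
    rw [hfa, hfa, br_neg]
  · intro A hA
    simp only [hfa]
    rw [← map_sum]
    rw [hπ]
    apply hIp
    exact Ideal.subset_span ⟨⟨A, hA⟩, rfl⟩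

end NumMatch

end Pool.Agent.H41.VS
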