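import Mathlib
import Pool.Agent.H41.VS.IdealC

/-!
# Module IDEAL: numeric matching

`numeric_matching` and `exists_generic` (pure algebra).
-/

set_option autoImplicit false

namespace Pool.Agent.H41.VS

namespace NumMatch

open Finset

/-- finite sums of monomials with coefficient one -/
def Rep (x : RR) : Prop :=
  ∃ (ι : Type) (_ : Fintype ι) (ν : ι → ℕ+), x = ∑ i, MonoidAlgebra.single (ν i) (1 : ℤ)

theorem Rep.zero : Rep 0 := ⟨Empty, inferInstance, fun e => e.elim, by simp⟩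

theorem Rep.mon (m : ℕ+) : Rep (MonoidAlgebra.single m 1) :=
  ⟨Unit, inferInstance, fun _ => m, by simp⟩

theorem Rep.add {x y : RR} (hx : Rep x) (hy : Rep y) : Rep (x + y) := by
  obtain ⟨ι, _, ν, rfl⟩ := hx
  obtain ⟨ι', _, ν', rfl⟩ := hy
  exact ⟨ι ⊕ ι', inferInstance, Sum.elim ν ν', by simp [Fintype.sum_sum_type]⟩

theorem Rep.mul {x y : RR} (hx : Rep x) (hy : Rep y) : Rep (x * y) := by
  obtain ⟨ι, _, ν, rfl⟩ := hx
  obtain ⟨ι', _, ν', rfl⟩ := hy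
  refine ⟨ι × ι', inferInstance, fun p => ν p.1 * ν' p.2, ?_⟩
  rw [Finset.sum_mul_sum, Fintype.sum_prod_type]
  simp [MonoidAlgebra.single_mul_single]

theorem Rep.sum {κ : Type*} (s : Finset κ) (f : κ → RR) (h : ∀ i ∈ s, Rep (f i)) :
    Rep (∑ i ∈ s, f i) :=
  Finset.sum_induction _ _ (fun _ _ => Rep.add) Rep.zero h

theorem Rep.nsmul (n : ℕ) {x : RR} (hx : Rep x) : Rep (n • x) := by
  induction n with
  | zero => rw [zero_smul]; exact Rep.zero
  | succ n ih => rw [succ_nsmul]; exact ih.add hx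

theorem exists_sub_rep (s : RR) : ∃ a b, Rep a ∧ Rep b ∧ s = a - b := by
  induction s using MonoidAlgebra.induction_linear with
  | zero => exact ⟨0, 0, Rep.zero, Rep.zero, by simp⟩
  | add x y hx hy =>
    obtain ⟨a, b, ha, hb, rfl⟩ := hx
    obtain ⟨c, d, hc, hd, rfl⟩ := hy
    exact ⟨a + c, b + d, ha.add hc, hb.add hd, by ring⟩
  | single m z =>
    rcases Int.eq_nat_or_neg z with ⟨n, h | h⟩
    · refine ⟨n • MonoidAlgebra.single m 1, 0, (Rep.mon m).nsmul n, Rep.zero, ?_⟩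
      rw [h]
      simp
    · refine ⟨0, n • MonoidAlgebra.single m 1, Rep.zero, (Rep.mon m).nsmul n, ?_⟩
      rw [h]
      simp

/-- the coefficient at `τ` -/
noncomputable def coef (τ : ℕ) : RR →+ ℤ :=
  (Finsupp.liftAddHom (fun m : ℕ+ => if (m : ℕ) = τ then AddMonoidHom.id ℤ else 0)).comp
    (MonoidAlgebra.coeffAddEquiv (R := ℤ) (M := ℕ+)).toAddMonoidHom

theorem coef_single (τ : ℕ) (m : ℕ+) (z : ℤ) :
    coef τ (MonoidAlgebra.single m z) = if (m : ℕ) = τ then z else 0 := by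
  simp only [coef, AddMonoidHom.comp_apply]
  change Finsupp.liftAddHom (fun m : ℕ+ => if (m : ℕ) = τ then AddMonoidHom.id ℤ else 0)
    (Finsupp.single m z) = _
  rw [Finsupp.liftAddHom_apply_single]
  split_ifs <;> rfl

theorem coef_sum (τ : ℕ) {ι : Type*} [Fintype ι] (ν : ι → ℕ+) :
    coef τ (∑ i, MonoidAlgebra.single (ν i) 1) = (Nat.card {i // (ν i : ℕ) = τ} : ℤ) := by
  classical
  rw [map_sum]
  simp only [coef_single]
  rw [Finset.sum_boole, Nat.card_eq_fintype_card, Fintype.card_subtype]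

end NumMatch

open NumMatch in
theorem numeric_matching (Q₁ : Type) [Group Q₁] [Fintype Q₁] (y₁ : Q₁ → ℤ) (h₁ : y₁ 1 ≠ 0)
    (Q₂ : Type) [Fintype Q₂] [Nonempty Q₂] (y₂ : Q₂ → ℤ) (h₂ : ∀ q, y₂ q ≠ 0) :
    ∃ (lam N : ℕ) (J L : Type) (_ : Fintype J) (_ : Fintype L)
      (A : J → Q₁ → ℤ) (ν : J → ℕ) (ν' : L → ℕ),
      0 < lam ∧ 0 < N ∧ (∀ j, 0 < ν j) ∧ (∀ l, 0 < ν' l) ∧
      (∀ j g, ∑ g', A j g' * y₁ (g * g') ≠ 0) ∧
      ∀ τ : ℕ, (if τ = lam then N * Nat.card Q₁ else 0) +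
          Nat.card {p : J × Q₁ // ν p.1 * (∑ g', A p.1 g' * y₁ (p.2 * g')).natAbs = τ} =
        Nat.card {p : L × Q₂ // ν' p.1 * (y₂ p.2).natAbs = τ} := by
  classical
  obtain ⟨lam, N, hN, hmem⟩ := claim1 y₁ h₁
  rw [Finsupp.mem_ideal_span_range_iff_exists_finsupp] at hmem
  obtain ⟨c, hc⟩ := hmem
  rw [Finsupp.sum] at hc
  set v : {A : Q₁ → ℤ // ∀ g, A ⬝ᵥ xv y₁ g ≠ 0} → RR := fun A => ∑ g, br (A.1 ⬝ᵥ xv y₁ g) with hv
  choose a b ha hb hab using fun j => exists_sub_rep (c j)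
  let S := c.support
  let q0 : Q₂ := Classical.arbitrary Q₂
  let μ2 : RR := ∑ q, br (y₂ q)
  let β : ℕ+ := ⟨(y₂ q0).natAbs, Int.natAbs_pos.mpr (h₂ q0)⟩
  let t : RR := ∑ j ∈ S, a j
  let μ2' : RR := ∑ q ∈ Finset.univ.erase q0, br (y₂ q)
  have hbr : ∀ z : ℤ, z ≠ 0 → Rep (br z) := fun z hz => by
    rw [br_of_ne hz]; exact Rep.mon _
  have hμ2 : μ2 = MonoidAlgebra.single β 1 + μ2' := by
    simp only [μ2, μ2']
    rw [← Finset.add_sum_erase _ _ (Finset.mem_univ q0), br_of_ne (h₂ q0)]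
  have hμ2' : Rep μ2' := Rep.sum _ _ fun q _ => hbr _ (h₂ q)
  have ht : Rep t := Rep.sum _ _ fun j _ => ha j
  let r : {A : Q₁ → ℤ // ∀ g, A ⬝ᵥ xv y₁ g ≠ 0} → RR := fun j =>
    μ2 * t - MonoidAlgebra.single β 1 * c j
  have hr : ∀ j ∈ S, Rep (r j) := by
    intro j hj
    have : r j = μ2' * t + MonoidAlgebra.single β 1 * ((∑ i ∈ S.erase j, a i) + b j) := by
      have h1 : t = a j + ∑ i ∈ S.erase j, a i := (Finset.add_sum_erase _ _ hj).symm
      simp only [r]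
      rw [hμ2, hab j]
      linear_combination (MonoidAlgebra.single β 1 : RR) * h1
    rw [this]
    exact (hμ2'.mul ht).add ((Rep.mon β).mul ((Rep.sum _ _ fun i _ => ha i).add (hb j)))
  have hvrep : ∀ j, Rep (v j) := fun j => Rep.sum _ _ fun g _ => hbr _ (j.2 g)
  have hid : (MonoidAlgebra.single (β * lam) (N : ℤ) : RR) + ∑ j ∈ S, r j * v j =
      (t * ∑ j ∈ S, v j) * μ2 := by
    have e1 : (MonoidAlgebra.single (β * lam) (N : ℤ) : RR) =
        MonoidAlgebra.single β 1 * ∑ j ∈ S, c j * v j := by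
      rw [hc, MonoidAlgebra.single_mul_single, one_mul]
    have e0 : (t * ∑ j ∈ S, v j) * μ2 = ∑ j ∈ S, (μ2 * t) * v j := by
      rw [← Finset.mul_sum]
      ring
    rw [e1, e0, Finset.mul_sum, ← Finset.sum_add_distrib]
    apply Finset.sum_congr rfl
    intro j _
    simp only [r]
    ring
  -- choose the families
  have hr' : ∀ j : S, Rep (Nat.card Q₁ • r j.1) := fun j => (hr j.1 j.2).nsmul _
  choose ι hι ν hν using hr'
  obtain ⟨L, hL, ν', hν'⟩ : Rep (Nat.card Q₁ • (t * ∑ j ∈ S, v j)) :=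
    (ht.mul (Rep.sum _ _ fun j _ => hvrep j)).nsmul _
  have hQ : 0 < Nat.card Q₁ := Nat.card_pos
  refine ⟨β * lam, N, (Σ j : S, ι j), L, inferInstance, hL, fun p => p.1.1.1,
    fun p => ν p.1 p.2, fun l => ν' l, ?_, hN, ?_, ?_, ?_, ?_⟩
  · positivity
  · intro j
    exact (ν j.1 j.2).2
  · intro l
    exact (ν' l).2
  · intro j g
    exact j.1.1.2 g
  · intro τ
    have key : (MonoidAlgebra.single (β * lam) ((N * Nat.card Q₁ : ℕ) : ℤ) : RR) +
        ∑ p : (Σ j : S, ι j) × Q₁, MonoidAlgebra.single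
          (ν p.1.1 p.1.2 * ⟨(p.1.1.1.1 ⬝ᵥ xv y₁ p.2).natAbs,
            Int.natAbs_pos.mpr (p.1.1.1.2 p.2)⟩ : ℕ+) (1 : ℤ) =
        ∑ p : L × Q₂, MonoidAlgebra.single
          (ν' p.1 * ⟨(y₂ p.2).natAbs, Int.natAbs_pos.mpr (h₂ p.2)⟩ : ℕ+) (1 : ℤ) := by
      have e2 : ∑ p : (Σ j : S, ι j) × Q₁, (MonoidAlgebra.single
          (ν p.1.1 p.1.2 * ⟨(p.1.1.1.1 ⬝ᵥ xv y₁ p.2).natAbs,
            Int.natAbs_pos.mpr (p.1.1.1.2 p.2)⟩ : ℕ+) (1 : ℤ) : RR) =
          Nat.card Q₁ • ∑ j ∈ S, r j * v j := by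
        rw [Fintype.sum_prod_type, Fintype.sum_sigma, Finset.smul_sum, ← Finset.sum_coe_sort S]
        apply Finset.sum_congr rfl
        intro j _
        rw [← smul_mul_assoc, hν j, Finset.sum_mul]
        apply Finset.sum_congr rfl
        intro i _
        rw [hv, Finset.mul_sum]
        apply Finset.sum_congr rfl
        intro g _
        rw [br_of_ne (j.1.2 g), MonoidAlgebra.single_mul_single, one_mul]
      have e3 : ∑ p : L × Q₂, (MonoidAlgebra.single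
          (ν' p.1 * ⟨(y₂ p.2).natAbs, Int.natAbs_pos.mpr (h₂ p.2)⟩ : ℕ+) (1 : ℤ) : RR) =
          Nat.card Q₁ • ((t * ∑ j ∈ S, v j) * μ2) := by
        rw [Fintype.sum_prod_type, ← smul_mul_assoc, hν', Finset.sum_mul]
        apply Finset.sum_congr rfl
        intro l _
        simp only [μ2]
        rw [Finset.mul_sum]
        apply Finset.sum_congr rfl
        intro q _
        rw [br_of_ne (h₂ q), MonoidAlgebra.single_mul_single, one_mul]
      rw [e2, e3, ← hid, smul_add]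
      congr 1
      simp [mul_comm]
    have := congrArg (coef τ) key
    rw [map_add, coef_single, coef_sum, coef_sum] at this
    have h3 : ((if τ = (β * lam : ℕ) then N * Nat.card Q₁ else 0 : ℕ) : ℤ) =
        if ((β * lam : ℕ+) : ℕ) = τ then ((N * Nat.card Q₁ : ℕ) : ℤ) else 0 := by
      by_cases h : τ = (β * lam : ℕ)
      · rw [if_pos h, if_pos (by rw [h]; simp)]
      · rw [if_neg h, if_neg (by rw [PNat.mul_coe]; exact fun h' => h h'.symm)]
        simp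
    rw [← h3] at this
    have h4 : ((if τ = (β * lam : ℕ) then N * Nat.card Q₁ else 0 : ℕ) : ℤ) +
        ((Nat.card {p : (Σ j : S, ι j) × Q₁ // (ν p.1.1 p.1.2 : ℕ) *
          (∑ g', p.1.1.1.1 g' * y₁ (p.2 * g')).natAbs = τ} : ℕ) : ℤ) =
        ((Nat.card {p : L × Q₂ // (ν' p.1 : ℕ) * (y₂ p.2).natAbs = τ} : ℕ) : ℤ) := this
    exact_mod_cast h4

open NumMatch in
theorem exists_generic (Q₁ : Type) [Group Q₁] [Fintype Q₁] (y₁ : Q₁ → ℤ) (h₁ : y₁ 1 ≠ 0) :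
    ∃ A : Q₁ → ℤ, ∀ g, ∑ g', A g' * y₁ (g * g') ≠ 0 :=
  exists_generic' y₁ h₁

end Pool.Agent.H41.VS
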