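import Mathlib
import Pool.Agent.H41.VS.Ideal

/-!
# Pinning: finite-index normal subgroups with prescribed trace and homomorphisms to `ℤ` with
prescribed values
-/

set_option autoImplicit false

namespace Pool.Agent.H41.VS

open Function

section Pin

variable {H G : Type} [Group H] [Group G] (φ : H →* G) (K₀ : Subgroup G) [hK₀ : K₀.Normal]

/-- `δ` precomposed with conjugation by `g⁻¹` -/
noncomputable def Dc (δ : K₀ →* Multiplicative ℤ) (g : G) : K₀ →* Multiplicative ℤ :=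
  δ.comp (MulAut.conjNormal g⁻¹ : K₀ ≃* K₀).toMonoidHom

variable {K₀} (δ : K₀ →* Multiplicative ℤ)

theorem Dc_apply (g : G) (k : K₀) (h : g⁻¹ * k * g ∈ K₀) : Dc K₀ δ g k = δ ⟨g⁻¹ * k * g, h⟩ := by
  unfold Dc
  rw [MonoidHom.comp_apply]
  congr 1
  apply Subtype.ext
  change ((MulAut.conjNormal g⁻¹ k : K₀) : G) = _
  rw [MulAut.conjNormal_apply, inv_inv]

theorem conj_mem' (g : G) {k : G} (hk : k ∈ K₀) : g⁻¹ * k * g ∈ K₀ := by
  have := hK₀.conj_mem _ hk g⁻¹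
  rwa [inv_inv] at this

theorem Dc_mul_right (g : G) (k' : K₀) (k : K₀) : Dc K₀ δ (g * k') k = Dc K₀ δ g k := by
  rw [Dc_apply δ (g * k') k (conj_mem' _ k.2), Dc_apply δ g k (conj_mem' _ k.2)]
  have h1 : (⟨(g * k')⁻¹ * k * (g * k'), conj_mem' _ k.2⟩ : K₀) =
      k'⁻¹ * ⟨g⁻¹ * k * g, conj_mem' _ k.2⟩ * k' := by
    apply Subtype.ext
    simp only [Subgroup.coe_mul, Subgroup.coe_inv]
    group
  rw [h1, map_mul, map_mul, map_inv, mul_comm (δ k')⁻¹, inv_mul_cancel_right]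

theorem Dc_of_mk_eq {g g' : G} (h : (QuotientGroup.mk g : G ⧸ K₀) = QuotientGroup.mk g') (k : K₀) :
    Dc K₀ δ g k = Dc K₀ δ g' k := by
  rw [QuotientGroup.eq] at h
  have : g' = g * (⟨g⁻¹ * g', h⟩ : K₀) := by simp
  rw [this, Dc_mul_right]

theorem Dc_out (g : G) (k : K₀) : Dc K₀ δ (QuotientGroup.mk g : G ⧸ K₀).out k = Dc K₀ δ g k :=
  Dc_of_mk_eq δ (QuotientGroup.out_eq' _) k

theorem Dc_conj (g x : G) (k : K₀) (h : x⁻¹ * k * x ∈ K₀) :
    Dc K₀ δ g ⟨x⁻¹ * k * x, h⟩ = Dc K₀ δ (x * g) k := by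
  rw [Dc_apply δ g _ (conj_mem' _ h), Dc_apply δ (x * g) k (conj_mem' _ k.2)]
  congr 1
  apply Subtype.ext
  simp only
  group

/-- a generic combination of conjugates of `δ` is non-trivial on all conjugates of `z` -/
theorem exists_generic_hom [K₀.FiniteIndex] (z : K₀) (hz : δ z ≠ 1) :
    ∃ δ' : K₀ →* Multiplicative ℤ, ∀ g : G, Dc K₀ δ' g z ≠ 1 := by
  classical
  have := Fintype.ofFinite (G ⧸ K₀)
  let y : G ⧸ K₀ → ℤ := fun q => Multiplicative.toAdd (Dc K₀ δ q.out z)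
  have hy : ∀ g : G, y (QuotientGroup.mk g) = Multiplicative.toAdd (Dc K₀ δ g z) := by
    intro g
    simp only [y, Dc_out]
  have hy1 : y 1 ≠ 0 := by
    have h1 : y 1 = Multiplicative.toAdd (Dc K₀ δ 1 z) := hy 1
    rw [h1, Dc_apply δ 1 z (conj_mem' _ z.2)]
    intro h2
    apply hz
    have h3 : (⟨(1 : G)⁻¹ * z * 1, conj_mem' _ z.2⟩ : K₀) = z := by
      apply Subtype.ext; simp
    rw [h3] at h2
    exact Multiplicative.toAdd.injective h2
  obtain ⟨A, hA⟩ := exists_generic (G ⧸ K₀) y hy1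
  let δ' : K₀ →* Multiplicative ℤ := ∏ q : G ⧸ K₀, (Dc K₀ δ q.out) ^ (A q)
  refine ⟨δ', fun g h => hA (QuotientGroup.mk g) ?_⟩
  have h1 : Dc K₀ δ' g z = ∏ q : G ⧸ K₀, (Dc K₀ δ (g * q.out) z) ^ (A q) := by
    rw [Dc_apply δ' g z (conj_mem' _ z.2)]
    simp only [δ', MonoidHom.finsetProd_apply]
    apply Finset.prod_congr rfl
    intro q _
    change (Dc K₀ δ q.out ⟨g⁻¹ * z * g, _⟩) ^ (A q) = _
    rw [Dc_conj]
  rw [h1] at h
  have h2 := congrArg Multiplicative.toAdd h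
  rw [toAdd_prod, toAdd_one] at h2
  rw [← h2]
  apply Finset.sum_congr rfl
  intro q _
  rw [toAdd_zpow, smul_eq_mul, ← hy]
  congr 2
  rw [QuotientGroup.mk_mul, QuotientGroup.out_eq']

/-- **Pinning lemma.** -/
theorem exists_pin [K₀.FiniteIndex] (z : H) (hzK : K₀.comap φ = Subgroup.zpowers z)
    (hz : φ z ∈ K₀) (hδ : ∀ g : G, Dc K₀ δ g ⟨φ z, hz⟩ ≠ 1) :
    ∃ y : G ⧸ K₀ → ℤ, (∀ q, y q ≠ 0) ∧ ∀ c : H, c ∈ Subgroup.zpowers z → c ≠ 1 →
      ∃ K : Subgroup G, K ≤ K₀ ∧ K.Normal ∧ K.FiniteIndex ∧ K.comap φ = Subgroup.zpowers c ∧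
        ∃ ρ : K →* Multiplicative ℤ, ∀ (g : G) (k : K), (k : G) = g⁻¹ * φ c * g →
          Multiplicative.toAdd (ρ k) = y (QuotientGroup.mk g) := by
  classical
  have := Fintype.ofFinite (G ⧸ K₀)
  let w : G ⧸ K₀ → ℤ := fun q => Multiplicative.toAdd (Dc K₀ δ q.out ⟨φ z, hz⟩)
  have hw : ∀ g : G, w (QuotientGroup.mk g) = Multiplicative.toAdd (Dc K₀ δ g ⟨φ z, hz⟩) := by
    intro g
    simp only [w, Dc_out]
  have hw0 : ∀ q, w q ≠ 0 := by
    intro q h
    exact hδ q.out (Multiplicative.toAdd.injective h)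
  set Y : ℤ := Finset.univ.gcd w with hY
  have hYdvd : ∀ q, Y ∣ w q := fun q => Finset.gcd_dvd (Finset.mem_univ q)
  have hY0 : Y ≠ 0 := by
    intro h
    have h1 := hYdvd 1
    rw [h, zero_dvd_iff] at h1
    exact hw0 1 h1
  refine ⟨fun q => w q / Y, fun q h => ?_, ?_⟩
  · have h1 := Int.ediv_mul_cancel (hYdvd q)
    dsimp only at h
    rw [h, zero_mul] at h1
    exact hw0 q h1.symm
  rintro c ⟨a, rfl⟩ hc1
  dsimp only at hc1 ⊢
  have ha : a ≠ 0 := by rintro rfl; exact hc1 (zpow_zero z)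
  set N : ℤ := Y * a with hN
  have hN0 : N ≠ 0 := mul_ne_zero hY0 ha
  have hNn : N.natAbs ≠ 0 := Int.natAbs_ne_zero.2 hN0
  have : NeZero N.natAbs := ⟨hNn⟩
  -- the homomorphism to a finite group
  let θ : K₀ →* (G ⧸ K₀ → Multiplicative (ZMod N.natAbs)) :=
    MonoidHom.pi fun q => (AddMonoidHom.toMultiplicative
      (Int.castAddHom (ZMod N.natAbs))).comp (Dc K₀ δ q.out)
  have hθ : ∀ k : K₀, k ∈ θ.ker ↔ ∀ g : G, N ∣ Multiplicative.toAdd (Dc K₀ δ g k) := by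
    intro k
    have e1 : ∀ q : G ⧸ K₀, θ k q = 1 ↔ N ∣ Multiplicative.toAdd (Dc K₀ δ q.out k) := by
      intro q
      have e2 : θ k q = Multiplicative.ofAdd
        ((Multiplicative.toAdd (Dc K₀ δ q.out k) : ℤ) : ZMod N.natAbs) := rfl
      rw [e2, ← ofAdd_zero, Multiplicative.ofAdd.injective.eq_iff,
        ZMod.intCast_zmod_eq_zero_iff_dvd, Int.natAbs_dvd]
    rw [MonoidHom.mem_ker]
    constructor
    · intro h g
      have h1 := (e1 (QuotientGroup.mk g)).1 (congrFun h _)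
      rwa [Dc_out] at h1
    · intro h
      funext q
      exact (e1 q).2 (h _)
  have hfin : θ.ker.FiniteIndex := by
    have : Finite (Multiplicative (ZMod N.natAbs)) :=
      Finite.of_equiv (ZMod N.natAbs) Multiplicative.ofAdd
    infer_instance
  let K : Subgroup G := θ.ker.map K₀.subtype
  have hmem : ∀ x : G, x ∈ K ↔ ∃ h : x ∈ K₀, ∀ g : G,
      N ∣ Multiplicative.toAdd (Dc K₀ δ g ⟨x, h⟩) := by
    intro x
    constructor
    · rintro ⟨k, hk, rfl⟩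
      exact ⟨k.2, (hθ k).1 hk⟩
    · rintro ⟨h1, h2⟩
      exact ⟨⟨x, h1⟩, (hθ _).2 h2, rfl⟩
  have hKK : K ≤ K₀ := by
    rintro x hx
    exact ((hmem x).1 hx).1
  -- powers of `z`
  have hzpow : ∀ (b : ℤ) (g : G) (h : φ (z ^ b) ∈ K₀),
      Multiplicative.toAdd (Dc K₀ δ g ⟨φ (z ^ b), h⟩) = b * w (QuotientGroup.mk g) := by
    intro b g h
    have e1 : (⟨φ (z ^ b), h⟩ : K₀) = (⟨φ z, hz⟩ : K₀) ^ b := by
      apply Subtype.ext
      exact map_zpow φ z b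
    rw [e1, map_zpow, toAdd_zpow, smul_eq_mul, hw]
  refine ⟨K, hKK, ?_, ?_, ?_, ?_⟩
  · constructor
    intro x hx g
    obtain ⟨h1, h2⟩ := (hmem x).1 hx
    refine (hmem _).2 ⟨hK₀.conj_mem _ h1 _, fun g' => ?_⟩
    have h3 : (g⁻¹)⁻¹ * x * g⁻¹ ∈ K₀ := by
      rw [inv_inv]; exact hK₀.conj_mem _ h1 _
    have h4 := Dc_conj δ g' g⁻¹ ⟨x, h1⟩ h3
    have h5 : (⟨g * x * g⁻¹, hK₀.conj_mem _ h1 _⟩ : K₀) = ⟨(g⁻¹)⁻¹ * x * g⁻¹, h3⟩ := by
      apply Subtype.ext; simp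
    rw [h5, h4]
    exact h2 _
  · constructor
    rw [Subgroup.index_map_subtype]
    exact mul_ne_zero hfin.index_ne_zero Subgroup.FiniteIndex.index_ne_zero
  · ext x
    rw [Subgroup.mem_comap, hmem]
    constructor
    · rintro ⟨h1, h2⟩
      have h3 : x ∈ K₀.comap φ := h1
      rw [hzK] at h3
      obtain ⟨b, rfl⟩ := h3
      dsimp only at h1 h2
      have h4 : ∀ q ∈ (Finset.univ : Finset (G ⧸ K₀)), N ∣ b * w q := by
        intro q _
        have := h2 q.out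
        rw [hzpow] at this
        rwa [QuotientGroup.out_eq'] at this
      have h5 := Finset.dvd_gcd h4
      rw [Finset.gcd_mul_left] at h5
      have h6 : N ∣ b * Y := by
        have h7 : normalize b * Finset.univ.gcd w ∣ b * Y := by
          rw [← hY]
          exact mul_dvd_mul_right (normalize_associated b).dvd _
        exact h5.trans h7
      have h7 : a ∣ b := by
        rw [hN, mul_comm Y a] at h6
        exact Int.dvd_of_mul_dvd_mul_right hY0 h6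
      obtain ⟨d, rfl⟩ := h7
      exact ⟨d, (zpow_mul z a d).symm⟩
    · rintro ⟨d, rfl⟩
      have h1 : (z ^ a) ^ d ∈ K₀.comap φ := by
        rw [hzK, ← zpow_mul]
        exact ⟨a * d, rfl⟩
      refine ⟨h1, fun g => ?_⟩
      have e1 : ∀ x : H, ∀ h : φ x ∈ K₀, x = z ^ (a * d) →
          N ∣ Multiplicative.toAdd (Dc K₀ δ g ⟨φ x, h⟩) := by
        rintro x h rfl
        rw [hzpow, hN]
        have h2 := hYdvd (QuotientGroup.mk g)
        obtain ⟨s, hs⟩ := h2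
        exact ⟨d * s, by rw [hs]; ring⟩
      exact e1 _ _ (zpow_mul z a d).symm
  · -- the homomorphism
    have hdiv : ∀ k : K, N ∣ Multiplicative.toAdd (δ ⟨k, hKK k.2⟩) := by
      intro k
      obtain ⟨h1, h2⟩ := (hmem k).1 k.2
      have h3 := h2 1
      rw [Dc_apply δ 1 _ (conj_mem' _ h1)] at h3
      have h4 : (⟨(1 : G)⁻¹ * k * 1, conj_mem' _ h1⟩ : K₀) = ⟨k, hKK k.2⟩ := by
        apply Subtype.ext; simp
      rwa [h4] at h3
    let ρ : K →* Multiplicative ℤ :=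
      { toFun := fun k => Multiplicative.ofAdd (Multiplicative.toAdd (δ ⟨k, hKK k.2⟩) / N)
        map_one' := by
          have : (⟨((1 : K) : G), hKK (1 : K).2⟩ : K₀) = 1 := rfl
          rw [this, map_one]; simp
        map_mul' := fun k k' => by
          have e1 : (⟨((k * k' : K) : G), hKK (k * k').2⟩ : K₀) =
            ⟨k, hKK k.2⟩ * ⟨k', hKK k'.2⟩ := rfl
          rw [e1, map_mul, toAdd_mul, Int.add_ediv_of_dvd_left (hdiv k)]
          rfl }
    refine ⟨ρ, fun g k hk => ?_⟩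
    have h1 : φ (z ^ a) ∈ K₀ := by
      have : z ^ a ∈ K₀.comap φ := by rw [hzK]; exact ⟨a, rfl⟩
      exact this
    have h2 : δ ⟨k, hKK k.2⟩ = Dc K₀ δ g ⟨φ (z ^ a), h1⟩ := by
      rw [Dc_apply δ g _ (conj_mem' _ h1)]
      congr 1
      apply Subtype.ext
      exact hk
    change Multiplicative.toAdd (δ ⟨k, hKK k.2⟩) / N = w (QuotientGroup.mk g) / Y
    rw [h2, hzpow, hN, mul_comm Y a]
    obtain ⟨s, hs⟩ := hYdvd (QuotientGroup.mk g)
    rw [hs, Int.mul_ediv_cancel_left _ hY0]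
    have e3 : a * (Y * s) = a * Y * s := by ring
    rw [e3, Int.mul_ediv_cancel_left _ (mul_ne_zero ha hY0)]

end Pin

end Pool.Agent.H41.VS
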