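import Mathlib
import Pool.Agent.H41.VS.Iso
import Pool.Agent.H41.VS.Pin
import Pool.Agent.H41.VS.Vrc

/-!
# Matching: embeddings agreeing on the amalgamated subgroup
-/

set_option autoImplicit false

namespace Pool.Agent.H41.VS

open Function

theorem card_prod_split {A B F I : Type} (e : A ≃ B × F) (P : I → B → Prop) :
    Nat.card {p : I × A // P p.1 (e p.2).1} = Nat.card F * Nat.card {p : I × B // P p.1 p.2} := by
  rw [← Nat.card_prod]
  apply Nat.card_congr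
  exact
    { toFun := fun p => ((e p.1.2).2, ⟨(p.1.1, (e p.1.2).1), p.2⟩)
      invFun := fun p => ⟨(p.2.1.1, e.symm (p.2.1.2, p.1)), by
        simp only [Equiv.apply_symm_apply]; exact p.2.2⟩
      left_inv := by
        rintro ⟨⟨i, a⟩, h⟩
        simp
      right_inv := by
        rintro ⟨f, ⟨⟨i, b⟩, h⟩⟩
        simp }

theorem card_mult {A F I : Type} (P : I → A → Prop) :
    Nat.card {p : (F × I) × A // P p.1.2 p.2} = Nat.card F * Nat.card {p : I × A // P p.1 p.2} := by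
  rw [← Nat.card_prod]
  apply Nat.card_congr
  exact
    { toFun := fun p => (p.1.1.1, ⟨(p.1.1.2, p.1.2), p.2⟩)
      invFun := fun p => ⟨((p.1, p.2.1.1), p.2.1.2), p.2.2⟩
      left_inv := by rintro ⟨⟨⟨f, i⟩, a⟩, h⟩; rfl
      right_inv := by rintro ⟨f, ⟨⟨i, a⟩, h⟩⟩; rfl }

theorem card_sum {A I I' : Type} [Finite A] [Finite I] [Finite I'] (P : I ⊕ I' → A → Prop) :
    Nat.card {p : (I ⊕ I') × A // P p.1 p.2} =
      Nat.card {p : I × A // P (Sum.inl p.1) p.2} + Nat.card {p : I' × A // P (Sum.inr p.1) p.2} := by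
  rw [← Nat.card_sum]
  apply Nat.card_congr
  exact
    { toFun := fun p => match p with
        | ⟨(Sum.inl i, a), h⟩ => Sum.inl ⟨(i, a), h⟩
        | ⟨(Sum.inr i, a), h⟩ => Sum.inr ⟨(i, a), h⟩
      invFun := fun p => match p with
        | Sum.inl ⟨(i, a), h⟩ => ⟨(Sum.inl i, a), h⟩
        | Sum.inr ⟨(i, a), h⟩ => ⟨(Sum.inr i, a), h⟩
      left_inv := by rintro ⟨⟨i | i, a⟩, h⟩ <;> rfl
      right_inv := by rintro (⟨⟨i, a⟩, h⟩ | ⟨⟨i, a⟩, h⟩) <;> rfl }

theorem card_const {A I : Type} (lam τ : ℕ) :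
    Nat.card {p : I × A // lam = τ} = if τ = lam then Nat.card I * Nat.card A else 0 := by
  split_ifs with h
  · subst h
    rw [← Nat.card_prod]
    apply Nat.card_congr
    exact Equiv.subtypeUnivEquiv (fun _ => rfl)
  · have : IsEmpty {p : I × A // lam = τ} := ⟨fun p => h p.2.symm⟩
    exact Nat.card_of_isEmpty

/-- from an isomorphism of bisets to compatible homomorphisms -/
theorem of_iso {H P G₁ G₂ : Type} [Group H] [Group P] [Group G₁] [Group G₂]
    (φ₁ : H →* G₁) (φ₂ : H →* G₂) {K₁ : Subgroup G₁} {K₂ : Subgroup G₂} [K₁.FiniteIndex]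
    {I₁ I₂ : Type} [Finite I₁] (h₁ : I₁ → K₁ →* P) (h₂ : I₂ → K₂ →* P)
    (Φ : SInd h₁ ≃ SInd h₂) (hΦ : ∀ (x : H) (y : SInd h₁), Φ (φ₁ x • y) = φ₂ x • Φ y)
    (hΦP : ∀ (p : P) (y : SInd h₁), Φ (p • y) = p • Φ y) (hP : VS P) (i₀ : I₁)
    (hinj : Injective (h₁ i₀)) :
    ∃ (P' : Type) (_ : Group P') (α₁ : G₁ →* P') (α₂ : G₂ →* P'), VS P' ∧ Injective α₁ ∧
      ∀ x, α₁ (φ₁ x) = α₂ (φ₂ x) := by
  have hsymm : ∀ (p : P) (y : SInd h₂), Φ.symm (p • y) = p • Φ.symm y := by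
    intro p y
    rw [Equiv.symm_apply_eq, hΦP, Equiv.apply_symm_apply]
  let α₂ : G₂ →* AutSet P (SInd h₁) :=
    { toFun := fun g => ⟨Φ.trans ((MulAction.toPerm g).trans Φ.symm), fun p y => by
        change Φ.symm (g • Φ (p • y)) = p • Φ.symm (g • Φ y)
        rw [hΦP, smul_comm, hsymm]⟩
      map_one' := by
        apply Subtype.ext
        ext1 y
        change Φ.symm ((1 : G₂) • Φ y) = y
        rw [one_smul, Equiv.symm_apply_apply]
      map_mul' := fun g g' => by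
        apply Subtype.ext
        ext1 y
        change Φ.symm ((g * g') • Φ y) = Φ.symm (g • Φ (Φ.symm (g' • Φ y)))
        rw [Equiv.apply_symm_apply, mul_smul] }
  have hfin : Finite (MulAction.orbitRel.Quotient P (SInd h₁)) := by
    let f : I₁ × (G₁ ⧸ K₁) → MulAction.orbitRel.Quotient P (SInd h₁) := fun p =>
      Quotient.mk _ ⟨p.1, ⟨p.2, 1⟩⟩
    apply Finite.of_surjective f
    intro ω
    induction ω using Quotient.inductionOn' with
    | h x =>
      obtain ⟨i, ⟨a, q⟩⟩ := x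
      refine ⟨(i, a), ?_⟩
      apply Quotient.sound
      refine ⟨q⁻¹, ?_⟩
      change (⟨i, ⟨a, q⁻¹ * q⟩⟩ : SInd h₁) = ⟨i, ⟨a, 1⟩⟩
      rw [inv_mul_cancel]
  refine ⟨AutSet P (SInd h₁), inferInstance, autHom G₁ P (SInd h₁), α₂, ?_, ?_, ?_⟩
  · apply vs_autSet P _ _ hP
    rintro p ⟨i, x⟩ hx
    have h1 : p • x = x := eq_of_heq (Sigma.mk.inj_iff.1 hx).2
    exact ind_free p x h1
  · rw [injective_iff_map_eq_one]
    intro g hg
    have h1 : autHom G₁ P (IndSet K₁ (h₁ i₀)) g = 1 := by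
      apply Subtype.ext
      ext1 x
      have h2 : g • (⟨i₀, x⟩ : SInd h₁) = ⟨i₀, x⟩ := by
        rw [← autHom_apply (P := P), hg]; rfl
      exact eq_of_heq (Sigma.mk.inj_iff.1 h2).2
    exact ind_injective hinj (by rw [h1, map_one])
  · intro x
    apply Subtype.ext
    ext1 y
    change φ₁ x • y = Φ.symm (φ₂ x • Φ y)
    rw [← hΦ, Equiv.symm_apply_apply]

theorem conj_zpow_natAbs {P : Type} [Group P] {u ζ : P} (hu : u * ζ * u⁻¹ = ζ⁻¹) (s : ℤ) :
    ∃ q : P, q * ζ ^ s * q⁻¹ = ζ ^ s.natAbs := by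
  rcases Int.natAbs_eq s with h | h
  · refine ⟨1, ?_⟩
    conv_lhs => rw [h]
    rw [one_mul, inv_one, mul_one, zpow_natCast]
  · refine ⟨u, ?_⟩
    conv_lhs => rw [h]
    rw [← conj_zpow, hu, inv_zpow, zpow_neg, inv_inv, zpow_natCast]

/-- conjugation by an element of `H` inverts or fixes the generator of a normal infinite
cyclic subgroup -/
theorem conj_eq_or_inv {H : Type} [Group H] {c : H} (hinf : ∀ m : ℤ, c ^ m = 1 → m = 0)
    (hn : (Subgroup.zpowers c).Normal) (x : H) : ∃ ε : ℤ, (ε = 1 ∨ ε = -1) ∧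
      x⁻¹ * c * x = c ^ ε := by
  obtain ⟨s, hs⟩ : x⁻¹ * c * x ∈ Subgroup.zpowers c := by
    have := hn.conj_mem c (Subgroup.mem_zpowers c) x⁻¹
    rwa [inv_inv] at this
  obtain ⟨t, ht⟩ : x * c * x⁻¹ ∈ Subgroup.zpowers c :=
    hn.conj_mem c (Subgroup.mem_zpowers c) x
  dsimp only at hs ht
  refine ⟨s, ?_, hs.symm⟩
  have h1 : c ^ (s * t) = c := by
    rw [zpow_mul, hs]
    have h2 := conj_zpow (a := x⁻¹) (b := c) (i := t)
    rw [inv_inv] at h2
    rw [h2, ht]; group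
  have h3 : s * t - 1 = 0 := by
    apply hinf
    rw [zpow_sub_one, h1, mul_inv_cancel]
  exact Int.isUnit_iff.1 (IsUnit.of_mul_eq_one t (by omega))

/-- values of the homomorphism on conjugates by `φ x` differ by a sign -/
theorem pin_sign {H G : Type} [Group H] [Group G] (φ : H →* G) {K₀ K : Subgroup G} [K₀.Normal]
    [hK : K.Normal] {c : H} (hinf : ∀ m : ℤ, c ^ m = 1 → m = 0)
    (hcomap : K.comap φ = Subgroup.zpowers c) {ρ : K →* Multiplicative ℤ} {y : G ⧸ K₀ → ℤ}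
    (hρ : ∀ (g : G) (k : K), (k : G) = g⁻¹ * φ c * g →
      Multiplicative.toAdd (ρ k) = y (QuotientGroup.mk g)) (x : H) :
    ∃ ε : ℤ, (ε = 1 ∨ ε = -1) ∧ ∀ q, y (QuotientGroup.mk (φ x) * q) = ε * y q := by
  have hn : (Subgroup.zpowers c).Normal := by rw [← hcomap]; infer_instance
  obtain ⟨ε, hε, hc⟩ := conj_eq_or_inv hinf hn x
  refine ⟨ε, hε, fun q => ?_⟩
  induction q using QuotientGroup.induction_on with
  | H g =>
    have hcK : φ c ∈ K := by
      have : c ∈ K.comap φ := by rw [hcomap]; exact Subgroup.mem_zpowers _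
      exact this
    have h1 : g⁻¹ * φ c * g ∈ K := by
      have := hK.conj_mem _ hcK g⁻¹
      rwa [inv_inv] at this
    have h2 := hρ (φ x * g) (⟨g⁻¹ * φ c * g, h1⟩ ^ ε) (by
      rw [Subgroup.coe_zpow]
      change (g⁻¹ * φ c * g) ^ ε = _
      have h3 := conj_zpow (a := g⁻¹) (b := φ c) (i := ε)
      rw [inv_inv] at h3
      rw [h3, ← map_zpow, ← hc]
      simp only [map_mul, map_inv]
      group)
    rw [map_zpow, toAdd_zpow, smul_eq_mul, hρ g _ rfl] at h2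
    rw [← QuotientGroup.mk_mul]
    exact h2.symm

end Pool.Agent.H41.VS
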