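import Mathlib
import Pool.Agent.H41.VS.Match

/-!
# The matching theorem
-/

set_option autoImplicit false

namespace Pool.Agent.H41.VS

open Function

/-- the matching theorem, infinite case -/
theorem match_infinite
    (exists_inverting : ∀ (G : Type) [Group G], VS G → ∀ c : G, (∀ n : ℕ, 0 < n → c ^ n ≠ 1) →
      ∃ (P : Type) (_ : Group P) (β : G →* P) (m : ℕ) (u : P),
        VS P ∧ Injective β ∧ 0 < m ∧ u * β (c ^ m) * u⁻¹ = (β (c ^ m))⁻¹)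
    {H G₁ G₂ : Type} [Group H] [Group G₁] [Group G₂] [Infinite H]
    (hH : VCyc H) (φ₁ : H →* G₁) (φ₂ : H →* G₂) (hφ₁ : Injective φ₁) (hφ₂ : Injective φ₂)
    (hG₁ : VS G₁) (hG₂ : VS G₂) :
    ∃ (P' : Type) (_ : Group P') (α₁ : G₁ →* P') (α₂ : G₂ →* P'), VS P' ∧ Injective α₁ ∧
      ∀ x, α₁ (φ₁ x) = α₂ (φ₂ x) := by
  classical
  obtain ⟨V₁, hV₁, Γ₁, M₁, hM₁n, hM₁, ι₁, hι₁, hev₁⟩ := hG₁.exists_ev
  obtain ⟨V₂, hV₂, Γ₂, M₂, hM₂n, hM₂, ι₂, hι₂, hev₂⟩ := hG₂.exists_ev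
  obtain ⟨L₁, hLM₁, hL₁n, hL₁f, δ₁, z₁, hz₁, hz₁inf, hδ₁⟩ :=
    exists_pin0 φ₁ hφ₁ hH M₁ ι₁ hι₁ hev₁
  obtain ⟨L₂, hLM₂, hL₂n, hL₂f, δ₂, z₂, hz₂, hz₂inf, hδ₂⟩ :=
    exists_pin0 φ₂ hφ₂ hH M₂ ι₂ hι₂ hev₂
  have hz₁L : φ₁ z₁ ∈ L₁ := by
    have : z₁ ∈ L₁.comap φ₁ := by rw [hz₁]; exact Subgroup.mem_zpowers _
    exact this
  have hz₂L : φ₂ z₂ ∈ L₂ := by
    have : z₂ ∈ L₂.comap φ₂ := by rw [hz₂]; exact Subgroup.mem_zpowers _
    exact this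
  obtain ⟨δ₁', hδ₁'⟩ := exists_generic_hom δ₁ ⟨φ₁ z₁, hz₁L⟩ (hδ₁ hz₁L)
  obtain ⟨δ₂', hδ₂'⟩ := exists_generic_hom δ₂ ⟨φ₂ z₂, hz₂L⟩ (hδ₂ hz₂L)
  obtain ⟨y₁, hy₁, pin₁⟩ := exists_pin φ₁ δ₁' z₁ hz₁ hz₁L hδ₁'
  obtain ⟨y₂, hy₂, pin₂⟩ := exists_pin φ₂ δ₂' z₂ hz₂ hz₂L hδ₂'
  -- the common element
  obtain ⟨a, ha, -, haL⟩ := Subgroup.exists_pow_mem_of_index_ne_zero
    (finiteIndex_comap φ₂ L₂).index_ne_zero z₁
  have hinf₀ : ∀ n : ℕ, 0 < n → (φ₁ (z₁ ^ a)) ^ n ≠ 1 := by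
    intro n hn h
    rw [← map_pow, ← pow_mul, ← map_one φ₁] at h
    have h1 := hz₁inf ((a * n : ℕ) : ℤ) (by rw [zpow_natCast]; exact hφ₁ h)
    have h2 : 0 < a * n := by positivity
    omega
  obtain ⟨P, hPgrp, β, m, u, hP, hβ, hm, hu⟩ := exists_inverting G₁ hG₁ (φ₁ (z₁ ^ a)) hinf₀
  set c : H := (z₁ ^ a) ^ m with hc
  have hcinf : ∀ k : ℤ, c ^ k = 1 → k = 0 := by
    intro k hk
    rw [hc, ← pow_mul, ← zpow_natCast, ← zpow_mul] at hk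
    have h1 := hz₁inf _ hk
    rcases mul_eq_zero.1 h1 with h | h
    · have h2 : 0 < a * m := by positivity
      omega
    · exact h
  set ζ : P := β (φ₁ c) with hζ
  have huζ : u * ζ * u⁻¹ = ζ⁻¹ := by
    rw [hζ, hc, map_pow]; exact hu
  -- numeric matching
  have := Fintype.ofFinite (G₁ ⧸ L₁)
  have := Fintype.ofFinite (G₂ ⧸ L₂)
  obtain ⟨lam, N, J, L, hJ, hL, A, ν, ν', hlam, hN, hν, hν', hA, hcount⟩ :=
    numeric_matching (G₁ ⧸ L₁) y₁ (hy₁ 1) (G₂ ⧸ L₂) y₂ hy₂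
  -- pinned subgroups
  set c' : H := c ^ lam with hc'
  have hc'inf : ∀ k : ℤ, c' ^ k = 1 → k = 0 := by
    intro k hk
    rw [hc', ← zpow_natCast, ← zpow_mul] at hk
    rcases mul_eq_zero.1 (hcinf _ hk) with h | h
    · omega
    · exact h
  have hc'1 : c' ≠ 1 := by
    intro h
    have := hc'inf 1 (by rw [h, one_zpow])
    omega
  have hc'z₁ : c' ∈ Subgroup.zpowers z₁ :=
    Subgroup.pow_mem _ (Subgroup.pow_mem _ (Subgroup.pow_mem _ (Subgroup.mem_zpowers _) _) _) _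
  have hc'z₂ : c' ∈ Subgroup.zpowers z₂ := by
    rw [← hz₂]
    exact Subgroup.pow_mem _ (Subgroup.pow_mem _ haL _) _
  obtain ⟨K₁, hKL₁, hK₁n, hK₁f, hK₁, ρ₁, hρ₁⟩ := pin₁ c' hc'z₁ hc'1
  obtain ⟨K₂, hKL₂, hK₂n, hK₂f, hK₂, ρ₂, hρ₂⟩ := pin₂ c' hc'z₂ hc'1
  have hβc' : β (φ₁ c') = ζ ^ lam := by rw [hc', map_pow, map_pow]
  have hc'K₁ : φ₁ c' ∈ K₁ := by
    have : c' ∈ K₁.comap φ₁ := by rw [hK₁]; exact Subgroup.mem_zpowers _
    exact this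
  -- the multiplicity types
  let F₁ : Type := L₁ ⧸ K₁.subgroupOf L₁
  let F₂ : Type := L₂ ⧸ K₂.subgroupOf L₂
  have hF₁ : Finite F₁ := inferInstanceAs (Finite (L₁ ⧸ K₁.subgroupOf L₁))
  have hF₂ : Finite F₂ := inferInstanceAs (Finite (L₂ ⧸ K₂.subgroupOf L₂))
  let e₁ : (G₁ ⧸ K₁) ≃ (G₁ ⧸ L₁) × F₁ := Subgroup.quotientEquivProdOfLE hKL₁
  let e₂ : (G₂ ⧸ K₂) ≃ (G₂ ⧸ L₂) × F₂ := Subgroup.quotientEquivProdOfLE hKL₂
  have he₁ : ∀ g : G₁, (e₁ (QuotientGroup.mk g)).1 = QuotientGroup.mk g := fun g => rfl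
  have he₂ : ∀ g : G₂, (e₂ (QuotientGroup.mk g)).1 = QuotientGroup.mk g := fun g => rfl
  have he₁' : ∀ (g : G₁) (b : G₁ ⧸ K₁), (e₁ (g • b)).1 = QuotientGroup.mk g * (e₁ b).1 := by
    intro g b
    induction b using QuotientGroup.induction_on with
    | H x => rfl
  have he₂' : ∀ (g : G₂) (b : G₂ ⧸ K₂), (e₂ (g • b)).1 = QuotientGroup.mk g * (e₂ b).1 := by
    intro g b
    induction b using QuotientGroup.induction_on with
    | H x => rfl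
  have he₁o : ∀ b : G₁ ⧸ K₁, (e₁ b).1 = QuotientGroup.mk b.out := by
    intro b
    conv_lhs => rw [← QuotientGroup.out_eq' b]
    rfl
  have he₂o : ∀ b : G₂ ⧸ K₂, (e₂ b).1 = QuotientGroup.mk b.out := by
    intro b
    conv_lhs => rw [← QuotientGroup.out_eq' b]
    rfl
  -- homomorphisms
  let σ : J → K₁ →* Multiplicative ℤ := fun j =>
    (∏ q : G₁ ⧸ L₁, (Dc K₁ ρ₁ q.out) ^ (A j q)) ^ (ν j)
  let S : J → G₁ ⧸ L₁ → ℤ := fun j q => ∑ g', A j g' * y₁ (q * g')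
  have hσ : ∀ (j : J) (b : G₁ ⧸ K₁) (k : K₁), (k : G₁) = b.out⁻¹ * φ₁ c' * b.out →
      Multiplicative.toAdd (σ j k) = ν j * S j (e₁ b).1 := by
    intro j b k hk
    simp only [σ, S]
    rw [MonoidHom.pow_apply, toAdd_pow, nsmul_eq_mul, MonoidHom.finsetProd_apply, toAdd_prod]
    congr 1
    apply Finset.sum_congr rfl
    intro q _
    change Multiplicative.toAdd ((Dc K₁ ρ₁ q.out k) ^ (A j q)) = _
    rw [toAdd_zpow, smul_eq_mul, Dc_apply ρ₁ q.out k (conj_mem' _ k.2)]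
    congr 1
    rw [hρ₁ (b.out * q.out) _ (by
      simp only [hk]; group)]
    congr 1
    rw [QuotientGroup.mk_mul, QuotientGroup.out_eq', he₁o]
  let h₁ : (F₂ × Fin N) ⊕ (F₂ × J) → K₁ →* P := Sum.elim
    (fun _ => β.comp K₁.subtype) (fun p => (zpowersHom P ζ).comp (σ p.2))
  let h₂ : F₁ × L → K₂ →* P := fun p => (zpowersHom P ζ).comp (ρ₂ ^ (ν' p.2))
  let t₁ : (F₂ × Fin N) ⊕ (F₂ × J) → G₁ ⧸ K₁ → ℕ := Sum.elim
    (fun _ _ => lam) (fun p b => ν p.2 * (S p.2 (e₁ b).1).natAbs)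
  let t₂ : F₁ × L → G₂ ⧸ K₂ → ℕ := fun p b => ν' p.2 * (y₂ (e₂ b).1).natAbs
  have hnabs : ∀ ε s : ℤ, (ε = 1 ∨ ε = -1) → (ε * s).natAbs = s.natAbs := by
    rintro ε s (rfl | rfl) <;> simp
  obtain ⟨Φ, hΦ, hΦP⟩ := exists_biset_iso φ₁ φ₂ h₁ h₂ c' ζ hK₁ hK₂ t₁ t₂ (by
      rintro (i | ⟨f, j⟩) x b
      · rfl
      · simp only [t₁, Sum.elim_inr]
        obtain ⟨ε, hε, hy⟩ := pin_sign φ₁ hc'inf hK₁ hρ₁ x
        have hS : S j (QuotientGroup.mk (φ₁ x) * (e₁ b).1) = ε * S j (e₁ b).1 := by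
          simp only [S, Finset.mul_sum]
          apply Finset.sum_congr rfl
          intro g' _
          rw [mul_assoc, hy]; ring
        rw [he₁', hS, hnabs ε _ hε]) (by
      rintro ⟨f, l⟩ x b
      simp only [t₂]
      obtain ⟨ε, hε, hy⟩ := pin_sign φ₂ hc'inf hK₂ hρ₂ x
      rw [he₂', hy, hnabs ε _ hε]) (by
      rintro (i | ⟨f, j⟩) b
      · refine ⟨β b.out, fun k hk => ?_⟩
        change β b.out * β k * (β b.out)⁻¹ = ζ ^ lam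
        rw [hk, ← hβc']
        simp only [map_mul, map_inv]; group
      · obtain ⟨q, hq⟩ := conj_zpow_natAbs huζ (ν j * S j (e₁ b).1)
        refine ⟨q, fun k hk => ?_⟩
        change q * ζ ^ (Multiplicative.toAdd (σ j k)) * q⁻¹ = ζ ^ (ν j * (S j (e₁ b).1).natAbs)
        rw [hσ j b k hk, hq, Int.natAbs_mul, Int.natAbs_natCast]) (by
      rintro ⟨f, l⟩ b
      obtain ⟨q, hq⟩ := conj_zpow_natAbs huζ (ν' l * y₂ (e₂ b).1)
      refine ⟨q, fun k hk => ?_⟩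
      change q * ζ ^ (Multiplicative.toAdd ((ρ₂ k) ^ (ν' l))) * q⁻¹ =
        ζ ^ (ν' l * (y₂ (e₂ b).1).natAbs)
      rw [toAdd_pow, nsmul_eq_mul, hρ₂ b.out k hk, ← he₂o, hq, Int.natAbs_mul,
        Int.natAbs_natCast]) (by
      intro τ
      have c1 := card_sum (A := G₁ ⧸ K₁) (I := F₂ × Fin N) (I' := F₂ × J)
        (fun i b => t₁ i b = τ)
      have c2 := card_mult (A := G₁ ⧸ K₁) (F := F₂) (I := Fin N)
        (fun _ _ => lam = τ)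
      have c3 := card_const (A := G₁ ⧸ K₁) (I := Fin N) lam τ
      have c4 := card_mult (A := G₁ ⧸ K₁) (F := F₂) (I := J)
        (fun j b => ν j * (S j (e₁ b).1).natAbs = τ)
      have c5 := card_prod_split e₁ (fun (j : J) q => ν j * (S j q).natAbs = τ)
      have c6 := card_mult (A := G₂ ⧸ K₂) (F := F₁) (I := L)
        (fun l b => ν' l * (y₂ (e₂ b).1).natAbs = τ)
      have c7 := card_prod_split e₂ (fun (l : L) q => ν' l * (y₂ q).natAbs = τ)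
      have c8 : Nat.card (G₁ ⧸ K₁) = Nat.card (G₁ ⧸ L₁) * Nat.card F₁ := by
        rw [← Nat.card_prod]; exact Nat.card_congr e₁
      have c9 := hcount τ
      rw [c1]
      change Nat.card {p : (F₂ × Fin N) × (G₁ ⧸ K₁) // lam = τ} +
        Nat.card {p : (F₂ × J) × (G₁ ⧸ K₁) // ν p.1.2 * (S p.1.2 (e₁ p.2).1).natAbs = τ} =
        Nat.card {p : (F₁ × L) × (G₂ ⧸ K₂) // ν' p.1.2 * (y₂ (e₂ p.2).1).natAbs = τ}
      rw [c2, c3, c4, c5, c6, c7, ← c9, Nat.card_eq_fintype_card (α := Fin N), Fintype.card_fin]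
      split_ifs with hτ
      · rw [c8]; ring
      · ring)
  have hF₂ne : Nonempty F₂ := ⟨(QuotientGroup.mk 1 : L₂ ⧸ K₂.subgroupOf L₂)⟩
  refine of_iso φ₁ φ₂ h₁ h₂ Φ hΦ hΦP hP (Sum.inl (hF₂ne.some, ⟨0, hN⟩)) ?_
  exact hβ.comp K₁.subtype_injective

/-- the matching theorem, finite case -/
theorem match_finite {H G₁ G₂ : Type} [Group H] [Group G₁] [Group G₂] [Finite H]
    (φ₁ : H →* G₁) (φ₂ : H →* G₂) (hφ₁ : Injective φ₁) (hφ₂ : Injective φ₂)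
    (hG₁ : VS G₁) (hG₂ : VS G₂) :
    ∃ (P' : Type) (_ : Group P') (α₁ : G₁ →* P') (α₂ : G₂ →* P'), VS P' ∧ Injective α₁ ∧
      ∀ x, α₁ (φ₁ x) = α₂ (φ₂ x) := by
  obtain ⟨V₁, hV₁, Γ₁, K₁, hK₁n, hK₁f, ι₁, hι₁, hev₁⟩ := hG₁.exists_ev
  obtain ⟨V₂, hV₂, Γ₂, K₂, hK₂n, hK₂f, ι₂, hι₂, hev₂⟩ := hG₂.exists_ev
  have key : ∀ {G : Type} [Group G] (φ : H →* G) (_ : Injective φ) {V : Type}
      {Γ : SimpleGraph V} (K : Subgroup G) (ι : K →* RACG Γ) (_ : Injective ι)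
      (_ : ∀ k, ι k ∈ RACG.ev Γ), K.comap φ = Subgroup.zpowers 1 := by
    intro G _ φ hφ V Γ K ι hι hev
    rw [Subgroup.zpowers_one_eq_bot, eq_bot_iff]
    intro x hx
    obtain ⟨n, hn, hn1⟩ := isOfFinOrder_iff_pow_eq_one.1 (isOfFinOrder_of_finite x)
    have h4 : (ι ⟨φ x, hx⟩) ^ (n : ℤ) = 1 := by
      rw [zpow_natCast, ← map_pow]
      have : (⟨φ x, hx⟩ : K) ^ n = 1 := by
        apply Subtype.ext
        change (φ x) ^ n = 1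
        rw [← map_pow, hn1, map_one]
      rw [this, map_one]
    have h5 := ev_torsionfree (hev _) (by omega) h4
    have h6 : (⟨φ x, hx⟩ : K) = 1 := hι (by rw [h5, map_one])
    have h7 : φ x = 1 := congrArg Subtype.val h6
    exact hφ (by rw [h7, map_one])
  have hK₁ := key φ₁ hφ₁ K₁ ι₁ hι₁ hev₁
  have hK₂ := key φ₂ hφ₂ K₂ ι₂ hι₂ hev₂
  obtain ⟨Φ, hΦ, hΦP⟩ := exists_biset_iso (P := G₁) φ₁ φ₂
    (I₁ := G₂ ⧸ K₂) (I₂ := G₁ ⧸ K₁) (fun _ => K₁.subtype) (fun _ => 1) 1 1 hK₁ hK₂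
    (fun _ _ => 0) (fun _ _ => 0) (fun _ _ _ => rfl) (fun _ _ _ => rfl) (by
      intro i b
      refine ⟨1, fun k hk => ?_⟩
      rw [map_one, mul_one, inv_mul_cancel] at hk
      have : k = 1 := Subtype.ext hk
      rw [this]; simp) (by
      intro i b
      refine ⟨1, fun k _ => ?_⟩
      simp) (by
      intro τ
      apply Nat.card_congr
      exact
        { toFun := fun p => ⟨(p.1.2, p.1.1), p.2⟩
          invFun := fun p => ⟨(p.1.2, p.1.1), p.2⟩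
          left_inv := fun p => rfl
          right_inv := fun p => rfl })
  exact of_iso φ₁ φ₂ _ _ Φ hΦ hΦP hG₁ (QuotientGroup.mk 1) K₁.subtype_injective

end Pool.Agent.H41.VS
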