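import Mathlib
import Pool.Agent.H41.VS.Defs
import Pool.Agent.H41.VS.WrNF

/-!
# Embedding of an amalgam `G₁ *_H G₂` into `Wr P (P ⧸ B)`
-/

set_option autoImplicit false

namespace Pool.Agent.H41.VS

open Function

section push

variable {G : Bool → Type} [∀ i, Group (G i)] {P : Type} [Group P]

/-- image of a letter -/
def pushLetter (X : Type) [MulAction P X] (x₀ : X) (α : ∀ i, G i →* P) :
    (Σ i, G i) → Wr P X
  | ⟨true, g⟩ => Wr.base X (α true g)
  | ⟨false, g⟩ => Wr.gen x₀ * Wr.base X (α false g) * Wr.gen x₀

theorem Wr.gen_mul_gen {P X : Type} [Group P] [MulAction P X] (x : X) :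
    (Wr.gen x : Wr P X) * Wr.gen x = 1 := by
  apply SemidirectProduct.ext
  · simp [Wr.gen]
  · simp [Wr.gen]

theorem push_word (X : Type) [MulAction P X] (x₀ : X) (α : ∀ i, G i →* P)
    (a : Σ i, G i) (L : List (Σ i, G i))
    (hL : ((a :: L).map Sigma.fst).IsChain (· ≠ ·))
    (hX : ∀ b ∈ a :: L, α b.1 b.2 • x₀ ≠ x₀) :
    ∃ (p : P) (l : List P), ((a :: L).map (pushLetter X x₀ α)).prod = wrWord x₀ p l ∧
      (∀ h ∈ l.dropLast, h • x₀ ≠ x₀) ∧ (a.1 = true → p • x₀ ≠ x₀) ∧
      (a.1 = false → p = 1 ∧ l ≠ []) := by
  induction L generalizing a with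
  | nil =>
    obtain ⟨i, g⟩ := a
    cases i with
    | true =>
      refine ⟨α true g, [], ?_, by simp, fun _ => hX ⟨true, g⟩ (by simp), by simp⟩
      simp [pushLetter, wrWord_nil]
    | false =>
      refine ⟨1, [α false g, 1], ?_, ?_, by simp, by simp⟩
      · simp [pushLetter, wrWord, mul_assoc]
      · intro h hh
        have : h = α false g := by simpa using hh
        subst this
        exact hX ⟨false, g⟩ (by simp)
  | cons b L ih =>
    have hL' : ((b :: L).map Sigma.fst).IsChain (· ≠ ·) := by
      rw [List.map_cons, List.map_cons, List.isChain_cons_cons] at hL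
      exact hL.2
    have hab : a.1 ≠ b.1 := by
      rw [List.map_cons, List.map_cons, List.isChain_cons_cons] at hL
      exact hL.1
    obtain ⟨p, l, h1, h2, h3, h4⟩ := ih b hL' (fun c hc => hX c (List.mem_cons_of_mem _ hc))
    obtain ⟨i, g⟩ := a
    rw [List.map_cons, List.prod_cons, h1]
    cases i with
    | true =>
      have hb : b.1 = false := by
        have : b.1 ≠ true := fun h => hab h.symm
        simpa using this
      obtain ⟨rfl, hl⟩ := h4 hb
      refine ⟨α true g, l, ?_, h2, fun _ => hX ⟨true, g⟩ (by simp), by simp⟩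
      simp [pushLetter, wrWord]
    | false =>
      have hb : b.1 = true := by
        have : b.1 ≠ false := fun h => hab h.symm
        simpa using this
      refine ⟨1, α false g :: p :: l, ?_, ?_, by simp, by simp⟩
      · simp [pushLetter, wrWord, mul_assoc]
      · intro h hh
        have hg : α false g • x₀ ≠ x₀ := hX ⟨false, g⟩ (by simp)
        cases l with
        | nil =>
          have : h = α false g := by simpa using hh
          subst this
          exact hg
        | cons c l =>
          simp only [List.dropLast_cons_cons, List.mem_cons] at hh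
          rcases hh with rfl | rfl | hh
          · exact hg
          · exact h3 hb
          · exact h2 h hh

end push

theorem pushout_embed (G : Bool → Type) [∀ i, Group (G i)] (H : Type) [Group H]
    (φ : ∀ i, H →* G i) (hφ : ∀ i, Injective (φ i)) (P : Type) [Group P]
    (α : ∀ i, G i →* P) (hα : ∀ i, Injective (α i))
    (hag : (α false).comp (φ false) = (α true).comp (φ true)) :
    ∃ F : Monoid.PushoutI φ →* Wr P (P ⧸ ((α true).comp (φ true)).range), Injective F := by
  set β : H →* P := (α true).comp (φ true) with hβ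
  have hβi : ∀ i h, α i (φ i h) = β h := by
    intro i h
    cases i with
    | true => rfl
    | false => exact DFunLike.congr_fun hag h
  have hβinj : Injective β := (hα true).comp (hφ true)
  let X : Type := P ⧸ β.range
  let x₀ : X := ((1 : P) : P ⧸ β.range)
  have hfix : ∀ p : P, p • x₀ = x₀ ↔ p ∈ β.range := by
    intro p
    change (((p • (1 : P)) : P) : P ⧸ β.range) = ((1 : P) : P ⧸ β.range) ↔ _
    rw [eq_comm, QuotientGroup.eq]
    simp
  have hcomm : ∀ h : H, Wr.gen x₀ * Wr.base X (β h) * Wr.gen x₀ = Wr.base X (β h) := by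
    intro h
    rw [mul_assoc, Wr.base_mul_gen, (hfix (β h)).2 ⟨h, rfl⟩, ← mul_assoc, Wr.gen_mul_gen,
      one_mul]
  let f : ∀ i, G i →* Wr P X := fun i =>
    match i with
    | true => (Wr.base X).comp (α true)
    | false =>
      { toFun := fun g => Wr.gen x₀ * Wr.base X (α false g) * Wr.gen x₀
        map_one' := by
          rw [map_one, map_one, mul_one, Wr.gen_mul_gen]
        map_mul' := by
          intro a b
          rw [map_mul, map_mul]
          have h1 := Wr.gen_mul_gen (P := P) x₀
          calc Wr.gen x₀ * (Wr.base X (α false a) * Wr.base X (α false b)) * Wr.gen x₀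
              = Wr.gen x₀ * Wr.base X (α false a) * 1 * Wr.base X (α false b) * Wr.gen x₀ := by
                simp only [mul_one, mul_assoc]
            _ = _ := by rw [← h1]; simp only [mul_assoc] }
  have hf : ∀ i, (f i).comp (φ i) = (Wr.base X).comp β := by
    intro i
    ext1 h
    cases i with
    | true => rfl
    | false =>
      change Wr.gen x₀ * Wr.base X (α false (φ false h)) * Wr.gen x₀ = Wr.base X (β h)
      rw [hβi, hcomm]
  have hfl : ∀ a : Σ i, G i, f a.1 a.2 = pushLetter X x₀ α a := by
    rintro ⟨i, g⟩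
    cases i <;> rfl
  let F : Monoid.PushoutI φ →* Wr P X := Monoid.PushoutI.lift f ((Wr.base X).comp β) hf
  refine ⟨F, ?_⟩
  rw [injective_iff_map_eq_one]
  intro x hx
  classical
  obtain ⟨d⟩ := Monoid.PushoutI.NormalWord.transversal_nonempty φ hφ
  obtain ⟨w, rfl⟩ : ∃ w : Monoid.PushoutI.NormalWord d, w.prod = x :=
    ⟨Monoid.PushoutI.NormalWord.equiv x, Monoid.PushoutI.NormalWord.equiv.symm_apply_apply x⟩
  -- letters are outside the range
  have hrange : ∀ a ∈ w.toList, a.2 ∉ (φ a.1).range := by
    rintro ⟨i, g⟩ hg hmem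
    have h1 := w.normalized i g hg
    have h2 := w.ne_one _ hg
    apply h2
    have h3 := (d.compl i).1
    have h4 := @h3 (⟨g, hmem⟩, ⟨1, d.one_mem i⟩) (⟨1, one_mem _⟩, ⟨g, h1⟩) (by simp)
    have h5 := congrArg (fun p => ((p.2 : d.set i) : G i)) h4
    simpa using h5.symm
  have hlet : ∀ a ∈ w.toList, α a.1 a.2 • x₀ ≠ x₀ := by
    intro a ha h
    rw [hfix] at h
    obtain ⟨h', hh'⟩ := h
    rw [← hβi a.1 h'] at hh'
    exact hrange a ha ⟨h', hα a.1 hh'⟩
  have hFw : F w.prod = Wr.base X (β w.head) * ((w.toList).map (pushLetter X x₀ α)).prod := by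
    rw [Monoid.PushoutI.NormalWord.prod, map_mul]
    refine congrArg₂ (· * ·) (Monoid.PushoutI.lift_base f _ hf w.head) ?_
    · rw [Monoid.CoprodI.Word.prod, map_list_prod, map_list_prod, List.map_map, List.map_map]
      congr 1
      apply List.map_congr_left
      intro a _
      rw [← hfl]
      simp only [Function.comp]
      rw [Monoid.PushoutI.ofCoprodI_of]
      exact Monoid.PushoutI.lift_of _ _ _ _
  rw [hFw] at hx
  rcases hw : w.toList with _ | ⟨a, L⟩
  · rw [hw, List.map_nil, List.prod_nil, mul_one] at hx
    have h1 : β w.head = 1 := by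
      have := congrArg SemidirectProduct.right hx
      simpa [Wr.base] using this
    have h2 : w.head = 1 := hβinj (by rw [h1, map_one])
    have h3 : w = Monoid.PushoutI.NormalWord.empty := by
      apply Monoid.PushoutI.NormalWord.ext
      · rw [h2]; rfl
      · rw [hw]; rfl
    rw [h3, Monoid.PushoutI.NormalWord.prod_empty]
  · exfalso
    have hch := w.chain_ne
    rw [hw] at hch hx hlet
    obtain ⟨p, l, h1, h2, h3, h4⟩ := push_word X x₀ α a L
      ((List.isChain_map _).2 hch) hlet
    rw [h1] at hx
    have h5 : wrWord x₀ p l = Wr.base X ((β w.head)⁻¹) := by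
      rw [map_inv]
      exact eq_inv_of_mul_eq_one_right hx
    by_cases hl : l = []
    · have ha : a.1 = true := by
        by_contra hne
        exact (h4 (by simpa using hne)).2 hl
      subst hl
      rw [wrWord_nil] at h5
      have h6 : p = (β w.head)⁻¹ := by
        have := congrArg SemidirectProduct.right h5
        simpa [Wr.base] using this
      apply h3 ha
      rw [hfix, h6]
      exact β.range.inv_mem ⟨w.head, rfl⟩
    · exact wrWord_not_mem_base x₀ p l hl h2 _ h5

end Pool.Agent.H41.VS
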