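import Mathlib
import Pool.Agent.H41.VS.Defs

/-!
# Right-angled Artin groups and right-angled Coxeter groups

Every right-angled Artin group embeds in a right-angled Coxeter group, and the kernel of the
map `RACG Γ → (Z/2)^V` embeds in the right-angled Artin group of `Γ`.
-/

set_option autoImplicit false

namespace Pool.Agent.H41.VS

open Function

/-- relations of the right-angled Artin group of `Γ` -/
def raagRels {V : Type*} (Γ : SimpleGraph V) : Set (FreeGroup V) :=
  {r | ∃ u v, Γ.Adj u v ∧
         r = FreeGroup.of u * FreeGroup.of v * (FreeGroup.of u)⁻¹ * (FreeGroup.of v)⁻¹}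

/-- right-angled Artin group -/
abbrev RAAG {V : Type*} (Γ : SimpleGraph V) : Type _ := PresentedGroup (raagRels Γ)

namespace RAAG

variable {V : Type*} {Γ : SimpleGraph V}

/-- generators -/
def of (Γ : SimpleGraph V) (v : V) : RAAG Γ := PresentedGroup.of v

theorem commute_of_adj {u v : V} (h : Γ.Adj u v) : Commute (of Γ u) (of Γ v) := by
  have h1 : (PresentedGroup.mk (raagRels Γ))
      (FreeGroup.of u * FreeGroup.of v * (FreeGroup.of u)⁻¹ * (FreeGroup.of v)⁻¹) = 1 :=
    (PresentedGroup.one_of_mem ⟨u, v, h, rfl⟩)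
  have h2 : of Γ u * of Γ v * (of Γ u)⁻¹ * (of Γ v)⁻¹ = 1 := by
    rw [map_mul, map_mul, map_mul, map_inv, map_inv] at h1
    exact h1
  rw [mul_inv_eq_one, mul_inv_eq_iff_eq_mul] at h2
  exact h2

/-- universal property -/
def lift {G : Type*} [Group G] (f : V → G)
    (hc : ∀ u v, Γ.Adj u v → f u * f v = f v * f u) : RAAG Γ →* G :=
  PresentedGroup.toGroup (f := f) (rels := raagRels Γ) (by
    rintro r ⟨u, v, h, rfl⟩
    simp only [map_mul, map_inv, FreeGroup.lift_apply_of]
    rw [hc u v h]; group)

@[simp] theorem lift_of {G : Type*} [Group G] (f : V → G)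
    (hc : ∀ u v, Γ.Adj u v → f u * f v = f v * f u) (v : V) :
    lift (Γ := Γ) f hc (of Γ v) = f v :=
  PresentedGroup.toGroup.of _

theorem hom_ext {G : Type*} [Group G] {f g : RAAG Γ →* G}
    (h : ∀ v, f (of Γ v) = g (of Γ v)) : f = g := by
  apply PresentedGroup.ext
  exact h

/-- the endomorphism raising the generator `v` to the power `s v = ±1` -/
def sgnHom (Γ : SimpleGraph V) (s : V → ℤˣ) : RAAG Γ →* RAAG Γ :=
  lift (fun v => of Γ v ^ (s v : ℤ)) (fun _ _ h => ((commute_of_adj h).zpow_zpow _ _).eq)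

@[simp] theorem sgnHom_of (s : V → ℤˣ) (v : V) : sgnHom Γ s (of Γ v) = of Γ v ^ (s v : ℤ) :=
  lift_of _ _ _

theorem sgnHom_comp (s t : V → ℤˣ) : (sgnHom Γ s).comp (sgnHom Γ t) = sgnHom Γ (s * t) := by
  apply hom_ext
  intro v
  simp only [MonoidHom.comp_apply, sgnHom_of, map_zpow, Pi.mul_apply, Units.val_mul, zpow_mul]

theorem sgnHom_one : sgnHom Γ 1 = MonoidHom.id _ := by
  apply hom_ext
  intro v
  simp

/-- the action of the sign group on the right-angled Artin group -/
def sgn (Γ : SimpleGraph V) : (V → ℤˣ) →* MulAut (RAAG Γ) where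
  toFun s := MonoidHom.toMulEquiv (sgnHom Γ s) (sgnHom Γ s⁻¹)
    (by rw [sgnHom_comp, inv_mul_cancel, sgnHom_one])
    (by rw [sgnHom_comp, mul_inv_cancel, sgnHom_one])
  map_one' := by
    apply MulEquiv.toMonoidHom_injective
    exact sgnHom_one
  map_mul' s t := by
    apply MulEquiv.toMonoidHom_injective
    exact (sgnHom_comp s t).symm

theorem sgn_of (s : V → ℤˣ) (v : V) : sgn Γ s (of Γ v) = of Γ v ^ (s v : ℤ) :=
  sgnHom_of s v

/-- the doubled graph -/
def dbl (Γ : SimpleGraph V) : SimpleGraph (V × Bool) where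
  Adj p q := Γ.Adj p.1 q.1
  symm := ⟨fun _ _ h => h.symm⟩
  loopless := ⟨fun p h => Γ.loopless.irrefl p.1 h⟩

/-- embedding of the Artin group in a Coxeter group -/
def toRACG (Γ : SimpleGraph V) : RAAG Γ →* RACG (dbl Γ) :=
  lift (fun v => RACG.of _ (v, false) * RACG.of _ (v, true)) (fun u v h => by
    have h1 : ∀ i j, Commute (RACG.of (dbl Γ) (u, i)) (RACG.of (dbl Γ) (v, j)) :=
      fun i j => RACG.commute_of_adj h
    exact ((h1 false false).mul_right (h1 false true)).mul_left
      ((h1 true false).mul_right (h1 true true)))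

open Classical in
theorem pi_sq (v : V) : (Pi.mulSingle v (-1) : V → ℤˣ) * Pi.mulSingle v (-1) = 1 := by
  rw [← Pi.mulSingle_mul]; simp

open Classical in
/-- auxiliary map from the Coxeter group of the doubled graph -/
noncomputable def fromRACG (Γ : SimpleGraph V) : RACG (dbl Γ) →* (RAAG Γ) ⋊[sgn Γ] (V → ℤˣ) :=
  RACG.lift (fun p => ⟨if p.2 then 1 else of Γ p.1, Pi.mulSingle p.1 (-1)⟩)
    (by
      rintro ⟨v, i⟩
      apply SemidirectProduct.ext
      · cases i
        · simp [sgn_of]
        · simp
      · exact pi_sq v)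
    (by
      rintro ⟨u, i⟩ ⟨v, j⟩ h
      have h' : Γ.Adj u v := h
      have hne : u ≠ v := h'.ne
      have c := (commute_of_adj h').eq
      apply SemidirectProduct.ext
      · cases i <;> cases j <;>
          simp [sgn_of, Pi.mulSingle_eq_of_ne hne, Pi.mulSingle_eq_of_ne hne.symm, c]
      · exact mul_comm _ _)

theorem fromRACG_comp : (fromRACG Γ).comp (toRACG Γ) = SemidirectProduct.inl := by
  classical
  apply hom_ext
  intro v
  apply SemidirectProduct.ext
  · simp [toRACG, fromRACG]
  · simp only [MonoidHom.comp_apply, toRACG, fromRACG, lift_of, map_mul, RACG.lift_of,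
      SemidirectProduct.mul_right, SemidirectProduct.right_inl]
    exact pi_sq v

theorem toRACG_injective : Injective (toRACG Γ) := by
  have h : Injective ((fromRACG Γ).comp (toRACG Γ)) := by
    rw [fromRACG_comp]; exact SemidirectProduct.inl_injective
  exact Injective.of_comp (f := fromRACG Γ) h

open Classical in
/-- the map `RACG Γ → RAAG Γ ⋊ {±1}^V` -/
noncomputable def twist (Γ : SimpleGraph V) : RACG Γ →* (RAAG Γ) ⋊[sgn Γ] (V → ℤˣ) :=
  RACG.lift (fun v => ⟨of Γ v, Pi.mulSingle v (-1)⟩)
    (by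
      intro v
      apply SemidirectProduct.ext
      · simp [sgn_of]
      · exact pi_sq v)
    (by
      intro u v h
      have hne : u ≠ v := h.ne
      have c := (commute_of_adj h).eq
      apply SemidirectProduct.ext
      · simp [sgn_of, Pi.mulSingle_eq_of_ne hne, Pi.mulSingle_eq_of_ne hne.symm, c]
      · exact mul_comm _ _)

/-- the type map -/
def typ (Γ : SimpleGraph V) : RAAG Γ →* RACG Γ :=
  lift (fun v => RACG.of Γ v) (fun _ _ h => (RACG.commute_of_adj h).eq)

theorem typ_sgn (s : V → ℤˣ) (x : RAAG Γ) : typ Γ (sgn Γ s x) = typ Γ x := by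
  have h : (typ Γ).comp (sgn Γ s).toMonoidHom = typ Γ := by
    apply hom_ext
    intro v
    simp only [MonoidHom.comp_apply, MulEquiv.coe_toMonoidHom, sgn_of, map_zpow]
    rcases Int.units_eq_one_or (s v) with h | h
    · simp [h]
    · simp [h, typ]
  exact DFunLike.congr_fun h x

theorem typ_twist (x : RACG Γ) : typ Γ (twist Γ x).left = x := by
  induction x using RACG.induction_on with
  | one => simp
  | mul v x ih =>
    rw [map_mul, SemidirectProduct.mul_left, map_mul, typ_sgn, ih]
    simp [twist, typ]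

/-- the kernel of the map to the sign group -/
noncomputable def evK (Γ : SimpleGraph V) : Subgroup (RACG Γ) :=
  (SemidirectProduct.rightHom.comp (twist Γ)).ker

theorem mem_evK {x : RACG Γ} : x ∈ evK Γ ↔ (twist Γ x).right = 1 := Iff.rfl

/-- the embedding of the even subgroup in the Artin group -/
noncomputable def evHom (Γ : SimpleGraph V) : evK Γ →* RAAG Γ where
  toFun x := (twist Γ x).left
  map_one' := by simp
  map_mul' x y := by
    have hx : (twist Γ x).right = 1 := mem_evK.1 x.2
    rw [Subgroup.coe_mul, map_mul, SemidirectProduct.mul_left, hx, map_one]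
    rfl

theorem evHom_injective : Injective (evHom Γ) := by
  intro x y h
  apply Subtype.ext
  have h2 := congrArg (typ Γ) h
  change typ Γ (twist Γ x).left = typ Γ (twist Γ y).left at h2
  rwa [typ_twist, typ_twist] at h2

theorem evK_finiteIndex [Finite V] : (evK Γ).FiniteIndex := by
  unfold evK
  infer_instance

end RAAG

/-! module RAAG -/
theorem vs_of_raag (G : Type) [Group G]
    (h : ∃ (n : ℕ) (Γ : SimpleGraph (Fin n)) (K : Subgroup G),
        K.index ≠ 0 ∧
        ∃ f : K →* PresentedGroup
            {r : FreeGroup (Fin n) | ∃ u v : Fin n, Γ.Adj u v ∧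
              r = FreeGroup.of u * FreeGroup.of v * (FreeGroup.of u)⁻¹ * (FreeGroup.of v)⁻¹},
          Function.Injective f) : VS G := by
  obtain ⟨n, Γ, K, hK, f, hf⟩ := h
  refine ⟨Fin n × Bool, inferInstance, RAAG.dbl Γ, K, ⟨hK⟩, (RAAG.toRACG Γ).comp f, ?_⟩
  exact RAAG.toRACG_injective.comp hf

theorem raag_of_vs (G : Type) [Group G] (h : VS G) :
    ∃ (n : ℕ) (Γ : SimpleGraph (Fin n)) (K : Subgroup G),
        K.index ≠ 0 ∧
        ∃ f : K →* PresentedGroup
            {r : FreeGroup (Fin n) | ∃ u v : Fin n, Γ.Adj u v ∧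
              r = FreeGroup.of u * FreeGroup.of v * (FreeGroup.of u)⁻¹ * (FreeGroup.of v)⁻¹},
          Function.Injective f := by
  obtain ⟨V, hV, Γ, K, hK, f, hf⟩ := h
  let e : V ≃ Fin (Nat.card V) := Finite.equivFin V
  let Γ' : SimpleGraph (Fin (Nat.card V)) := Γ.comap e.symm
  let m : RACG Γ →* RACG Γ' := RACG.map e (fun u v h => by simpa [Γ'] using h)
  let m' : RACG Γ' →* RACG Γ := RACG.map e.symm (fun u v h => by simpa [Γ'] using h)
  have hm : m'.comp m = MonoidHom.id _ := by
    apply RACG.hom_ext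
    intro v
    simp [m, m']
  have hmi : Injective m := by
    have : Injective (m'.comp m) := by rw [hm]; exact injective_id
    exact Injective.of_comp (f := m') this
  let g : K →* RACG Γ' := m.comp f
  have hg : Injective g := hmi.comp hf
  have hfi : (RAAG.evK Γ').FiniteIndex := RAAG.evK_finiteIndex
  have hfi2 : ((RAAG.evK Γ').comap g).FiniteIndex := by
    have : Finite (V → ℤˣ) := inferInstance
    have h0 : (RAAG.evK Γ').comap g =
        (SemidirectProduct.rightHom.comp ((RAAG.twist Γ').comp g)).ker := rfl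
    rw [h0]
    infer_instance
  let K' : Subgroup G := ((RAAG.evK Γ').comap g).map K.subtype
  refine ⟨_, Γ', K', ?_, ?_⟩
  · have h1 : K'.index = ((RAAG.evK Γ').comap g).index * K.index := by
      rw [Subgroup.index_map_subtype]
    rw [h1]
    exact mul_ne_zero hfi2.index_ne_zero hK.index_ne_zero
  · let e2 : ((RAAG.evK Γ').comap g) ≃* K' :=
      ((RAAG.evK Γ').comap g).equivMapOfInjective K.subtype K.subtype_injective
    let g2 : ((RAAG.evK Γ').comap g) →* RAAG.evK Γ' := g.subgroupComap (RAAG.evK Γ')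
    have hg2 : Injective g2 := by
      intro x y hxy
      apply Subtype.ext
      apply hg
      exact congrArg Subtype.val hxy
    refine ⟨(RAAG.evHom Γ').comp (g2.comp e2.symm.toMonoidHom), ?_⟩
    exact RAAG.evHom_injective.comp (hg2.comp e2.symm.injective)

end Pool.Agent.H41.VS
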