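import Mathlib
import Pool.Agent.H41.VS.Defs
import Pool.Agent.H41.VS.Pi

/-!
# Permutational wreath products over good subgroups are virtually special
-/

set_option autoImplicit false

namespace Pool.Agent.H41.VS

open Function

section Ext

/-! ### adding pairwise non-adjacent vertices with prescribed neighbourhoods -/

variable {W T : Type*}

/-- the graph `Δ` with new vertices `t : T`, pairwise non-adjacent, `t` adjacent to `N t ⊆ Δ` -/
def ExtG (Δ : SimpleGraph W) (N : T → Set W) : SimpleGraph (W ⊕ T) where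
  Adj x y := match x, y with
    | Sum.inl u, Sum.inl v => Δ.Adj u v
    | Sum.inl u, Sum.inr t => u ∈ N t
    | Sum.inr t, Sum.inl u => u ∈ N t
    | Sum.inr _, Sum.inr _ => False
  symm := ⟨by
    rintro (u | t) (v | t') h
    · exact SimpleGraph.Adj.symm (G := Δ) h
    · exact h
    · exact h
    · exact h⟩
  loopless := ⟨by
    rintro (u | t) h
    · exact Δ.irrefl h
    · exact h⟩

variable {Δ : SimpleGraph W} {N : T → Set W}

/-- inclusion of the old group -/
def extInc (Δ : SimpleGraph W) (N : T → Set W) : RACG Δ →* RACG (ExtG Δ N) :=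
  RACG.map Sum.inl (fun _ _ h => h)

@[simp] theorem extInc_of (v : W) : extInc Δ N (RACG.of _ v) = RACG.of _ (Sum.inl v) :=
  RACG.map_of _ _ _

/-- the `RACG Δ`-set of cosets -/
abbrev CosX (Δ : SimpleGraph W) (N : T → Set W) : Type _ :=
  Σ t : T, RACG Δ ⧸ RACG.par Δ (N t)

theorem cosX_smul (g : RACG Δ) (t : T) (x : RACG Δ ⧸ RACG.par Δ (N t)) :
    g • (⟨t, x⟩ : CosX Δ N) = ⟨t, g • x⟩ := rfl

theorem wr_base_gen {G X : Type*} [Group G] [MulAction G X] (g : G) (x : X) :
    Wr.base X g * Wr.gen x * (Wr.base X g)⁻¹ = Wr.gen (g • x) := by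
  rw [← map_inv]
  apply SemidirectProduct.ext
  · simp [Wr.base, Wr.gen]
  · simp [Wr.base, Wr.gen]

theorem wr_gen_mul_self {G X : Type*} [Group G] [MulAction G X] (x : X) :
    (Wr.gen x : Wr G X) * Wr.gen x = 1 := by
  apply SemidirectProduct.ext
  · simp [Wr.gen]
  · simp [Wr.gen]

/-- the comparison map to the wreath product -/
def extToWr (Δ : SimpleGraph W) (N : T → Set W) :
    RACG (ExtG Δ N) →* Wr (RACG Δ) (CosX Δ N) :=
  RACG.lift (fun x => match x with
      | Sum.inl v => Wr.base _ (RACG.of Δ v)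
      | Sum.inr t => Wr.gen ⟨t, ((1 : RACG Δ) : RACG Δ ⧸ RACG.par Δ (N t))⟩)
    (by
      rintro (v | t)
      · simp only [← map_mul, RACG.of_mul_self, map_one]
      · exact wr_gen_mul_self _)
    (by
      have key : ∀ (v : W) (t : T), v ∈ N t →
          Wr.base (CosX Δ N) (RACG.of Δ v) *
            Wr.gen (⟨t, ((1 : RACG Δ) : RACG Δ ⧸ RACG.par Δ (N t))⟩ : CosX Δ N) =
          Wr.gen (⟨t, ((1 : RACG Δ) : RACG Δ ⧸ RACG.par Δ (N t))⟩ : CosX Δ N) *
            Wr.base (CosX Δ N) (RACG.of Δ v) := by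
        intro v t h
        rw [← mul_inv_eq_iff_eq_mul, wr_base_gen, cosX_smul]
        have : RACG.of Δ v • ((1 : RACG Δ) : RACG Δ ⧸ RACG.par Δ (N t)) =
            ((1 : RACG Δ) : RACG Δ ⧸ RACG.par Δ (N t)) := by
          rw [MulAction.Quotient.smul_coe, smul_eq_mul, mul_one, eq_comm, QuotientGroup.eq]
          simpa using RACG.of_mem_par h
        rw [this]
      rintro (u | t) (v | t') h
      · have h' : Δ.Adj u v := h
        simp only [← map_mul, (RACG.commute_of_adj h').eq]
      · exact key u t' h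
      · exact (key v t h).symm
      · exact h.elim)

@[simp] theorem extToWr_inl (v : W) :
    extToWr Δ N (RACG.of _ (Sum.inl v)) = Wr.base _ (RACG.of Δ v) := RACG.lift_of _ _ _ _

@[simp] theorem extToWr_inr (t : T) :
    extToWr Δ N (RACG.of _ (Sum.inr t)) =
      Wr.gen ⟨t, ((1 : RACG Δ) : RACG Δ ⧸ RACG.par Δ (N t))⟩ := RACG.lift_of _ _ _ _

theorem extToWr_inc (x : RACG Δ) : extToWr Δ N (extInc Δ N x) = Wr.base _ x := by
  have : (extToWr Δ N).comp (extInc Δ N) = Wr.base _ := by
    apply RACG.hom_ext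
    intro v
    simp
  exact DFunLike.congr_fun this x

end Ext

/-- an injection of vertices of empty graphs induces an injection -/
theorem map_bot_injective {X Y : Type*} (θ : X → Y) (hθ : Injective θ)
    (h : ∀ u v, (⊥ : SimpleGraph X).Adj u v → (⊥ : SimpleGraph Y).Adj (θ u) (θ v)) :
    Injective (RACG.map θ h) := by
  classical
  let r : RACG (⊥ : SimpleGraph Y) →* RACG (⊥ : SimpleGraph X) :=
    RACG.lift (fun y => if hy : ∃ x, θ x = y then RACG.of _ hy.choose else 1)
      (fun y => by split_ifs <;> simp) (fun _ _ h => h.elim)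
  have : r.comp (RACG.map θ h) = MonoidHom.id _ := by
    apply RACG.hom_ext
    intro v
    have hv : ∃ x, θ x = θ v := ⟨v, rfl⟩
    simp only [MonoidHom.comp_apply, RACG.map_of, MonoidHom.id_apply, r, RACG.lift_of]
    rw [dif_pos hv, hθ hv.choose_spec]
  have h2 : LeftInverse r (RACG.map θ h) := fun x => DFunLike.congr_fun this x
  exact h2.injective

section Main

/-- core: `H` acts on `X` with finitely many orbits; `Φ : H → RACG Δ` injective, point
stabilizers are preimages of parabolics. -/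
theorem wr_embed (P : Type) [Group P] (X : Type) [MulAction P X] (H : Subgroup P)
    (T : Type) (x₀ : T → X) (W : Type) (Δ : SimpleGraph W) (N : T → Set W)
    (Φ : H →* RACG Δ) (hΦ : Injective Φ)
    (cls : X → T) (rep : X → H) (hrep : ∀ x, rep x • x₀ (cls x) = x)
    (hcls : ∀ (h : H) (x : X), cls (h • x) = cls x)
    (hst : ∀ (h : H) (t : T), Φ h ∈ RACG.par Δ (N t) ↔ h • x₀ t = x₀ t) :
    ∃ f : (H.comap (SemidirectProduct.rightHom : Wr P X →* P)) →* RACG (ExtG Δ N),
      Injective f := by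
  classical
  let K : Subgroup (Wr P X) := H.comap (SemidirectProduct.rightHom : Wr P X →* P)
  let Φ' : H →* RACG (ExtG Δ N) := (extInc Δ N).comp Φ
  -- the generators
  let a : X → RACG (ExtG Δ N) := fun x =>
    Φ' (rep x) * RACG.of _ (Sum.inr (cls x)) * (Φ' (rep x))⁻¹
  have ha2 : ∀ x, a x * a x = 1 := by
    intro x
    simp only [a]
    have : ∀ g t : RACG (ExtG Δ N), t * t = 1 → (g * t * g⁻¹) * (g * t * g⁻¹) = 1 := by
      intro g t h
      have : (g * t * g⁻¹) * (g * t * g⁻¹) = g * (t * t) * g⁻¹ := by group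
      rw [this, h]; group
    exact this _ _ (RACG.of_mul_self _)
  let α : RACG (⊥ : SimpleGraph X) →* RACG (ExtG Δ N) :=
    RACG.lift a ha2 (fun _ _ h => h.elim)
  -- commutation with the parabolic
  have hcomm : ∀ (t : T) (g : RACG Δ), g ∈ RACG.par Δ (N t) →
      Commute (extInc Δ N g) (RACG.of (ExtG Δ N) (Sum.inr t)) := by
    intro t g hg
    induction hg using Subgroup.closure_induction with
    | mem x hx =>
      obtain ⟨v, hv, rfl⟩ := hx
      rw [extInc_of]
      exact RACG.commute_of_adj hv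
    | one => rw [map_one]; exact Commute.one_left _
    | mul x y _ _ ihx ihy => rw [map_mul]; exact ihx.mul_left ihy
    | inv x _ ih => rw [map_inv]; exact ih.inv_left
  -- equivariance of a
  have ha : ∀ (h : H) (x : X), a (h • x) = Φ' h * a x * (Φ' h)⁻¹ := by
    intro h x
    have e1 : rep (h • x) • x₀ (cls x) = h • x := by
      have := hrep (h • x)
      rwa [hcls] at this
    have e2 : ((h * rep x)⁻¹ * rep (h • x)) • x₀ (cls x) = x₀ (cls x) := by
      rw [mul_smul, e1, inv_smul_eq_iff, mul_smul, hrep]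
    have e3 := hcomm _ _ ((hst _ _).2 e2)
    have e4 : Φ' (rep (h • x)) = Φ' h * Φ' (rep x) *
        extInc Δ N (Φ ((h * rep x)⁻¹ * rep (h • x))) := by
      have : Φ' h * Φ' (rep x) * Φ' ((h * rep x)⁻¹ * rep (h • x)) = Φ' (rep (h • x)) := by
        rw [← map_mul, ← map_mul]
        congr 1
        group
      exact this.symm
    simp only [a, hcls]
    rw [e4]
    generalize extInc Δ N (Φ ((h * rep x)⁻¹ * rep (h • x))) = c at e3
    generalize RACG.of (ExtG Δ N) (Sum.inr (cls x)) = t at e3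
    have e5 : c * t * c⁻¹ = t := by rw [e3.eq]; group
    calc (Φ' h * Φ' (rep x) * c) * t * (Φ' h * Φ' (rep x) * c)⁻¹
        = Φ' h * (Φ' (rep x) * (c * t * c⁻¹) * (Φ' (rep x))⁻¹) * (Φ' h)⁻¹ := by group
      _ = _ := by rw [e5]
  have hα : ∀ (h : H) (u : RACG (⊥ : SimpleGraph X)),
      α (RACG.act P (⊥ : SimpleGraph X) (bot_inv P X) (h : P) u) =
        Φ' h * α u * (Φ' h)⁻¹ := by
    intro h u
    induction u using RACG.induction_on with
    | one => simp
    | mul v x ih =>
      rw [map_mul, map_mul, ih, map_mul]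
      have : α (RACG.act P (⊥ : SimpleGraph X) (bot_inv P X) (h : P) (RACG.of _ v)) =
          Φ' h * α (RACG.of _ v) * (Φ' h)⁻¹ := by
        rw [RACG.act_of]
        simp only [α, RACG.lift_of]
        exact ha h v
      rw [this]
      group
  have hmem : ∀ w : K, w.1.right ∈ H := fun w => w.2
  let F : K →* RACG (ExtG Δ N) :=
    { toFun := fun w => α w.1.left * Φ' ⟨w.1.right, hmem w⟩
      map_one' := by
        have : (⟨(1 : K).1.right, hmem 1⟩ : H) = 1 := rfl
        rw [this, map_one, mul_one]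
        have : (1 : K).1.left = 1 := rfl
        rw [this, map_one]
      map_mul' := by
        intro w w'
        have e1 : (w * w').1.left = w.1.left *
            RACG.act P (⊥ : SimpleGraph X) (bot_inv P X) w.1.right w'.1.left := rfl
        have e2 : (⟨(w * w').1.right, hmem (w * w')⟩ : H) =
            ⟨w.1.right, hmem w⟩ * ⟨w'.1.right, hmem w'⟩ := rfl
        have e3 := hα ⟨w.1.right, hmem w⟩ w'.1.left
        change α ((w * w').1.left) * Φ' ⟨(w * w').1.right, hmem (w * w')⟩ = _
        rw [e1, e2, map_mul, map_mul, e3]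
        group }
  refine ⟨F, ?_⟩
  -- injectivity
  let θ : X → CosX Δ N := fun x => ⟨cls x, ((Φ (rep x) : RACG Δ) :
    RACG Δ ⧸ RACG.par Δ (N (cls x)))⟩
  have hθ : Injective θ := by
    intro x y hxy
    have h1 : cls x = cls y := congrArg Sigma.fst hxy
    have h2 : ((Φ (rep x) : RACG Δ) : RACG Δ ⧸ RACG.par Δ (N (cls x))) =
        ((Φ (rep y) : RACG Δ) : RACG Δ ⧸ RACG.par Δ (N (cls x))) := by
      have : HEq ((Φ (rep x) : RACG Δ) : RACG Δ ⧸ RACG.par Δ (N (cls x)))
        ((Φ (rep y) : RACG Δ) : RACG Δ ⧸ RACG.par Δ (N (cls y))) :=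
          (Sigma.mk.inj_iff.1 hxy).2
      rw [← h1] at this
      exact eq_of_heq this
    rw [QuotientGroup.eq, ← map_inv, ← map_mul, hst] at h2
    rw [mul_smul, inv_smul_eq_iff] at h2
    rw [← hrep x, ← h2, h1, hrep]
  let β : RACG (⊥ : SimpleGraph X) →* RACG (⊥ : SimpleGraph (CosX Δ N)) :=
    RACG.map θ (fun _ _ h => h.elim)
  have hβ : Injective β := map_bot_injective θ hθ _
  have hΨα : ∀ u, extToWr Δ N (α u) = ⟨β u, 1⟩ := by
    intro u
    have : (extToWr Δ N).comp α = (SemidirectProduct.inl).comp β := by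
      apply RACG.hom_ext
      intro x
      rw [MonoidHom.comp_apply, MonoidHom.comp_apply]
      simp only [α, β, RACG.lift_of, RACG.map_of, a, Φ', map_mul, map_inv, MonoidHom.comp_apply,
        extToWr_inc, extToWr_inr, wr_base_gen, cosX_smul]
      rw [MulAction.Quotient.smul_coe, smul_eq_mul, mul_one]
      rfl
    have := DFunLike.congr_fun this u
    exact this
  rw [injective_iff_map_eq_one]
  intro w hw
  have h1 : extToWr Δ N (F w) = 1 := by rw [hw, map_one]
  have h2 : F w = α w.1.left * Φ' ⟨w.1.right, hmem w⟩ := rfl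
  rw [h2, map_mul, hΨα] at h1
  have h3 : extToWr Δ N (Φ' ⟨w.1.right, hmem w⟩) =
      Wr.base _ (Φ ⟨w.1.right, hmem w⟩) := extToWr_inc _
  rw [h3] at h1
  have h4 : β w.1.left = 1 := by
    have := congrArg SemidirectProduct.left h1
    simpa [Wr.base] using this
  have h5 : Φ ⟨w.1.right, hmem w⟩ = 1 := by
    have := congrArg SemidirectProduct.right h1
    simpa [Wr.base] using this
  have h6 : w.1.left = 1 := hβ (by rw [h4, map_one])
  have h7 : (⟨w.1.right, hmem w⟩ : H) = 1 := hΦ (by rw [h5, map_one])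
  apply Subtype.ext
  apply SemidirectProduct.ext
  · exact h6
  · exact congrArg Subtype.val h7

end Main

section Final

variable {T : Type}

/-- vertex types of the factors -/
abbrev fV (V V₁ : Type) : Option T → Type
  | none => V₁
  | some _ => V

/-- graphs of the factors -/
def fG {V V₁ : Type} (Γ : SimpleGraph V) (Γ₁ : SimpleGraph V₁) :
    ∀ o : Option T, SimpleGraph (fV V V₁ o)
  | none => Γ₁
  | some _ => Γ

/-- homs to the factors -/
def fH {V V₁ : Type} (Γ : SimpleGraph V) (Γ₁ : SimpleGraph V₁) {H : Type} [Group H]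
    (ι : H →* RACG Γ₁) (f : T → H →* RACG Γ) : ∀ o : Option T, H →* RACG (fG Γ Γ₁ o)
  | none => ι
  | some t => f t

/-- sets in the factors -/
def fS {V : Type} (V₁ : Type) (S : Set V) (t : T) : ∀ o : Option T, Set (fV V V₁ o)
  | none => Set.univ
  | some t' => {v | t' = t → v ∈ S}

end Final

theorem vs_wr (P : Type) [Group P] (hP : VS P) (B : Subgroup P) (hB : Good B) :
    VS (Wr P (P ⧸ B)) := by
  classical
  obtain ⟨V₁, hV₁, Γ₁, K₁, hK₁, ι, hι⟩ := hP
  obtain ⟨V, hV, Γ, S, K, hK, f, hf⟩ := hB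
  let H : Subgroup P := (K ⊓ K₁).normalCore
  have hHK : H ≤ K := (Subgroup.normalCore_le _).trans inf_le_left
  have hHK₁ : H ≤ K₁ := (Subgroup.normalCore_le _).trans inf_le_right
  have hHfi : H.FiniteIndex := Subgroup.finiteIndex_normalCore _
  let T : Type := MulAction.orbitRel.Quotient H (P ⧸ B)
  have hT : Finite T :=
    Subgroup.finite_quotient_of_pretransitive_of_index_ne_zero hHfi.index_ne_zero
  have := Fintype.ofFinite T
  let x₀ : T → P ⧸ B := fun t => Quotient.out t
  let g : T → P := fun t => Quotient.out (x₀ t)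
  have hg : ∀ t, ((g t : P) : P ⧸ B) = x₀ t := fun t => Quotient.out_eq _
  let cls : P ⧸ B → T := fun x => Quotient.mk _ x
  have hcls : ∀ (h : H) (x : P ⧸ B), cls (h • x) = cls x := by
    intro h x
    exact Quotient.sound ⟨h, rfl⟩
  have hrep0 : ∀ x : P ⧸ B, ∃ h : H, h • x₀ (cls x) = x := by
    intro x
    have : (Quotient.mk (MulAction.orbitRel H (P ⧸ B)) (x₀ (cls x))) = Quotient.mk _ x :=
      Quotient.out_eq (cls x)
    have h2 := Quotient.exact this.symm
    obtain ⟨h, hh⟩ := h2
    exact ⟨h, hh⟩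
  choose rep hrep using hrep0
  let ft : T → (H →* RACG Γ) := fun t =>
    f.comp ((Subgroup.inclusion hHK).comp (MulAut.conjNormal (g t)⁻¹ : H ≃* H).toMonoidHom)
  let w : H →* (∀ o : Option T, RACG (fG Γ Γ₁ o)) :=
    MonoidHom.pi (fH Γ Γ₁ (ι.comp (Subgroup.inclusion hHK₁)) ft)
  let Φ : H →* RACG (Join (fG (T := T) Γ Γ₁)) := (joinHom (fG Γ Γ₁)).comp w
  have hΦ : Injective Φ := by
    intro a b hab
    have h1 := joinHom_injective _ hab
    have h2 : ι (Subgroup.inclusion hHK₁ a) = ι (Subgroup.inclusion hHK₁ b) := congrFun h1 none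
    have h3 := hι h2
    exact Subgroup.inclusion_injective hHK₁ h3
  let N : T → Set (Σ o : Option T, fV V V₁ o) := fun t => {y | y.2 ∈ fS V₁ S t y.1}
  have hst : ∀ (h : H) (t : T), Φ h ∈ RACG.par (Join (fG (T := T) Γ Γ₁)) (N t) ↔
      h • x₀ t = x₀ t := by
    intro h t
    have e1 : Φ h ∈ RACG.par (Join (fG (T := T) Γ Γ₁)) (N t) ↔
        ∀ o, w h o ∈ RACG.par (fG Γ Γ₁ o) (fS V₁ S t o) := joinHom_mem_par
    have e2 : (∀ o, w h o ∈ RACG.par (fG Γ Γ₁ o) (fS V₁ S t o)) ↔
        ft t h ∈ RACG.par Γ S := by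
      constructor
      · intro hh
        have h1 : ft t h ∈ RACG.par Γ {v | t = t → v ∈ S} := hh (some t)
        have h2 : {v | t = t → v ∈ S} = S := by ext v; simp
        rwa [h2] at h1
      · intro hh o
        cases o with
        | none =>
          have : RACG.par (fG (T := T) Γ Γ₁ none) (fS V₁ S t none) = ⊤ := RACG.par_univ
          rw [this]
          trivial
        | some t' =>
          change ft t' h ∈ RACG.par Γ {v | t' = t → v ∈ S}
          by_cases e : t' = t
          · subst e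
            have h2 : {v | t' = t' → v ∈ S} = S := by ext v; simp
            rw [h2]
            exact hh
          · have h2 : {v | t' = t → v ∈ S} = Set.univ := by ext v; simp [e]
            rw [h2, RACG.par_univ]
            trivial
    rw [e1, e2]
    have e3 : ft t h ∈ RACG.par Γ S ↔ (g t)⁻¹ * h * g t ∈ B := by
      refine (hf (Subgroup.inclusion hHK ((MulAut.conjNormal (g t)⁻¹ : H ≃* H) h))).symm.trans ?_
      simp
    rw [e3, ← hg t]
    have e4 : h • ((g t : P) : P ⧸ B) = (((h : P) * g t : P) : P ⧸ B) := rfl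
    rw [e4, eq_comm, QuotientGroup.eq, mul_assoc]
  obtain ⟨F, hF⟩ := wr_embed P (P ⧸ B) H T x₀ (Σ o : Option T, fV V V₁ o)
    (Join (fG Γ Γ₁)) N Φ hΦ cls rep hrep hcls hst
  have hfin : ∀ o : Option T, Finite (fV V V₁ o) := by
    rintro (_ | t)
    · exact hV₁
    · exact hV
  exact ⟨(Σ o : Option T, fV V V₁ o) ⊕ T, inferInstance, _, _, finiteIndex_comap _ _, F, hF⟩

end Pool.Agent.H41.VS
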