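import Mathlib
import Pool.Agent.H41.VS.Match2
import Pool.Agent.H41.VS.WrVS
import Pool.Agent.H41.VS.Push
import Pool.Agent.H41.VS.Raag

/-!
# Amalgams of virtually special groups over virtually cyclic groups
-/

set_option autoImplicit false

namespace Pool.Agent.H41.VS

open Function

/-- two-element family of types -/
def BQ (A B : Type) : Bool → Type
  | true => A
  | false => B

instance (A B : Type) [Group A] [Group B] : ∀ b, Group (BQ A B b)
  | true => inferInstanceAs (Group A)
  | false => inferInstanceAs (Group B)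

theorem vs_prod {A B : Type} [Group A] [Group B] (hA : VS A) (hB : VS B) : VS (A × B) := by
  have hQ : ∀ b, VS (BQ A B b) := by
    intro b
    cases b
    · exact hB
    · exact hA
  let f : A × B →* (∀ b, BQ A B b) :=
    { toFun := fun x b => match b with
        | true => x.1
        | false => x.2
      map_one' := by
        funext b
        cases b <;> rfl
      map_mul' := fun x y => by
        funext b
        cases b <;> rfl }
  refine VS.of_injective (vs_pi Bool (BQ A B) hQ) f ?_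
  rintro ⟨a, b⟩ ⟨a', b'⟩ h
  have h1 : a = a' := congrFun h true
  have h2 : b = b' := congrFun h false
  rw [h1, h2]

theorem VCyc.of_surjective {H B : Type} [Group H] [Group B] (hH : VCyc H) (f : H →* B)
    (hf : Surjective f) : VCyc B := by
  obtain ⟨C, hC, hCi⟩ := hH
  refine ⟨C.map f, ?_, ?_⟩
  · obtain ⟨c, hc⟩ := hC.exists_generator
    refine ⟨⟨⟨f c, ⟨c, c.2, rfl⟩⟩, ?_⟩⟩
    rintro ⟨x, ⟨y, hy, rfl⟩⟩
    obtain ⟨n, hn⟩ := hc ⟨y, hy⟩
    refine ⟨n, ?_⟩
    apply Subtype.ext
    dsimp only at hn ⊢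
    rw [Subgroup.coe_zpow]
    change (f (c : H)) ^ n = f y
    rw [← map_zpow]
    congr 1
    exact congrArg Subtype.val hn
  · intro h
    exact hCi (Nat.eq_zero_of_zero_dvd (h ▸ Subgroup.index_map_dvd C hf))

theorem amalgam_vs
    (exists_inverting : ∀ (G : Type) [Group G], VS G → ∀ c : G, (∀ n : ℕ, 0 < n → c ^ n ≠ 1) →
      ∃ (P : Type) (_ : Group P) (β : G →* P) (m : ℕ) (u : P),
        VS P ∧ Injective β ∧ 0 < m ∧ u * β (c ^ m) * u⁻¹ = (β (c ^ m))⁻¹)
    (G : Bool → Type) [∀ i, Group (G i)] (H : Type) [Group H] (φ : ∀ i, H →* G i)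
    (hφ : ∀ i, Injective (φ i)) (hH : VCyc H) (hG : ∀ i, VS (G i)) :
    VS (Monoid.PushoutI φ) := by
  have hmatch : ∀ (G₁ G₂ : Type) [Group G₁] [Group G₂] (φ₁ : H →* G₁) (φ₂ : H →* G₂),
      Injective φ₁ → Injective φ₂ → VS G₁ → VS G₂ →
      ∃ (P' : Type) (_ : Group P') (α₁ : G₁ →* P') (α₂ : G₂ →* P'), VS P' ∧ Injective α₁ ∧
      ∀ x, α₁ (φ₁ x) = α₂ (φ₂ x) := by
    intro G₁ G₂ _ _ φ₁ φ₂ h₁ h₂ v₁ v₂
    rcases finite_or_infinite H with hfin | hinf
    · exact match_finite φ₁ φ₂ h₁ h₂ v₁ v₂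
    · exact match_infinite exists_inverting hH φ₁ φ₂ h₁ h₂ v₁ v₂
  obtain ⟨P, hPg, α₁, α₂, hP, hα₁, hα⟩ :=
    hmatch (G true) (G false) (φ true) (φ false) (hφ true) (hφ false) (hG true) (hG false)
  obtain ⟨P', hP'g, β₁, β₂, hP', hβ₁, hβ⟩ :=
    hmatch (G false) (G true) (φ false) (φ true) (hφ false) (hφ true) (hG false) (hG true)
  let α : ∀ i, G i →* P × P' := fun i =>
    match i with
    | true => α₁.prod β₂
    | false => α₂.prod β₁
  have hαinj : ∀ i, Injective (α i) := by
    intro i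
    cases i
    · intro x y h
      exact hβ₁ (congrArg Prod.snd h)
    · intro x y h
      exact hα₁ (congrArg Prod.fst h)
  have hag : (α false).comp (φ false) = (α true).comp (φ true) := by
    ext x
    · exact (hα x).symm
    · exact hβ x
  obtain ⟨F, hF⟩ := pushout_embed G H φ hφ (P × P') α hαinj hag
  have hPP : VS (P × P') := vs_prod hP hP'
  have hB : VCyc ((α true).comp (φ true)).range :=
    hH.of_surjective _ (MonoidHom.rangeRestrict_surjective _)
  exact VS.of_injective (vs_wr (P × P') hPP _ (good_of_vCyc hPP _ hB)) F hF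

end Pool.Agent.H41.VS
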