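import Mathlib
import Pool.Agent.H41.VS.Words

/-!
# Parabolic pairs

A parabolic pair is a group embedded in a finitely generated right-angled Coxeter group
together with the preimage of a standard parabolic subgroup.
-/

set_option autoImplicit false

namespace Pool.Agent.H41.VS

open Function

/-- parabolic pair -/
def PPair (G : Type) [Group G] (C : Subgroup G) : Prop :=
  ∃ (V : Type) (_ : Finite V) (Δ : SimpleGraph V) (S : Set V) (j : G →* RACG Δ),
    Injective j ∧ ∀ g, g ∈ C ↔ j g ∈ RACG.par Δ S

theorem PPair.vs {G : Type} [Group G] {C : Subgroup G} (h : PPair G C) : VS G := by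
  obtain ⟨V, hV, Δ, S, j, hj, -⟩ := h
  exact ⟨V, hV, Δ, ⊤, inferInstance, j.comp (Subgroup.subtype ⊤),
    hj.comp Subtype.val_injective⟩

/-! ### joins -/

/-- adjacency in the join -/
inductive UAdj {J : Type*} {V : J → Type*} (Γ : ∀ j, SimpleGraph (V j)) :
    (Σ j, V j) → (Σ j, V j) → Prop
  | same (j : J) (u v : V j) (h : (Γ j).Adj u v) : UAdj Γ ⟨j, u⟩ ⟨j, v⟩
  | diff (j k : J) (u : V j) (v : V k) (h : j ≠ k) : UAdj Γ ⟨j, u⟩ ⟨k, v⟩

/-- join of a family of graphs -/
def ujoin {J : Type*} {V : J → Type*} (Γ : ∀ j, SimpleGraph (V j)) :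
    SimpleGraph (Σ j, V j) where
  Adj := UAdj Γ
  symm := ⟨fun _ _ h => by
    cases h with
    | same j u v h => exact .same j v u h.symm
    | diff j k u v h => exact .diff k j v u h.symm⟩
  loopless := ⟨fun p h => by
    cases h with
    | same j u v h => exact h.ne rfl
    | diff j k u v h => exact h rfl⟩

section join

variable {J : Type*} {V : J → Type*} (Γ : ∀ j, SimpleGraph (V j))

/-- inclusion of a factor -/
def ujoinInc (j : J) : RACG (Γ j) →* RACG (ujoin Γ) :=
  RACG.map (fun v => ⟨j, v⟩) (fun u v h => UAdj.same j u v h)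

theorem ujoinInc_of (j : J) (v : V j) :
    ujoinInc Γ j (RACG.of _ v) = RACG.of (ujoin Γ) ⟨j, v⟩ := RACG.map_of _ _ _

theorem ujoinInc_commute {j k : J} (h : j ≠ k) (x : RACG (Γ j)) (y : RACG (Γ k)) :
    Commute (ujoinInc Γ j x) (ujoinInc Γ k y) := by
  induction x using RACG.induction_on with
  | one => rw [map_one]; exact Commute.one_left _
  | mul u x ihx =>
    rw [map_mul]
    refine Commute.mul_left ?_ ihx
    induction y using RACG.induction_on with
    | one => rw [map_one]; exact Commute.one_right _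
    | mul v y ihy =>
      rw [map_mul]
      refine Commute.mul_right ?_ (ihy ?_)
      · rw [ujoinInc_of, ujoinInc_of]
        exact RACG.commute_of_adj (UAdj.diff j k u v h)
      · have h2 : Commute (ujoinInc Γ j x) (ujoinInc Γ k (RACG.of _ v)) := by
          have h3 := ihx.mul_right (Commute.refl (ujoinInc Γ j x))
          have : Commute (ujoinInc Γ j x) (ujoinInc Γ k (RACG.of _ v)) := by
            clear ihy ihx h3
            induction x using RACG.induction_on with
            | one => rw [map_one]; exact Commute.one_left _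
            | mul u' x ihx' =>
              rw [map_mul]
              refine Commute.mul_left ?_ ihx'
              rw [ujoinInc_of, ujoinInc_of]
              exact RACG.commute_of_adj (UAdj.diff j k u' v h)
          exact this
        have h4 := h2.inv_right.mul_right ihx
        rwa [map_mul, inv_mul_cancel_left] at h4

open Classical in
/-- projection to a factor -/
noncomputable def ujoinProj (j : J) : RACG (ujoin Γ) →* RACG (Γ j) :=
  RACG.lift (fun p => if h : p.1 = j then RACG.of _ (h ▸ p.2) else 1)
    (fun p => by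
      split_ifs <;> simp)
    (by
      intro p q h
      cases h with
      | same k u v h =>
        by_cases hk : k = j
        · subst hk
          simp only [dif_pos]
          exact (RACG.commute_of_adj h).eq
        · simp [hk]
      | diff k l u v h =>
        by_cases hk : k = j
        · have : l ≠ j := fun hl => h (hk.trans hl.symm)
          simp [this]
        · simp [hk])

theorem ujoinProj_inc_same (j : J) (x : RACG (Γ j)) : ujoinProj Γ j (ujoinInc Γ j x) = x := by
  have h : (ujoinProj Γ j).comp (ujoinInc Γ j) = MonoidHom.id _ := by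
    apply RACG.hom_ext
    intro v
    simp [ujoinInc, ujoinProj]
  exact DFunLike.congr_fun h x

theorem ujoinProj_inc_ne {j k : J} (hk : k ≠ j) (x : RACG (Γ k)) :
    ujoinProj Γ j (ujoinInc Γ k x) = 1 := by
  have h : (ujoinProj Γ j).comp (ujoinInc Γ k) = 1 := by
    apply RACG.hom_ext
    intro v
    simp [ujoinInc, ujoinProj, hk]
  exact DFunLike.congr_fun h x

/-- the map from the product of the Coxeter groups -/
noncomputable def ujoinHom [Fintype J] : (∀ j, RACG (Γ j)) →* RACG (ujoin Γ) :=
  MonoidHom.noncommPiCoprod (ujoinInc Γ) (fun _ _ h x y => ujoinInc_commute Γ h x y)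

open Classical in
theorem ujoinHom_mulSingle [Fintype J] (j : J) (x : RACG (Γ j)) :
    ujoinHom Γ (Pi.mulSingle j x) = ujoinInc Γ j x :=
  MonoidHom.noncommPiCoprod_mulSingle _ _ _

theorem ujoinProj_hom [Fintype J] (j : J) (w : ∀ j, RACG (Γ j)) :
    ujoinProj Γ j (ujoinHom Γ w) = w j := by
  classical
  have h : (ujoinProj Γ j).comp (ujoinHom Γ) = Pi.evalMonoidHom _ j := by
    apply MonoidHom.pi_ext
    intro k x
    rw [MonoidHom.comp_apply, ujoinHom_mulSingle]
    by_cases hk : k = j
    · subst hk
      rw [ujoinProj_inc_same]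
      simp
    · rw [ujoinProj_inc_ne _ hk]
      simp [Pi.mulSingle_eq_of_ne (Ne.symm hk)]
  exact DFunLike.congr_fun h w

theorem ujoinHom_injective [Fintype J] : Injective (ujoinHom Γ) := by
  intro x y h
  funext j
  rw [← ujoinProj_hom Γ j x, h, ujoinProj_hom]

/-- union of vertex sets in the join -/
def usets (S : ∀ j, Set (V j)) : Set (Σ j, V j) := {p | p.2 ∈ S p.1}

theorem ujoinProj_par (S : ∀ j, Set (V j)) (j : J) {x : RACG (ujoin Γ)}
    (hx : x ∈ RACG.par _ (usets S)) : ujoinProj Γ j x ∈ RACG.par _ (S j) := by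
  induction hx using Subgroup.closure_induction with
  | mem x hx =>
    obtain ⟨⟨k, v⟩, hv, rfl⟩ := hx
    by_cases hk : k = j
    · subst hk
      simp only [ujoinProj, RACG.lift_of, dif_pos]
      exact RACG.of_mem_par hv
    · simp only [ujoinProj, RACG.lift_of, dif_neg hk]
      exact Subgroup.one_mem _
  | one => rw [map_one]; exact Subgroup.one_mem _
  | mul x y _ _ ihx ihy => rw [map_mul]; exact Subgroup.mul_mem _ ihx ihy
  | inv x _ ih => rw [map_inv]; exact Subgroup.inv_mem _ ih

theorem ujoinInc_par (S : ∀ j, Set (V j)) (j : J) {x : RACG (Γ j)}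
    (hx : x ∈ RACG.par _ (S j)) : ujoinInc Γ j x ∈ RACG.par _ (usets S) := by
  induction hx using Subgroup.closure_induction with
  | mem x hx =>
    obtain ⟨v, hv, rfl⟩ := hx
    rw [ujoinInc_of]
    exact RACG.of_mem_par hv
  | one => rw [map_one]; exact Subgroup.one_mem _
  | mul x y _ _ ihx ihy => rw [map_mul]; exact Subgroup.mul_mem _ ihx ihy
  | inv x _ ih => rw [map_inv]; exact Subgroup.inv_mem _ ih

theorem ujoinHom_mem_par [Fintype J] (S : ∀ j, Set (V j)) (w : ∀ j, RACG (Γ j)) :
    ujoinHom Γ w ∈ RACG.par _ (usets S) ↔ ∀ j, w j ∈ RACG.par _ (S j) := by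
  classical
  constructor
  · intro h j
    rw [← ujoinProj_hom Γ j w]
    exact ujoinProj_par Γ S j h
  · intro h
    have h1 : Subgroup.pi Set.univ (fun j => RACG.par (Γ j) (S j)) ≤
        (RACG.par _ (usets S)).comap (ujoinHom Γ) := by
      rw [Subgroup.pi_le_iff]
      rintro j _ ⟨x, hx, rfl⟩
      rw [Subgroup.mem_comap, MonoidHom.mulSingle_apply, ujoinHom_mulSingle]
      exact ujoinInc_par Γ S j hx
    exact h1 ((Subgroup.mem_pi _).2 fun j _ => h j)

end join

/-- products of parabolic pairs -/
theorem ppair_pi (J : Type) [Finite J] (G : J → Type) [∀ j, Group (G j)]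
    (C : ∀ j, Subgroup (G j)) (h : ∀ j, PPair (G j) (C j)) :
    PPair (∀ j, G j) (Subgroup.pi Set.univ C) := by
  classical
  have : Fintype J := Fintype.ofFinite J
  choose V hV Δ S e he hC using h
  refine ⟨Σ j, V j, inferInstance, ujoin Δ, usets S,
    (ujoinHom Δ).comp (Pi.monoidHom fun j => (e j).comp (Pi.evalMonoidHom _ j)), ?_, ?_⟩
  · intro x y hxy
    have h1 := ujoinHom_injective Δ hxy
    funext j
    exact he j (congrFun h1 j)
  · intro g
    rw [MonoidHom.comp_apply, ujoinHom_mem_par, Subgroup.mem_pi]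
    constructor
    · intro hg j
      exact (hC j _).1 (hg j trivial)
    · intro hg j _
      exact (hC j _).2 (hg j)

/-! ### the cone -/

/-- adjacency in the cone -/
inductive CAdj {V : Type*} (Δ : SimpleGraph V) (S : Set V) : Option V → Option V → Prop
  | some (u v : V) (h : Δ.Adj u v) : CAdj Δ S (some u) (some v)
  | left (v : V) (h : v ∈ S) : CAdj Δ S none (Option.some v)
  | right (v : V) (h : v ∈ S) : CAdj Δ S (Option.some v) none

/-- the graph `Δ` with a new vertex adjacent to the vertices in `S` -/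
def cone {V : Type*} (Δ : SimpleGraph V) (S : Set V) : SimpleGraph (Option V) where
  Adj := CAdj Δ S
  symm := ⟨fun _ _ h => by
    cases h with
    | some u v h => exact .some v u h.symm
    | left v h => exact .right v h
    | right v h => exact .left v h⟩
  loopless := ⟨fun p h => by
    cases h with
    | some u v h => exact h.ne rfl⟩

section cone

variable {V : Type*} (Δ : SimpleGraph V) (S : Set V)

/-- inclusion in the cone -/
def coneInc : RACG Δ →* RACG (cone Δ S) := RACG.map some (fun u v h => CAdj.some u v h)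

theorem coneInc_of (v : V) : coneInc Δ S (RACG.of _ v) = RACG.of _ (some v) := RACG.map_of _ _ _

/-- retraction of the cone -/
def coneRet : RACG (cone Δ S) →* RACG Δ :=
  RACG.lift (fun p => p.elim 1 (RACG.of Δ)) (fun p => by cases p <;> simp) (by
    intro p q h
    cases h with
    | some u v h => exact (RACG.commute_of_adj h).eq
    | left v h => simp
    | right v h => simp)

theorem coneRet_none : coneRet Δ S (RACG.of _ none) = 1 := RACG.lift_of _ _ _ _

theorem coneRet_inc (x : RACG Δ) : coneRet Δ S (coneInc Δ S x) = x := by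
  have h : (coneRet Δ S).comp (coneInc Δ S) = MonoidHom.id _ := by
    apply RACG.hom_ext
    intro v
    simp [coneRet, coneInc]
  exact DFunLike.congr_fun h x

theorem coneInc_mem_par (x : RACG Δ) : coneInc Δ S x ∈ RACG.par (cone Δ S) (Set.range some) := by
  induction x using RACG.induction_on with
  | one => rw [map_one]; exact Subgroup.one_mem _
  | mul v x ih =>
    rw [map_mul, coneInc_of]
    exact Subgroup.mul_mem _ (RACG.of_mem_par ⟨v, rfl⟩) ih

theorem coneInc_ret {x : RACG (cone Δ S)} (hx : x ∈ RACG.par (cone Δ S) (Set.range some)) :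
    coneInc Δ S (coneRet Δ S x) = x := by
  induction hx using Subgroup.closure_induction with
  | mem x hx =>
    obtain ⟨_, ⟨v, rfl⟩, rfl⟩ := hx
    simp [coneRet, coneInc]
  | one => simp
  | mul x y _ _ ihx ihy => rw [map_mul, map_mul, ihx, ihy]
  | inv x _ ih => rw [map_inv, map_inv, ih]

/-- an element lies in the parabolic subgroup iff its image lies in the link of the new
vertex -/
theorem coneInc_mem_lk (x : RACG Δ) :
    coneInc Δ S x ∈ RACG.lk (cone Δ S) none ↔ x ∈ RACG.par Δ S := by
  constructor
  · intro h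
    rw [← coneRet_inc Δ S x]
    generalize coneInc Δ S x = y at h
    induction h using Subgroup.closure_induction with
    | mem y hy =>
      obtain ⟨p, hp, rfl⟩ := hy
      have hp' : CAdj Δ S none p := hp
      cases hp' with
      | left v hv =>
        simp only [coneRet, RACG.lift_of]
        exact RACG.of_mem_par hv
    | one => rw [map_one]; exact Subgroup.one_mem _
    | mul x y _ _ ihx ihy => rw [map_mul]; exact Subgroup.mul_mem _ ihx ihy
    | inv x _ ih => rw [map_inv]; exact Subgroup.inv_mem _ ih
  · intro h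
    induction h using Subgroup.closure_induction with
    | mem y hy =>
      obtain ⟨v, hv, rfl⟩ := hy
      rw [coneInc_of]
      exact RACG.of_mem_par (CAdj.left v hv)
    | one => rw [map_one]; exact Subgroup.one_mem _
    | mul x y _ _ ihx ihy => rw [map_mul]; exact Subgroup.mul_mem _ ihx ihy
    | inv x _ ih => rw [map_inv]; exact Subgroup.inv_mem _ ih

theorem commute_none_of_mem_lk {x : RACG (cone Δ S)} (hx : x ∈ RACG.lk (cone Δ S) none) :
    Commute x (RACG.of _ none) := by
  induction hx using Subgroup.closure_induction with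
  | mem y hy =>
    obtain ⟨p, hp, rfl⟩ := hy
    exact (RACG.commute_of_adj hp).symm
  | one => exact Commute.one_left _
  | mul x y _ _ ihx ihy => exact ihx.mul_left ihy
  | inv x _ ih => exact ih.inv_left

end cone

section wr

variable {D : Type*} [Group D] {C : Subgroup D} {V : Type*} {Δ : SimpleGraph V} {S : Set V}
  (j : D →* RACG Δ) (hC : ∀ g, g ∈ C ↔ j g ∈ RACG.par Δ S)

/-- image of a generator of the free part -/
def wrFun (S : Set V) (d : D) : RACG (cone Δ S) :=
  coneInc Δ S (j d) * RACG.of _ none * (coneInc Δ S (j d))⁻¹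

include hC in
theorem wrFun_eq {d d' : D} (h : d⁻¹ * d' ∈ C) : wrFun j S d = wrFun j S d' := by
  have h1 : coneInc Δ S (j (d⁻¹ * d')) ∈ RACG.lk (cone Δ S) none :=
    (coneInc_mem_lk Δ S _).2 ((hC _).1 h)
  have h2 := (commute_none_of_mem_lk Δ S h1).eq
  rw [map_mul, map_mul, map_inv, map_inv] at h2
  unfold wrFun
  set a := coneInc Δ S (j d)
  set b := coneInc Δ S (j d')
  set t := RACG.of (cone Δ S) none
  have h3 : b * t = a * t * a⁻¹ * b := by
    calc b * t = a * ((a⁻¹ * b) * t) := by group
      _ = a * (t * (a⁻¹ * b)) := by rw [h2]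
      _ = a * t * a⁻¹ * b := by group
  rw [h3]; group

/-- the free part -/
noncomputable def wrFree : RACG (⊥ : SimpleGraph (D ⧸ C)) →* RACG (cone Δ S) :=
  RACG.lift (fun x => wrFun j S x.out) (fun x => by
    unfold wrFun
    have := RACG.of_mul_self (Γ := cone Δ S) none
    calc _ = coneInc Δ S (j x.out) * (RACG.of _ none * RACG.of _ none) *
          (coneInc Δ S (j x.out))⁻¹ := by group
      _ = 1 := by rw [this]; group) (fun _ _ h => h.elim)

include hC in
theorem wrFree_of (d : D) :
    wrFree (C := C) (S := S) j (RACG.of _ (QuotientGroup.mk d)) = wrFun j S d := by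
  rw [wrFree, RACG.lift_of]
  apply wrFun_eq j hC
  rw [← QuotientGroup.eq, QuotientGroup.out_eq']

/-- embedding of the wreath product in a Coxeter group -/
noncomputable def wrHom : Wr D (D ⧸ C) →* RACG (cone Δ S) :=
  SemidirectProduct.lift (wrFree (C := C) (S := S) j) ((coneInc Δ S).comp j) (by
    intro g
    apply RACG.hom_ext
    intro x
    obtain ⟨d, rfl⟩ := QuotientGroup.mk_surjective x
    simp only [MonoidHom.comp_apply, MulEquiv.coe_toMonoidHom, RACG.act_of, MulAut.conj_apply]
    have : g • (QuotientGroup.mk d : D ⧸ C) = QuotientGroup.mk (g * d) := rfl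
    rw [this, wrFree_of j hC, wrFree_of j hC]
    unfold wrFun
    simp only [map_mul]
    group)

theorem wrHom_base (d : D) : wrHom j hC (Wr.base _ d) = coneInc Δ S (j d) := by
  simp [wrHom, Wr.base]

theorem wrHom_mk (x : RACG (⊥ : SimpleGraph (D ⧸ C))) (d : D) :
    wrHom j hC ⟨x, d⟩ = wrFree j x * coneInc Δ S (j d) := rfl

theorem coneRet_wrFree (x : RACG (⊥ : SimpleGraph (D ⧸ C))) :
    coneRet Δ S (wrFree j x) = 1 := by
  have h : (coneRet Δ S).comp (wrFree (C := C) (S := S) j) = 1 := by
    apply RACG.hom_ext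
    intro v
    simp [wrFree, wrFun, coneRet_none]
  exact DFunLike.congr_fun h x

include hC in
/-- the map of coset spaces -/
theorem exists_theta : ∃ θ : (D ⧸ C) → (RACG (cone Δ S) ⧸ RACG.lk (cone Δ S) none),
    Injective θ ∧ ∀ d : D, θ (QuotientGroup.mk d) = QuotientGroup.mk (coneInc Δ S (j d)) := by
  refine ⟨fun x => QuotientGroup.mk (coneInc Δ S (j x.out)), ?_, ?_⟩
  · intro x y h
    rw [QuotientGroup.eq, ← map_inv, ← map_inv, ← map_mul, ← map_mul, coneInc_mem_lk,
      ← hC, ← QuotientGroup.eq, QuotientGroup.out_eq', QuotientGroup.out_eq'] at h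
    exact h
  · intro d
    rw [QuotientGroup.eq, ← map_inv, ← map_inv, ← map_mul, ← map_mul, coneInc_mem_lk,
      ← hC, ← QuotientGroup.eq, QuotientGroup.out_eq']

theorem psi_coneInc (x : RACG Δ) :
    RACG.psi (cone Δ S) none (coneInc Δ S x) = Wr.base _ (coneInc Δ S x) := by
  apply RACG.psi_of_mem_par
  refine RACG.par_mono ?_ (coneInc_mem_par Δ S x)
  rintro _ ⟨v, rfl⟩
  simp

theorem psi_wrFun (d : D) : RACG.psi (cone Δ S) none (wrFun j S d) =
    Wr.gen (QuotientGroup.mk (coneInc Δ S (j d))) := by
  unfold wrFun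
  rw [map_mul, map_mul, map_inv, psi_coneInc, RACG.psi_of_self, Wr.base_mul_gen,
    mul_inv_cancel_right]
  congr 1
  change (QuotientGroup.mk (coneInc Δ S (j d) * 1) : _ ⧸ _) = _
  rw [mul_one]

include hC in
theorem wrFree_injective : Injective (wrFree (C := C) (S := S) j) := by
  obtain ⟨θ, hθ, hθd⟩ := exists_theta (S := S) j hC
  let Θ : RACG (⊥ : SimpleGraph (D ⧸ C)) →*
      RACG (⊥ : SimpleGraph (RACG (cone Δ S) ⧸ RACG.lk (cone Δ S) none)) :=
    RACG.map θ (fun _ _ h => h.elim)
  let Θ' : RACG (⊥ : SimpleGraph (RACG (cone Δ S) ⧸ RACG.lk (cone Δ S) none)) →*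
      RACG (⊥ : SimpleGraph (D ⧸ C)) :=
    RACG.map (invFun θ) (fun _ _ h => h.elim)
  have hΘ : Injective Θ := by
    have h1 : Θ'.comp Θ = MonoidHom.id _ := by
      apply RACG.hom_ext
      intro v
      simp [Θ, Θ', leftInverse_invFun hθ v]
    have h2 : Injective (Θ'.comp Θ) := by rw [h1]; exact injective_id
    exact Injective.of_comp (f := Θ') h2
  have h3 : (RACG.psi (cone Δ S) none).comp (wrFree (C := C) (S := S) j) =
      SemidirectProduct.inl.comp Θ := by
    apply RACG.hom_ext
    intro x
    obtain ⟨d, rfl⟩ := QuotientGroup.mk_surjective x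
    rw [MonoidHom.comp_apply, wrFree_of j hC, psi_wrFun]
    simp only [MonoidHom.comp_apply, Θ, RACG.map_of, hθd]
    rfl
  have h4 : Injective ((RACG.psi (cone Δ S) none).comp (wrFree (C := C) (S := S) j)) := by
    rw [h3]
    exact SemidirectProduct.inl_injective.comp hΘ
  exact Injective.of_comp (f := RACG.psi (cone Δ S) none) h4

theorem wrHom_injective (hj : Injective j) : Injective (wrHom j hC) := by
  rw [injective_iff_map_eq_one]
  rintro ⟨x, d⟩ h
  rw [wrHom_mk] at h
  have h1 : d = 1 := by
    have h2 := congrArg (coneRet Δ S) h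
    rw [map_mul, coneRet_wrFree, coneRet_inc, one_mul, map_one] at h2
    exact (injective_iff_map_eq_one j).1 hj _ h2
  subst h1
  rw [map_one, map_one, mul_one] at h
  have h5 := (injective_iff_map_eq_one _).1 (wrFree_injective j hC) _ h
  subst h5
  rfl

theorem wrHom_mem_par (hj : Injective j) (x : Wr D (D ⧸ C)) :
    x ∈ (Wr.base (D ⧸ C) : D →* Wr D (D ⧸ C)).range ↔
      wrHom j hC x ∈ RACG.par (cone Δ S) (Set.range some) := by
  constructor
  · rintro ⟨d, rfl⟩
    rw [wrHom_base]
    exact coneInc_mem_par Δ S _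
  · intro h
    refine ⟨x.right, ?_⟩
    apply wrHom_injective j hC hj
    rw [wrHom_base, ← coneInc_ret Δ S h]
    obtain ⟨y, d⟩ := x
    rw [wrHom_mk, map_mul, coneRet_wrFree, coneRet_inc, one_mul]

end wr

/-- the wreath product of a parabolic pair -/
theorem ppair_wr (D : Type) [Group D] (C : Subgroup D) (h : PPair D C) :
    PPair (Wr D (D ⧸ C)) (Wr.base (D ⧸ C) : D →* Wr D (D ⧸ C)).range := by
  obtain ⟨V, hV, Δ, S, j, hj, hC⟩ := h
  exact ⟨Option V, inferInstance, cone Δ S, Set.range some, wrHom j hC,
    wrHom_injective j hC hj, fun x => wrHom_mem_par j hC hj x⟩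

end Pool.Agent.H41.VS
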