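import Mathlib
import Pool.Agent.H41.VS.PPair

/-!
# Unfoldings of right-angled Coxeter groups
-/

set_option autoImplicit false

namespace Pool.Agent.H41.VS

open Function

theorem smul_mk_one_ne' {G : Type*} [Group G] {C : Subgroup G} {x : G} (h : x ∉ C) :
    x • (QuotientGroup.mk 1 : G ⧸ C) ≠ QuotientGroup.mk 1 := by
  intro he
  apply h
  change (QuotientGroup.mk (x * 1) : G ⧸ C) = _ at he
  rw [QuotientGroup.eq, mul_one, mul_one] at he
  exact inv_mem_iff.1 he

theorem smul_mk_one_eq' {G : Type*} [Group G] {C : Subgroup G} {x : G} (h : x ∈ C) :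
    x • (QuotientGroup.mk 1 : G ⧸ C) = QuotientGroup.mk 1 := by
  change (QuotientGroup.mk (x * 1) : G ⧸ C) = _
  rw [QuotientGroup.eq, mul_one, mul_one]
  exact inv_mem h

theorem closure_commute {G : Type*} [Group G] {A B : Set G}
    (h : ∀ x ∈ A, ∀ y ∈ B, x * y = y * x) :
    ∀ x ∈ Subgroup.closure A, ∀ y ∈ Subgroup.closure B, x * y = y * x := by
  intro x hx
  have h1 : ∀ y ∈ B, Commute x y := by
    intro y hy
    induction hx using Subgroup.closure_induction with
    | mem x hx => exact h x hx y hy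
    | one => exact Commute.one_left _
    | mul x x' _ _ ihx ihx' => exact ihx.mul_left ihx'
    | inv x _ ih => exact ih.inv_left
  intro y hy
  have : Commute x y := by
    induction hy using Subgroup.closure_induction with
    | mem y hy => exact h1 y hy
    | one => exact Commute.one_right _
    | mul x x' _ _ ihx ihx' => exact ihx.mul_right ihx'
    | inv x _ ih => exact ih.inv_right
  exact this

section upsi

variable {Λ : Type} {Γ : SimpleGraph Λ} (a : Λ) {D : Type} [Group D] (C : Subgroup D)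
  (δ : RACG Γ →* D) (hδ : ∀ v, Γ.Adj v a → δ (RACG.of Γ v) ∈ C)

open Classical in
/-- one step of the unfolding -/
noncomputable def upsi : RACG Γ →* Wr D (D ⧸ C) :=
  RACG.lift (fun v => if v = a then Wr.gen (QuotientGroup.mk 1) else
      Wr.base _ (δ (RACG.of Γ v)))
    (fun v => by
      split_ifs
      · exact RACG.gen_mul_self _
      · rw [← map_mul, ← map_mul, RACG.of_mul_self, map_one, map_one])
    (fun u v h => by
      split_ifs with h1 h2 h2
      · rfl
      · subst h1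
        exact (RACG.base_commute_gen _ _ (smul_mk_one_eq' (hδ v h.symm))).symm
      · subst h2
        exact (RACG.base_commute_gen _ _ (smul_mk_one_eq' (hδ u h)))
      · rw [← map_mul, ← map_mul, ← map_mul, ← map_mul, (RACG.commute_of_adj h).eq])

theorem upsi_self : upsi a C δ hδ (RACG.of Γ a) = Wr.gen (QuotientGroup.mk 1) := by
  rw [upsi, RACG.lift_of, if_pos rfl]

theorem upsi_ne {v : Λ} (h : v ≠ a) :
    upsi a C δ hδ (RACG.of Γ v) = Wr.base _ (δ (RACG.of Γ v)) := by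
  rw [upsi, RACG.lift_of, if_neg h]

theorem upsi_prod {w : List Λ} (h : a ∉ w) :
    upsi a C δ hδ (RACG.prod Γ w) = Wr.base _ (δ (RACG.prod Γ w)) := by
  induction w with
  | nil => simp
  | cons v w ih =>
    have hv : v ≠ a := fun hv => h (by simp [hv])
    rw [RACG.prod_cons, map_mul, upsi_ne a C δ hδ hv, ih (fun hw => h (by simp [hw])),
      map_mul, map_mul]

theorem upsi_split (u₀ : List Λ) (us : List (List Λ)) (h₀ : a ∉ u₀)
    (hs : ∀ u ∈ us, a ∉ u) :
    upsi a C δ hδ (RACG.prod Γ (u₀ ++ (us.map (fun u => a :: u)).flatten)) =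
      wrWord (QuotientGroup.mk 1) (δ (RACG.prod Γ u₀)) (us.map fun u => δ (RACG.prod Γ u)) := by
  rw [RACG.prod_append, map_mul, upsi_prod a C δ hδ h₀, wrWord]
  congr 1
  induction us with
  | nil => simp
  | cons u us ih =>
    simp only [List.map_cons, List.flatten_cons, List.prod_cons, RACG.prod_append,
      RACG.prod_cons, map_mul]
    rw [upsi_self, upsi_prod a C δ hδ (hs u (by simp)), ih (fun x hx => hs x (by simp [hx]))]

end upsi

/-- unfolding data -/
structure Unf {Λ : Type} (Γ : SimpleGraph Λ) (F : Set Λ) (a : Λ) where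
  /-- the group -/
  H : Type
  /-- group structure -/
  grp : Group H
  /-- the parabolic subgroup -/
  C : Subgroup H
  pp : PPair H C
  /-- the map -/
  ψ : RACG Γ →* H
  /-- subgroups of sets -/
  Hs : Set Λ → Subgroup H
  kill : ∀ v ∈ F, ψ (RACG.of Γ v) = 1
  memC : ∀ v, v ≠ a → ψ (RACG.of Γ v) ∈ C
  comm : ∀ S S' : Set Λ, (∀ u ∈ S, ∀ v ∈ S', Γ.Adj u v) →
    ∀ x ∈ Hs S, ∀ y ∈ Hs S', x * y = y * x
  mem : ∀ (S : Set Λ) (v : Λ), v ∈ S → ψ (RACG.of Γ v) ∈ Hs S
  mono : ∀ S S', S ⊆ S' → Hs S ≤ Hs S'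
  inC : ∀ S, a ∉ S → Hs S ≤ C
  red : ∀ w, Reduced Γ w → (∀ v ∈ w, v ∉ F) → a ∈ w → ψ (RACG.prod Γ w) ∉ C
  rev : ∀ (S : Set Λ) (w : List Λ), w.Nodup → (∀ v ∈ w, v ∈ S) →
     ∃ U ∈ Hs S, U ∈ C ∧ U * ψ (RACG.prod Γ w) * U⁻¹ = (ψ (RACG.prod Γ w))⁻¹

attribute [instance] Unf.grp

/-- index set of the recursion -/
abbrev UIdx {Λ : Type} (Γ : SimpleGraph Λ) (F : Set Λ) (a : Λ) : Type :=
  {b : Λ // b ∉ F ∧ b ≠ a ∧ ¬ Γ.Adj b a}

section step

variable {Λ : Type} {Γ : SimpleGraph Λ} {F : Set Λ} {a : Λ}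
  (u : ∀ b : UIdx Γ F a, Unf Γ (insert a F) b.1)

/-- the product group -/
abbrev UD : Type := ∀ b : UIdx Γ F a, (u b).H

/-- the product of the parabolic subgroups -/
def UC : Subgroup (UD u) := Subgroup.pi Set.univ (fun b => (u b).C)

/-- the product map -/
def Uδ : RACG Γ →* UD u := MonoidHom.pi (fun b => (u b).ψ)

theorem mem_UC {d : UD u} : d ∈ UC u ↔ ∀ b, d b ∈ (u b).C := by
  simp [UC, Subgroup.mem_pi]

theorem Uδ_mem {v : Λ} (hv : Γ.Adj v a) : Uδ u (RACG.of Γ v) ∈ UC u := by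
  rw [mem_UC]
  intro b
  apply (u b).memC
  rintro rfl
  exact b.2.2.2 hv

/-- product of the subgroups of a set -/
def UHs (S : Set Λ) : Subgroup (UD u) := Subgroup.pi Set.univ (fun b => (u b).Hs (S \ {a}))

theorem mem_UHs {S : Set Λ} {d : UD u} : d ∈ UHs u S ↔ ∀ b, d b ∈ (u b).Hs (S \ {a}) := by
  simp [UHs, Subgroup.mem_pi]

theorem UHs_prod {S : Set Λ} {w : List Λ} (hw : ∀ v ∈ w, v ∈ S) (ha : a ∉ w) :
    Uδ u (RACG.prod Γ w) ∈ UHs u S := by
  induction w with
  | nil => rw [RACG.prod_nil, map_one]; exact Subgroup.one_mem _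
  | cons v w ih =>
    rw [RACG.prod_cons, map_mul]
    refine Subgroup.mul_mem _ ?_ (ih (fun x hx => hw x (by simp [hx]))
      (fun hx => ha (by simp [hx])))
    rw [mem_UHs]
    intro b
    apply (u b).mem
    exact ⟨hw v (by simp), fun hv => ha (by simp [Set.mem_singleton_iff.1 hv])⟩

theorem UHs_mono {S S' : Set Λ} (h : S ⊆ S') : UHs u S ≤ UHs u S' := by
  intro d hd
  rw [mem_UHs] at hd ⊢
  intro b
  exact (u b).mono _ _ (Set.sdiff_subset_sdiff_left h) (hd b)

/-- the generating set -/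
def UGen (S : Set Λ) : Set (Wr (UD u) (UD u ⧸ UC u)) :=
  {x | a ∈ S ∧ x = Wr.gen (QuotientGroup.mk 1)} ∪ (Wr.base _ '' (UHs u S : Set (UD u)))

theorem base_mem_UGen {S : Set Λ} {d : UD u} (hd : d ∈ UHs u S) :
    Wr.base _ d ∈ Subgroup.closure (UGen u S) :=
  Subgroup.subset_closure (Or.inr ⟨d, hd, rfl⟩)

theorem rev_UD (S : Set Λ) (w : List Λ) (hw : w.Nodup) (hS : ∀ v ∈ w, v ∈ S) (ha : a ∉ w) :
    ∃ U ∈ UHs u S, U ∈ UC u ∧
      U * Uδ u (RACG.prod Γ w) * U⁻¹ = (Uδ u (RACG.prod Γ w))⁻¹ := by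
  have h1 : ∀ b : UIdx Γ F a, ∃ U ∈ (u b).Hs (S \ {a}), U ∈ (u b).C ∧
      U * (u b).ψ (RACG.prod Γ w) * U⁻¹ = ((u b).ψ (RACG.prod Γ w))⁻¹ := by
    intro b
    apply (u b).rev _ w hw
    intro v hv
    exact ⟨hS v hv, fun h => ha (by rw [← Set.mem_singleton_iff.1 h]; exact hv)⟩
  choose U hU hUC hUr using h1
  refine ⟨U, (mem_UHs u).2 hU, (mem_UC u).2 hUC, ?_⟩
  funext b
  exact hUr b

variable [Finite Λ]

/-- the recursion step -/
noncomputable def Unf.step (haF : a ∉ F) : Unf Γ F a where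
  H := Wr (UD u) (UD u ⧸ UC u)
  grp := inferInstance
  C := (Wr.base (UD u ⧸ UC u) : UD u →* Wr (UD u) (UD u ⧸ UC u)).range
  pp := ppair_wr _ _ (ppair_pi _ _ _ fun b => (u b).pp)
  ψ := upsi a (UC u) (Uδ u) (fun _ hv => Uδ_mem u hv)
  Hs S := Subgroup.closure (UGen u S)
  kill := by
    intro v hv
    have hva : v ≠ a := fun h => haF (h ▸ hv)
    rw [upsi_ne _ _ _ _ hva]
    have : Uδ u (RACG.of Γ v) = 1 := by
      funext b
      exact (u b).kill v (Or.inr hv)
    rw [this, map_one]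
  memC := by
    intro v hv
    rw [upsi_ne _ _ _ _ hv]
    exact ⟨_, rfl⟩
  comm := by
    intro S S' hSS
    apply closure_commute
    have key : ∀ (T T' : Set Λ), (∀ x ∈ T, ∀ y ∈ T', Γ.Adj x y) → a ∈ T →
        ∀ d ∈ UHs u T', Wr.base (UD u ⧸ UC u) d * Wr.gen (QuotientGroup.mk 1) =
          Wr.gen (QuotientGroup.mk 1) * Wr.base (UD u ⧸ UC u) d := by
      intro T T' hT ha d hd
      apply RACG.base_commute_gen
      apply smul_mk_one_eq'
      rw [mem_UC]
      rw [mem_UHs] at hd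
      intro b
      refine (u b).inC _ ?_ (hd b)
      intro hb
      exact b.2.2.2 (hT a ha b.1 hb.1).symm
    rintro x (⟨ha, rfl⟩ | ⟨d, hd, rfl⟩) y (⟨ha', rfl⟩ | ⟨d', hd', rfl⟩)
    · rfl
    · exact (key S S' hSS ha d' hd').symm
    · exact key S' S (fun x hx y hy => (hSS y hy x hx).symm) ha' d hd
    · rw [← map_mul, ← map_mul]
      congr 1
      funext b
      exact (u b).comm _ _ (fun x hx y hy => hSS x hx.1 y hy.1) _ ((mem_UHs u).1 hd b) _
        ((mem_UHs u).1 hd' b)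
  mem := by
    intro S v hv
    by_cases h : v = a
    · subst h
      rw [upsi_self]
      exact Subgroup.subset_closure (Or.inl ⟨hv, rfl⟩)
    · rw [upsi_ne _ _ _ _ h]
      apply base_mem_UGen
      rw [mem_UHs]
      intro b
      exact (u b).mem _ _ ⟨hv, h⟩
  mono := by
    intro S S' h
    apply Subgroup.closure_mono
    rintro x (⟨ha, rfl⟩ | ⟨d, hd, rfl⟩)
    · exact Or.inl ⟨h ha, rfl⟩
    · exact Or.inr ⟨d, UHs_mono u h hd, rfl⟩
  inC := by
    intro S ha
    rw [Subgroup.closure_le]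
    rintro x (⟨ha', rfl⟩ | ⟨d, hd, rfl⟩)
    · exact absurd ha' ha
    · exact ⟨d, rfl⟩
  red := by
    intro w hw hF ha hmem
    obtain ⟨u₀, us, hsplit, h₀, hs⟩ := RACG.exists_split a w
    have hne : us ≠ [] := by
      rintro rfl
      rw [hsplit] at ha
      simp at ha
      exact h₀ ha
    have h1 := upsi_split a (UC u) (Uδ u) (fun _ hv => Uδ_mem u hv) u₀ us h₀ hs
    rw [← hsplit] at h1
    rw [h1] at hmem
    obtain ⟨d, hd⟩ := hmem
    refine wrWord_not_mem_base _ _ _ (by simpa using hne) ?_ d hd.symm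
    intro g hg
    rw [← List.map_dropLast] at hg
    obtain ⟨y, hy, rfl⟩ := List.mem_map.1 hg
    apply smul_mk_one_ne'
    intro hmem2
    rw [mem_UC] at hmem2
    have hinf : (a :: y ++ [a]) <:+: w := by
      rw [hsplit]; exact RACG.sub_of_mem_dropLast hy u₀
    have hinf' : y <:+: w := by
      refine List.IsInfix.trans ⟨[a], [a], by simp⟩ hinf
    obtain ⟨x, hx, hxa, hadj⟩ := hw a y hinf
    have hxw : x ∈ w := hinf'.subset hx
    have hay : a ∉ y := hs y (List.mem_of_mem_dropLast hy)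
    refine (u ⟨x, hF x hxw, hxa, hadj⟩).red y (hw.of_sub hinf') ?_ hx (hmem2 _)
    intro v hv hv2
    rcases hv2 with rfl | hv2
    · exact hay hv
    · exact hF v (hinf'.subset hv) hv2
  rev := by
    intro S w hw hS
    by_cases ha : a ∈ w
    · obtain ⟨w₀, w₁, rfl⟩ := List.append_of_mem ha
      have hnd : (w₁ ++ w₀).Nodup := by
        have := hw
        rw [List.nodup_append] at this ⊢
        obtain ⟨h1, h2, h3⟩ := this
        rw [List.nodup_cons] at h2
        refine ⟨h2.2, h1, ?_⟩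
        intro x hx y hy hxy
        exact h3 y hy x (by simp [hx]) hxy.symm
      have ha0 : a ∉ w₀ := by
        intro h
        rw [List.nodup_append] at hw
        exact hw.2.2 a h a (by simp) rfl
      have ha1 : a ∉ w₁ := by
        rw [List.nodup_append, List.nodup_cons] at hw
        exact hw.2.1.1
      have hS0 : ∀ v ∈ w₀, v ∈ S := fun v hv => hS v (by simp [hv])
      have hS1 : ∀ v ∈ w₁, v ∈ S := fun v hv => hS v (by simp [hv])
      obtain ⟨U, hU, hUC, hUr⟩ := rev_UD u S (w₁ ++ w₀) hnd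
        (fun v hv => by
          rcases List.mem_append.1 hv with h | h
          exacts [hS1 v h, hS0 v h])
        (fun h => by
          rcases List.mem_append.1 h with h | h
          exacts [ha1 h, ha0 h])
      have hg := UHs_prod u hS1 ha1
      have hh := UHs_prod u hS0 ha0
      set g := Uδ u (RACG.prod Γ w₁) with hgdef
      set h := Uδ u (RACG.prod Γ w₀) with hhdef
      have hcom : Wr.base (UD u ⧸ UC u) U * Wr.gen (QuotientGroup.mk 1) =
          Wr.gen (QuotientGroup.mk 1) * Wr.base (UD u ⧸ UC u) U :=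
        RACG.base_commute_gen _ _ (smul_mk_one_eq' hUC)
      rw [RACG.prod_append, map_mul, ← hgdef, ← hhdef] at hUr
      refine ⟨Wr.base _ (g⁻¹ * U * h⁻¹), ?_, ⟨_, rfl⟩, ?_⟩
      · exact base_mem_UGen u (Subgroup.mul_mem _ (Subgroup.mul_mem _ (Subgroup.inv_mem _ hg) hU)
          (Subgroup.inv_mem _ hh))
      · have e1 : upsi a (UC u) (Uδ u) (fun _ hv => Uδ_mem u hv)
            (RACG.prod Γ (w₀ ++ a :: w₁)) =
            Wr.base _ h * (Wr.gen (QuotientGroup.mk 1) * Wr.base _ g) := by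
          rw [RACG.prod_append, map_mul, RACG.prod_cons, map_mul, upsi_self,
            upsi_prod _ _ _ _ ha0, upsi_prod _ _ _ _ ha1]
        rw [e1]
        set t : Wr (UD u) (UD u ⧸ UC u) := Wr.gen (QuotientGroup.mk 1) with ht
        have htt : t⁻¹ = t := inv_eq_of_mul_eq_one_left (RACG.gen_mul_self _)
        have e2 : Wr.base (UD u ⧸ UC u) U * (Wr.base _ g * Wr.base _ h) *
            (Wr.base _ U)⁻¹ = (Wr.base _ g * Wr.base _ h)⁻¹ := by
          rw [← map_mul, ← map_inv, ← map_mul, ← map_mul, hUr, map_inv]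
        simp only [map_mul, map_inv]
        set G := Wr.base (UD u ⧸ UC u) g
        set K := Wr.base (UD u ⧸ UC u) h
        set W := Wr.base (UD u ⧸ UC u) U
        calc G⁻¹ * W * K⁻¹ * (K * (t * G)) * (G⁻¹ * W * K⁻¹)⁻¹
            = G⁻¹ * (W * t) * (G * K) * W⁻¹ * G := by group
          _ = G⁻¹ * (t * W) * (G * K) * W⁻¹ * G := by rw [hcom]
          _ = G⁻¹ * t * (W * (G * K) * W⁻¹) * G := by group
          _ = G⁻¹ * t * (G * K)⁻¹ * G := by rw [e2]
          _ = G⁻¹ * t * K⁻¹ := by group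
          _ = G⁻¹ * t⁻¹ * K⁻¹ := by rw [htt]
          _ = (K * (t * G))⁻¹ := by group
    · obtain ⟨U, hU, hUC, hUr⟩ := rev_UD u S w hw hS ha
      refine ⟨Wr.base _ U, base_mem_UGen u hU, ⟨U, rfl⟩, ?_⟩
      rw [upsi_prod _ _ _ _ ha, ← map_mul, ← map_inv, ← map_mul, hUr, map_inv]

end step

theorem exists_unf {Λ : Type} [Finite Λ] (Γ : SimpleGraph Λ) (n : ℕ) :
    ∀ (F : Set Λ) (a : Λ), a ∉ F → Fᶜ.ncard = n → Nonempty (Unf Γ F a) := by
  induction n using Nat.strong_induction_on with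
  | _ n ih =>
    intro F a haF hn
    have h1 : ∀ b : UIdx Γ F a, Nonempty (Unf Γ (insert a F) b.1) := by
      intro b
      refine ih ((insert a F)ᶜ.ncard) ?_ (insert a F) b.1 ?_ rfl
      · rw [← hn]
        apply Set.ncard_lt_ncard
        · refine ⟨?_, ?_⟩
          · intro x hx hx2
            exact hx (Or.inr hx2)
          · intro h
            exact (h (show a ∈ Fᶜ from haF)) (Or.inl rfl)
        · exact Set.toFinite _
      · rintro (h | h)
        · exact b.2.2.1 h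
        · exact b.2.1 h
    exact ⟨Unf.step (fun b => Classical.choice (h1 b)) haF⟩

theorem exists_unfolding (Λ : Type) [Finite Λ] (Γ : SimpleGraph Λ) :
    ∃ (P : Type) (_ : Group P) (ψ : RACG Γ →* P) (Hs : Set Λ → Subgroup P),
      VS P ∧ Injective ψ ∧
      (∀ S S' : Set Λ, (∀ u ∈ S, ∀ v ∈ S', Γ.Adj u v) →
        ∀ x ∈ Hs S, ∀ y ∈ Hs S', x * y = y * x) ∧
      (∀ (S : Set Λ) (v : Λ), v ∈ S → ψ (RACG.of Γ v) ∈ Hs S) ∧
      (∀ (S S' : Set Λ), S ⊆ S' → Hs S ≤ Hs S') ∧
      (∀ (S : Set Λ) (w : List Λ), w.Nodup → (∀ v ∈ w, v ∈ S) →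
        ∃ U ∈ Hs S, U * ψ (RACG.prod Γ w) * U⁻¹ = (ψ (RACG.prod Γ w))⁻¹) := by
  have h0 : ∀ a : Λ, Nonempty (Unf Γ ∅ a) := fun a =>
    exists_unf Γ _ ∅ a (Set.notMem_empty a) rfl
  let u : ∀ a : Λ, Unf Γ ∅ a := fun a => Classical.choice (h0 a)
  refine ⟨∀ a, (u a).H, inferInstance, MonoidHom.pi (fun a => (u a).ψ),
    fun S => Subgroup.pi Set.univ (fun a => (u a).Hs S), ?_, ?_, ?_, ?_, ?_, ?_⟩
  · exact (ppair_pi _ _ _ fun a => (u a).pp).vs
  · rw [injective_iff_map_eq_one]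
    intro x hx
    obtain ⟨w, hw, rfl⟩ := RACG.exists_reduced x
    cases w with
    | nil => rfl
    | cons a w =>
      exfalso
      refine (u a).red (a :: w) hw (fun v _ h => h) (by simp) ?_
      have h2 : (u a).ψ (RACG.prod Γ (a :: w)) = 1 := congrFun hx a
      rw [h2]
      exact Subgroup.one_mem _
  · intro S S' h x hx y hy
    rw [Subgroup.mem_pi] at hx hy
    funext a
    exact (u a).comm S S' h _ (hx a trivial) _ (hy a trivial)
  · intro S v hv
    rw [Subgroup.mem_pi]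
    intro a _
    exact (u a).mem S v hv
  · intro S S' h x hx
    rw [Subgroup.mem_pi] at hx ⊢
    intro a _
    exact (u a).mono S S' h (hx a trivial)
  · intro S w hw hS
    have h1 : ∀ a : Λ, ∃ U ∈ (u a).Hs S, U ∈ (u a).C ∧
        U * (u a).ψ (RACG.prod Γ w) * U⁻¹ = ((u a).ψ (RACG.prod Γ w))⁻¹ :=
      fun a => (u a).rev S w hw hS
    choose U hU _ hUr using h1
    refine ⟨U, (Subgroup.mem_pi _).2 fun a _ => hU a, ?_⟩
    funext a
    exact hUr a

end Pool.Agent.H41.VS
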