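import Mathlib
import Pool.Agent.H41.VS.Distinct2
import Pool.Agent.H41.VS.Unf
import Pool.Agent.H41.VS.Ind

/-!
# Inverting a power of an element of infinite order in a virtually special overgroup
-/

set_option autoImplicit false

namespace Pool.Agent.H41.VS

open Function

section W

variable {Λ : Type*} {Γ : SimpleGraph Λ} {P : Type*} [Group P]

theorem hom_prod_mem (ψ : RACG Γ →* P) (Hs : Set Λ → Subgroup P)
    (hmem : ∀ (S : Set Λ) (v : Λ), v ∈ S → ψ (RACG.of Γ v) ∈ Hs S)
    {S : Set Λ} {w : List Λ} (hw : ∀ v ∈ w, v ∈ S) : ψ (RACG.prod Γ w) ∈ Hs S := by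
  induction w with
  | nil => rw [RACG.prod_nil, map_one]; exact Subgroup.one_mem _
  | cons v w ih =>
    rw [RACG.prod_cons, map_mul]
    exact Subgroup.mul_mem _ (hmem _ _ (hw v (by simp))) (ih fun x hx => hw x (by simp [hx]))

theorem commute_prod {v : Λ} {w : List Λ} (hw : ∀ x ∈ w, Γ.Adj v x) :
    RACG.of Γ v * RACG.prod Γ w = RACG.prod Γ w * RACG.of Γ v := by
  induction w with
  | nil => simp
  | cons x w ih =>
    rw [RACG.prod_cons, ← mul_assoc, (RACG.commute_of_adj (hw x (by simp))).eq, mul_assoc,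
      ih fun y hy => hw y (by simp [hy]), mul_assoc]

theorem filter_split (ℓ : ℕ → Λ) (p : ℕ → ℕ)
    (hadj : ∀ r r', p r ≠ p r' → Γ.Adj (ℓ r) (ℓ r')) (N : ℕ) (l : List ℕ) :
    RACG.prod Γ ((l.filter fun r => decide (p r < N + 1)).map ℓ) =
      RACG.prod Γ ((l.filter fun r => decide (p r < N)).map ℓ) *
      RACG.prod Γ ((l.filter fun r => decide (p r = N)).map ℓ) := by
  induction l with
  | nil => simp
  | cons r l ih =>
    rcases lt_trichotomy (p r) N with h | h | h
    · rw [List.filter_cons_of_pos (by simp; omega), List.filter_cons_of_pos (by simpa using h),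
        List.filter_cons_of_neg (by simp; omega), List.map_cons, List.map_cons, RACG.prod_cons,
        RACG.prod_cons, ih, mul_assoc]
    · rw [List.filter_cons_of_pos (by simp; omega), List.filter_cons_of_neg (by simp; omega),
        List.filter_cons_of_pos (by simpa using h), List.map_cons, List.map_cons, RACG.prod_cons,
        RACG.prod_cons, ih, ← mul_assoc, ← mul_assoc, commute_prod]
      intro x hx
      obtain ⟨r', hr', rfl⟩ := List.mem_map.1 hx
      apply hadj
      have := (List.mem_filter.1 hr').2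
      simp only [decide_eq_true_eq] at this
      omega
    · rw [List.filter_cons_of_neg (by simp; omega), List.filter_cons_of_neg (by simp; omega),
        List.filter_cons_of_neg (by simp; omega), ih]

theorem filter_eq_pow (ℓ : ℕ → Λ) (p : ℕ → ℕ) (n : ℕ)
    (hp : ∀ r k, p (r + n * k) = p r) (hl : ∀ r q, ℓ (r + n * (p r * q)) = ℓ r) (N q : ℕ) :
    RACG.prod Γ (((List.range (n * (N * q))).filter fun r => decide (p r = N)).map ℓ) =
      RACG.prod Γ (((List.range (n * N)).filter fun r => decide (p r = N)).map ℓ) ^ q := by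
  induction q with
  | zero => simp
  | succ q ih =>
    have e : n * (N * (q + 1)) = n * (N * q) + n * N := by ring
    rw [e, List.range_add, List.filter_append, List.map_append, RACG.prod_append, ih, pow_succ,
      List.filter_map, List.map_map]
    congr 2
    have h1 : ((fun r => decide (p r = N)) ∘ fun r => n * (N * q) + r) =
        fun r => decide (p r = N) := by
      funext r
      simp only [comp_apply]
      rw [add_comm, hp]
    rw [h1]
    apply List.map_congr_left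
    intro r hr
    have h2 := (List.mem_filter.1 hr).2
    simp only [decide_eq_true_eq] at h2
    simp only [comp_apply]
    rw [add_comm, ← h2, hl]

/-- **Lemma W**, abstract form -/
theorem exists_inverting_word (ψ : RACG Γ →* P) (Hs : Set Λ → Subgroup P)
    (hcomm : ∀ S S' : Set Λ, (∀ u ∈ S, ∀ v ∈ S', Γ.Adj u v) →
        ∀ x ∈ Hs S, ∀ y ∈ Hs S', x * y = y * x)
    (hmem : ∀ (S : Set Λ) (v : Λ), v ∈ S → ψ (RACG.of Γ v) ∈ Hs S)
    (hmono : ∀ (S S' : Set Λ), S ⊆ S' → Hs S ≤ Hs S')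
    (hrev : ∀ (S : Set Λ) (w : List Λ), w.Nodup → (∀ v ∈ w, v ∈ S) →
        ∃ U ∈ Hs S, U * ψ (RACG.prod Γ w) * U⁻¹ = (ψ (RACG.prod Γ w))⁻¹)
    (ℓ : ℕ → Λ) (p : ℕ → ℕ) (n m : ℕ) (hm : 0 < m)
    (hadj : ∀ r r', p r ≠ p r' → Γ.Adj (ℓ r) (ℓ r'))
    (hp : ∀ r k, p (r + n * k) = p r) (hl : ∀ r q, ℓ (r + n * (p r * q)) = ℓ r)
    (hpm : ∀ r, p r ∣ m)
    (hinj : ∀ r r', p r = p r' → r < n * p r → r' < n * p r → ℓ r = ℓ r' → r = r') :
    ∃ U : P, U * ψ (RACG.prod Γ ((List.range (n * m)).map ℓ)) * U⁻¹ =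
      (ψ (RACG.prod Γ ((List.range (n * m)).map ℓ)))⁻¹ := by
  have key : ∀ N, ∃ U ∈ Hs {x | ∃ r, ℓ r = x ∧ p r < N},
      U * ψ (RACG.prod Γ (((List.range (n * m)).filter fun r => decide (p r < N)).map ℓ)) * U⁻¹ =
      (ψ (RACG.prod Γ (((List.range (n * m)).filter fun r => decide (p r < N)).map ℓ)))⁻¹ := by
    intro N
    induction N with
    | zero => exact ⟨1, Subgroup.one_mem _, by simp⟩
    | succ N ih =>
      obtain ⟨U, hU, hUX⟩ := ih
      -- the part with `p = N`
      have h1 : ∃ U' ∈ Hs {x | ∃ r, ℓ r = x ∧ p r = N},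
          U' * ψ (RACG.prod Γ (((List.range (n * m)).filter fun r => decide (p r = N)).map ℓ)) *
            U'⁻¹ =
          (ψ (RACG.prod Γ (((List.range (n * m)).filter fun r => decide (p r = N)).map ℓ)))⁻¹ := by
        by_cases hN : N ∣ m
        · obtain ⟨q, rfl⟩ := hN
          obtain ⟨U', hU', hC⟩ := hrev {x | ∃ r, ℓ r = x ∧ p r = N}
            (((List.range (n * N)).filter fun r => decide (p r = N)).map ℓ) (by
              rw [List.nodup_map_iff_inj_on (List.nodup_range.filter _)]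
              intro r hr r' hr' h
              rw [List.mem_filter, List.mem_range, decide_eq_true_eq] at hr hr'
              exact hinj r r' (by rw [hr.2, hr'.2]) (by rw [hr.2]; exact hr.1)
                (by rw [hr.2]; exact hr'.1) h) (by
              intro v hv
              obtain ⟨r, hr, rfl⟩ := List.mem_map.1 hv
              rw [List.mem_filter, decide_eq_true_eq] at hr
              exact ⟨r, rfl, hr.2⟩)
          refine ⟨U', hU', ?_⟩
          rw [filter_eq_pow ℓ p n hp hl N q, map_pow, ← conj_pow, hC, inv_pow]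
        · refine ⟨1, Subgroup.one_mem _, ?_⟩
          have : ((List.range (n * m)).filter fun r => decide (p r = N)) = [] := by
            rw [List.filter_eq_nil_iff]
            intro r _ h
            rw [decide_eq_true_eq] at h
            exact hN (h ▸ hpm r)
          rw [this]
          simp
      obtain ⟨U', hU', hUX'⟩ := h1
      have hA : ∀ u ∈ {x | ∃ r, ℓ r = x ∧ p r < N}, ∀ v ∈ {x | ∃ r, ℓ r = x ∧ p r = N},
          Γ.Adj u v := by
        rintro u ⟨r, rfl, hr⟩ v ⟨r', rfl, hr'⟩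
        exact hadj r r' (by omega)
      have hX : ψ (RACG.prod Γ (((List.range (n * m)).filter fun r => decide (p r < N)).map ℓ)) ∈
          Hs {x | ∃ r, ℓ r = x ∧ p r < N} := by
        apply hom_prod_mem ψ Hs hmem
        intro v hv
        obtain ⟨r, hr, rfl⟩ := List.mem_map.1 hv
        rw [List.mem_filter, decide_eq_true_eq] at hr
        exact ⟨r, rfl, hr.2⟩
      have hX' : ψ (RACG.prod Γ (((List.range (n * m)).filter fun r => decide (p r = N)).map ℓ)) ∈
          Hs {x | ∃ r, ℓ r = x ∧ p r = N} := by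
        apply hom_prod_mem ψ Hs hmem
        intro v hv
        obtain ⟨r, hr, rfl⟩ := List.mem_map.1 hv
        rw [List.mem_filter, decide_eq_true_eq] at hr
        exact ⟨r, rfl, hr.2⟩
      refine ⟨U * U', ?_, ?_⟩
      · apply Subgroup.mul_mem
        · refine hmono _ _ ?_ hU
          rintro x ⟨r, h1, h2⟩
          exact ⟨r, h1, by omega⟩
        · refine hmono _ _ ?_ hU'
          rintro x ⟨r, h1, h2⟩
          exact ⟨r, h1, by omega⟩
      · rw [filter_split ℓ p hadj N, map_mul]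
        set X := ψ (RACG.prod Γ (((List.range (n * m)).filter fun r => decide (p r < N)).map ℓ))
        set X' := ψ (RACG.prod Γ (((List.range (n * m)).filter fun r => decide (p r = N)).map ℓ))
        have c1 : X * U' = U' * X := hcomm _ _ hA X hX U' hU'
        have c2 : U * X' = X' * U := hcomm _ _ hA U hU X' hX'
        have c3 : X * X' = X' * X := hcomm _ _ hA X hX X' hX'
        have c4 : U * U' = U' * U := hcomm _ _ hA U hU U' hU'
        have c5 : X⁻¹ * (U' * X' * U'⁻¹) = X⁻¹ * X'⁻¹ := by rw [hUX']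
        calc U * U' * (X * X') * (U * U')⁻¹
            = U * (U' * X) * X' * (U'⁻¹ * U⁻¹) := by group
          _ = U * (X * U') * X' * (U'⁻¹ * U⁻¹) := by rw [c1]
          _ = U * X * (U' * X' * U'⁻¹) * U⁻¹ := by group
          _ = U * X * X'⁻¹ * U⁻¹ := by rw [hUX']
          _ = U * X * (U * X')⁻¹ := by group
          _ = U * X * (X' * U)⁻¹ := by rw [c2]
          _ = (U * X * U⁻¹) * X'⁻¹ := by group
          _ = X⁻¹ * X'⁻¹ := by rw [hUX]
          _ = (X' * X)⁻¹ := by group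
          _ = (X * X')⁻¹ := by rw [c3]
  obtain ⟨U, -, hU⟩ := key (m + 1)
  have hall : ((List.range (n * m)).filter fun r => decide (p r < m + 1)) = List.range (n * m) := by
    rw [List.filter_eq_self]
    intro r _
    rw [decide_eq_true_eq]
    have := Nat.le_of_dvd hm (hpm r)
    omega
  rw [hall] at hU
  exact ⟨U, hU⟩

end W

section concrete

variable {V : Type*} {Γ : SimpleGraph V}

theorem actL_prod (K : Subgroup (RACG Γ)) (y : RACG Γ) (l : List (Lab Γ K)) :
    actL K y (RACG.prod _ l) = RACG.prod _ (l.map fun a => y • a) := by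
  induction l with
  | nil => simp
  | cons a l ih => rw [RACG.prod_cons, map_mul, ih, RACG.act_of, List.map_cons, RACG.prod_cons]

theorem cr_x_eq (A : PSeq Γ) (K : Subgroup (RACG Γ)) (k : ℕ) :
    cr K (A.x k) = RACG.prod _ ((List.range k).map fun r : ℕ => A.lab K r) := by
  induction k with
  | zero => simp [A.x0, cr_one]
  | succ k ih =>
    push_cast
    rw [A.xs, cr_mul_of, ih, List.range_succ, List.map_append, RACG.prod_append]
    simp only [List.map_cons, List.map_nil, RACG.prod_cons, RACG.prod_nil, mul_one]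
    rfl

theorem exists_inverting_cr {P : Type*} [Group P] (A : PSeq Γ) (hA : A.Red)
    (K : Subgroup (RACG Γ)) [K.Normal] [K.FiniteIndex] (hK : K ≤ A.K0 hA)
    (hdist : ∀ i l : ℤ, ¬ Γ.Adj (A.s l) (A.s i) →
        MulAction.period A.c (A.lab K l) = MulAction.period A.c (A.lab K i))
    (ψ : RACG (labGraph Γ K) →* P) (Hs : Set (Lab Γ K) → Subgroup P)
    (hcomm : ∀ S S' : Set (Lab Γ K), (∀ u ∈ S, ∀ v ∈ S', (labGraph Γ K).Adj u v) →
        ∀ x ∈ Hs S, ∀ y ∈ Hs S', x * y = y * x)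
    (hmem : ∀ (S : Set (Lab Γ K)) (v : Lab Γ K), v ∈ S → ψ (RACG.of _ v) ∈ Hs S)
    (hmono : ∀ (S S' : Set (Lab Γ K)), S ⊆ S' → Hs S ≤ Hs S')
    (hrev : ∀ (S : Set (Lab Γ K)) (w : List (Lab Γ K)), w.Nodup → (∀ v ∈ w, v ∈ S) →
        ∃ U ∈ Hs S, U * ψ (RACG.prod _ w) * U⁻¹ = (ψ (RACG.prod _ w))⁻¹)
    (m : ℕ) (hm : 0 < m) (hdvd : ordMod A.c K ∣ m) (v : RACG Γ) :
    ∃ U : P, U * ψ (cr K (v⁻¹ * A.c ^ m * v)) * U⁻¹ = (ψ (cr K (v⁻¹ * A.c ^ m * v)))⁻¹ := by
  have hcm : A.c ^ m ∈ K := (pow_mem_iff_ordMod _ _ _).2 hdvd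
  obtain ⟨U, hU⟩ := exists_inverting_word ψ Hs hcomm hmem hmono hrev
    (fun r : ℕ => v⁻¹ • A.lab K r) (fun r : ℕ => MulAction.period A.c (A.lab K r)) A.n m hm
    (by
      intro r r' h
      rw [labGraph_adj, smul_fst, smul_fst, PSeq.lab_fst, PSeq.lab_fst]
      by_contra h1
      exact h (hdist r' r h1))
    (by
      intro r k
      have := PSeq.period_translate (K := K) A r k
      push_cast
      exact this)
    (by
      intro r q
      have h1 : A.lab K ((r + A.n * (MulAction.period A.c (A.lab K r) * q) : ℕ) : ℤ) =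
          A.lab K r := by
        have h2 := PSeq.lab_add_mul (A := A) (K := K) (r : ℤ)
          ((MulAction.period A.c (A.lab K r) * q : ℕ) : ℤ)
        have h3 : ((r + A.n * (MulAction.period A.c (A.lab K r) * q) : ℕ) : ℤ) =
            (r : ℤ) + A.n * ((MulAction.period A.c (A.lab K r) * q : ℕ) : ℤ) := by
          push_cast; ring
        rw [h3, h2, PSeq.pd_of_smul_eq]
        push_cast
        exact dvd_mul_right _ _
      simp only [h1])
    (fun r => (PSeq.period_dvd_ordMod _).trans hdvd)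
    (by
      intro r r' h1 h2 h3 h4
      have h5 : A.lab K r = A.lab K r' := MulAction.injective _ h4
      obtain ⟨-, ⟨D, hD⟩, -⟩ := PSeq.lab_eq_imp hA (hK.trans (PSeq.K0_le hA r)) h5
      rw [hD, PSeq.lab_add_mul] at h5
      have h6 := (PSeq.pd_of_smul_eq (K := K) A r D).1 h5.symm
      obtain ⟨E, hE⟩ := h6
      set N := MulAction.period A.c (A.lab K r) with hN
      have hn := A.npos
      have hE0 : E = 0 := by
        by_contra hne
        have h7 : (r' : ℤ) = r + (A.n * N : ℕ) * E := by rw [hD, hE]; push_cast; ring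
        rcases lt_or_gt_of_ne hne with h8 | h8
        · have h9 : ((A.n * N : ℕ) : ℤ) * E ≤ ((A.n * N : ℕ) : ℤ) * (-1) :=
            mul_le_mul_of_nonneg_left (by omega) (by positivity)
          have h10 : (r : ℤ) < (A.n * N : ℕ) := by exact_mod_cast h2
          have h11 : (0 : ℤ) ≤ r' := by positivity
          linarith
        · have h9 : ((A.n * N : ℕ) : ℤ) * 1 ≤ ((A.n * N : ℕ) : ℤ) * E :=
            mul_le_mul_of_nonneg_left (by omega) (by positivity)
          have h10 : (r' : ℤ) < (A.n * N : ℕ) := by exact_mod_cast h3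
          have h11 : (0 : ℤ) ≤ r := by positivity
          linarith
      rw [hE, hE0] at hD
      simp only [mul_zero, add_zero] at hD
      exact_mod_cast hD.symm)
  have hX : actL K v⁻¹ (cr K (A.c ^ m)) = RACG.prod _ ((List.range (A.n * m)).map
      fun r : ℕ => v⁻¹ • A.lab K r) := by
    have h1 : A.c ^ m = A.x ((A.n * m : ℕ) : ℤ) := by
      rw [← zpow_natCast, ← A.x_mul]
      push_cast; rfl
    rw [h1, cr_x_eq, actL_prod, List.map_map]
    rfl
  rw [← hX] at hU
  rw [cr_conj hcm, map_mul (actL K v⁻¹), map_mul (actL K v⁻¹), map_inv (actL K v⁻¹) (cr K v),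
    map_mul ψ, map_mul ψ, map_inv ψ]
  set X := ψ (actL K v⁻¹ (cr K (A.c ^ m)))
  set g := ψ (actL K v⁻¹ (cr K v))
  refine ⟨g⁻¹ * U * g, ?_⟩
  calc g⁻¹ * U * g * (g⁻¹ * X * g) * (g⁻¹ * U * g)⁻¹ = g⁻¹ * (U * X * U⁻¹) * g := by group
    _ = g⁻¹ * X⁻¹ * g := by rw [hU]
    _ = (g⁻¹ * X * g)⁻¹ := by group

end concrete

/-- **Inversion.** -/
theorem exists_inverting (G : Type) [Group G] (hG : VS G) (c : G)
    (hc : ∀ n : ℕ, 0 < n → c ^ n ≠ 1) :
    ∃ (P : Type) (_ : Group P) (β : G →* P) (m : ℕ) (u : P),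
      VS P ∧ Injective β ∧ 0 < m ∧ u * β (c ^ m) * u⁻¹ = (β (c ^ m))⁻¹ := by
  classical
  obtain ⟨V, hV, Γ, K₁, hK₁n, hK₁f, ι, hι, hev⟩ := hG.exists_ev
  obtain ⟨M, hM, -, hcM⟩ := Subgroup.exists_pow_mem_of_index_ne_zero hK₁f.index_ne_zero c
  have : Fintype (G ⧸ K₁) := Fintype.ofFinite _
  have hd : ∀ a : G ⧸ K₁, a.out⁻¹ * c ^ M * a.out ∈ K₁ := fun a => by
    have := hK₁n.conj_mem _ hcM a.out⁻¹
    simpa using this
  have hd1 : ∀ a : G ⧸ K₁, ι ⟨_, hd a⟩ ≠ 1 := by
    intro a h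
    have h1 : (⟨_, hd a⟩ : K₁) = 1 := hι (by rw [h, map_one])
    have h2 : a.out⁻¹ * c ^ M * a.out = 1 := congrArg Subtype.val h1
    apply hc M hM
    have h3 : c ^ M = a.out * (a.out⁻¹ * c ^ M * a.out) * a.out⁻¹ := by group
    rw [h3, h2]; group
  have hax : ∀ a : G ⧸ K₁, ∃ (A : PSeq Γ) (u : RACG Γ), A.Red ∧
      ι ⟨_, hd a⟩ = u * A.c * u⁻¹ := fun a => exists_axis _ (hev _) (hd1 a)
  choose A u hA hAu using hax
  obtain ⟨K, hKn, hKf, hK0, hdist⟩ := exists_distinct (G ⧸ K₁) A hA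
  obtain ⟨P₁, _, ψ, Hs, hP₁, hψ, hcomm, hmem, hmono, hrev⟩ :=
    exists_unfolding (Lab Γ K) (labGraph Γ K)
  have hLf : (K.comap ι).FiniteIndex := finiteIndex_comap ι K
  let L : Subgroup G := (K.comap ι).map K₁.subtype
  have hLfi : L.FiniteIndex := by
    constructor
    rw [Subgroup.index_map_subtype]
    exact mul_ne_zero hLf.index_ne_zero hK₁f.index_ne_zero
  let e := (K.comap ι).equivMapOfInjective K₁.subtype K₁.subtype_injective
  let Ψ : L →* P₁ := ψ.comp ((ff K).comp ((ι.subgroupComap K).comp e.symm.toMonoidHom))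
  have hΨ : Injective Ψ := by
    intro a b hab
    have h1 : ff K (ι.subgroupComap K (e.symm a)) = ff K (ι.subgroupComap K (e.symm b)) := hψ hab
    have h2 := ff_injective K h1
    have h3 : ι (e.symm a).1 = ι (e.symm b).1 := congrArg Subtype.val h2
    have h4 : (e.symm a) = (e.symm b) := Subtype.ext (hι h3)
    exact e.symm.injective h4
  have hΨv : ∀ (k : K₁) (hk : ι k ∈ K) (hkL : (k : G) ∈ L), Ψ ⟨k, hkL⟩ = ψ (cr K (ι k)) := by
    intro k hk hkL
    have h1 : e.symm ⟨k, hkL⟩ = ⟨k, hk⟩ := by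
      rw [MulEquiv.symm_apply_eq]
      rfl
    change ψ (ff K (ι.subgroupComap K (e.symm ⟨k, hkL⟩))) = _
    rw [h1]
    rfl
  let m' : ℕ := ∏ b, ordMod (A b).c K
  have hm' : 0 < m' := Finset.prod_pos fun b _ => ordMod_pos _ _
  have hdvd : ∀ b, ordMod (A b).c K ∣ m' := fun b => Finset.dvd_prod_of_mem _ (Finset.mem_univ b)
  -- the key computation
  have hkey : ∀ x : G, ∃ (k : K₁) (v : RACG Γ) (b : G ⧸ K₁),
      (k : G) = x⁻¹ * c ^ (M * m') * x ∧ ι k = v⁻¹ * (A b).c ^ m' * v := by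
    intro x
    set b : G ⧸ K₁ := QuotientGroup.mk x with hb
    have hk₀ : b.out⁻¹ * x ∈ K₁ := by
      rw [← QuotientGroup.eq, QuotientGroup.out_eq']
    let k₀ : K₁ := ⟨b.out⁻¹ * x, hk₀⟩
    let d : K₁ := ⟨b.out⁻¹ * c ^ M * b.out, hd b⟩
    refine ⟨k₀⁻¹ * d ^ m' * k₀, (u b)⁻¹ * ι k₀, b, ?_, ?_⟩
    · have h1 : ((d ^ m' : K₁) : G) = b.out⁻¹ * (c ^ M) ^ m' * b.out := by
        have h2 := conj_pow (i := m') (a := b.out⁻¹) (b := c ^ M)
        rw [inv_inv] at h2
        rw [Subgroup.coe_pow]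
        exact h2
      rw [Subgroup.coe_mul, Subgroup.coe_mul, Subgroup.coe_inv, h1, pow_mul]
      change (b.out⁻¹ * x)⁻¹ * (b.out⁻¹ * (c ^ M) ^ m' * b.out) * (b.out⁻¹ * x) = _
      group
    · rw [map_mul, map_mul, map_inv, map_pow]
      have h1 : ι d = u b * (A b).c * (u b)⁻¹ := hAu b
      rw [h1, conj_pow]
      group
  have hzK : ∀ (v : RACG Γ) (b : G ⧸ K₁), v⁻¹ * (A b).c ^ m' * v ∈ K := by
    intro v b
    have h1 : (A b).c ^ m' ∈ K := (pow_mem_iff_ordMod _ _ _).2 (hdvd b)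
    have := hKn.conj_mem _ h1 v⁻¹
    simpa using this
  have hmemL : ∀ x : G, x⁻¹ * c ^ (M * m') * x ∈ L := by
    intro x
    obtain ⟨k, v, b, hk, hv⟩ := hkey x
    refine ⟨k, ?_, hk⟩
    change ι k ∈ K
    rw [hv]
    exact hzK v b
  have hfix : ∀ a : G ⧸ L, c ^ (M * m') • a = a := by
    intro a
    have h1 : a = QuotientGroup.mk a.out := (QuotientGroup.out_eq' a).symm
    rw [h1]
    change (QuotientGroup.mk (c ^ (M * m') * _) : G ⧸ L) = _
    symm
    rw [QuotientGroup.eq, ← mul_assoc]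
    exact hmemL _
  obtain ⟨w, hw⟩ := ind_inverse (h := Ψ) (c ^ (M * m')) hfix (by
    intro a
    obtain ⟨k, v, b, hk, hv⟩ := hkey a.out
    have h1 : (nc L (c ^ (M * m')) a : G) = k := by
      rw [nc_coe, hfix, hk]
    have h2 : ι k ∈ K := by rw [hv]; exact hzK v b
    have h3 : Ψ (nc L (c ^ (M * m')) a) = ψ (cr K (ι k)) := by
      rw [← hΨv k h2 (by rw [← h1]; exact (nc L (c ^ (M * m')) a).2)]
      congr 1
      exact Subtype.ext h1
    rw [h3, hv]
    exact exists_inverting_cr (A b) (hA b) K (hK0 b) (hdist b) ψ Hs hcomm hmem hmono hrev m' hm'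
      (hdvd b) v)
  exact ⟨AutSet P₁ (IndSet L Ψ), inferInstance, autHom G P₁ (IndSet L Ψ), M * m', w,
    vs_ind hP₁, ind_injective hΨ, Nat.mul_pos hM hm', hw⟩

end Pool.Agent.H41.VS
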